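import Pool.Agent.Lib.ML.SpecB

set_option autoImplicit false

/-!
MP_00e23e_nt, THEOREM MI, chapter B, module Bgi: the greedy initial divisor.
-/

namespace Pool.Agent.Lib.ML

open Finset Pool.Agent.Lib.EH3 Pool.Agent.Lib.TB Pool.Agent.Results.MP_00e23e_nt Pool.Agent.Lib.MI

private theorem Bgi_mem {P : Finset ℕ} (hP : ∀ p ∈ P, p.Prime) {p : ℕ} (hp : p.Prime)
    (h : p ∣ ∏ l ∈ P, l) : p ∈ P := by
  obtain ⟨l, hl, hd⟩ := (Nat.Prime.prime hp).dvd_finsetProd_iff (fun l : ℕ => l) |>.1 h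
  rw [(Nat.prime_dvd_prime_iff_eq hp (hP l hl)).1 hd]
  exact hl

theorem tBgi : BgiStmt := by
  intro q t Z y hq htq htZ hZq hy
  have hq0 : q ≠ 0 := hq.ne_zero
  have ht0 : 0 < t := Nat.pos_of_ne_zero fun h => hq0 (by rw [h] at htq; exact zero_dvd_iff.1 htq)
  set w := q / t with hw
  have hqt : t * w = q := Nat.mul_div_cancel' htq
  have hwsq : Squarefree w := hq.squarefree_of_dvd ⟨t, by rw [mul_comm]; exact hqt.symm⟩
  have hw0 : w ≠ 0 := hwsq.ne_zero
  set P := w.primeFactors with hP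
  have hPp : ∀ p ∈ P, p.Prime := fun p hp => Nat.prime_of_mem_primeFactors hp
  have hprod : ∏ p ∈ P, p = w := Nat.prod_primeFactors_of_squarefree hwsq
  let g : ℕ → ℕ := fun m => ∏ p ∈ P.filter (fun p => p ≤ m), p
  let h : ℕ → ℕ := fun m => ∏ p ∈ P.filter (fun p => ¬ p ≤ m), p
  have hgh : ∀ m, g m * h m = w := fun m => by
    rw [← hprod]
    exact Finset.prod_filter_mul_prod_filter_not P (fun p => p ≤ m) fun p => p
  have hg0 : g 0 = 1 := by
    refine Finset.prod_eq_one fun p hp => ?_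
    rw [Finset.mem_filter] at hp
    exact absurd hp.2 (by have := (hPp p hp.1).pos; omega)
  have hgq : g q = w := by
    rw [← hprod]
    have h1 : P.filter (fun p => p ≤ q) = P := by
      refine Finset.filter_true_of_mem fun p hp => ?_
      have h2 : p ∣ w := Nat.dvd_of_mem_primeFactors hp
      exact Nat.le_of_dvd (Nat.pos_of_ne_zero hq0) (h2.trans ⟨t, by rw [mul_comm]; exact hqt.symm⟩)
    change ∏ p ∈ P.filter (fun p => p ≤ q), p = _
    rw [h1]
  have hex : ∃ m, Z < ((t * g m : ℕ) : ℝ) := ⟨q, by rw [hgq, hqt]; exact hZq⟩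
  classical
  obtain ⟨m0, hm0, hmin⟩ : ∃ m0, Z < ((t * g m0 : ℕ) : ℝ) ∧ ∀ m < m0, ¬ Z < ((t * g m : ℕ) : ℝ) :=
    ⟨Nat.find hex, Nat.find_spec hex, fun m hm => Nat.find_min hex hm⟩
  have hm1 : m0 ≠ 0 := by
    rintro rfl
    rw [hg0, mul_one] at hm0
    exact absurd hm0 (not_lt.2 htZ)
  obtain ⟨m, rfl⟩ : ∃ m, m0 = m + 1 := ⟨m0 - 1, by omega⟩
  have hmle : ((t * g m : ℕ) : ℝ) ≤ Z := not_lt.1 (hmin m (Nat.lt_succ_self m))
  have hmem : m + 1 ∈ P := by
    by_contra hc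
    have h1 : P.filter (fun p => p ≤ m + 1) = P.filter (fun p => p ≤ m) := by
      refine Finset.filter_congr fun p hp => ?_
      constructor
      · intro h2
        rcases Nat.lt_or_ge p (m + 1) with h3 | h3
        · omega
        · exact absurd (by rw [← le_antisymm h2 h3]; exact hp) hc
      · intro h2
        omega
    have h2 : g (m + 1) = g m := by
      change ∏ p ∈ P.filter (fun p => p ≤ m + 1), p = ∏ p ∈ P.filter (fun p => p ≤ m), p
      rw [h1]
    rw [h2] at hm0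
    exact absurd hm0 (not_lt.2 hmle)
  have hstep : g (m + 1) = (m + 1) * g m := by
    have h1 : P.filter (fun p => p ≤ m + 1) = insert (m + 1) (P.filter (fun p => p ≤ m)) := by
      ext p
      rw [Finset.mem_insert, Finset.mem_filter, Finset.mem_filter]
      constructor
      · rintro ⟨h2, h3⟩
        rcases Nat.lt_or_ge p (m + 1) with h4 | h4
        · exact Or.inr ⟨h2, by omega⟩
        · exact Or.inl (le_antisymm h3 h4)
      · rintro (rfl | ⟨h2, h3⟩)
        · exact ⟨hmem, le_rfl⟩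
        · exact ⟨h2, by omega⟩
    change ∏ p ∈ P.filter (fun p => p ≤ m + 1), p = (m + 1) * ∏ p ∈ P.filter (fun p => p ≤ m), p
    rw [h1, Finset.prod_insert]
    rw [Finset.mem_filter]
    rintro ⟨-, h2⟩
    omega
  have hgpos : 0 < g m := Nat.pos_of_ne_zero fun h0 => hw0 (by rw [← hgh m, h0, zero_mul])
  have hrq : t * g m * h m = q := by rw [mul_assoc, hgh, hqt]
  refine ⟨t * g m, ⟨g m, rfl⟩, ⟨h m, hrq.symm⟩, hmle, ?_, ?_⟩
  · refine lt_of_lt_of_le hm0 ?_
    have h1 : ((m + 1 : ℕ) : ℝ) ≤ y := hy (m + 1) (hPp _ hmem) (Nat.dvd_of_mem_primeFactors hmem)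
    have h2 : ((t * g (m + 1) : ℕ) : ℝ) = ((t * g m : ℕ) : ℝ) * ((m + 1 : ℕ) : ℝ) := by
      rw [hstep]
      push_cast
      ring
    rw [h2]
    exact mul_le_mul_of_nonneg_left h1 (Nat.cast_nonneg _)
  · intro p p' hp hp' hpd hpd'
    rw [Nat.mul_div_cancel_left _ ht0] at hpd
    rw [← hrq, Nat.mul_div_cancel_left _ (Nat.mul_pos ht0 hgpos)] at hpd'
    have h1 : p ∈ P.filter (fun p => p ≤ m) :=
      Bgi_mem (fun l hl => hPp l (Finset.mem_filter.1 hl).1) hp hpd
    have h2 : p' ∈ P.filter (fun p => ¬ p ≤ m) :=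
      Bgi_mem (fun l hl => hPp l (Finset.mem_filter.1 hl).1) hp' hpd'
    have h3 := (Finset.mem_filter.1 h1).2
    have h4 := (Finset.mem_filter.1 h2).2
    omega

end Pool.Agent.Lib.ML
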