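import Pool.Agent.Lib.ML.SpecB

/-!
MP_00e23e_nt, Lib/ML, chapter B, module Bt1 (the model is Lib/MK/Bt1 of helper92): the main part, Type I.
-/

namespace Pool.Agent.Lib.ML

open Finset Pool.Agent.Lib.EH3 Pool.Agent.Lib.TB Pool.Agent.Results.MP_00e23e_nt Pool.Agent.Lib.MI

private lemma Bt1_sqrt (C T : ℝ) (A : ℕ) (hC : 0 < C) (hT : 1 ≤ T) :
    Real.sqrt (C * T ^ A) ≤ (1 + C) * T ^ A := by
  rw [Real.sqrt_le_iff]
  have hTA : 1 ≤ T ^ A := one_le_pow₀ hT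
  have hTA0 : 0 ≤ T ^ A := zero_le_one.trans hTA
  refine ⟨by positivity, ?_⟩
  have h1 : C * T ^ A ≤ C * (T ^ A * T ^ A) :=
    mul_le_mul_of_nonneg_left (le_mul_of_one_le_left hTA0 hTA) hC.le
  have h2 : C ≤ (1 + C) ^ 2 := by nlinarith
  calc C * T ^ A ≤ C * (T ^ A * T ^ A) := h1
    _ ≤ (1 + C) ^ 2 * (T ^ A * T ^ A) := mul_le_mul_of_nonneg_right h2 (by positivity)
    _ = ((1 + C) * T ^ A) ^ 2 := by ring

/-- from the bound for the square to the bound for the norm, with the factor 2^i -/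
private lemma Bt1_step (n K J Q Q' p : ℝ) (hJ : 0 ≤ J) (hp : 0 ≤ p) (hQ : 0 ≤ Q)
    (hK : 0 ≤ K) (h : n ^ 2 ≤ K * J ^ 2 * Q') (hQ' : Q' ≤ p ^ 2 * Q) :
    n ≤ p * (J * (Real.sqrt K * Real.sqrt Q)) := by
  have h1 : n ^ 2 ≤ (p * (J * (Real.sqrt K * Real.sqrt Q))) ^ 2 := by
    have e : (p * (J * (Real.sqrt K * Real.sqrt Q))) ^ 2 = K * J ^ 2 * (p ^ 2 * Q) := by
      rw [mul_pow, mul_pow, mul_pow, Real.sq_sqrt hK, Real.sq_sqrt hQ]
      ring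
    rw [e]
    exact h.trans (mul_le_mul_of_nonneg_left hQ' (by positivity))
  exact le_trans (le_abs_self n) (abs_le_of_sq_le_sq h1 (by positivity))

theorem tBt1 (h1 : T1Stmt) (h2 : BdhStmt) : Bt1Stmt := by
  obtain ⟨C, hC, A, h⟩ := h1
  refine ⟨32 * (1 + C), by positivity, A, ?_⟩
  intro X T a A' k R S M N H Y0 V L L' r0 v P γ ω hT hR hS hM hN hY hV hL hX hRN hY0 hCf hω hCp hP
  have hR' : (0 : ℝ) < R := by exact_mod_cast hR
  have hS' : (0 : ℝ) < S := by exact_mod_cast hS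
  have hM' : (0 : ℝ) < M := by exact_mod_cast hM
  have hN' : (0 : ℝ) < N := by exact_mod_cast hN
  have hY' : (0 : ℝ) < Y0 := by exact_mod_cast hY
  have hV' : (0 : ℝ) < V := by exact_mod_cast (by omega : 0 < V)
  have hT1 : 1 ≤ T := hT.1
  have hTA : 1 ≤ T ^ A := one_le_pow₀ hT1
  have hTA0 : 0 ≤ T ^ A := zero_le_one.trans hTA
  set ρ : ℝ := Real.sqrt (1 / (L : ℝ) +
      Real.sqrt (1 + (S : ℝ) / ((V : ℝ) * Y0)) / (Real.sqrt ((L : ℝ) * V) * S) +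
      Real.sqrt ((L' : ℝ) * V) * S / N) with hρ
  have hρ0 : 0 ≤ ρ := Real.sqrt_nonneg _
  set Q : ℝ := (Y0 : ℝ) / V + (Y0 : ℝ) ^ 2 * ρ with hQ
  have hQ0 : 0 ≤ Q := by positivity
  set J : ℝ := (R : ℝ) * (S : ℝ) ^ 2 * N with hJ
  have hJ0 : 0 ≤ J := by positivity
  set E : ℝ := J * (Real.sqrt (C * T ^ A) * Real.sqrt Q) with hE
  have hE0 : 0 ≤ E := by positivity
  have hb := h2 a k R S M N H Y0 P γ ω E hR hS hM hY hY0 hE0 hCf (by
    intro i Hs γ' hi hHs hn hsup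
    have hi' : ((2 ^ i * Y0 : ℕ) : ℝ) ≤ 2 * H + Y0 := by exact_mod_cast hi
    have hX' : 100 * (R : ℝ) ^ 2 * (S : ℝ) ^ 4 * (N : ℝ) ^ 2 * (V : ℝ) ^ 2 * (((2 ^ i * Y0 : ℕ) : ℝ)) ^ 2 *
        (L : ℝ) ^ 2 ≤ X := by
      refine le_trans ?_ hX
      have h3 : (((2 ^ i * Y0 : ℕ) : ℝ)) ^ 2 ≤ (2 * H + Y0 : ℝ) ^ 2 :=
        pow_le_pow_left₀ (by positivity) hi' 2
      exact mul_le_mul_of_nonneg_right (mul_le_mul_of_nonneg_left h3 (by positivity)) (by positivity)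
    have h3 := h X T a A' k R S N (2 ^ i * Y0) V L L' r0 v Hs γ' ω hT hR hS hN
      (Nat.mul_pos (by positivity) hY) hV hL hX' hRN hHs hn hω (by
        intro h' r s1 s2 hne
        have := hP (r, s1) (hsup h' r s1 s2 hne).1
        exact this) (by
        intro h' r s1 s2 hne hcop
        obtain ⟨k1, k2⟩ := hsup h' r s1 s2 hne
        exact (hCp r s1 s2 k1 k2 hcop).2)
    have hp1 : (1 : ℝ) ≤ 2 ^ i := one_le_pow₀ (by norm_num)
    have hρ' : Real.sqrt (1 / (L : ℝ) + Real.sqrt (1 + (S : ℝ) / ((V : ℝ) * ((2 ^ i * Y0 : ℕ) : ℝ))) /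
        (Real.sqrt ((L : ℝ) * V) * S) + Real.sqrt ((L' : ℝ) * V) * S / N) ≤ ρ := by
      rw [hρ]
      refine Real.sqrt_le_sqrt (add_le_add (add_le_add le_rfl ?_) le_rfl)
      refine div_le_div_of_nonneg_right (Real.sqrt_le_sqrt (add_le_add le_rfl ?_)) (by positivity)
      refine div_le_div_of_nonneg_left hS'.le (by positivity) ?_
      push_cast
      refine mul_le_mul_of_nonneg_left ?_ hV'.le
      calc (Y0 : ℝ) = 1 * Y0 := (one_mul _).symm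
        _ ≤ 2 ^ i * Y0 := mul_le_mul_of_nonneg_right hp1 hY'.le
    refine Bt1_step _ (C * T ^ A) J Q _ (2 ^ i) hJ0 (by positivity) hQ0 (by positivity) h3 ?_
    refine (add_le_add le_rfl (mul_le_mul_of_nonneg_left hρ' (by positivity))).trans ?_
    push_cast
    rw [hQ, mul_add]
    refine add_le_add ?_ (le_of_eq (by ring))
    have h4 : (2 : ℝ) ^ i * (Y0 : ℝ) / V = 2 ^ i * ((Y0 : ℝ) / V) := by ring
    rw [h4]
    refine mul_le_mul_of_nonneg_right ?_ (by positivity)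
    calc (2 : ℝ) ^ i = 2 ^ i * 1 := (mul_one _).symm
      _ ≤ 2 ^ i * 2 ^ i := mul_le_mul_of_nonneg_left hp1 (by positivity)
      _ = (2 ^ i) ^ 2 := by ring)
  refine hb.trans ?_
  have e1 : 32 * (M : ℝ) * E / ((R : ℝ) * (S : ℝ) ^ 2) =
      32 * ((M : ℝ) * N) * Real.sqrt Q * Real.sqrt (C * T ^ A) := by
    rw [hE, hJ]
    field_simp
  rw [e1]
  refine (mul_le_mul_of_nonneg_left (Bt1_sqrt C T A hC hT1) (by positivity)).trans (le_of_eq ?_)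
  ring

end Pool.Agent.Lib.ML
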