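import Pool.Agent.Lib.ML.SpecD

/-!
MP_00e23e_nt, THEOREM MI, version 6, chapter D: existence of the class function a (helper56)
-/

namespace Pool.Agent.Lib.ML

open Finset Pool.Agent.Lib.EH3 Pool.Agent.Lib.TB Pool.Agent.Results.MP_00e23e_nt Pool.Agent.Lib.MI

private theorem Ecp_one (r s1 s2 A1 A2 B : ℤ) (h1 : IsCoprime r s2) (h2 : IsCoprime s1 s2)
    (h3 : r ∣ A1 - B) (h4 : r ∣ A2 - B) : ∃ x : ℤ, r * s1 ∣ x - A1 ∧ r * s2 ∣ x - A2 := by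
  obtain ⟨u, v, huv⟩ := h1.mul_left h2
  refine ⟨A1 + u * (r * s1) * (A2 - A1), ⟨u * (A2 - A1), by ring⟩, ?_⟩
  apply h1.mul_dvd
  · have h5 : A1 + u * (r * s1) * (A2 - A1) - A2 =
        (A1 - B) - (A2 - B) + r * (u * s1 * (A2 - A1)) := by ring
    rw [h5]
    exact dvd_add (dvd_sub h3 h4) (dvd_mul_right _ _)
  · refine ⟨v * (A1 - A2), ?_⟩
    linear_combination (A2 - A1) * huv

theorem tEcp : EcpStmt := by
  intro A b R S z z1 P hP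
  have key : ∀ r s1 s2 : ℕ, ∃ x : ℤ, (r, s1) ∈ P → (r, s2) ∈ P → s1.Coprime s2 →
      ((r * s1 : ℕ) : ℤ) ∣ x - A r s1 ∧ ((r * s2 : ℕ) : ℤ) ∣ x - A r s2 := by
    intro r s1 s2
    by_cases h : (r, s1) ∈ P ∧ (r, s2) ∈ P ∧ s1.Coprime s2
    · obtain ⟨h1, h2, h3⟩ := h
      obtain ⟨_, _, _, _, _, _, g1, _⟩ := hP.1 _ h1
      obtain ⟨_, _, _, _, k1, _, k2, _⟩ := hP.1 _ h2
      have h4 : r.Coprime s2 := (Nat.squarefree_mul_iff.1 k1).1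
      obtain ⟨x, hx1, hx2⟩ := Ecp_one (r : ℤ) (s1 : ℤ) (s2 : ℤ) (A r s1) (A r s2) (b r)
        (Nat.isCoprime_iff_coprime.2 h4) (Nat.isCoprime_iff_coprime.2 h3) g1 k2
      refine ⟨x, fun _ _ _ => ⟨?_, ?_⟩⟩
      · rw [Nat.cast_mul]
        exact hx1
      · rw [Nat.cast_mul]
        exact hx2
    · exact ⟨0, fun h1 h2 h3 => absurd ⟨h1, h2, h3⟩ h⟩
  choose a ha using key
  exact ⟨a, fun r s1 s2 h1 h2 h3 => ha r s1 s2 h1 h2 h3⟩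

end Pool.Agent.Lib.ML
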