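import Pool.Agent.Lib.ML.SpecD

/-!
MP_00e23e_nt, directory Lib/ML, module Eea: the bad terms, both full (helper95).
-/

namespace Pool.Agent.Lib.ML

open Finset Pool.Agent.Lib.EH3 Pool.Agent.Lib.TB Pool.Agent.Results.MP_00e23e_nt Pool.Agent.Lib.MI

private lemma Eea_gcd {q : ℕ} {x y : ℤ} (hq : Int.gcd x (q : ℤ) = 1)
    (h : (q : ℤ) ∣ y - x) : Int.gcd y (q : ℤ) = 1 := by
  have h3 : (Int.gcd y (q : ℤ) : ℤ) ∣ x := by
    have h4 : (Int.gcd y (q : ℤ) : ℤ) ∣ y := Int.gcd_dvd_left _ _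
    have h5 : (Int.gcd y (q : ℤ) : ℤ) ∣ y - x := (Int.gcd_dvd_right _ _).trans h
    have h6 := dvd_sub h4 h5
    rwa [sub_sub_cancel] at h6
  have h7 : Int.gcd y (q : ℤ) ∣ Int.gcd x (q : ℤ) := Int.dvd_gcd h3 (Int.gcd_dvd_right _ _)
  rw [hq] at h7
  exact Nat.dvd_one.1 h7

private lemma Eea_cop {q t : ℕ} {x : ℤ} (hq : Int.gcd x (q : ℤ) = 1)
    (h : (q : ℤ) ∣ (t : ℤ) - x) : t.Coprime q := by
  have h1 := Eea_gcd hq h
  rwa [Int.gcd_natCast_natCast] at h1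

/-- For a nonzero bad term s1, s2 are not coprime. -/
private lemma Eea_nc {A : ℕ → ℕ → ℤ} {b : ℕ → ℤ} {a : ℕ → ℕ → ℕ → ℤ} {R S : ℕ} {z z1 : ℝ}
    {P : Finset (ℕ × ℕ)} (hP : Pr A b R S z z1 P) (hC : Cp P A a) {r s1 s2 n1 n2 m : ℕ}
    (hB : Bd a P r s1 s2 n1 n2) (h1 : ((r * s1 : ℕ) : ℤ) ∣ ((m * n1 : ℕ) : ℤ) - A r s1)
    (h2 : ((r * s2 : ℕ) : ℤ) ∣ ((m * n2 : ℕ) : ℤ) - A r s2) : ¬ s1.Coprime s2 := by
  intro hc
  obtain ⟨hB1, hB2, hB3⟩ := hB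
  obtain ⟨_, _, _, _, sq1, g1, b1, _⟩ := hP.1 _ hB1
  obtain ⟨_, _, _, _, sq2, g2, b2, _⟩ := hP.1 _ hB2
  simp only at sq1 sq2 g1 g2 b1 b2
  obtain ⟨hC1, hC2⟩ := hC r s1 s2 hB1 hB2 hc
  have c1 := Eea_cop g1 h1
  have c2 := Eea_cop g2 h2
  have cm : m.Coprime (r * s1) := Nat.Coprime.coprime_dvd_left (dvd_mul_right _ _) c1
  have cn1 : n1.Coprime (r * s1) := Nat.Coprime.coprime_dvd_left (dvd_mul_left _ _) c1
  have cn2 : n2.Coprime (r * s2) := Nat.Coprime.coprime_dvd_left (dvd_mul_left _ _) c2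
  have ga1 : Int.gcd (a r s1 s2) ((r * s1 : ℕ) : ℤ) = 1 := Eea_gcd g1 hC1
  have ga2 : Int.gcd (a r s1 s2) ((r * s2 : ℕ) : ℤ) = 1 := Eea_gcd g2 hC2
  refine hB3 ⟨⟨sq1, sq2, hc, cn1, cn2, ga1, ga2⟩, ?_⟩
  have e1 : (r : ℤ) ∣ ((m * n1 : ℕ) : ℤ) - A r s1 :=
    (Int.natCast_dvd_natCast.2 (dvd_mul_right _ _)).trans h1
  have e2 : (r : ℤ) ∣ ((m * n2 : ℕ) : ℤ) - A r s2 :=
    (Int.natCast_dvd_natCast.2 (dvd_mul_right _ _)).trans h2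
  have e3 : (r : ℤ) ∣ (m : ℤ) * ((n2 : ℤ) - n1) := by
    have h3 := dvd_sub (dvd_add e2 b2) (dvd_add e1 b1)
    have h4 : ((m * n2 : ℕ) : ℤ) - A r s2 + (A r s2 - b r) -
        (((m * n1 : ℕ) : ℤ) - A r s1 + (A r s1 - b r)) = (m : ℤ) * ((n2 : ℤ) - n1) := by
      push_cast
      ring
    rwa [h4] at h3
  have h5 : IsCoprime (r : ℤ) (m : ℤ) :=
    (Nat.isCoprime_iff_coprime.2 (Nat.Coprime.coprime_dvd_right (dvd_mul_right _ _) cm)).symm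
  exact h5.dvd_of_dvd_mul_left e3

private lemma Eea_D1_nonneg (a : ℤ) (r s t : ℕ) : 0 ≤ D1 a r s t := by
  unfold D1
  split_ifs <;> norm_num

theorem tEea (h1 : EepStmt) (h2 : EeqStmt) : EeaStmt := by
  classical
  intro X T z z1 A b a R S M N P hSz hz1 hSN hP hC
  have hT : 1 ≤ T := hSz.1.1
  have hT5 : 1 ≤ T ^ 5 := one_le_pow₀ hT
  have hz : 1 ≤ z := hSz.2.1
  have hA := h1 X T z z1 A b R S M N P hSz hP
  have hB := h2 X T z z1 A b R S M N P hSz hz1 hSN hP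
  have hq1 : (0 : ℝ) ≤ (M : ℝ) * N * (1 + N / ((R : ℝ) * z)) := by positivity
  have hq2 : (0 : ℝ) ≤ (N : ℝ) ^ 2 * (S : ℝ) ^ 2 / z1 ^ 2 := by positivity
  have hq3 : (M : ℝ) * N * (N / ((R : ℝ) * z)) ≤ (M : ℝ) * N * (1 + N / ((R : ℝ) * z)) :=
    mul_le_mul_of_nonneg_left (by linarith) (by positivity)
  refine le_trans ?_ ((add_le_add hA hB).trans ?_)
  · rw [← Finset.sum_add_distrib]
    refine Finset.sum_le_sum fun m _ => ?_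
    rw [← Finset.sum_add_distrib]
    refine Finset.sum_le_sum fun r _ => ?_
    rw [← Finset.sum_add_distrib]
    refine Finset.sum_le_sum fun s1 _ => ?_
    rw [← Finset.sum_add_distrib]
    refine Finset.sum_le_sum fun s2 _ => ?_
    rw [← Finset.sum_add_distrib]
    refine Finset.sum_le_sum fun n1 _ => ?_
    rw [← Finset.sum_add_distrib]
    refine Finset.sum_le_sum fun n2 _ => ?_
    have hD : 0 ≤ D1 (A r s1) r s1 (m * n1) * D1 (A r s2) r s2 (m * n2) :=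
      mul_nonneg (Eea_D1_nonneg _ _ _ _) (Eea_D1_nonneg _ _ _ _)
    have hite : ∀ (c : Prop) [Decidable c], 0 ≤ (if c then
        D1 (A r s1) r s1 (m * n1) * D1 (A r s2) r s2 (m * n2) else 0) := by
      intro c _
      split_ifs
      · exact hD
      · exact le_rfl
    by_cases hBd : Bd a P r s1 s2 n1 n2
    · rw [if_pos hBd]
      by_cases e1 : ((r * s1 : ℕ) : ℤ) ∣ ((m * n1 : ℕ) : ℤ) - A r s1
      · by_cases e2 : ((r * s2 : ℕ) : ℤ) ∣ ((m * n2 : ℕ) : ℤ) - A r s2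
        · have hnc := Eea_nc hP hC hBd e1 e2
          by_cases hc : ∃ p : ℕ, p.Prime ∧ p ∣ s1 ∧ p ∣ s2 ∧ (p : ℤ) ∣ A r s1 - A r s2
          · rw [if_pos ⟨hBd.1, hBd.2.1, hc⟩]
            exact le_add_of_nonneg_right (hite _)
          · have hc' : ∀ p : ℕ, p.Prime → p ∣ s1 → p ∣ s2 → ¬ (p : ℤ) ∣ A r s1 - A r s2 :=
              fun p hp hp1 hp2 hp3 => hc ⟨p, hp, hp1, hp2, hp3⟩
            rw [if_pos (show (r, s1) ∈ P ∧ (r, s2) ∈ P ∧ ¬ s1.Coprime s2 ∧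
              (∀ p : ℕ, p.Prime → p ∣ s1 → p ∣ s2 → ¬ (p : ℤ) ∣ A r s1 - A r s2) from
              ⟨hBd.1, hBd.2.1, hnc, hc'⟩)]
            exact le_add_of_nonneg_left (hite _)
        · have e3 : D1 (A r s2) r s2 (m * n2) = 0 := if_neg e2
          have e4 : D1 (A r s1) r s1 (m * n1) * D1 (A r s2) r s2 (m * n2) = 0 := by
            rw [e3, mul_zero]
          have e5 := add_nonneg
            (hite ((r, s1) ∈ P ∧ (r, s2) ∈ P ∧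
              (∃ p : ℕ, p.Prime ∧ p ∣ s1 ∧ p ∣ s2 ∧ (p : ℤ) ∣ A r s1 - A r s2)))
            (hite ((r, s1) ∈ P ∧ (r, s2) ∈ P ∧ ¬ s1.Coprime s2 ∧
              (∀ p : ℕ, p.Prime → p ∣ s1 → p ∣ s2 → ¬ (p : ℤ) ∣ A r s1 - A r s2)))
          exact e4.le.trans e5
      · have e3 : D1 (A r s1) r s1 (m * n1) = 0 := if_neg e1
        have e4 : D1 (A r s1) r s1 (m * n1) * D1 (A r s2) r s2 (m * n2) = 0 := by
          rw [e3, zero_mul]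
        have e5 := add_nonneg
          (hite ((r, s1) ∈ P ∧ (r, s2) ∈ P ∧
            (∃ p : ℕ, p.Prime ∧ p ∣ s1 ∧ p ∣ s2 ∧ (p : ℤ) ∣ A r s1 - A r s2)))
          (hite ((r, s1) ∈ P ∧ (r, s2) ∈ P ∧ ¬ s1.Coprime s2 ∧
            (∀ p : ℕ, p.Prime → p ∣ s1 → p ∣ s2 → ¬ (p : ℤ) ∣ A r s1 - A r s2)))
        exact e4.le.trans e5
    · rw [if_neg hBd]
      exact add_nonneg (hite _) (hite _)
  · have hT5q1 := mul_le_mul_of_nonneg_right hT5 hq1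
    have hT5q2 := mul_le_mul_of_nonneg_right hT5 hq2
    rw [one_mul] at hT5q1 hT5q2
    have h3 : 160 * T ^ 5 * ((M : ℝ) * N * (1 + N / ((R : ℝ) * z)) +
        (N : ℝ) ^ 2 * (S : ℝ) ^ 2 / z1 ^ 2) =
        60 * T ^ 5 * ((M : ℝ) * N * (1 + N / ((R : ℝ) * z))) +
        100 * (T ^ 5 * ((M : ℝ) * N * (1 + N / ((R : ℝ) * z)))) +
        160 * (T ^ 5 * ((N : ℝ) ^ 2 * (S : ℝ) ^ 2 / z1 ^ 2)) := by ring
    rw [h3]
    linarith

end Pool.Agent.Lib.ML
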