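import Pool.Agent.Lib.ML.SpecD

/-!
MP_00e23e_nt, directory Lib/ML, module Eeb: the bad terms, first full, second averaged (the class A r s depends on r and s).
-/

namespace Pool.Agent.Lib.ML

open Finset Pool.Agent.Lib.EH3 Pool.Agent.Lib.TB Pool.Agent.Results.MP_00e23e_nt Pool.Agent.Lib.MI

private lemma Eeb_cnt (R r N n1 : ℕ) (hR : 1 ≤ R) (hr : R < r) :
    (((Ioc N (2 * N)).filter (fun n2 : ℕ => (r : ℤ) ∣ (n2 : ℤ) - n1)).card : ℝ) ≤ (N : ℝ) / R + 1 := by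
  have h1 : (Ioc N (2 * N)).filter (fun n2 : ℕ => (r : ℤ) ∣ (n2 : ℤ) - n1) =
      (Ioc N (2 * N)).filter (fun n2 : ℕ => n2 ≡ n1 [MOD r]) := by
    refine Finset.filter_congr fun x _ => ?_
    rw [Nat.modEq_iff_dvd, ← dvd_neg]
    rw [neg_sub]
  have hr0 : 0 < r := by omega
  have h2 := Nat.Ioc_filter_modEq_card N (2 * N) hr0 n1
  rw [h1]
  have h3 : ((((Ioc N (2 * N)).filter (fun n2 : ℕ => n2 ≡ n1 [MOD r])).card : ℤ) : ℚ) ≤
      (N : ℚ) / r + 1 := by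
    rw [h2]
    have h4 : (0 : ℚ) ≤ (N : ℚ) / r + 1 := by positivity
    have h5 := Int.floor_le ((((2 * N : ℕ) : ℚ) - n1) / (r : ℚ))
    have h6 := Int.lt_floor_add_one (((N : ℚ) - n1) / (r : ℚ))
    have h7 : (((2 * N : ℕ) : ℚ) - n1) / (r : ℚ) - ((N : ℚ) - n1) / (r : ℚ) = (N : ℚ) / r := by
      push_cast
      ring
    rw [Int.cast_max]
    refine max_le ?_ (by simpa using h4)
    push_cast at h5 h6 h7 ⊢
    linarith
  have h8 : (((Ioc N (2 * N)).filter (fun n2 : ℕ => n2 ≡ n1 [MOD r])).card : ℝ) ≤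
      (N : ℝ) / r + 1 := by
    have h9 : ((((Ioc N (2 * N)).filter (fun n2 : ℕ => n2 ≡ n1 [MOD r])).card : ℚ) : ℝ) ≤
        (((N : ℚ) / r + 1 : ℚ) : ℝ) := by
      exact_mod_cast h3
    push_cast at h9
    exact h9
  have h10 : (N : ℝ) / r ≤ (N : ℝ) / R := by
    have : (R : ℝ) ≤ r := by exact_mod_cast hr.le
    have hR0 : (0 : ℝ) < R := by exact_mod_cast hR
    exact div_le_div_of_nonneg_left (Nat.cast_nonneg _) hR0 this
  linarith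

private lemma Eeb_gcd {a c : ℤ} {q : ℕ} (h : (q : ℤ) ∣ a - c) (hc : Int.gcd c (q : ℤ) = 1) :
    Int.gcd a (q : ℤ) = 1 := by
  have h1 : (Int.gcd a (q : ℤ) : ℤ) ∣ a := Int.gcd_dvd_left _ _
  have h2 : (Int.gcd a (q : ℤ) : ℤ) ∣ (q : ℤ) := Int.gcd_dvd_right _ _
  have h3 : (Int.gcd a (q : ℤ) : ℤ) ∣ c := by
    have h4 := dvd_sub h1 (h2.trans h)
    rwa [sub_sub_cancel] at h4
  have h5 : Int.gcd a (q : ℤ) ∣ Int.gcd c (q : ℤ) := Int.dvd_gcd h3 h2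
  rw [hc] at h5
  exact Nat.dvd_one.1 h5

/-- the arithmetic of a nonzero term -/
private lemma Eeb_ar {A : ℕ → ℕ → ℤ} {b : ℕ → ℤ} {a : ℕ → ℕ → ℕ → ℤ} {R S : ℕ} {z z1 : ℝ} {P : Finset (ℕ × ℕ)}
    (hP : Pr A b R S z z1 P) (hC : Cp P A a) {r s1 s2 n1 n2 m : ℕ} (hB : Bd a P r s1 s2 n1 n2)
    (h1 : ((r * s1 : ℕ) : ℤ) ∣ ((m * n1 : ℕ) : ℤ) - A r s1) (h2 : (r : ℤ) ∣ ((m * n2 : ℕ) : ℤ) - A r s2) :
    (r : ℤ) ∣ (n2 : ℤ) - n1 ∧ ¬ s2.Coprime (s1 * n2) := by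
  obtain ⟨hB1, hB2, hB3⟩ := hB
  obtain ⟨_, _, _, _, sq1, fr1, br1, _⟩ := hP.1 _ hB1
  obtain ⟨_, _, _, _, sq2, fr2, br2, _⟩ := hP.1 _ hB2
  simp only at sq1 sq2 fr1 fr2 br1 br2
  have key : ∀ (c : ℤ) (q t : ℕ), Int.gcd c (q : ℤ) = 1 → (q : ℤ) ∣ (t : ℤ) - c → t.Coprime q := by
    intro c q t hq ht
    have h3 : (Nat.gcd t q : ℤ) ∣ c := by
      have h4 : (Nat.gcd t q : ℤ) ∣ (t : ℤ) := Int.natCast_dvd_natCast.2 (Nat.gcd_dvd_left _ _)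
      have h5 : (Nat.gcd t q : ℤ) ∣ (t : ℤ) - c :=
        (Int.natCast_dvd_natCast.2 (Nat.gcd_dvd_right _ _)).trans ht
      have h6 := dvd_sub h4 h5
      rwa [sub_sub_cancel] at h6
    have h7 : Nat.gcd t q ∣ Int.gcd c (q : ℤ) :=
      Int.dvd_gcd h3 (Int.natCast_dvd_natCast.2 (Nat.gcd_dvd_right _ _))
    rw [hq] at h7
    exact Nat.dvd_one.1 h7
  have g1 : Int.gcd (A r s1) ((r * s1 : ℕ) : ℤ) = 1 := fr1
  have g2 : Int.gcd (A r s2) ((r * s2 : ℕ) : ℤ) = 1 := fr2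
  have gr : Int.gcd (A r s2) (r : ℤ) = 1 := by
    have : Int.gcd (A r s2) (r : ℤ) ∣ Int.gcd (A r s2) ((r * s2 : ℕ) : ℤ) :=
      Int.gcd_dvd_gcd_of_dvd_right _ (Int.natCast_dvd_natCast.2 (dvd_mul_right _ _))
    rw [g2] at this
    exact Nat.dvd_one.1 this
  have c1 := key _ _ _ g1 h1
  have c2 := key _ _ _ gr h2
  have cm : m.Coprime r := Nat.Coprime.coprime_dvd_left (dvd_mul_right _ _) c2
  have cn1 : n1.Coprime (r * s1) := Nat.Coprime.coprime_dvd_left (dvd_mul_left _ _) c1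
  have cn2 : n2.Coprime r := Nat.Coprime.coprime_dvd_left (dvd_mul_left _ _) c2
  have hr1 : (r : ℤ) ∣ ((m * n1 : ℕ) : ℤ) - A r s1 :=
    (Int.natCast_dvd_natCast.2 (dvd_mul_right _ _)).trans h1
  have hA : (r : ℤ) ∣ A r s2 - A r s1 := by
    have h3 := dvd_sub br2 br1
    rwa [sub_sub_sub_cancel_right] at h3
  have hd : (r : ℤ) ∣ (n2 : ℤ) - n1 := by
    have h3 := dvd_add (dvd_sub h2 hr1) hA
    have h4 : ((m * n2 : ℕ) : ℤ) - A r s2 - (((m * n1 : ℕ) : ℤ) - A r s1) + (A r s2 - A r s1) =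
        (m : ℤ) * ((n2 : ℤ) - n1) := by
      push_cast
      ring
    rw [h4] at h3
    have h5 : IsCoprime (r : ℤ) (m : ℤ) := (Nat.isCoprime_iff_coprime.2 cm).symm
    exact h5.dvd_of_dvd_mul_left h3
  refine ⟨hd, fun hc => ?_⟩
  have cs : s1.Coprime s2 := (Nat.Coprime.coprime_dvd_right (dvd_mul_right _ _) hc).symm
  obtain ⟨k1, k2⟩ := hC r s1 s2 hB1 hB2 cs
  exact hB3 ⟨⟨sq1, sq2, cs, cn1,
    Nat.Coprime.mul_right cn2 (Nat.Coprime.coprime_dvd_right (dvd_mul_left _ _) hc).symm,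
    Eeb_gcd k1 g1, Eeb_gcd k2 g2⟩, hd⟩

open Classical in
theorem tEeb (h1 : EnaStmt) (h2 : MI.DprStmt) : EebStmt := by
  intro X T z z1 A b a R S M N P hSz hP hC
  obtain ⟨hT, hz, hR, hS, hN, hM, hRN, hX, hRS⟩ := hSz
  have hT1 : 1 ≤ T := hT.1
  have hR' : (1 : ℝ) ≤ R := by exact_mod_cast hR
  have hS' : (1 : ℝ) ≤ S := by exact_mod_cast hS
  have hN' : (1 : ℝ) ≤ N := by exact_mod_cast hN
  have hM' : (8 : ℝ) ≤ M := by exact_mod_cast hM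
  have hz0 : 0 < z := by linarith
  have hX4 : 4 * (S : ℝ) * N ≤ X := by
    refine le_trans ?_ hX
    have e1 : (S : ℝ) ≤ (S : ℝ) ^ 4 := le_self_pow₀ hS' (by norm_num)
    have e2 : (N : ℝ) ≤ (N : ℝ) ^ 2 := le_self_pow₀ hN' (by norm_num)
    have e3 : (1 : ℝ) ≤ (M : ℝ) ^ 2 := one_le_pow₀ (by linarith)
    have e4 : (1 : ℝ) ≤ (R : ℝ) ^ 2 := one_le_pow₀ hR'
    calc 4 * (S : ℝ) * N ≤ 100 * 1 * (N : ℝ) * 1 * S := by nlinarith [mul_nonneg (by linarith : (0:ℝ) ≤ S) (by linarith : (0:ℝ) ≤ N)]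
      _ ≤ 100 * (M : ℝ) ^ 2 * (N : ℝ) ^ 2 * (R : ℝ) ^ 2 * (S : ℝ) ^ 4 := by gcongr
  -- the constant for fixed m, r, s1, n1
  set K : ℝ := ((N : ℝ) / R + 1) * (2 * T / z) with hK
  have hK0 : 0 ≤ K := by positivity
  have hTz : 0 ≤ 2 * T / z := by positivity
  -- termwise
  have hterm : ∀ m r s1 s2 n1 n2 : ℕ,
      (if Bd a P r s1 s2 n1 n2 then D1 (A r s1) r s1 (m * n1) * D2 (A r s2) r s2 (m * n2) else 0) ≤
      if ((r, s1) ∈ P ∧ ((r * s1 : ℕ) : ℤ) ∣ ((m * n1 : ℕ) : ℤ) - A r s1) then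
        (if (r : ℤ) ∣ (n2 : ℤ) - n1 then
          (if ((∀ p : ℕ, p.Prime → p ∣ s2 → z < p) ∧ ¬ s2.Coprime (s1 * n2)) then 1 / (s2 : ℝ) else 0)
          else 0) else 0 := by
    intro m r s1 s2 n1 n2
    have hnn : (0 : ℝ) ≤ if ((r, s1) ∈ P ∧ ((r * s1 : ℕ) : ℤ) ∣ ((m * n1 : ℕ) : ℤ) - A r s1) then
        (if (r : ℤ) ∣ (n2 : ℤ) - n1 then
          (if ((∀ p : ℕ, p.Prime → p ∣ s2 → z < p) ∧ ¬ s2.Coprime (s1 * n2)) then 1 / (s2 : ℝ) else 0)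
          else 0) else 0 := by
      split_ifs <;> positivity
    by_cases hB : Bd a P r s1 s2 n1 n2
    · rw [if_pos hB]
      unfold D1 D2
      by_cases ha : ((r * s1 : ℕ) : ℤ) ∣ ((m * n1 : ℕ) : ℤ) - A r s1
      · by_cases hb' : (r : ℤ) ∣ ((m * n2 : ℕ) : ℤ) - A r s2
        · obtain ⟨k1, k2⟩ := Eeb_ar hP hC hB ha hb'
          have k3 : ∀ p : ℕ, p.Prime → p ∣ s2 → z < p := (hP.1 _ hB.2.1).2.2.2.2.2.2.2
          rw [if_pos ha, if_pos hb', if_pos ⟨hB.1, ha⟩, if_pos k1, if_pos ⟨k3, k2⟩]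
          simp
        · rw [if_neg hb']
          simpa using hnn
      · rw [if_neg ha]
        simpa using hnn
    · rw [if_neg hB]
      exact hnn
  -- sum over s2, n2 for fixed m, r, s1, n1
  have hin : ∀ m r s1 n1 : ℕ, R < r → s1 ∈ Ioc S (2 * S) →
      ∑ n2 ∈ Ioc N (2 * N), ∑ s2 ∈ Ioc S (2 * S),
        (if ((r, s1) ∈ P ∧ ((r * s1 : ℕ) : ℤ) ∣ ((m * n1 : ℕ) : ℤ) - A r s1) then
        (if (r : ℤ) ∣ (n2 : ℤ) - n1 then
          (if ((∀ p : ℕ, p.Prime → p ∣ s2 → z < p) ∧ ¬ s2.Coprime (s1 * n2)) then 1 / (s2 : ℝ) else 0)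
          else 0) else 0) ≤
      if ((r, s1) ∈ P ∧ ((r * s1 : ℕ) : ℤ) ∣ ((m * n1 : ℕ) : ℤ) - A r s1) then K else 0 := by
    intro m r s1 n1 hr hs1
    by_cases hA : ((r, s1) ∈ P ∧ ((r * s1 : ℕ) : ℤ) ∣ ((m * n1 : ℕ) : ℤ) - A r s1)
    · simp only [if_pos hA]
      rw [mem_Ioc] at hs1
      calc ∑ n2 ∈ Ioc N (2 * N), ∑ s2 ∈ Ioc S (2 * S), (if (r : ℤ) ∣ (n2 : ℤ) - n1 then
          (if ((∀ p : ℕ, p.Prime → p ∣ s2 → z < p) ∧ ¬ s2.Coprime (s1 * n2)) then 1 / (s2 : ℝ) else 0)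
          else 0)
          ≤ ∑ n2 ∈ Ioc N (2 * N), (if (r : ℤ) ∣ (n2 : ℤ) - n1 then 2 * T / z else 0) := by
            refine Finset.sum_le_sum fun n2 hn2 => ?_
            rw [mem_Ioc] at hn2
            by_cases hd : (r : ℤ) ∣ (n2 : ℤ) - n1
            · simp only [if_pos hd]
              rw [← Finset.sum_filter]
              refine h2 X T z S (s1 * n2) hT hz hS ?_ ?_
              · exact Nat.one_le_iff_ne_zero.2 (Nat.mul_ne_zero (by omega) (by omega))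
              · refine le_trans ?_ hX4
                have e1 : (s1 : ℝ) ≤ 2 * S := by exact_mod_cast hs1.2
                have e2 : (n2 : ℝ) ≤ 2 * N := by exact_mod_cast hn2.2
                push_cast
                calc (s1 : ℝ) * n2 ≤ (2 * S) * (2 * N) := by gcongr
                  _ = 4 * (S : ℝ) * N := by ring
            · simp only [if_neg hd, Finset.sum_const_zero, le_refl]
        _ = (((Ioc N (2 * N)).filter (fun n2 : ℕ => (r : ℤ) ∣ (n2 : ℤ) - n1)).card : ℝ) * (2 * T / z) := by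
            rw [← Finset.sum_filter, Finset.sum_const, nsmul_eq_mul]
        _ ≤ K := by
            rw [hK]
            exact mul_le_mul_of_nonneg_right (Eeb_cnt R r N n1 hR hr) hTz
    · simp only [if_neg hA, Finset.sum_const_zero, le_refl]
  -- sum over r, s1 for fixed m, n1
  have hcnt : ∀ m n1 : ℕ,
      ∑ r ∈ Ioc R (2 * R), ∑ s1 ∈ Ioc S (2 * S),
        (if ((r, s1) ∈ P ∧ ((r * s1 : ℕ) : ℤ) ∣ ((m * n1 : ℕ) : ℤ) - A r s1) then K else 0) ≤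
      ((P.filter (fun w => ((w.1 * w.2 : ℕ) : ℤ) ∣ ((m * n1 : ℕ) : ℤ) - A w.1 w.2)).card : ℝ) * K := by
    intro m n1
    rw [← Finset.sum_product' (Ioc R (2 * R)) (Ioc S (2 * S))
      (fun r s1 => if ((r, s1) ∈ P ∧ ((r * s1 : ℕ) : ℤ) ∣ ((m * n1 : ℕ) : ℤ) - A r s1) then K else 0),
      ← Finset.sum_filter, Finset.sum_const, nsmul_eq_mul]
    refine mul_le_mul_of_nonneg_right ?_ hK0
    norm_cast
    refine Finset.card_le_card fun w hw => ?_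
    rw [mem_filter] at hw ⊢
    exact hw.2
  have hav := (h1 X T z z1 A b R S M N P ⟨hT, hz, hR, hS, hN, hM, hRN, hX, hRS⟩ hP).1
  -- together
  calc ∑ m ∈ Icc (M / 2) (3 * M), ∑ r ∈ Ioc R (2 * R), ∑ s1 ∈ Ioc S (2 * S), ∑ s2 ∈ Ioc S (2 * S),
      ∑ n1 ∈ Ioc N (2 * N), ∑ n2 ∈ Ioc N (2 * N),
      (if Bd a P r s1 s2 n1 n2 then D1 (A r s1) r s1 (m * n1) * D2 (A r s2) r s2 (m * n2) else 0)
      ≤ ∑ m ∈ Icc (M / 2) (3 * M), ∑ n1 ∈ Ioc N (2 * N), ∑ r ∈ Ioc R (2 * R), ∑ s1 ∈ Ioc S (2 * S),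
        (if ((r, s1) ∈ P ∧ ((r * s1 : ℕ) : ℤ) ∣ ((m * n1 : ℕ) : ℤ) - A r s1) then K else 0) := by
        refine Finset.sum_le_sum fun m _ => ?_
        calc ∑ r ∈ Ioc R (2 * R), ∑ s1 ∈ Ioc S (2 * S), ∑ s2 ∈ Ioc S (2 * S),
            ∑ n1 ∈ Ioc N (2 * N), ∑ n2 ∈ Ioc N (2 * N),
            (if Bd a P r s1 s2 n1 n2 then D1 (A r s1) r s1 (m * n1) * D2 (A r s2) r s2 (m * n2) else 0)
            ≤ ∑ r ∈ Ioc R (2 * R), ∑ s1 ∈ Ioc S (2 * S), ∑ n1 ∈ Ioc N (2 * N),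
              (if ((r, s1) ∈ P ∧ ((r * s1 : ℕ) : ℤ) ∣ ((m * n1 : ℕ) : ℤ) - A r s1) then K else 0) := by
              refine Finset.sum_le_sum fun r hr => Finset.sum_le_sum fun s1 hs1 => ?_
              rw [mem_Ioc] at hr
              rw [Finset.sum_comm]
              refine Finset.sum_le_sum fun n1 _ => ?_
              rw [Finset.sum_comm]
              refine le_trans ?_ (hin m r s1 n1 hr.1 hs1)
              exact Finset.sum_le_sum fun n2 _ => Finset.sum_le_sum fun s2 _ =>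
                hterm m r s1 s2 n1 n2
          _ = ∑ r ∈ Ioc R (2 * R), ∑ n1 ∈ Ioc N (2 * N), ∑ s1 ∈ Ioc S (2 * S),
              (if ((r, s1) ∈ P ∧ ((r * s1 : ℕ) : ℤ) ∣ ((m * n1 : ℕ) : ℤ) - A r s1) then K else 0) :=
              Finset.sum_congr rfl fun r _ => Finset.sum_comm
          _ = _ := Finset.sum_comm
    _ ≤ ∑ m ∈ Icc (M / 2) (3 * M), ∑ n1 ∈ Ioc N (2 * N),
        ((P.filter (fun w => ((w.1 * w.2 : ℕ) : ℤ) ∣ ((m * n1 : ℕ) : ℤ) - A w.1 w.2)).card : ℝ) * K :=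
        Finset.sum_le_sum fun m _ => Finset.sum_le_sum fun n1 _ => hcnt m n1
    _ = (∑ m ∈ Icc (M / 2) (3 * M), ∑ n1 ∈ Ioc N (2 * N),
        ((P.filter (fun w => ((w.1 * w.2 : ℕ) : ℤ) ∣ ((m * n1 : ℕ) : ℤ) - A w.1 w.2)).card : ℝ)) * K := by
        rw [Finset.sum_mul]
        exact Finset.sum_congr rfl fun m _ => (Finset.sum_mul _ _ _).symm
    _ ≤ 7 * T * ((M : ℝ) * N) * K := mul_le_mul_of_nonneg_right hav hK0
    _ ≤ 14 * T ^ 2 * ((M : ℝ) * N * (1 + N / ((R : ℝ) * z))) := by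
        have e3 : K ≤ 2 * T * (1 + N / ((R : ℝ) * z)) := by
          rw [hK]
          have e4 : ((N : ℝ) / R + 1) * (2 * T / z) = 2 * T * (1 / z + N / ((R : ℝ) * z)) := by
            field_simp
            ring
          rw [e4]
          have e5 : 1 / z ≤ 1 := by
            rw [div_le_one hz0]
            exact hz
          exact mul_le_mul_of_nonneg_left (by linarith) (by linarith)
        calc 7 * T * ((M : ℝ) * N) * K ≤
            7 * T * ((M : ℝ) * N) * (2 * T * (1 + N / ((R : ℝ) * z))) := by gcongr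
          _ = _ := by ring

end Pool.Agent.Lib.ML
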