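import Pool.Agent.Lib.ML.SpecD

/-! Module Eec (both averaged, classes A r s), helper18; from Lib/MK/Eec.lean (helper84, helper71). -/

namespace Pool.Agent.Lib.ML

open Finset Pool.Agent.Lib.EH3 Pool.Agent.Lib.TB Pool.Agent.Results.MP_00e23e_nt Pool.Agent.Lib.MI

private lemma Eec_comm (A B C D : Finset ℕ) (f : ℕ → ℕ → ℕ → ℕ → ℝ) :
    ∑ a ∈ A, ∑ b ∈ B, ∑ c ∈ C, ∑ d ∈ D, f a b c d = ∑ c ∈ C, ∑ d ∈ D, ∑ a ∈ A, ∑ b ∈ B, f a b c d := by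
  calc ∑ a ∈ A, ∑ b ∈ B, ∑ c ∈ C, ∑ d ∈ D, f a b c d
      = ∑ a ∈ A, ∑ c ∈ C, ∑ b ∈ B, ∑ d ∈ D, f a b c d :=
        Finset.sum_congr rfl fun a _ => Finset.sum_comm
    _ = ∑ c ∈ C, ∑ a ∈ A, ∑ b ∈ B, ∑ d ∈ D, f a b c d := Finset.sum_comm
    _ = ∑ c ∈ C, ∑ a ∈ A, ∑ d ∈ D, ∑ b ∈ B, f a b c d :=
        Finset.sum_congr rfl fun c _ => Finset.sum_congr rfl fun a _ => Finset.sum_comm
    _ = ∑ c ∈ C, ∑ d ∈ D, ∑ a ∈ A, ∑ b ∈ B, f a b c d :=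
        Finset.sum_congr rfl fun c _ => Finset.sum_comm

/-- number of n2 in (N, 2N] congruent to n1 mod r -/
private lemma Eec_cnt (R r N n1 : ℕ) (hR : 1 ≤ R) (hr : R < r) :
    (((Ioc N (2 * N)).filter (fun n2 : ℕ => (r : ℤ) ∣ (n2 : ℤ) - n1)).card : ℝ) ≤ (N : ℝ) / R + 1 := by
  have hr0 : 0 < r := by omega
  have h1 : (Ioc N (2 * N)).filter (fun n2 : ℕ => (r : ℤ) ∣ (n2 : ℤ) - n1) =
      (Ioc N (2 * N)).filter (fun n2 : ℕ => n2 ≡ n1 [MOD r]) := by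
    refine Finset.filter_congr fun n2 _ => ?_
    rw [Nat.ModEq.comm, Nat.modEq_iff_dvd]
  rw [h1]
  have h2 := Nat.Ioc_filter_modEq_card N (2 * N) hr0 n1
  have h3 : ((max (⌊(((2 * N : ℕ) : ℚ) - (n1 : ℚ)) / (r : ℚ)⌋ - ⌊((N : ℚ) - (n1 : ℚ)) / (r : ℚ)⌋) 0 : ℤ) : ℚ)
      ≤ (N : ℚ) / r + 1 := by
    have hq : (0 : ℚ) < r := by exact_mod_cast hr0
    have e1 := Int.floor_le ((((2 * N : ℕ) : ℚ) - (n1 : ℚ)) / (r : ℚ))
    have e2 := Int.lt_floor_add_one (((N : ℚ) - (n1 : ℚ)) / (r : ℚ))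
    have e3 : (((2 * N : ℕ) : ℚ) - (n1 : ℚ)) / (r : ℚ) = ((N : ℚ) - (n1 : ℚ)) / (r : ℚ) + (N : ℚ) / r := by
      push_cast
      field_simp
      ring
    have e4 : (0 : ℚ) ≤ (N : ℚ) / r + 1 := by positivity
    push_cast
    refine max_le ?_ e4
    push_cast at e1 e3
    linarith
  have h4 : (((((Ioc N (2 * N)).filter (fun n2 : ℕ => n2 ≡ n1 [MOD r])).card : ℤ) : ℚ)) ≤
      (N : ℚ) / r + 1 := by
    rw [h2]
    exact h3
  have h5 : (((Ioc N (2 * N)).filter (fun n2 : ℕ => n2 ≡ n1 [MOD r])).card : ℝ) ≤ (N : ℝ) / r + 1 := by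
    have : ((((((Ioc N (2 * N)).filter (fun n2 : ℕ => n2 ≡ n1 [MOD r])).card : ℤ) : ℚ)) : ℝ) ≤
        (((N : ℚ) / r + 1 : ℚ) : ℝ) := by exact_mod_cast h4
    push_cast at this
    exact this
  refine h5.trans ?_
  have hRr : (R : ℝ) ≤ r := by exact_mod_cast hr.le
  have hR0 : (0 : ℝ) < R := by exact_mod_cast hR
  have : (N : ℝ) / r ≤ N / R := div_le_div_of_nonneg_left (Nat.cast_nonneg N) hR0 hRr
  linarith

private lemma Eec_gcd {a c : ℤ} {q : ℕ} (h : (q : ℤ) ∣ a - c) (hc : Int.gcd c (q : ℤ) = 1) :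
    Int.gcd a (q : ℤ) = 1 := by
  have h1 : (Int.gcd a (q : ℤ) : ℤ) ∣ a := Int.gcd_dvd_left _ _
  have h2 : (Int.gcd a (q : ℤ) : ℤ) ∣ (q : ℤ) := Int.gcd_dvd_right _ _
  have h3 : (Int.gcd a (q : ℤ) : ℤ) ∣ c := by
    have h4 := dvd_sub h1 (h2.trans h)
    rwa [sub_sub_cancel] at h4
  have h5 : Int.gcd a (q : ℤ) ∣ Int.gcd c (q : ℤ) := Int.dvd_gcd h3 h2
  rw [hc] at h5
  exact Nat.dvd_one.1 h5

private lemma Eec_inv (S : ℕ) (hS : 1 ≤ S) : ∑ s ∈ Ioc S (2 * S), 1 / (s : ℝ) ≤ 1 := by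
  have hS0 : (0 : ℝ) < S := by exact_mod_cast hS
  calc ∑ s ∈ Ioc S (2 * S), 1 / (s : ℝ) ≤ ∑ s ∈ Ioc S (2 * S), 1 / (S : ℝ) := by
        refine Finset.sum_le_sum fun s hs => ?_
        have : (S : ℝ) ≤ s := by exact_mod_cast (Finset.mem_Ioc.1 hs).1.le
        exact one_div_le_one_div_of_le hS0 this
    _ = 1 := by
        rw [Finset.sum_const, Nat.card_Ioc, nsmul_eq_mul]
        have : 2 * S - S = S := by omega
        rw [this]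
        field_simp

open Classical in
theorem tEec (hEna : EnaStmt) (hDpr : MI.DprStmt) : EecStmt := by
  intro X T z z1 A b a R S M N P hSz hPr hC
  obtain ⟨hTau, hz, hR, hS, hN, hM, hRN, hX, _⟩ := id hSz
  have hT1 : 1 ≤ T := hTau.1
  have hS0 : (0 : ℝ) < S := by exact_mod_cast hS
  have hR0 : (0 : ℝ) < R := by exact_mod_cast hR
  have hN0 : (0 : ℝ) < N := by exact_mod_cast hN
  have hM0 : (8 : ℝ) ≤ M := by exact_mod_cast hM
  have hz0 : 0 < z := by linarith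
  -- sizes
  have hM2 : (1 : ℝ) ≤ (M : ℝ) ^ 2 := one_le_pow₀ (by linarith)
  have hN2 : (1 : ℝ) ≤ N := by exact_mod_cast hN
  have hR2 : (1 : ℝ) ≤ (R : ℝ) ^ 2 := one_le_pow₀ (by exact_mod_cast hR)
  have hS1 : (1 : ℝ) ≤ S := by exact_mod_cast hS
  have hXS : ((2 * S : ℕ) : ℝ) ≤ X := by
    refine le_trans ?_ hX
    push_cast
    have h6 : (1 : ℝ) ≤ (N : ℝ) ^ 2 := one_le_pow₀ hN2
    have h8 : (S : ℝ) ≤ (S : ℝ) ^ 4 := le_self_pow₀ hS1 (by norm_num)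
    have h9 : (1 : ℝ) ≤ (M : ℝ) ^ 2 * (N : ℝ) ^ 2 * (R : ℝ) ^ 2 :=
      one_le_mul_of_one_le_of_one_le (one_le_mul_of_one_le_of_one_le hM2 h6) hR2
    have h10 : 1 * (S : ℝ) ≤ (M : ℝ) ^ 2 * (N : ℝ) ^ 2 * (R : ℝ) ^ 2 * (S : ℝ) ^ 4 :=
      mul_le_mul h9 h8 (by positivity) (by positivity)
    linarith
  have hXN : ((2 * N : ℕ) : ℝ) ≤ X := by
    refine le_trans ?_ hX
    push_cast
    have h6 : (N : ℝ) ≤ (N : ℝ) ^ 2 := le_self_pow₀ hN2 (by norm_num)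
    have h8 : (1 : ℝ) ≤ (S : ℝ) ^ 4 := one_le_pow₀ hS1
    have h9 : 1 * (N : ℝ) ≤ (M : ℝ) ^ 2 * (N : ℝ) ^ 2 :=
      mul_le_mul hM2 h6 (by positivity) (by positivity)
    have h10 : (N : ℝ) * 1 ≤ (M : ℝ) ^ 2 * (N : ℝ) ^ 2 * ((R : ℝ) ^ 2 * (S : ℝ) ^ 4) :=
      mul_le_mul (by linarith) (one_le_mul_of_one_le_of_one_le hR2 h8) (by positivity)
        (by positivity)
    linarith
  -- the auxiliary functions
  let ro : ℕ → Prop := fun s => ∀ p : ℕ, p.Prime → p ∣ s → z < p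
  let g : ℕ → ℕ → ℝ := fun Z s => if ro s ∧ ¬ s.Coprime Z then 1 / (s : ℝ) else 0
  have hg0 : ∀ Z s, 0 ≤ g Z s := by
    intro Z s
    simp only [g]
    split_ifs
    · positivity
    · exact le_rfl
  have hg : ∀ Z : ℕ, 1 ≤ Z → (Z : ℝ) ≤ X → ∑ s ∈ Ioc S (2 * S), g Z s ≤ 2 * T / z := by
    intro Z hZ hZX
    have := hDpr X T z S Z hTau hz hS hZ hZX
    rw [Finset.sum_filter] at this
    exact this
  let G1 : ℕ → ℕ → ℕ → ℝ := fun m r n1 =>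
    if r ∈ P.image Prod.fst ∧ (r : ℤ) ∣ ((m * n1 : ℕ) : ℤ) - b r then 1 else 0
  let G2 : ℕ → ℕ → ℕ → ℝ := fun r n1 n2 => if (r : ℤ) ∣ (n2 : ℤ) - n1 then 1 else 0
  let G3 : ℕ → ℕ → ℕ → ℕ → ℝ := fun s1 s2 n1 n2 =>
    1 / (s1 : ℝ) * g s1 s2 + (1 / (s2 : ℝ) * g n1 s1 + 1 / (s1 : ℝ) * g n2 s2)
  have hG3 : ∀ s1 s2 n1 n2, 0 ≤ G3 s1 s2 n1 n2 := by
    intro s1 s2 n1 n2
    have h1 := hg0 s1 s2
    have h2 := hg0 n1 s1
    have h3 := hg0 n2 s2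
    simp only [G3]
    positivity
  have hG1 : ∀ m r n1, 0 ≤ G1 m r n1 := by
    intro m r n1
    simp only [G1]
    split_ifs <;> norm_num
  have hG2 : ∀ r n1 n2, 0 ≤ G2 r n1 n2 := by
    intro r n1 n2
    simp only [G2]
    split_ifs <;> norm_num
  -- pointwise inequality
  have hpt : ∀ m r s1 s2 n1 n2 : ℕ,
      (if Bd a P r s1 s2 n1 n2 then D2 (A r s1) r s1 (m * n1) * D2 (A r s2) r s2 (m * n2) else 0) ≤
        G1 m r n1 * G2 r n1 n2 * G3 s1 s2 n1 n2 := by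
    intro m r s1 s2 n1 n2
    have hnn : 0 ≤ G1 m r n1 * G2 r n1 n2 * G3 s1 s2 n1 n2 :=
      mul_nonneg (mul_nonneg (hG1 _ _ _) (hG2 _ _ _)) (hG3 _ _ _ _)
    by_cases hB : Bd a P r s1 s2 n1 n2
    swap
    · rw [if_neg hB]; exact hnn
    rw [if_pos hB]
    by_cases h1 : (r : ℤ) ∣ ((m * n1 : ℕ) : ℤ) - A r s1
    swap
    · have : D2 (A r s1) r s1 (m * n1) = 0 := by
        unfold D2
        rw [if_neg h1, mul_zero]
      rw [this, zero_mul]; exact hnn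
    by_cases h2 : (r : ℤ) ∣ ((m * n2 : ℕ) : ℤ) - A r s2
    swap
    · have : D2 (A r s2) r s2 (m * n2) = 0 := by
        unfold D2
        rw [if_neg h2, mul_zero]
      rw [this, mul_zero]; exact hnn
    obtain ⟨hP1, hP2, hnG⟩ := hB
    obtain ⟨_, _, _, _, hsq1, hFr1, hbr1, hro1⟩ := hPr.1 _ hP1
    obtain ⟨_, _, _, _, hsq2, hFr2, hbr2, hro2⟩ := hPr.1 _ hP2
    simp only at hsq1 hFr1 hbr1 hro1 hsq2 hFr2 hbr2 hro2
    have h1b : (r : ℤ) ∣ ((m * n1 : ℕ) : ℤ) - b r := by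
      have h3 := dvd_add h1 hbr1
      rwa [sub_add_sub_cancel] at h3
    have h2b : (r : ℤ) ∣ ((m * n2 : ℕ) : ℤ) - b r := by
      have h3 := dvd_add h2 hbr2
      rwa [sub_add_sub_cancel] at h3
    have hga : IsCoprime (b r) (r : ℤ) := by
      have h3 : Int.gcd (A r s1) ((r * s1 : ℕ) : ℤ) = 1 := hFr1
      rw [← Int.isCoprime_iff_gcd_eq_one] at h3
      push_cast at h3
      have h4 : IsCoprime (A r s1) (r : ℤ) := h3.of_mul_right_left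
      obtain ⟨k, hk⟩ := hbr1
      have h5 : b r = A r s1 + r * (-k) := by linarith
      rw [h5]
      exact h4.add_mul_left_left (-k)
    have hcop : ∀ n : ℕ, (r : ℤ) ∣ ((m * n : ℕ) : ℤ) - b r → IsCoprime ((m * n : ℕ) : ℤ) (r : ℤ) := by
      intro n hn
      obtain ⟨k, hk⟩ := hn
      have : ((m * n : ℕ) : ℤ) = b r + r * k := by linarith
      rw [this]
      exact hga.add_mul_left_left k
    have hc1 := hcop n1 h1b
    have hc2 := hcop n2 h2b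
    push_cast at hc1 hc2
    have hmr : IsCoprime (m : ℤ) (r : ℤ) := hc1.of_mul_left_left
    have hn1r : n1.Coprime r := Nat.isCoprime_iff_coprime.1 hc1.of_mul_left_right
    have hn2r : n2.Coprime r := Nat.isCoprime_iff_coprime.1 hc2.of_mul_left_right
    have hdvd : (r : ℤ) ∣ (n2 : ℤ) - n1 := by
      have h3 : (r : ℤ) ∣ (m : ℤ) * ((n2 : ℤ) - n1) := by
        have h4 := dvd_sub h2b h1b
        have h5 : ((m * n2 : ℕ) : ℤ) - b r - (((m * n1 : ℕ) : ℤ) - b r) = (m : ℤ) * ((n2 : ℤ) - n1) := by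
          push_cast; ring
        rw [h5] at h4
        exact h4
      exact hmr.symm.dvd_of_dvd_mul_left h3
    have hG1e : G1 m r n1 = 1 := by
      simp only [G1]
      rw [if_pos]
      exact ⟨Finset.mem_image.2 ⟨(r, s1), hP1, rfl⟩, h1b⟩
    have hG2e : G2 r n1 n2 = 1 := by
      simp only [G2]
      rw [if_pos hdvd]
    rw [hG1e, hG2e, one_mul, one_mul]
    have hD1 : D2 (A r s1) r s1 (m * n1) = 1 / (s1 : ℝ) := by
      unfold D2; rw [if_pos h1, mul_one]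
    have hD2 : D2 (A r s2) r s2 (m * n2) = 1 / (s2 : ℝ) := by
      unfold D2; rw [if_pos h2, mul_one]
    rw [hD1, hD2]
    have hcases : ¬ s2.Coprime s1 ∨ ¬ s1.Coprime n1 ∨ ¬ s2.Coprime n2 := by
      by_contra hcon
      push Not at hcon
      obtain ⟨e1, e2, e3⟩ := hcon
      apply hnG
      obtain ⟨k1, k2⟩ := hC r s1 s2 hP1 hP2 e1.symm
      refine ⟨⟨hsq1, hsq2, e1.symm, ?_, ?_, Eec_gcd k1 hFr1, Eec_gcd k2 hFr2⟩, hdvd⟩
      · exact Nat.Coprime.mul_right hn1r e2.symm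
      · exact Nat.Coprime.mul_right hn2r e3.symm
    have q1 : 0 ≤ 1 / (s1 : ℝ) * g s1 s2 := mul_nonneg (by positivity) (hg0 _ _)
    have q2 : 0 ≤ 1 / (s2 : ℝ) * g n1 s1 := mul_nonneg (by positivity) (hg0 _ _)
    have q3 : 0 ≤ 1 / (s1 : ℝ) * g n2 s2 := mul_nonneg (by positivity) (hg0 _ _)
    simp only [G3]
    rcases hcases with h | h | h
    · have : g s1 s2 = 1 / (s2 : ℝ) := by
        simp only [g]; rw [if_pos ⟨hro2, h⟩]
      rw [this]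
      linarith
    · have : g n1 s1 = 1 / (s1 : ℝ) := by
        simp only [g]; rw [if_pos ⟨hro1, h⟩]
      rw [this]
      have e : 1 / (s1 : ℝ) * (1 / (s2 : ℝ)) = 1 / (s2 : ℝ) * (1 / (s1 : ℝ)) := mul_comm _ _
      linarith
    · have : g n2 s2 = 1 / (s2 : ℝ) := by
        simp only [g]; rw [if_pos ⟨hro2, h⟩]
      rw [this]
      linarith
  -- the inner sums
  have hin : ∀ n1 ∈ Ioc N (2 * N), ∀ n2 ∈ Ioc N (2 * N),
      ∑ s1 ∈ Ioc S (2 * S), ∑ s2 ∈ Ioc S (2 * S), G3 s1 s2 n1 n2 ≤ 6 * T / z := by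
    intro n1 hn1 n2 hn2
    rw [Finset.mem_Ioc] at hn1 hn2
    have hTz : 0 ≤ 2 * T / z := by positivity
    have a1 : ∑ s1 ∈ Ioc S (2 * S), ∑ s2 ∈ Ioc S (2 * S), 1 / (s1 : ℝ) * g s1 s2 ≤ 2 * T / z := by
      calc ∑ s1 ∈ Ioc S (2 * S), ∑ s2 ∈ Ioc S (2 * S), 1 / (s1 : ℝ) * g s1 s2
          = ∑ s1 ∈ Ioc S (2 * S), 1 / (s1 : ℝ) * ∑ s2 ∈ Ioc S (2 * S), g s1 s2 :=
            Finset.sum_congr rfl fun s1 _ => by rw [Finset.mul_sum]
        _ ≤ ∑ s1 ∈ Ioc S (2 * S), 1 / (s1 : ℝ) * (2 * T / z) := by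
            refine Finset.sum_le_sum fun s1 hs1 => ?_
            rw [Finset.mem_Ioc] at hs1
            refine mul_le_mul_of_nonneg_left (hg s1 (by omega) ?_) (by positivity)
            exact le_trans (by exact_mod_cast hs1.2) hXS
        _ = (∑ s1 ∈ Ioc S (2 * S), 1 / (s1 : ℝ)) * (2 * T / z) := by rw [Finset.sum_mul]
        _ ≤ 1 * (2 * T / z) := mul_le_mul_of_nonneg_right (Eec_inv S hS) hTz
        _ = 2 * T / z := one_mul _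
    have a2 : ∑ s1 ∈ Ioc S (2 * S), ∑ s2 ∈ Ioc S (2 * S), 1 / (s2 : ℝ) * g n1 s1 ≤ 2 * T / z := by
      have hZ := hg n1 (by omega) (le_trans (by exact_mod_cast hn1.2) hXN)
      have hZ0 : 0 ≤ ∑ s ∈ Ioc S (2 * S), g n1 s := Finset.sum_nonneg fun s _ => hg0 _ _
      calc ∑ s1 ∈ Ioc S (2 * S), ∑ s2 ∈ Ioc S (2 * S), 1 / (s2 : ℝ) * g n1 s1
          = ∑ s1 ∈ Ioc S (2 * S), (∑ s2 ∈ Ioc S (2 * S), 1 / (s2 : ℝ)) * g n1 s1 :=
            Finset.sum_congr rfl fun s1 _ => by rw [Finset.sum_mul]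
        _ = (∑ s2 ∈ Ioc S (2 * S), 1 / (s2 : ℝ)) * ∑ s1 ∈ Ioc S (2 * S), g n1 s1 := by
            rw [Finset.mul_sum]
        _ ≤ 1 * ∑ s1 ∈ Ioc S (2 * S), g n1 s1 := mul_le_mul_of_nonneg_right (Eec_inv S hS) hZ0
        _ ≤ 2 * T / z := by rw [one_mul]; exact hZ
    have a3 : ∑ s1 ∈ Ioc S (2 * S), ∑ s2 ∈ Ioc S (2 * S), 1 / (s1 : ℝ) * g n2 s2 ≤ 2 * T / z := by
      have hZ := hg n2 (by omega) (le_trans (by exact_mod_cast hn2.2) hXN)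
      have hZ0 : 0 ≤ ∑ s ∈ Ioc S (2 * S), g n2 s := Finset.sum_nonneg fun s _ => hg0 _ _
      calc ∑ s1 ∈ Ioc S (2 * S), ∑ s2 ∈ Ioc S (2 * S), 1 / (s1 : ℝ) * g n2 s2
          = ∑ s1 ∈ Ioc S (2 * S), 1 / (s1 : ℝ) * ∑ s2 ∈ Ioc S (2 * S), g n2 s2 :=
            Finset.sum_congr rfl fun s1 _ => by rw [Finset.mul_sum]
        _ = (∑ s1 ∈ Ioc S (2 * S), 1 / (s1 : ℝ)) * ∑ s2 ∈ Ioc S (2 * S), g n2 s2 := by
            rw [Finset.sum_mul]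
        _ ≤ 1 * ∑ s2 ∈ Ioc S (2 * S), g n2 s2 := mul_le_mul_of_nonneg_right (Eec_inv S hS) hZ0
        _ ≤ 2 * T / z := by rw [one_mul]; exact hZ
    have a4 : ∑ s1 ∈ Ioc S (2 * S), ∑ s2 ∈ Ioc S (2 * S), G3 s1 s2 n1 n2 =
        ∑ s1 ∈ Ioc S (2 * S), ∑ s2 ∈ Ioc S (2 * S), 1 / (s1 : ℝ) * g s1 s2 +
          (∑ s1 ∈ Ioc S (2 * S), ∑ s2 ∈ Ioc S (2 * S), 1 / (s2 : ℝ) * g n1 s1 +
            ∑ s1 ∈ Ioc S (2 * S), ∑ s2 ∈ Ioc S (2 * S), 1 / (s1 : ℝ) * g n2 s2) := by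
      simp only [G3, Finset.sum_add_distrib]
    rw [a4]
    have e : 6 * T / z = 2 * T / z + (2 * T / z + 2 * T / z) := by ring
    rw [e]
    exact add_le_add a1 (add_le_add a2 a3)
  have hn2sum : ∀ r ∈ Ioc R (2 * R), ∀ n1, ∑ n2 ∈ Ioc N (2 * N), G2 r n1 n2 ≤ (N : ℝ) / R + 1 := by
    intro r hr n1
    rw [Finset.mem_Ioc] at hr
    have := Eec_cnt R r N n1 hR hr.1
    simp only [G2]
    rw [Finset.sum_ite, Finset.sum_const_zero, add_zero, Finset.sum_const, nsmul_eq_mul, mul_one]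
    exact this
  have hrsum : ∑ m ∈ Icc (M / 2) (3 * M), ∑ n1 ∈ Ioc N (2 * N), ∑ r ∈ Ioc R (2 * R), G1 m r n1 ≤
      7 * T * ((M : ℝ) * N) := by
    refine le_trans (Finset.sum_le_sum fun m _ => Finset.sum_le_sum fun n1 _ => ?_)
      (hEna X T z z1 A b R S M N P hSz hPr).2
    simp only [G1]
    rw [Finset.sum_ite, Finset.sum_const_zero, add_zero, Finset.sum_const, nsmul_eq_mul, mul_one]
    have h2 : ((Ioc R (2 * R)).filter
        (fun r : ℕ => r ∈ P.image Prod.fst ∧ (r : ℤ) ∣ ((m * n1 : ℕ) : ℤ) - b r)).card ≤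
        ((P.image Prod.fst).filter (fun r : ℕ => (r : ℤ) ∣ ((m * n1 : ℕ) : ℤ) - b r)).card :=
      Finset.card_le_card fun r hr => by
        have hr' := Finset.mem_filter.1 hr
        exact Finset.mem_filter.2 ⟨hr'.2.1, hr'.2.2⟩
    exact_mod_cast h2
  set K : ℝ := 6 * T / z with hK
  have hK0 : 0 ≤ K := by positivity
  have hNR : 0 ≤ (N : ℝ) / R + 1 := by positivity
  calc ∑ m ∈ Icc (M / 2) (3 * M), ∑ r ∈ Ioc R (2 * R), ∑ s1 ∈ Ioc S (2 * S), ∑ s2 ∈ Ioc S (2 * S),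
        ∑ n1 ∈ Ioc N (2 * N), ∑ n2 ∈ Ioc N (2 * N),
        (if Bd a P r s1 s2 n1 n2 then D2 (A r s1) r s1 (m * n1) * D2 (A r s2) r s2 (m * n2) else 0)
      ≤ ∑ m ∈ Icc (M / 2) (3 * M), ∑ r ∈ Ioc R (2 * R), ∑ s1 ∈ Ioc S (2 * S),
          ∑ s2 ∈ Ioc S (2 * S), ∑ n1 ∈ Ioc N (2 * N), ∑ n2 ∈ Ioc N (2 * N),
            G1 m r n1 * G2 r n1 n2 * G3 s1 s2 n1 n2 := by
        refine Finset.sum_le_sum fun m _ => Finset.sum_le_sum fun r _ =>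
          Finset.sum_le_sum fun s1 _ => Finset.sum_le_sum fun s2 _ =>
          Finset.sum_le_sum fun n1 _ => Finset.sum_le_sum fun n2 _ => hpt m r s1 s2 n1 n2
    _ = ∑ m ∈ Icc (M / 2) (3 * M), ∑ r ∈ Ioc R (2 * R), ∑ n1 ∈ Ioc N (2 * N),
          ∑ n2 ∈ Ioc N (2 * N), G1 m r n1 * G2 r n1 n2 *
            ∑ s1 ∈ Ioc S (2 * S), ∑ s2 ∈ Ioc S (2 * S), G3 s1 s2 n1 n2 := by
        refine Finset.sum_congr rfl fun m _ => Finset.sum_congr rfl fun r _ => ?_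
        rw [Eec_comm]
        refine Finset.sum_congr rfl fun n1 _ => Finset.sum_congr rfl fun n2 _ => ?_
        rw [Finset.mul_sum]
        refine Finset.sum_congr rfl fun s1 _ => ?_
        rw [Finset.mul_sum]
    _ ≤ ∑ m ∈ Icc (M / 2) (3 * M), ∑ r ∈ Ioc R (2 * R), ∑ n1 ∈ Ioc N (2 * N),
          ∑ n2 ∈ Ioc N (2 * N), G1 m r n1 * G2 r n1 n2 * K := by
        refine Finset.sum_le_sum fun m _ => Finset.sum_le_sum fun r _ =>
          Finset.sum_le_sum fun n1 hn1 => Finset.sum_le_sum fun n2 hn2 => ?_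
        exact mul_le_mul_of_nonneg_left (hin n1 hn1 n2 hn2)
          (mul_nonneg (hG1 _ _ _) (hG2 _ _ _))
    _ = ∑ m ∈ Icc (M / 2) (3 * M), ∑ r ∈ Ioc R (2 * R), ∑ n1 ∈ Ioc N (2 * N),
          G1 m r n1 * (K * ∑ n2 ∈ Ioc N (2 * N), G2 r n1 n2) := by
        refine Finset.sum_congr rfl fun m _ => Finset.sum_congr rfl fun r _ =>
          Finset.sum_congr rfl fun n1 _ => ?_
        rw [Finset.mul_sum, Finset.mul_sum]
        refine Finset.sum_congr rfl fun n2 _ => ?_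
        ring
    _ ≤ ∑ m ∈ Icc (M / 2) (3 * M), ∑ r ∈ Ioc R (2 * R), ∑ n1 ∈ Ioc N (2 * N),
          G1 m r n1 * (K * ((N : ℝ) / R + 1)) := by
        refine Finset.sum_le_sum fun m _ => Finset.sum_le_sum fun r hr =>
          Finset.sum_le_sum fun n1 _ => ?_
        exact mul_le_mul_of_nonneg_left
          (mul_le_mul_of_nonneg_left (hn2sum r hr n1) hK0) (hG1 _ _ _)
    _ = ∑ m ∈ Icc (M / 2) (3 * M), ∑ n1 ∈ Ioc N (2 * N),
          (∑ r ∈ Ioc R (2 * R), G1 m r n1) * (K * ((N : ℝ) / R + 1)) := by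
        refine Finset.sum_congr rfl fun m _ => ?_
        rw [Finset.sum_comm]
        refine Finset.sum_congr rfl fun n1 _ => ?_
        rw [Finset.sum_mul]
    _ = (∑ m ∈ Icc (M / 2) (3 * M), ∑ n1 ∈ Ioc N (2 * N), ∑ r ∈ Ioc R (2 * R), G1 m r n1) *
          (K * ((N : ℝ) / R + 1)) := by
        rw [Finset.sum_mul]
        refine Finset.sum_congr rfl fun m _ => ?_
        rw [Finset.sum_mul]
    _ ≤ 7 * T * ((M : ℝ) * N) * (K * ((N : ℝ) / R + 1)) :=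
        mul_le_mul_of_nonneg_right hrsum (mul_nonneg hK0 hNR)
    _ = 42 * T ^ 2 * ((M : ℝ) * N * (((N : ℝ) / R + 1) / z)) := by
        rw [hK]; ring
    _ ≤ 42 * T ^ 2 * ((M : ℝ) * N * (1 + N / ((R : ℝ) * z))) := by
        have e1 : ((N : ℝ) / R + 1) / z = 1 / z + N / ((R : ℝ) * z) := by
          field_simp
          ring
        have e2 : 1 / z ≤ 1 := by
          rw [div_le_one hz0]; exact hz
        rw [e1]
        gcongr

end Pool.Agent.Lib.ML
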