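import Pool.Agent.Lib.ML.SpecD

/-! MP_00e23e_nt, Lib/ML, module Eeq: both full, the classes differ at all common primes. -/

namespace Pool.Agent.Lib.ML

open Finset Pool.Agent.Lib.EH3 Pool.Agent.Lib.TB Pool.Agent.Results.MP_00e23e_nt Pool.Agent.Lib.MI

/-- numbers of an interval, pairwise congruent modulo q -/
private lemma Eeq_cnt (W : Finset ℕ) (a L q : ℕ) (hW : ∀ x ∈ W, a ≤ x ∧ x ≤ a + L)
    (hd : ∀ x ∈ W, ∀ y ∈ W, (q : ℤ) ∣ (x : ℤ) - y) : W.card ≤ L / q + 1 := by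
  have h1 : W.card ≤ (range (L / q + 1)).card := by
    refine card_le_card_of_injOn (fun x => (x - a) / q) ?_ ?_
    · intro x hx
      have h2 := hW x hx
      simp only [coe_range, Set.mem_Iio]
      exact Nat.lt_succ_of_le (Nat.div_le_div_right (by omega))
    · intro x hx y hy hxy
      simp only at hxy
      obtain ⟨hx1, _⟩ := hW x hx
      obtain ⟨hy1, _⟩ := hW y hy
      have h3 := hd y hy x hx
      have h2 : (x - a) % q = (y - a) % q := by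
        have h5 : (x - a) ≡ (y - a) [MOD q] := by
          rw [← Int.natCast_modEq_iff, Int.modEq_iff_dvd, Nat.cast_sub hx1, Nat.cast_sub hy1]
          have h6 : (y : ℤ) - a - ((x : ℤ) - a) = y - x := by ring
          rw [h6]
          exact h3
        exact h5
      have h4 := Nat.div_add_mod (x - a) q
      have h5 := Nat.div_add_mod (y - a) q
      rw [hxy, h2] at h4
      omega
  rwa [card_range] at h1

private lemma Eeq_cop {m n q a : ℤ} (h : IsCoprime a q) (hd : q ∣ m * n - a) :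
    IsCoprime m q ∧ IsCoprime n q := by
  obtain ⟨t, ht⟩ := hd
  have h1 : m * n = a + q * t := by linarith
  have h2 : IsCoprime (m * n) q := by
    rw [h1]
    exact IsCoprime.add_mul_left_left h t
  exact ⟨h2.of_mul_left_left, h2.of_mul_left_right⟩

/-- the number of pairs (n1, n2) -/
private lemma Eeq_pairs (N r s1 s2 : ℕ) (A1 A2 bb : ℤ) (hr : 1 ≤ r)
    (g1 : IsCoprime A1 ((r * s1 : ℕ) : ℤ)) (d1 : (r : ℤ) ∣ A1 - bb) (d2 : (r : ℤ) ∣ A2 - bb)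
    (hp : ∀ p : ℕ, p.Prime → p ∣ s1 → p ∣ s2 → ¬ (p : ℤ) ∣ A1 - A2) (he : Nat.gcd s1 s2 ≠ 1)
    (F : Finset (ℕ × ℕ)) (hF : ∀ w ∈ F, w.1 ∈ Ioc N (2 * N) ∧ w.2 ∈ Ioc N (2 * N) ∧
      ∃ m : ℕ, ((r * s1 : ℕ) : ℤ) ∣ ((m * w.1 : ℕ) : ℤ) - A1 ∧
        ((r * s2 : ℕ) : ℤ) ∣ ((m * w.2 : ℕ) : ℤ) - A2) :
    F.card ≤ (N / Nat.gcd s1 s2 + 1) * (2 * (N / r)) := by
  classical
  set e := Nat.gcd s1 s2 with hedef
  have e1 : (e : ℤ) ∣ ((r * s1 : ℕ) : ℤ) := by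
    exact_mod_cast (Nat.gcd_dvd_left s1 s2).mul_left r
  have e2 : (e : ℤ) ∣ ((r * s2 : ℕ) : ℤ) := by
    exact_mod_cast (Nat.gcd_dvd_right s1 s2).mul_left r
  have r1 : (r : ℤ) ∣ ((r * s1 : ℕ) : ℤ) := by
    exact_mod_cast Dvd.intro _ rfl
  have r2 : (r : ℤ) ∣ ((r * s2 : ℕ) : ℤ) := by
    exact_mod_cast Dvd.intro _ rfl
  have hcop : IsCoprime (e : ℤ) (A2 - A1) := by
    rw [Int.isCoprime_iff_gcd_eq_one]
    have h1 : Nat.Coprime e (A2 - A1).natAbs := by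
      refine Nat.coprime_of_dvd fun p hpp hpe hpA => ?_
      refine hp p hpp (hpe.trans (Nat.gcd_dvd_left _ _)) (hpe.trans (Nat.gcd_dvd_right _ _)) ?_
      have h2 : (p : ℤ) ∣ A2 - A1 := Int.natCast_dvd.2 hpA
      have h3 : A1 - A2 = -(A2 - A1) := by ring
      rw [h3]
      exact h2.neg_right
    exact h1
  -- the divisibility relations
  have key : ∀ w ∈ F, (r : ℤ) ∣ (w.2 : ℤ) - w.1 ∧ (w.2 : ℤ) - w.1 ≠ 0 ∧
      (e : ℤ) ∣ (w.1 : ℤ) * A2 - w.2 * A1 := by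
    intro w hw
    obtain ⟨h1, h2, m, hm1, hm2⟩ := hF w hw
    push_cast at hm1 hm2
    push_cast at e1 e2 r1 r2 g1
    obtain ⟨c1, c2⟩ := Eeq_cop g1 hm1
    have c3 : IsCoprime (r : ℤ) m := (c1.of_isCoprime_of_dvd_right r1).symm
    have f3 : (r : ℤ) ∣ (w.2 : ℤ) - w.1 := by
      refine c3.dvd_of_dvd_mul_left (y := (m : ℤ)) ?_
      have h3 : (m : ℤ) * ((w.2 : ℤ) - w.1) = ((m : ℤ) * w.2 - A2) - ((m : ℤ) * w.1 - A1) +
          ((A2 - bb) - (A1 - bb)) := by ring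
      rw [h3]
      exact dvd_add (dvd_sub (r2.trans hm2) (r1.trans hm1)) (dvd_sub d2 d1)
    have f5 : (e : ℤ) ∣ (w.1 : ℤ) * A2 - w.2 * A1 := by
      have h3 : (w.1 : ℤ) * A2 - w.2 * A1 = (w.2 : ℤ) * ((m : ℤ) * w.1 - A1) -
          (w.1 : ℤ) * ((m : ℤ) * w.2 - A2) := by ring
      rw [h3]
      exact dvd_sub ((e1.trans hm1).mul_left _) ((e2.trans hm2).mul_left _)
    refine ⟨f3, fun h0 => ?_, f5⟩
    obtain ⟨p, hpp, hpe⟩ := Nat.exists_prime_and_dvd he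
    have hpe' : (p : ℤ) ∣ (e : ℤ) := by exact_mod_cast hpe
    refine hp p hpp (hpe.trans (Nat.gcd_dvd_left _ _)) (hpe.trans (Nat.gcd_dvd_right _ _)) ?_
    have h4 : (w.2 : ℤ) = w.1 := by linarith
    rw [h4] at hm2
    have h5 : A1 - A2 = ((m : ℤ) * w.1 - A2) - ((m : ℤ) * w.1 - A1) := by ring
    rw [h5]
    exact dvd_sub ((hpe'.trans e2).trans hm2) ((hpe'.trans e1).trans hm1)
  have h1 := card_le_mul_card_image (f := fun w : ℕ × ℕ => (w.2 : ℤ) - w.1) F (N / e + 1) (by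
    intro d _
    have h2 : (F.filter fun w : ℕ × ℕ => (w.2 : ℤ) - w.1 = d).card =
        ((F.filter fun w : ℕ × ℕ => (w.2 : ℤ) - w.1 = d).image Prod.fst).card := by
      refine (card_image_of_injOn ?_).symm
      intro w hw w' hw' hww
      have a1 := (mem_filter.1 hw).2
      have a2 := (mem_filter.1 hw').2
      have a3 : w.1 = w'.1 := hww
      refine Prod.ext a3 ?_
      rw [a3] at a1
      have a4 : (w.2 : ℤ) = w'.2 := by linarith
      exact_mod_cast a4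
    rw [h2]
    refine Eeq_cnt _ N N e ?_ ?_
    · intro x hx
      obtain ⟨w, hw, rfl⟩ := mem_image.1 hx
      have h3 := (hF w (mem_filter.1 hw).1).1
      rw [mem_Ioc] at h3
      omega
    · intro x hx y hy
      obtain ⟨w, hw, rfl⟩ := mem_image.1 hx
      obtain ⟨w', hw', rfl⟩ := mem_image.1 hy
      obtain ⟨b1, b2⟩ := mem_filter.1 hw
      obtain ⟨b3, b4⟩ := mem_filter.1 hw'
      have h4 := dvd_sub (key w b1).2.2 (key w' b3).2.2
      refine hcop.dvd_of_dvd_mul_right (z := A2 - A1) ?_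
      have h5 : ((w.1 : ℤ) - w'.1) * (A2 - A1) = ((w.1 : ℤ) * A2 - w.2 * A1) -
          ((w'.1 : ℤ) * A2 - w'.2 * A1) := by
        linear_combination A1 * b2 - A1 * b4
      rw [h5]
      exact h4)
  have h2 : (F.image fun w : ℕ × ℕ => (w.2 : ℤ) - w.1).card ≤ 2 * (N / r) := by
    have h3 : (F.image fun w : ℕ × ℕ => (w.2 : ℤ) - w.1) ⊆
        ((Icc (-((N / r : ℕ) : ℤ)) ((N / r : ℕ) : ℤ)).erase 0).image (fun k => (r : ℤ) * k) := by
      intro d hd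
      obtain ⟨w, hw, rfl⟩ := mem_image.1 hd
      obtain ⟨⟨k, hk⟩, a2, _⟩ := key w hw
      have b1 := (hF w hw).1
      have b2 := (hF w hw).2.1
      rw [mem_Ioc] at b1 b2
      refine mem_image.2 ⟨k, ?_, hk.symm⟩
      rw [mem_erase, mem_Icc]
      refine ⟨fun h0 => a2 (by rw [hk, h0, mul_zero]), ?_⟩
      rw [← abs_le]
      have h4 : (k.natAbs * r : ℕ) ≤ N := by
        have h5 : |(w.2 : ℤ) - w.1| ≤ N := by
          rw [abs_le]
          omega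
        rw [hk, abs_mul, Nat.abs_cast] at h5
        have h6 : ((k.natAbs * r : ℕ) : ℤ) ≤ N := by
          push_cast
          linarith
        exact_mod_cast h6
      have h5 : k.natAbs ≤ N / r := (Nat.le_div_iff_mul_le hr).2 h4
      rw [Int.abs_eq_natAbs]
      exact_mod_cast h5
    refine (card_le_card h3).trans (card_image_le.trans ?_)
    rw [card_erase_of_mem (mem_Icc.2 ⟨neg_nonpos.2 (Int.natCast_nonneg _), Int.natCast_nonneg _⟩), Int.card_Icc]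
    omega
  exact h1.trans (Nat.mul_le_mul_left _ h2)

/-- the number of m -/
private lemma Eeq_ms (M R S r s1 s2 n1 n2 : ℕ) (A1 A2 : ℤ) (hR : 1 ≤ R) (hS : 1 ≤ S) (hr : R < r)
    (h1 : S < s1) (h2 : S < s2) (g1 : IsCoprime A1 ((r * s1 : ℕ) : ℤ))
    (g2 : IsCoprime A2 ((r * s2 : ℕ) : ℤ)) (Q : Finset ℕ)
    (hQ : ∀ m ∈ Q, m ∈ Icc (M / 2) (3 * M) ∧ ((r * s1 : ℕ) : ℤ) ∣ ((m * n1 : ℕ) : ℤ) - A1 ∧
        ((r * s2 : ℕ) : ℤ) ∣ ((m * n2 : ℕ) : ℤ) - A2) :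
    (Q.card : ℝ) ≤ 3 * M * (Nat.gcd s1 s2 : ℝ) / (R * (S : ℝ) ^ 2) + 1 := by
  set q := Nat.lcm (r * s1) (r * s2) with hq
  have hqe : Nat.gcd s1 s2 * q = r * (s1 * s2) := by
    rw [hq, Nat.lcm_mul_left, ← Nat.gcd_mul_lcm s1 s2]
    ring
  have hc : Q.card ≤ (3 * M) / q + 1 := by
    refine Eeq_cnt Q 0 (3 * M) q ?_ ?_
    · intro x hx
      have h3 := mem_Icc.1 (hQ x hx).1
      exact ⟨Nat.zero_le _, by omega⟩
    · intro x hx y hy
      obtain ⟨-, a1, a2⟩ := hQ x hx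
      obtain ⟨-, b1, b2⟩ := hQ y hy
      have k1 : ((r * s1 : ℕ) : ℤ) ∣ (x : ℤ) - y := by
        rw [Nat.cast_mul (α := ℤ) x] at a1
        rw [Nat.cast_mul (α := ℤ) y] at b1
        refine (Eeq_cop g1 a1).2.symm.dvd_of_dvd_mul_right (z := (n1 : ℤ)) ?_
        have h4 : ((x : ℤ) - y) * n1 = ((x : ℤ) * n1 - A1) - ((y : ℤ) * n1 - A1) := by ring
        rw [h4]
        exact dvd_sub a1 b1
      have k2 : ((r * s2 : ℕ) : ℤ) ∣ (x : ℤ) - y := by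
        rw [Nat.cast_mul (α := ℤ) x] at a2
        rw [Nat.cast_mul (α := ℤ) y] at b2
        refine (Eeq_cop g2 a2).2.symm.dvd_of_dvd_mul_right (z := (n2 : ℤ)) ?_
        have h4 : ((x : ℤ) - y) * n2 = ((x : ℤ) * n2 - A2) - ((y : ℤ) * n2 - A2) := by ring
        rw [h4]
        exact dvd_sub a2 b2
      rw [Int.natCast_dvd] at k1 k2 ⊢
      exact Nat.lcm_dvd k1 k2
  have hR' : (0 : ℝ) < R := by exact_mod_cast hR
  have hS' : (0 : ℝ) < S := by exact_mod_cast hS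
  have hqe' : (Nat.gcd s1 s2 : ℝ) * q = r * (s1 * s2) := by exact_mod_cast hqe
  have hbig : (R : ℝ) * (S : ℝ) ^ 2 ≤ (Nat.gcd s1 s2 : ℝ) * q := by
    rw [hqe']
    have c1 : (R : ℝ) ≤ r := by exact_mod_cast hr.le
    have c2 : (S : ℝ) ≤ s1 := by exact_mod_cast h1.le
    have c3 : (S : ℝ) ≤ s2 := by exact_mod_cast h2.le
    rw [pow_two]
    gcongr
  have hq0 : 0 < q := by
    rw [hq]
    exact Nat.lcm_pos (Nat.mul_pos (by omega) (by omega)) (Nat.mul_pos (by omega) (by omega))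
  have hq0' : (0 : ℝ) < q := by exact_mod_cast hq0
  have h3 : (Q.card : ℝ) ≤ (3 * M : ℝ) / q + 1 := by
    have h4 : (Q.card : ℝ) ≤ (((3 * M) / q : ℕ) : ℝ) + 1 := by exact_mod_cast hc
    have h5 : (((3 * M) / q : ℕ) : ℝ) ≤ ((3 * M : ℕ) : ℝ) / q := Nat.cast_div_le
    push_cast at h5
    linarith
  refine h3.trans ?_
  have h6 : (3 * M : ℝ) / q ≤ 3 * M * (Nat.gcd s1 s2 : ℝ) / (R * (S : ℝ) ^ 2) := by
    rw [div_le_div_iff₀ hq0' (by positivity)]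
    calc (3 * M : ℝ) * (R * (S : ℝ) ^ 2) ≤ 3 * M * ((Nat.gcd s1 s2 : ℝ) * q) := by gcongr
      _ = 3 * M * (Nat.gcd s1 s2 : ℝ) * q := by ring
  linarith

private lemma Eeq_sq (W : Finset ℕ) (g : ℝ) (f : ℕ → ℝ) :
    ∑ s1 ∈ W, ∑ s2 ∈ W, g * (f s1 * f s2) = g * (∑ s ∈ W, f s) ^ 2 := by
  rw [pow_two, sum_mul_sum, mul_sum]
  exact sum_congr rfl fun s1 _ => (mul_sum _ _ _).symm

/-- the sums over e -/
private lemma Eeq_sum (y : ℝ) (K : ℕ) (hy : 1 ≤ y) (E : Finset ℕ) (hE : ∀ e ∈ E, y < e ∧ e ≤ K) :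
    ∑ e ∈ E, ((e : ℝ) ^ 2)⁻¹ ≤ 2 / y := by
  set k := ⌊y⌋₊ with hk
  have hk1 : 1 ≤ k := Nat.le_floor (by exact_mod_cast hy)
  have hk0 : (0 : ℝ) < k := by exact_mod_cast hk1
  have hyk : y < k + 1 := Nat.lt_floor_add_one y
  have hk2 : y ≤ 2 * k := by
    have : (1 : ℝ) ≤ k := by exact_mod_cast hk1
    linarith
  have h1 : E ⊆ Ioc k (max k K) := by
    intro e he
    obtain ⟨h2, h3⟩ := hE e he
    rw [mem_Ioc]
    refine ⟨?_, h3.trans (le_max_right _ _)⟩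
    have h4 : (k : ℝ) ≤ y := Nat.floor_le (by linarith)
    exact_mod_cast h4.trans_lt h2
  refine (sum_le_sum_of_subset_of_nonneg h1 fun i _ _ => by positivity).trans ?_
  refine (sum_Ioc_inv_sq_le_sub (by omega) (le_max_left k K)).trans ?_
  have h5 : (0 : ℝ) ≤ ((max k K : ℕ) : ℝ)⁻¹ := by positivity
  have h6 : ((k : ℝ))⁻¹ ≤ 2 / y := by
    rw [inv_eq_one_div, div_le_div_iff₀ hk0 (by linarith)]
    linarith
  linarith

open Classical in
/-- both full, the classes differ at all common primes -/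
theorem tEeq : EeqStmt := by
  intro X T z z1 A b R S M N P hSz hz1 hSN hPr
  obtain ⟨hT, hz, hR, hS, hN, hM, hRN, hX, hRS⟩ := hSz
  obtain ⟨hPr1, hPr2⟩ := hPr
  have hR0 : (0 : ℝ) < R := by exact_mod_cast hR
  have hS0 : (0 : ℝ) < S := by exact_mod_cast hS
  have hN0 : (0 : ℝ) < N := by exact_mod_cast hN
  -- the bound for one triple
  set G : ℕ → ℝ := fun e => (2 * N / e) * (2 * N / R) *
    (3 * M * e / (R * (S : ℝ) ^ 2) + 1) with hG
  have hG0 : ∀ e, 0 ≤ G e := fun e => by positivity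
  set E : Finset ℕ := (Icc 1 (2 * S)).filter (fun e => z < e ∧ z1 < e) with hE
  set cond : ℕ → ℕ → ℕ → Prop := fun r s1 s2 => (r, s1) ∈ P ∧ (r, s2) ∈ P ∧ ¬ s1.Coprime s2 ∧
    (∀ p : ℕ, p.Prime → p ∣ s1 → p ∣ s2 → ¬ (p : ℤ) ∣ A r s1 - A r s2) with hcond
  have one : ∀ r s1 s2 : ℕ, ∑ m ∈ Icc (M / 2) (3 * M), ∑ n1 ∈ Ioc N (2 * N),
      ∑ n2 ∈ Ioc N (2 * N), (if cond r s1 s2 then
        D1 (A r s1) r s1 (m * n1) * D1 (A r s2) r s2 (m * n2) else 0) ≤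
      ∑ e ∈ E, if e ∣ s1 ∧ e ∣ s2 then G e else 0 := by
    intro r s1 s2
    have hnn : (0 : ℝ) ≤ ∑ e ∈ E, if e ∣ s1 ∧ e ∣ s2 then G e else 0 := by
      refine sum_nonneg fun e _ => ?_
      split_ifs
      · exact hG0 e
      · exact le_rfl
    by_cases hc : cond r s1 s2
    swap
    · simp only [if_neg hc, sum_const_zero]
      exact hnn
    simp only [if_pos hc]
    obtain ⟨w1, w2, w3, w4⟩ := hc
    obtain ⟨p1, p2, p3, p4, p5, p6, p7, p8⟩ := hPr1 _ w1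
    obtain ⟨q1, q2, q3, q4, q5, q6, q7, q8⟩ := hPr1 _ w2
    simp only at p1 p2 p3 p4 p5 p6 p7 p8 q1 q2 q3 q4 q5 q6 q7 q8
    have g1 : IsCoprime (A r s1) ((r * s1 : ℕ) : ℤ) := Int.isCoprime_iff_gcd_eq_one.2 p6
    have g2 : IsCoprime (A r s2) ((r * s2 : ℕ) : ℤ) := Int.isCoprime_iff_gcd_eq_one.2 q6
    have he1 : Nat.gcd s1 s2 ≠ 1 := w3
    set e := Nat.gcd s1 s2 with hedef
    have hed1 : e ∣ s1 := Nat.gcd_dvd_left _ _
    have hed2 : e ∣ s2 := Nat.gcd_dvd_right _ _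
    have he0 : 1 ≤ e := Nat.gcd_pos_of_pos_left _ (by omega)
    have he2 : e ≤ 2 * S := (Nat.le_of_dvd (by omega) hed1).trans p4
    have heE : e ∈ E := by
      obtain ⟨p, hpp, hpe⟩ := Nat.exists_prime_and_dvd he1
      have hple : (p : ℝ) ≤ e := by exact_mod_cast Nat.le_of_dvd he0 hpe
      rw [hE, mem_filter, mem_Icc]
      refine ⟨⟨he0, he2⟩, (p8 p hpp (hpe.trans hed1)).trans_le hple, ?_⟩
      refine lt_of_lt_of_le ?_ hple
      by_contra hcon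
      push Not at hcon
      exact w4 p hpp (hpe.trans hed1) (hpe.trans hed2)
        (hPr2 r s1 s2 p w1 w2 hpp (hpe.trans hed1) (hpe.trans hed2) hcon)
    have he0' : (0 : ℝ) < e := by exact_mod_cast he0
    -- it suffices to bound by `G e`
    have hle : G e ≤ ∑ e ∈ E, if e ∣ s1 ∧ e ∣ s2 then G e else 0 := by
      have h3 := single_le_sum (s := E) (f := fun e => if e ∣ s1 ∧ e ∣ s2 then G e else 0)
        (fun e _ => by
          split_ifs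
          · exact hG0 e
          · exact le_rfl) heE
      simp only [hed1, hed2, and_self, if_true] at h3
      exact h3
    refine le_trans ?_ hle
    set F : Finset (ℕ × ℕ) := (Ioc N (2 * N) ×ˢ Ioc N (2 * N)).filter (fun w =>
      ∃ m : ℕ, ((r * s1 : ℕ) : ℤ) ∣ ((m * w.1 : ℕ) : ℤ) - A r s1 ∧
        ((r * s2 : ℕ) : ℤ) ∣ ((m * w.2 : ℕ) : ℤ) - A r s2) with hF
    have hFc := Eeq_pairs N r s1 s2 (A r s1) (A r s2) (b r) (by omega) g1 p7 q7 w4 he1 F (by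
      intro w hw
      rw [hF, mem_filter, mem_product] at hw
      exact ⟨hw.1.1, hw.1.2, hw.2⟩)
    have hFc' : (F.card : ℝ) ≤ (2 * N / e) * (2 * N / R) := by
      have h3 : (F.card : ℝ) ≤ (((N / e : ℕ) : ℝ) + 1) * (2 * ((N / r : ℕ) : ℝ)) := by
        exact_mod_cast hFc
      refine h3.trans ?_
      have h4 : ((N / e : ℕ) : ℝ) ≤ (N : ℝ) / e := Nat.cast_div_le
      have h5 : ((N / r : ℕ) : ℝ) ≤ (N : ℝ) / r := Nat.cast_div_le
      have h6 : (1 : ℝ) ≤ (N : ℝ) / e := by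
        rw [le_div_iff₀ he0', one_mul]
        exact_mod_cast he2.trans hSN
      have h7 : (N : ℝ) / r ≤ (N : ℝ) / R := by
        refine div_le_div_of_nonneg_left hN0.le hR0 ?_
        exact_mod_cast p1.le
      have h8 : ((N / e : ℕ) : ℝ) + 1 ≤ 2 * N / e := by
        rw [mul_div_assoc]
        linarith
      have h9 : 2 * ((N / r : ℕ) : ℝ) ≤ 2 * N / R := by
        rw [mul_div_assoc]
        linarith
      exact mul_le_mul h8 h9 (by positivity) (by positivity)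
    calc ∑ m ∈ Icc (M / 2) (3 * M), ∑ n1 ∈ Ioc N (2 * N), ∑ n2 ∈ Ioc N (2 * N),
          D1 (A r s1) r s1 (m * n1) * D1 (A r s2) r s2 (m * n2)
        = ∑ w ∈ Ioc N (2 * N) ×ˢ Ioc N (2 * N), ∑ m ∈ Icc (M / 2) (3 * M),
          D1 (A r s1) r s1 (m * w.1) * D1 (A r s2) r s2 (m * w.2) := by
          rw [sum_comm (s := Ioc N (2 * N) ×ˢ Ioc N (2 * N))]
          refine sum_congr rfl fun m _ => ?_
          rw [sum_product]
      _ ≤ ∑ w ∈ Ioc N (2 * N) ×ˢ Ioc N (2 * N),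
          if ∃ m : ℕ, ((r * s1 : ℕ) : ℤ) ∣ ((m * w.1 : ℕ) : ℤ) - A r s1 ∧
            ((r * s2 : ℕ) : ℤ) ∣ ((m * w.2 : ℕ) : ℤ) - A r s2 then
              (3 * M * (e : ℝ) / (R * (S : ℝ) ^ 2) + 1) else 0 := by
          refine sum_le_sum fun w _ => ?_
          have hD : ∀ m : ℕ, D1 (A r s1) r s1 (m * w.1) * D1 (A r s2) r s2 (m * w.2) =
              if ((r * s1 : ℕ) : ℤ) ∣ ((m * w.1 : ℕ) : ℤ) - A r s1 ∧
                ((r * s2 : ℕ) : ℤ) ∣ ((m * w.2 : ℕ) : ℤ) - A r s2 then (1 : ℝ) else 0 := by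
            intro m
            unfold D1
            by_cases c1 : ((r * s1 : ℕ) : ℤ) ∣ ((m * w.1 : ℕ) : ℤ) - A r s1
            · by_cases c2 : ((r * s2 : ℕ) : ℤ) ∣ ((m * w.2 : ℕ) : ℤ) - A r s2
              · rw [if_pos c1, if_pos c2, if_pos ⟨c1, c2⟩, one_mul]
              · rw [if_neg c2, mul_zero, if_neg fun h => c2 h.2]
            · rw [if_neg c1, zero_mul, if_neg fun h => c1 h.1]
          rw [sum_congr rfl fun m _ => hD m]
          split_ifs with hex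
          · rw [sum_boole]
            refine Eeq_ms M R S r s1 s2 w.1 w.2 (A r s1) (A r s2) hR hS p1 p3 q3 g1 g2 _ ?_
            intro m hm
            exact mem_filter.1 hm
          · refine le_of_eq (sum_eq_zero fun m _ => ?_)
            rw [if_neg fun h => hex ⟨m, h⟩]
      _ = (F.card : ℝ) * (3 * M * (e : ℝ) / (R * (S : ℝ) ^ 2) + 1) := by
          rw [hF, ← sum_filter, sum_const, nsmul_eq_mul]
      _ ≤ G e := by
          refine mul_le_mul_of_nonneg_right hFc' (by positivity)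
  -- the sum over the triples
  have hmul : ∀ e : ℕ, 1 ≤ e → (((Ioc S (2 * S)).filter (fun s => e ∣ s)).card : ℝ) ≤ 2 * S / e := by
    intro e he
    have h3 : ((Ioc S (2 * S)).filter (fun s => e ∣ s)).card ≤ (2 * S) / e := by
      rw [← Nat.Ioc_filter_dvd_card_eq_div (2 * S) e]
      refine card_le_card (filter_subset_filter _ ?_)
      exact Ioc_subset_Ioc_left (Nat.zero_le _)
    have h4 : (((Ioc S (2 * S)).filter (fun s => e ∣ s)).card : ℝ) ≤ (((2 * S) / e : ℕ) : ℝ) := by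
      exact_mod_cast h3
    refine h4.trans (Nat.cast_div_le.trans (le_of_eq ?_))
    push_cast
    ring
  have hpair : ∑ s1 ∈ Ioc S (2 * S), ∑ s2 ∈ Ioc S (2 * S),
      ∑ e ∈ E, (if e ∣ s1 ∧ e ∣ s2 then G e else 0) ≤ ∑ e ∈ E, G e * (2 * S / e) ^ 2 := by
    have h3 : ∑ s1 ∈ Ioc S (2 * S), ∑ s2 ∈ Ioc S (2 * S),
        ∑ e ∈ E, (if e ∣ s1 ∧ e ∣ s2 then G e else 0) =
        ∑ e ∈ E, G e * ((((Ioc S (2 * S)).filter (fun s => e ∣ s)).card : ℝ) ^ 2) := by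
      have h4 : ∀ s1 ∈ Ioc S (2 * S), ∑ s2 ∈ Ioc S (2 * S),
          ∑ e ∈ E, (if e ∣ s1 ∧ e ∣ s2 then G e else 0) =
          ∑ e ∈ E, ∑ s2 ∈ Ioc S (2 * S), (if e ∣ s1 ∧ e ∣ s2 then G e else 0) :=
        fun s1 _ => sum_comm
      rw [sum_congr rfl h4, sum_comm]
      refine sum_congr rfl fun e _ => ?_
      have h5 : ∀ s1 s2 : ℕ, (if e ∣ s1 ∧ e ∣ s2 then G e else 0) =
          G e * ((if e ∣ s1 then (1 : ℝ) else 0) * (if e ∣ s2 then (1 : ℝ) else 0)) := by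
        intro s1 s2
        by_cases c1 : e ∣ s1 <;> by_cases c2 : e ∣ s2 <;> simp [c1, c2]
      simp only [h5]
      rw [Eeq_sq (Ioc S (2 * S)) (G e) (fun s => if e ∣ s then (1 : ℝ) else 0), sum_boole]
    rw [h3]
    refine sum_le_sum fun e he => ?_
    have he1 : 1 ≤ e := (mem_Icc.1 (mem_filter.1 he).1).1
    exact mul_le_mul_of_nonneg_left (pow_le_pow_left₀ (by positivity) (hmul e he1) 2) (hG0 e)
  have hswap : ∑ m ∈ Icc (M / 2) (3 * M), ∑ r ∈ Ioc R (2 * R), ∑ s1 ∈ Ioc S (2 * S),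
      ∑ s2 ∈ Ioc S (2 * S), ∑ n1 ∈ Ioc N (2 * N), ∑ n2 ∈ Ioc N (2 * N),
        (if cond r s1 s2 then D1 (A r s1) r s1 (m * n1) * D1 (A r s2) r s2 (m * n2) else 0) =
      ∑ r ∈ Ioc R (2 * R), ∑ s1 ∈ Ioc S (2 * S), ∑ s2 ∈ Ioc S (2 * S),
        ∑ m ∈ Icc (M / 2) (3 * M), ∑ n1 ∈ Ioc N (2 * N), ∑ n2 ∈ Ioc N (2 * N),
        (if cond r s1 s2 then D1 (A r s1) r s1 (m * n1) * D1 (A r s2) r s2 (m * n2) else 0) := by
    rw [sum_comm]
    refine sum_congr rfl fun r _ => ?_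
    rw [sum_comm]
    refine sum_congr rfl fun s1 _ => ?_
    rw [sum_comm]
  refine (le_of_eq hswap).trans ?_
  have h10 : ∑ r ∈ Ioc R (2 * R), ∑ s1 ∈ Ioc S (2 * S), ∑ s2 ∈ Ioc S (2 * S),
        ∑ m ∈ Icc (M / 2) (3 * M), ∑ n1 ∈ Ioc N (2 * N), ∑ n2 ∈ Ioc N (2 * N),
        (if cond r s1 s2 then D1 (A r s1) r s1 (m * n1) * D1 (A r s2) r s2 (m * n2) else 0) ≤
      ∑ r ∈ Ioc R (2 * R), ∑ e ∈ E, G e * (2 * S / e) ^ 2 := by
    refine sum_le_sum fun r _ => (le_trans ?_ hpair)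
    exact sum_le_sum fun s1 _ => sum_le_sum fun s2 _ => one r s1 s2
  refine h10.trans ?_
  rw [sum_const, Nat.card_Ioc, nsmul_eq_mul]
  have hcR : ((2 * R - R : ℕ) : ℝ) = R := by
    have : 2 * R - R = R := by omega
    rw [this]
  rw [hcR, mul_sum]
  have hterm : ∀ e ∈ E, (R : ℝ) * (G e * (2 * S / e) ^ 2) =
      48 * (M * (N : ℝ) ^ 2 / R) * ((e : ℝ) ^ 2)⁻¹ +
        16 * ((N : ℝ) ^ 2 * (S : ℝ) ^ 2) * (((e : ℝ) ^ 2)⁻¹ * (e : ℝ)⁻¹) := by
    intro e he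
    have he1 : 1 ≤ e := (mem_Icc.1 (mem_filter.1 he).1).1
    have he0 : (0 : ℝ) < e := by exact_mod_cast he1
    simp only [hG]
    field_simp
    ring
  rw [sum_congr rfl hterm, sum_add_distrib, ← mul_sum, ← mul_sum]
  have s1' : ∑ e ∈ E, ((e : ℝ) ^ 2)⁻¹ ≤ 2 / z := Eeq_sum z (2 * S) hz E fun e he => by
    have h3 := mem_filter.1 he
    exact ⟨h3.2.1, (mem_Icc.1 h3.1).2⟩
  have s2' : ∑ e ∈ E, ((e : ℝ) ^ 2)⁻¹ ≤ 2 / z1 := Eeq_sum z1 (2 * S) hz1 E fun e he => by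
    have h3 := mem_filter.1 he
    exact ⟨h3.2.2, (mem_Icc.1 h3.1).2⟩
  have s3' : ∑ e ∈ E, (((e : ℝ) ^ 2)⁻¹ * (e : ℝ)⁻¹) ≤ 2 / z1 ^ 2 := by
    calc ∑ e ∈ E, (((e : ℝ) ^ 2)⁻¹ * (e : ℝ)⁻¹) ≤ ∑ e ∈ E, (((e : ℝ) ^ 2)⁻¹ * z1⁻¹) := by
          refine sum_le_sum fun e he => mul_le_mul_of_nonneg_left ?_ (by positivity)
          exact inv_anti₀ (by linarith) (mem_filter.1 he).2.2.le
      _ = (∑ e ∈ E, ((e : ℝ) ^ 2)⁻¹) * z1⁻¹ := by rw [sum_mul]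
      _ ≤ (2 / z1) * z1⁻¹ := mul_le_mul_of_nonneg_right s2' (by positivity)
      _ = 2 / z1 ^ 2 := by
          field_simp
  calc 48 * (M * (N : ℝ) ^ 2 / R) * (∑ e ∈ E, ((e : ℝ) ^ 2)⁻¹) +
        16 * ((N : ℝ) ^ 2 * (S : ℝ) ^ 2) * ∑ e ∈ E, (((e : ℝ) ^ 2)⁻¹ * (e : ℝ)⁻¹)
      ≤ 48 * (M * (N : ℝ) ^ 2 / R) * (2 / z) + 16 * ((N : ℝ) ^ 2 * (S : ℝ) ^ 2) * (2 / z1 ^ 2) := by
        gcongr
    _ ≤ 100 * ((M : ℝ) * N * (N / ((R : ℝ) * z)) + (N : ℝ) ^ 2 * (S : ℝ) ^ 2 / z1 ^ 2) := by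
        have hz0 : 0 < z := by linarith
        have hz10 : 0 < z1 := by linarith
        have t1 : 0 ≤ (M : ℝ) * N * (N / ((R : ℝ) * z)) := by positivity
        have t2 : 0 ≤ (N : ℝ) ^ 2 * (S : ℝ) ^ 2 / z1 ^ 2 := by positivity
        have t3 : 48 * (M * (N : ℝ) ^ 2 / R) * (2 / z) = 96 * ((M : ℝ) * N * (N / ((R : ℝ) * z))) := by
          field_simp
          ring
        have t4 : 16 * ((N : ℝ) ^ 2 * (S : ℝ) ^ 2) * (2 / z1 ^ 2) =
            32 * ((N : ℝ) ^ 2 * (S : ℝ) ^ 2 / z1 ^ 2) := by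
          field_simp
          ring
        rw [t3, t4]
        linarith

end Pool.Agent.Lib.ML
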