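import Pool.Agent.Lib.ML.SpecD

namespace Pool.Agent.Lib.ML

open Finset Pool.Agent.Lib.EH3 Pool.Agent.Lib.TB Pool.Agent.Results.MP_00e23e_nt Pool.Agent.Lib.MI

/-!
MP_00e23e_nt, directory Lib/ML, module Efi: the final statement DspStmt of the dispersion chapter from EcpStmt, DcaStmt,
DexStmt, EbaStmt, DgoStmt.
-/

private lemma Efi_num (R M N S H T z z1 B : ℝ) (hR : 0 < R) (hM : 0 < M) (hN : 0 < N) (hS : 0 < S) (hH : 0 < H)
    (hT : 1 ≤ T) (hz : 1 ≤ z) (hz1 : 1 ≤ z1) (hB : 0 ≤ B) :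
    R * M * ((4 * N / R * B + 32 * (R * S ^ 4 * N ^ 2) / (M * H)) +
      1000 * T ^ 5 * (M * N * (1 + N / (R * z)) + N ^ 2 * S ^ 2 / z1 ^ 2)) ≤
    1000 * T ^ 5 * (R * M ^ 2 * N + M ^ 2 * N ^ 2 / z + R ^ 2 * S ^ 4 * N ^ 2 / H +
      R * M * N ^ 2 * S ^ 2 / z1 ^ 2 + M * N * B) := by
  have hz0 : 0 < z := by linarith
  have hz10 : 0 < z1 := by linarith
  have hT5 : (1 : ℝ) ≤ T ^ 5 := one_le_pow₀ hT
  have e : R * M * ((4 * N / R * B + 32 * (R * S ^ 4 * N ^ 2) / (M * H)) +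
      1000 * T ^ 5 * (M * N * (1 + N / (R * z)) + N ^ 2 * S ^ 2 / z1 ^ 2)) =
      4 * (M * N * B) + 32 * (R ^ 2 * S ^ 4 * N ^ 2 / H) + 1000 * T ^ 5 * (R * M ^ 2 * N + M ^ 2 * N ^ 2 / z +
        R * M * N ^ 2 * S ^ 2 / z1 ^ 2) := by
    field_simp
  rw [e]
  have h1 : 0 ≤ M * N * B := by positivity
  have h2 : 0 ≤ R ^ 2 * S ^ 4 * N ^ 2 / H := by positivity
  have h3 := mul_le_mul_of_nonneg_right hT5 h1
  have h4 := mul_le_mul_of_nonneg_right hT5 h2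
  linarith

theorem tEfi (hEcp : EcpStmt) (hDca : DcaStmt) (hDex : DexStmt) (hEba : EbaStmt) (hDgo : DgoStmt) : EfiStmt := by
  refine ⟨1000, by norm_num, 5, ?_⟩
  intro X T z z1 B A b R S M N H P α β hTau hz hz1 hB hS hN hM hH hRN hSN hHR hX hb hP hα hβ hTT
  have hR : 1 ≤ R := by omega
  have hPr : ∀ w ∈ P, R < w.1 ∧ w.1 ≤ 2 * R ∧ S < w.2 ∧ w.2 ≤ 2 * S := fun w hw =>
    ⟨(hP.1 w hw).1, (hP.1 w hw).2.1, (hP.1 w hw).2.2.1, (hP.1 w hw).2.2.2.1⟩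
  obtain ⟨a, hCp⟩ := hEcp A b R S z z1 P hP
  obtain ⟨c', hc1, hc0, hca⟩ := hDca A R S M N P α β hM hPr hα
  have hex := hDex A a R S M N P β c' hM hCp hβ hc1 hc0
  have hba := hEba X T z z1 A b a R S M N P ⟨hTau, hz, hR, hS, hN, hM, hRN, hX, hb⟩ hz1 hSN hP hCp
  have hgo := hDgo B A a R S M N H P β c' hB hR hS hN hM hH hRN hHR hCp hPr hβ hc1 hc0 hTT
  have hRM : (0 : ℝ) ≤ (R : ℝ) * M := by positivity
  have hnum := Efi_num (R : ℝ) M N S H T z z1 B (by exact_mod_cast hR) (by exact_mod_cast (by omega : 0 < M))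
    (by exact_mod_cast hN) (by exact_mod_cast hS) (by exact_mod_cast hH) hTau.1 hz hz1 hB
  exact le_trans hca (le_trans (mul_le_mul_of_nonneg_left (le_trans hex (add_le_add hgo hba)) hRM) hnum)

end Pool.Agent.Lib.ML
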