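import Pool.Agent.Lib.ML.SpecD

/-!
MP_00e23e_nt, directory Lib/ML, module Euu: the second moment for fixed r and p, arbitrary classes.
-/

namespace Pool.Agent.Lib.ML

open Finset Pool.Agent.Lib.EH3 Pool.Agent.Lib.TB Pool.Agent.Results.MP_00e23e_nt Pool.Agent.Lib.MI

/-- the number of the multiples of p in (S, 2S] -/
private lemma Euu_cnt (S p : ℕ) :
    (((Ioc S (2 * S)).filter (fun s => p ∣ s)).card : ℝ) ≤ 2 * (S : ℝ) / p := by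
  have h1 : (Ioc S (2 * S)).filter (fun s => p ∣ s) ⊆ (Ioc 0 (2 * S)).filter (fun s => p ∣ s) :=
    Finset.filter_subset_filter _ (Finset.Ioc_subset_Ioc_left (Nat.zero_le _))
  have h2 := Finset.card_le_card h1
  rw [Nat.Ioc_filter_dvd_card_eq_div] at h2
  have h3 : ((2 * S / p : ℕ) : ℝ) ≤ ((2 * S : ℕ) : ℝ) / (p : ℝ) := Nat.cast_div_le
  have h4 : (((Ioc S (2 * S)).filter (fun s => p ∣ s)).card : ℝ) ≤ ((2 * S / p : ℕ) : ℝ) := by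
    exact_mod_cast h2
  push_cast at h3 h4 ⊢
  linarith

/-- r s and r s' divide z: so does r lcm(s, s') -/
private lemma Euu_lcm {r s s' : ℕ} {z : ℤ} (h : ((r * s : ℕ) : ℤ) ∣ z)
    (h' : ((r * s' : ℕ) : ℤ) ∣ z) : ((r * Nat.lcm s s' : ℕ) : ℤ) ∣ z := by
  rw [Int.natCast_dvd] at h h' ⊢
  rw [← Nat.lcm_mul_left]
  exact Nat.lcm_dvd h h'

/-- exchange of the sums -/
private lemma Euu_swap (A B S' : Finset ℕ) (Q : ℕ → ℕ → ℕ → ℕ → Prop)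
    [∀ m n s s', Decidable (Q m n s s')] :
    ∑ m ∈ A, ∑ n ∈ B, ∑ s ∈ S', ∑ s' ∈ S', (if Q m n s s' then (1 : ℝ) else 0) =
      ∑ s ∈ S', ∑ s' ∈ S', (((A ×ˢ B).filter (fun w => Q w.1 w.2 s s')).card : ℝ) := by
  have h1 : ∀ s s', (((A ×ˢ B).filter (fun w => Q w.1 w.2 s s')).card : ℝ) =
      ∑ w ∈ A ×ˢ B, (if Q w.1 w.2 s s' then (1 : ℝ) else 0) := by
    intro s s'
    rw [Finset.sum_boole]
  calc ∑ m ∈ A, ∑ n ∈ B, ∑ s ∈ S', ∑ s' ∈ S', (if Q m n s s' then (1 : ℝ) else 0)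
      = ∑ w ∈ A ×ˢ B, ∑ v ∈ S' ×ˢ S', (if Q w.1 w.2 v.1 v.2 then (1 : ℝ) else 0) := by
        rw [Finset.sum_product]
        refine Finset.sum_congr rfl fun m _ => Finset.sum_congr rfl fun n _ => ?_
        rw [Finset.sum_product]
    _ = ∑ v ∈ S' ×ˢ S', ∑ w ∈ A ×ˢ B, (if Q w.1 w.2 v.1 v.2 then (1 : ℝ) else 0) :=
        Finset.sum_comm
    _ = _ := by
        rw [Finset.sum_product]
        refine Finset.sum_congr rfl fun s _ => Finset.sum_congr rfl fun s' _ => ?_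
        rw [h1]

/-- the square of a counting function -/
private lemma Euu_sq {F S' : Finset ℕ} (hF : F ⊆ S') (Q : ℕ → ℕ → Prop)
    [∀ s s', Decidable (Q s s')] (hQ : ∀ s ∈ F, ∀ s' ∈ F, Q s s') :
    (F.card : ℝ) ^ 2 ≤ ∑ s ∈ S', ∑ s' ∈ S', (if Q s s' then (1 : ℝ) else 0) := by
  have h0 : ∀ s s', (0 : ℝ) ≤ (if Q s s' then (1 : ℝ) else 0) := by
    intro s s'
    split_ifs <;> norm_num
  calc (F.card : ℝ) ^ 2 = ∑ s ∈ F, ∑ s' ∈ F, (if Q s s' then (1 : ℝ) else 0) := by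
        have h1 : ∀ s ∈ F, ∑ s' ∈ F, (if Q s s' then (1 : ℝ) else 0) = F.card := by
          intro s hs
          rw [Finset.sum_congr rfl fun s' hs' => if_pos (hQ s hs s' hs')]
          simp
        rw [Finset.sum_congr rfl h1]
        simp [sq]
    _ ≤ ∑ s ∈ F, ∑ s' ∈ S', (if Q s s' then (1 : ℝ) else 0) :=
        Finset.sum_le_sum fun s _ =>
          Finset.sum_le_sum_of_subset_of_nonneg hF fun s' _ _ => h0 s s'
    _ ≤ _ := Finset.sum_le_sum_of_subset_of_nonneg hF fun s _ _ =>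
        Finset.sum_nonneg fun s' _ => h0 s s'

open Classical in
/-- pairs with the product in a class modulo r s and in a class modulo r s': either there are none or the product is in
one class modulo r lcm(s, s') -/
private lemma Euu_cls (W : Finset (ℕ × ℕ)) (r s s' : ℕ) (a a' : ℤ) (B : ℝ) (hB : 0 ≤ B)
    (h : ∀ k : ℤ, ((W.filter (fun w => ((r * Nat.lcm s s' : ℕ) : ℤ) ∣ ((w.1 * w.2 : ℕ) : ℤ) - k)).card : ℝ) ≤ B) :
    ((W.filter (fun w => ((r * s : ℕ) : ℤ) ∣ ((w.1 * w.2 : ℕ) : ℤ) - a ∧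
      ((r * s' : ℕ) : ℤ) ∣ ((w.1 * w.2 : ℕ) : ℤ) - a')).card : ℝ) ≤ B := by
  rcases (W.filter (fun w => ((r * s : ℕ) : ℤ) ∣ ((w.1 * w.2 : ℕ) : ℤ) - a ∧
      ((r * s' : ℕ) : ℤ) ∣ ((w.1 * w.2 : ℕ) : ℤ) - a')).eq_empty_or_nonempty with h0 | ⟨w0, hw0⟩
  · rw [h0, Finset.card_empty, Nat.cast_zero]
    exact hB
  · have hw := (Finset.mem_filter.1 hw0).2
    refine le_trans ?_ (h ((w0.1 * w0.2 : ℕ) : ℤ))
    have h1 : W.filter (fun w => ((r * s : ℕ) : ℤ) ∣ ((w.1 * w.2 : ℕ) : ℤ) - a ∧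
        ((r * s' : ℕ) : ℤ) ∣ ((w.1 * w.2 : ℕ) : ℤ) - a') ⊆
        W.filter (fun w => ((r * Nat.lcm s s' : ℕ) : ℤ) ∣ ((w.1 * w.2 : ℕ) : ℤ) - ((w0.1 * w0.2 : ℕ) : ℤ)) := by
      intro w hw1
      rw [Finset.mem_filter] at hw1 ⊢
      refine ⟨hw1.1, Euu_lcm ?_ ?_⟩
      · have h2 := dvd_sub hw1.2.1 hw.1
        rwa [sub_sub_sub_cancel_right] at h2
      · have h2 := dvd_sub hw1.2.2 hw.2
        rwa [sub_sub_sub_cancel_right] at h2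
    exact_mod_cast Finset.card_le_card h1

open Classical in
/-- Module Euu. -/
theorem tEuu (h1 : MJ.EcnStmt) (h2 : MJ.EgcStmt) : EuuStmt := by
  intro X T z z1 A b R S M N r p P hSz hPr hRr hrR hp
  obtain ⟨hTau, hz, hR1, hS1, hN1, hM8, hRN, hX, hRS⟩ := hSz
  have hT1 : 1 ≤ T := hTau.1
  have hT0 : 0 ≤ T := by linarith
  have hM : (8 : ℝ) ≤ M := by exact_mod_cast hM8
  have hN : (1 : ℝ) ≤ N := by exact_mod_cast hN1
  have hR : (1 : ℝ) ≤ R := by exact_mod_cast hR1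
  have hS : (1 : ℝ) ≤ S := by exact_mod_cast hS1
  have hp0 : (0 : ℝ) < p := by exact_mod_cast hp
  have hR0 : (0 : ℝ) < R := by linarith
  have hMN : (1 : ℝ) ≤ (M : ℝ) * N := one_le_mul_of_one_le_of_one_le (by linarith) hN
  -- the sizes
  have hR2 : (1 : ℝ) ≤ (R : ℝ) ^ 2 := one_le_pow₀ hR
  have hS4 : (S : ℝ) ≤ (S : ℝ) ^ 4 := le_self_pow₀ hS (by norm_num)
  have hS41 : (1 : ℝ) ≤ (S : ℝ) ^ 4 := one_le_pow₀ hS
  have hMN2 : (M : ℝ) * N ≤ (M : ℝ) ^ 2 * (N : ℝ) ^ 2 := by nlinarith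
  have hMN21 : (1 : ℝ) ≤ (M : ℝ) ^ 2 * (N : ℝ) ^ 2 := hMN.trans hMN2
  have hX6 : 6 * (M : ℝ) * N ≤ X := by
    refine le_trans ?_ hX
    have h3 : (M : ℝ) ^ 2 * (N : ℝ) ^ 2 ≤ (M : ℝ) ^ 2 * (N : ℝ) ^ 2 * ((R : ℝ) ^ 2 * (S : ℝ) ^ 4) :=
      le_mul_of_one_le_right (by linarith) (one_le_mul_of_one_le_of_one_le hR2 hS41)
    nlinarith
  have hX2 : 2 * (S : ℝ) ≤ X := by
    refine le_trans ?_ hX
    have h3 : (S : ℝ) ^ 4 ≤ (M : ℝ) ^ 2 * (N : ℝ) ^ 2 * (R : ℝ) ^ 2 * (S : ℝ) ^ 4 :=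
      le_mul_of_one_le_left (by linarith) (one_le_mul_of_one_le_of_one_le hMN21 hR2)
    nlinarith
  set S' := (Ioc S (2 * S)).filter (fun s => p ∣ s) with hS'
  have hcnt : (S'.card : ℝ) ≤ 2 * (S : ℝ) / p := Euu_cnt S p
  have hgc : ∑ s ∈ S', ∑ s' ∈ S', 1 / ((Nat.lcm s s' : ℕ) : ℝ) ≤ 4 * T / p :=
    h2 X T S p hTau hp hX2
  calc ∑ m ∈ Icc (M / 2) (3 * M), ∑ n ∈ Ioc N (2 * N),
    (((Ioc S (2 * S)).filter (fun s => (r, s) ∈ P ∧ p ∣ s ∧ ((r * s : ℕ) : ℤ) ∣ ((m * n : ℕ) : ℤ) - A r s)).card : ℝ) ^ 2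
      ≤ ∑ m ∈ Icc (M / 2) (3 * M), ∑ n ∈ Ioc N (2 * N), ∑ s ∈ S', ∑ s' ∈ S',
          (if ((r * s : ℕ) : ℤ) ∣ ((m * n : ℕ) : ℤ) - A r s ∧ ((r * s' : ℕ) : ℤ) ∣ ((m * n : ℕ) : ℤ) - A r s'
            then (1 : ℝ) else 0) := by
        refine Finset.sum_le_sum fun m _ => Finset.sum_le_sum fun n _ => ?_
        refine Euu_sq (Q := fun s s' => ((r * s : ℕ) : ℤ) ∣ ((m * n : ℕ) : ℤ) - A r s ∧
          ((r * s' : ℕ) : ℤ) ∣ ((m * n : ℕ) : ℤ) - A r s') (fun s hs => ?_) fun s hs s' hs' => ?_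
        · rw [Finset.mem_filter] at hs
          exact Finset.mem_filter.2 ⟨hs.1, hs.2.2.1⟩
        · rw [Finset.mem_filter] at hs hs'
          exact ⟨hs.2.2.2, hs'.2.2.2⟩
    _ = ∑ s ∈ S', ∑ s' ∈ S', (((Icc (M / 2) (3 * M) ×ˢ Ioc N (2 * N)).filter (fun w =>
          ((r * s : ℕ) : ℤ) ∣ ((w.1 * w.2 : ℕ) : ℤ) - A r s ∧
          ((r * s' : ℕ) : ℤ) ∣ ((w.1 * w.2 : ℕ) : ℤ) - A r s')).card : ℝ) :=
        Euu_swap _ _ _ (fun m n s s' => ((r * s : ℕ) : ℤ) ∣ ((m * n : ℕ) : ℤ) - A r s ∧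
          ((r * s' : ℕ) : ℤ) ∣ ((m * n : ℕ) : ℤ) - A r s')
    _ ≤ ∑ s ∈ S', ∑ s' ∈ S', T * (6 * ((M : ℝ) * N) / R * (1 / ((Nat.lcm s s' : ℕ) : ℝ)) + 1) := by
        refine Finset.sum_le_sum fun s hs => Finset.sum_le_sum fun s' hs' => ?_
        rw [hS', Finset.mem_filter, Finset.mem_Ioc] at hs hs'
        have hl : 1 ≤ Nat.lcm s s' := Nat.lcm_pos (by omega) (by omega)
        have hr1 : 1 ≤ r := by omega
        have hl0 : (0 : ℝ) < (Nat.lcm s s' : ℕ) := by exact_mod_cast hl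
        refine Euu_cls _ r s s' (A r s) (A r s') _ (by positivity) fun k => ?_
        have h3 := h1 X T M N (r * Nat.lcm s s') k hTau (Nat.mul_pos hr1 hl) hM8 hN1 hX6
        refine h3.trans (mul_le_mul_of_nonneg_left ?_ hT0)
        have h4 : 6 * ((M : ℝ) * N) / ((r * Nat.lcm s s' : ℕ) : ℝ) ≤
            6 * ((M : ℝ) * N) / R * (1 / ((Nat.lcm s s' : ℕ) : ℝ)) := by
          have hRr' : (R : ℝ) ≤ r := by exact_mod_cast hRr.le
          have h5 : 6 * ((M : ℝ) * N) / R * (1 / ((Nat.lcm s s' : ℕ) : ℝ)) =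
              6 * ((M : ℝ) * N) / (R * ((Nat.lcm s s' : ℕ) : ℝ)) := by
            rw [div_mul_div_comm, mul_one]
          rw [h5, Nat.cast_mul]
          exact div_le_div_of_nonneg_left (by positivity) (by positivity)
            (mul_le_mul_of_nonneg_right hRr' hl0.le)
        linarith
    _ = T * (6 * ((M : ℝ) * N) / R * (∑ s ∈ S', ∑ s' ∈ S', 1 / ((Nat.lcm s s' : ℕ) : ℝ)) +
          (S'.card : ℝ) ^ 2) := by
        simp only [← Finset.mul_sum, Finset.sum_add_distrib, Finset.sum_const, nsmul_eq_mul, mul_one]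
        ring
    _ ≤ T * (6 * ((M : ℝ) * N) / R * (4 * T / p) + (2 * (S : ℝ) / p) ^ 2) := by
        refine mul_le_mul_of_nonneg_left (add_le_add ?_ ?_) hT0
        · exact mul_le_mul_of_nonneg_left hgc (by positivity)
        · exact pow_le_pow_left₀ (Nat.cast_nonneg _) hcnt 2
    _ = T * (24 * T * ((M : ℝ) * N) / ((R : ℝ) * p) + 4 * (S : ℝ) ^ 2 / (p : ℝ) ^ 2) := by
        rw [div_mul_div_comm, div_pow]
        ring

end Pool.Agent.Lib.ML
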