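import Pool.Agent.Lib.ML.SpecT
import Pool.Agent.Lib.MI.SpecT1

/-! MP_00e23e_nt, Lib/ML, module T1Bnd: the correlation of a good tuple. -/

namespace Pool.Agent.Lib.ML

open Finset Pool.Agent.Lib.EH3 Pool.Agent.Lib.TB Pool.Agent.Results.MP_00e23e_nt Pool.Agent.Lib.MI

private lemma T1Bnd_sym (f : ℤ → ℝ) (hf : ∀ j, 0 ≤ f j) (he : ∀ j, f (-j) = f j) (J : ℕ) :
    ∑ j ∈ (Icc (-(J : ℤ)) (J : ℤ)).erase 0, f j ≤ 2 * ∑ j ∈ Icc 1 J, f (j : ℤ) := by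
  classical
  have hsub : (Icc (-(J : ℤ)) (J : ℤ)).erase 0 ⊆
      ((Icc 1 J).image (fun j : ℕ => (j : ℤ))) ∪ ((Icc 1 J).image (fun j : ℕ => -(j : ℤ))) := by
    intro j hj
    obtain ⟨h0, h1⟩ := mem_erase.1 hj
    rw [mem_Icc] at h1
    rw [mem_union, mem_image, mem_image]
    rcases lt_or_gt_of_ne h0 with h | h
    · right
      refine ⟨(-j).toNat, ?_, by omega⟩
      rw [mem_Icc]
      omega
    · left
      refine ⟨j.toNat, ?_, by omega⟩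
      rw [mem_Icc]
      omega
  refine (sum_le_sum_of_subset_of_nonneg hsub fun j _ _ => hf j).trans ?_
  have h1 := sum_union_inter (s₁ := (Icc 1 J).image (fun j : ℕ => (j : ℤ)))
    (s₂ := (Icc 1 J).image (fun j : ℕ => -(j : ℤ))) (f := f)
  have h2 : 0 ≤ ∑ j ∈ ((Icc 1 J).image (fun j : ℕ => (j : ℤ))) ∩
      ((Icc 1 J).image (fun j : ℕ => -(j : ℤ))), f j := sum_nonneg fun j _ => hf j
  have h3 : ∑ j ∈ (Icc 1 J).image (fun j : ℕ => (j : ℤ)), f j = ∑ j ∈ Icc 1 J, f (j : ℤ) :=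
    sum_image fun a _ b _ hab => by exact_mod_cast hab
  have h4 : ∑ j ∈ (Icc 1 J).image (fun j : ℕ => -(j : ℤ)), f j = ∑ j ∈ Icc 1 J, f (j : ℤ) := by
    rw [sum_image fun a _ b _ hab => by
      have : (a : ℤ) = b := neg_injective hab
      exact_mod_cast this]
    exact sum_congr rfl fun j _ => he _
  linarith

/-- the product of the two gcd's -/
private noncomputable def T1Bnd_G (E D : ℤ) (q s : ℕ) (j : ℤ) : ℝ :=
  (Int.gcd ((Int.gcd E j : ℕ) : ℤ) q : ℝ) * (Int.gcd ((Int.gcd D j : ℕ) : ℤ) s : ℝ)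

/-- the number Z' -/
private def T1Bnd_Z (E D : ℤ) (q s : ℕ) : ℕ := Int.gcd E q * Int.gcd D s

private lemma T1Bnd_Zpos {E D : ℤ} {q s : ℕ} (hq : 1 ≤ q) (hs : 1 ≤ s) : 1 ≤ T1Bnd_Z E D q s := by
  unfold T1Bnd_Z
  have hq0 : ((q : ℕ) : ℤ) ≠ 0 := by omega
  have hs0 : ((s : ℕ) : ℤ) ≠ 0 := by omega
  exact Nat.mul_pos (Int.gcd_pos_of_ne_zero_right _ hq0) (Int.gcd_pos_of_ne_zero_right _ hs0)

private lemma T1Bnd_Zle {E D : ℤ} {q s : ℕ} (hq : 1 ≤ q) (hs : 1 ≤ s) : T1Bnd_Z E D q s ≤ q * s := by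
  unfold T1Bnd_Z
  refine Nat.mul_le_mul ?_ ?_
  · exact Nat.le_of_dvd hq (Int.natCast_dvd_natCast.1 (Int.gcd_dvd_right _ _))
  · exact Nat.le_of_dvd hs (Int.natCast_dvd_natCast.1 (Int.gcd_dvd_right _ _))

private lemma T1Bnd_Gle {E D : ℤ} {q s : ℕ} (hqs : q.Coprime s) (hq : 1 ≤ q) (hs : 1 ≤ s) (j : ℤ) :
    T1Bnd_G E D q s j ≤ (Int.gcd ((T1Bnd_Z E D q s : ℕ) : ℤ) j : ℝ) := by
  have hZ : ((T1Bnd_Z E D q s : ℕ) : ℤ) ≠ 0 := by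
    have := T1Bnd_Zpos (E := E) (D := D) hq hs
    omega
  have h0 : 0 < Int.gcd ((T1Bnd_Z E D q s : ℕ) : ℤ) j := Int.gcd_pos_of_ne_zero_left _ hZ
  have hA1 : (Int.gcd ((Int.gcd E j : ℕ) : ℤ) q) ∣ q := Int.natCast_dvd_natCast.1 (Int.gcd_dvd_right _ _)
  have hB1 : (Int.gcd ((Int.gcd D j : ℕ) : ℤ) s) ∣ s := Int.natCast_dvd_natCast.1 (Int.gcd_dvd_right _ _)
  have hA2 : ((Int.gcd ((Int.gcd E j : ℕ) : ℤ) q : ℕ) : ℤ) ∣ ((Int.gcd E j : ℕ) : ℤ) := Int.gcd_dvd_left _ _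
  have hB2 : ((Int.gcd ((Int.gcd D j : ℕ) : ℤ) s : ℕ) : ℤ) ∣ ((Int.gcd D j : ℕ) : ℤ) := Int.gcd_dvd_left _ _
  have hA3 : ((Int.gcd ((Int.gcd E j : ℕ) : ℤ) q : ℕ) : ℤ) ∣ j := hA2.trans (Int.gcd_dvd_right _ _)
  have hB3 : ((Int.gcd ((Int.gcd D j : ℕ) : ℤ) s : ℕ) : ℤ) ∣ j := hB2.trans (Int.gcd_dvd_right _ _)
  have hA4 : ((Int.gcd ((Int.gcd E j : ℕ) : ℤ) q : ℕ) : ℤ) ∣ E := hA2.trans (Int.gcd_dvd_left _ _)
  have hB4 : ((Int.gcd ((Int.gcd D j : ℕ) : ℤ) s : ℕ) : ℤ) ∣ D := hB2.trans (Int.gcd_dvd_left _ _)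
  have hcop : (Int.gcd ((Int.gcd E j : ℕ) : ℤ) q).Coprime (Int.gcd ((Int.gcd D j : ℕ) : ℤ) s) :=
    Nat.Coprime.coprime_dvd_left hA1 (Nat.Coprime.coprime_dvd_right hB1 hqs)
  have hj : Int.gcd ((Int.gcd E j : ℕ) : ℤ) q * Int.gcd ((Int.gcd D j : ℕ) : ℤ) s ∣ j.natAbs :=
    hcop.mul_dvd_of_dvd_of_dvd (Int.natCast_dvd.1 hA3) (Int.natCast_dvd.1 hB3)
  have hz : Int.gcd ((Int.gcd E j : ℕ) : ℤ) q * Int.gcd ((Int.gcd D j : ℕ) : ℤ) s ∣ T1Bnd_Z E D q s := by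
    unfold T1Bnd_Z
    refine Nat.mul_dvd_mul ?_ ?_
    · exact Int.natCast_dvd_natCast.1 (Int.dvd_coe_gcd hA4 (Int.gcd_dvd_right _ _))
    · exact Int.natCast_dvd_natCast.1 (Int.dvd_coe_gcd hB4 (Int.gcd_dvd_right _ _))
  have h4 : Int.gcd ((Int.gcd E j : ℕ) : ℤ) q * Int.gcd ((Int.gcd D j : ℕ) : ℤ) s ∣
      Int.gcd ((T1Bnd_Z E D q s : ℕ) : ℤ) j := by
    rw [Int.gcd_def, Int.natAbs_natCast]
    exact Nat.dvd_gcd hz hj
  unfold T1Bnd_G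
  exact_mod_cast Nat.le_of_dvd h0 h4

private lemma T1Bnd_G0 (E D : ℤ) (q s : ℕ) :
    T1Bnd_G E D q s 0 = (Int.gcd E q : ℝ) * (Int.gcd D s : ℝ) := by
  unfold T1Bnd_G
  have h : ∀ (Z : ℤ) (m : ℕ), Int.gcd ((Int.gcd Z 0 : ℕ) : ℤ) m = Int.gcd Z m := by
    intro Z m
    rw [Int.gcd_zero_right, Int.gcd_natCast_natCast, Int.gcd_def, Int.natAbs_natCast]
  rw [h, h]

/-- the sum over j -/
private lemma T1Bnd_sum (W B T P : ℝ) (E D : ℤ) (q s J : ℕ) (hqs : q.Coprime s) (hq1 : 1 ≤ q) (hs1 : 1 ≤ s)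
    (hT : 0 ≤ T) (hB : 0 ≤ B) (hqB : Real.sqrt ((q : ℝ) * s) ≤ B)
    (hP : ∑ j ∈ Icc 1 J, (Int.gcd ((T1Bnd_Z E D q s : ℕ) : ℤ) (j : ℤ) : ℝ) / (j : ℝ) ≤ P) :
    ∑ j ∈ Icc (-(J : ℤ)) (J : ℤ), t1w W j * (T * Real.sqrt ((q : ℝ) * s * T1Bnd_G E D q s j)) ≤
      T * B * P + W * (T * Real.sqrt ((q : ℝ) * s * T1Bnd_G E D q s 0)) := by
  have hZ' : ((T1Bnd_Z E D q s : ℕ) : ℤ) ≠ 0 := by
    have := T1Bnd_Zpos (E := E) (D := D) hq1 hs1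
    omega
  have h0 : (0 : ℤ) ∈ Icc (-(J : ℤ)) (J : ℤ) := by
    rw [mem_Icc]
    omega
  rw [← add_sum_erase _ _ h0]
  have e0 : t1w W 0 = W := if_pos rfl
  rw [e0, add_comm]
  refine add_le_add_left ?_ _
  have h1 : ∀ j ∈ (Icc (-(J : ℤ)) (J : ℤ)).erase 0,
      t1w W j * (T * Real.sqrt ((q : ℝ) * s * T1Bnd_G E D q s j)) ≤
        T * B * (1 / (2 * |(j : ℝ)|) * (Int.gcd ((T1Bnd_Z E D q s : ℕ) : ℤ) j : ℝ)) := by
    intro j hj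
    have hj0 : j ≠ 0 := (mem_erase.1 hj).1
    have hjr : (j : ℝ) ≠ 0 := by exact_mod_cast hj0
    have hjp : 0 < |(j : ℝ)| := abs_pos.2 hjr
    have e1 : t1w W j = 1 / (2 * |(j : ℝ)|) := if_neg hj0
    have g1 : (1 : ℝ) ≤ (Int.gcd ((T1Bnd_Z E D q s : ℕ) : ℤ) j : ℝ) := by
      exact_mod_cast Int.gcd_pos_of_ne_zero_left _ hZ'
    have g2 : Real.sqrt ((q : ℝ) * s * T1Bnd_G E D q s j) ≤ B * (Int.gcd ((T1Bnd_Z E D q s : ℕ) : ℤ) j : ℝ) := by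
      rw [Real.sqrt_mul (by positivity)]
      refine mul_le_mul hqB ?_ (Real.sqrt_nonneg _) hB
      refine (Real.sqrt_le_sqrt (T1Bnd_Gle hqs hq1 hs1 j)).trans ?_
      rw [Real.sqrt_le_left (by linarith)]
      nlinarith
    rw [e1]
    calc 1 / (2 * |(j : ℝ)|) * (T * Real.sqrt ((q : ℝ) * s * T1Bnd_G E D q s j))
        ≤ 1 / (2 * |(j : ℝ)|) * (T * (B * (Int.gcd ((T1Bnd_Z E D q s : ℕ) : ℤ) j : ℝ))) := by gcongr
      _ = T * B * (1 / (2 * |(j : ℝ)|) * (Int.gcd ((T1Bnd_Z E D q s : ℕ) : ℤ) j : ℝ)) := by ring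
  refine (sum_le_sum h1).trans ?_
  rw [← mul_sum]
  refine mul_le_mul_of_nonneg_left ?_ (mul_nonneg hT hB)
  refine (T1Bnd_sym (fun j => 1 / (2 * |(j : ℝ)|) * (Int.gcd ((T1Bnd_Z E D q s : ℕ) : ℤ) j : ℝ)) (fun j => by positivity)
    (fun j => ?_) J).trans ?_
  · show 1 / (2 * |((-j : ℤ) : ℝ)|) * (Int.gcd ((T1Bnd_Z E D q s : ℕ) : ℤ) (-j) : ℝ) = 1 / (2 * |(j : ℝ)|) * (Int.gcd ((T1Bnd_Z E D q s : ℕ) : ℤ) j : ℝ)
    rw [Int.cast_neg, abs_neg, Int.gcd_neg]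
  · refine le_trans (le_of_eq ?_) hP
    rw [mul_sum]
    refine sum_congr rfl fun j _ => ?_
    show 2 * (1 / (2 * |((j : ℤ) : ℝ)|) * (Int.gcd ((T1Bnd_Z E D q s : ℕ) : ℤ) (j : ℤ) : ℝ)) = _
    rw [Int.cast_natCast, Nat.abs_cast]
    ring

theorem tT1Bnd (hSsb : SsbStmt) (hCmp : T1CmpStmt) (hFac : T1FacStmt) (hFht : T1FhtStmt)
    (hGcd : T1GcdStmt) (hGsj : T1GsjStmt) : T1BndStmt := by
  intro X T a a' h h' k S r r0 u w w' s2 N d V L L' hTau hr0 hLr0 hr0L hS hL hV hw1 hw2 hw3 hw4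
    hd1 hG hX1
  obtain ⟨⟨p1, p2, p3, p4, p5, p6⟩, ⟨p7, p8, p9⟩, e3, sqf, c1, c2, c3, c4, g2, sq1, sq2, lo, up⟩ :=
    hFac a a' S r r0 u w w' s2 hr0 hG
  have hs2S : s2 ≤ 2 * S := by
    obtain ⟨-, -, -, -, -, -, -, -, -, -, -, -, -, -, z⟩ := hG
    exact z
  have hSs2 : S < s2 := by
    obtain ⟨-, -, -, -, -, -, -, -, -, -, -, -, -, z, -⟩ := hG
    exact z
  have hT1 : 1 ≤ T := hTau.1
  have hT0 : 0 ≤ T := by linarith
  set D : ℤ := t1e h h' w w' with hDdef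
  set E : ℤ := t1E a a' h h' w w' with hEdef
  set q : ℕ := t1q r0 u w w' with hq
  set r1 : ℕ := r / r0 with hr1
  have hS0 : (0 : ℝ) < S := by exact_mod_cast hS
  have hV0 : (0 : ℝ) < V := by exact_mod_cast hV
  have hL0 : (0 : ℝ) < L := by exact_mod_cast hL
  have hrhs : 0 ≤ 3 * T ^ 6 * (Real.sqrt ((L' : ℝ) * V) * S) +
    T ^ 4 * ((N : ℝ) / (Real.sqrt ((L : ℝ) * V) * S)) * Real.sqrt ((Nat.gcd w w' : ℝ) *
      (Int.gcd (E * d) ((q : ℕ) : ℤ) : ℝ) *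
        (Int.gcd (D * d) s2 : ℝ)) := by positivity
  rcases Nat.lt_or_ge (2 * N - d * r1) N with hlt | hge
  · have h0 : t1C a a' h h' k r r0 u w w' s2 N d = 0 := by
      have hn : ¬ N < 2 * N - d * (r / r0) := by
        rw [← hr1]
        omega
      unfold t1C
      rw [Ioc_eq_empty hn, sum_empty]
    rw [h0, norm_zero]
    exact hrhs
  -- J
  set J : ℕ := 8 * r0 * S ^ 2 * V with hJ
  have hqJ : q * s2 ≤ J := by
    have a1 : q * s2 ≤ (2 * r0 * S * w') * (2 * S) := Nat.mul_le_mul up hs2S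
    have a2 : (2 * r0 * S * w') * (2 * S) ≤ (2 * r0 * S * (2 * V)) * (2 * S) :=
      Nat.mul_le_mul_right _ (Nat.mul_le_mul_left _ hw4)
    have a3 : (2 * r0 * S * (2 * V)) * (2 * S) = J := by
      rw [hJ]
      ring
    omega
  have hr0r : r0 ≤ r := Nat.le_of_dvd (by omega) hr0
  have hJX : (J : ℝ) ≤ X := by
    refine le_trans ?_ hX1
    rw [hJ]
    push_cast
    have : (r0 : ℝ) ≤ r := by exact_mod_cast hr0r
    gcongr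
  have hqs1 : 1 ≤ q * s2 := Nat.mul_pos p8 p6
  have hJ1 : 1 ≤ J := hqs1.trans hqJ
  have hqX : (q : ℝ) ≤ X := by
    have : (q : ℝ) ≤ J := by
      have : q ≤ J := (Nat.le_mul_of_pos_right q p6).trans hqJ
      exact_mod_cast this
    linarith
  have hs2X : (s2 : ℝ) ≤ X := by
    have : (s2 : ℝ) ≤ J := by
      have : s2 ≤ J := (Nat.le_mul_of_pos_left s2 p8).trans hqJ
      exact_mod_cast this
    linarith
  have hqs0 : (0 : ℝ) < (q : ℝ) * s2 := by exact_mod_cast hqs1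
  -- completion
  have hper : ∀ n, t1G a a' h h' k r r0 u w w' s2 (n + q * s2) *
        (starRingEnd ℂ) (t1G a a' h h' k r r0 u w w' s2 (n + q * s2 + d * r1)) =
      t1G a a' h h' k r r0 u w w' s2 n *
        (starRingEnd ℂ) (t1G a a' h h' k r r0 u w w' s2 (n + d * r1)) := by
    have hp : ∀ n, t1G a a' h h' k r r0 u w w' s2 (n + q * s2) = t1G a a' h h' k r r0 u w w' s2 n := by
      intro n
      unfold t1G
      rw [← hq, show n + q * s2 = n + s2 * q by ring, t1_g_add_mul,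
        show n + s2 * q + k * r = n + k * r + q * s2 by ring, t1_g_add_mul]
    intro n
    rw [hp, show n + q * s2 + d * r1 = n + d * r1 + q * s2 by ring, hp]
  have hlen : (((2 * N - d * r1 : ℕ) : ℝ) - N) / ((q * s2 : ℕ) : ℝ) ≤ (N : ℝ) / ((q : ℝ) * s2) := by
    push_cast
    refine div_le_div_of_nonneg_right ?_ hqs0.le
    have : ((2 * N - d * r1 : ℕ) : ℝ) ≤ 2 * N := by
      exact_mod_cast (Nat.sub_le _ _ : 2 * N - d * r1 ≤ 2 * N)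
    linarith
  have hC := hCmp (fun n => t1G a a' h h' k r r0 u w w' s2 n *
        (starRingEnd ℂ) (t1G a a' h h' k r r0 u w w' s2 (n + d * r1))) (q * s2) J N (2 * N - d * r1)
    ((N : ℝ) / ((q : ℝ) * s2)) hqs1 hqJ hge (by positivity) hlen hper
  refine hC.trans ?_
  -- the complete sums
  have hcomp : ∀ j : ℤ, ‖∑ n ∈ range (q * s2), t1G a a' h h' k r r0 u w w' s2 n *
        (starRingEnd ℂ) (t1G a a' h h' k r r0 u w w' s2 (n + d * r1)) * en (j * n) (q * s2)‖ ≤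
      T ^ 4 * Real.sqrt ((q : ℝ) * s2 * T1Bnd_G (E * d) (D * d) q s2 j) := by
    intro j
    have f1 := hFht (t1cA a a' h h' r r0 u w w' * (iv s2 q : ℤ)) (t1cB a h h' r r0 w w' s2 * (iv q s2 : ℤ))
      j q s2 (k * r) (d * r1) p8 p6 c2
    have f2 : ∑ n ∈ range (q * s2), t1G a a' h h' k r r0 u w w' s2 n *
        (starRingEnd ℂ) (t1G a a' h h' k r r0 u w w' s2 (n + d * r1)) * en (j * n) (q * s2) =
        ∑ n ∈ range (q * s2), t1g (t1cA a a' h h' r r0 u w w' * (iv s2 q : ℤ)) q n *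
          t1g (t1cB a h h' r r0 w w' s2 * (iv q s2 : ℤ)) s2 (n + k * r) *
          (starRingEnd ℂ) (t1g (t1cA a a' h h' r r0 u w w' * (iv s2 q : ℤ)) q (n + d * r1) *
            t1g (t1cB a h h' r r0 w w' s2 * (iv q s2 : ℤ)) s2 (n + d * r1 + k * r)) *
          en (j * n) (q * s2) := rfl
    rw [f2, f1]
    have s1 := hSsb q (d * r1) (t1cA a a' h h' r r0 u w w' * (iv s2 q : ℤ)) (j * (iv s2 q : ℤ)) p8 sq1
    have s2' := hSsb s2 (d * r1) (t1cB a h h' r r0 w w' s2 * (iv q s2 : ℤ)) (j * (iv q s2 : ℤ)) p6 sq2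
    have k1 := hGcd 1 E j q r1 d s2 p8 c1 c2.symm (Int.gcd_one_left _)
    rw [one_mul] at k1
    have k2 := hGcd a D j s2 r1 d q p6 c3 c2 g2
    have t1 : (q.divisors.card : ℝ) ≤ T := hTau.2.2 q p8 hqX
    have t2 : (s2.divisors.card : ℝ) ≤ T := hTau.2.2 s2 p6 hs2X
    unfold t1cA at s1
    unfold t1cB at s2'
    rw [← hEdef, ← hq, ← hr1, k1] at s1
    rw [← hDdef, ← hr1, k2] at s2'
    unfold t1cA t1cB
    rw [← hDdef, ← hEdef, ← hq, ← hr1]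
    refine (mul_le_mul s1 s2' (norm_nonneg _) (by positivity)).trans ?_
    have t3 : (q.divisors.card : ℝ) ^ 2 ≤ T ^ 2 := pow_le_pow_left₀ (by positivity) t1 2
    have t4 : (s2.divisors.card : ℝ) ^ 2 ≤ T ^ 2 := pow_le_pow_left₀ (by positivity) t2 2
    have t5 : Real.sqrt ((q : ℝ) * s2 * T1Bnd_G (E * d) (D * d) q s2 j) =
        Real.sqrt ((q : ℝ) * (Int.gcd ((Int.gcd (E * (d : ℤ)) j : ℕ) : ℤ) q : ℝ)) *
          Real.sqrt ((s2 : ℝ) * (Int.gcd ((Int.gcd (D * (d : ℤ)) j : ℕ) : ℤ) s2 : ℝ)) := by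
      rw [← Real.sqrt_mul (by positivity)]
      congr 1
      unfold T1Bnd_G
      ring
    rw [t5]
    calc (q.divisors.card : ℝ) ^ 2 *
          Real.sqrt ((q : ℝ) * (Int.gcd ((Int.gcd (E * (d : ℤ)) j : ℕ) : ℤ) q : ℝ)) *
        ((s2.divisors.card : ℝ) ^ 2 *
          Real.sqrt ((s2 : ℝ) * (Int.gcd ((Int.gcd (D * (d : ℤ)) j : ℕ) : ℤ) s2 : ℝ)))
        ≤ T ^ 2 * Real.sqrt ((q : ℝ) * (Int.gcd ((Int.gcd (E * (d : ℤ)) j : ℕ) : ℤ) q : ℝ)) *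
        (T ^ 2 * Real.sqrt ((s2 : ℝ) * (Int.gcd ((Int.gcd (D * (d : ℤ)) j : ℕ) : ℤ) s2 : ℝ))) := by
          gcongr
      _ = _ := by ring
  have hW0 : (0 : ℝ) ≤ (N : ℝ) / ((q : ℝ) * s2) := by positivity
  have hsum1 : ∑ j ∈ Icc (-(J : ℤ)) (J : ℤ), t1w ((N : ℝ) / ((q : ℝ) * s2)) j *
      ‖∑ n ∈ range (q * s2), t1G a a' h h' k r r0 u w w' s2 n *
        (starRingEnd ℂ) (t1G a a' h h' k r r0 u w w' s2 (n + d * r1)) * en (j * n) (q * s2)‖ ≤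
      ∑ j ∈ Icc (-(J : ℤ)) (J : ℤ), t1w ((N : ℝ) / ((q : ℝ) * s2)) j *
        (T ^ 4 * Real.sqrt ((q : ℝ) * s2 * T1Bnd_G (E * d) (D * d) q s2 j)) := by
    refine sum_le_sum fun j _ => mul_le_mul_of_nonneg_left (hcomp j) ?_
    unfold t1w
    split_ifs
    · exact hW0
    · positivity
  refine hsum1.trans ?_
  -- the divisor sums
  have hZ1 : 1 ≤ T1Bnd_Z (E * d) (D * d) q s2 := T1Bnd_Zpos p8 p6
  have hZle : ((T1Bnd_Z (E * d) (D * d) q s2 : ℕ) : ℝ) ≤ X := by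
    have b1 : ((T1Bnd_Z (E * d) (D * d) q s2 : ℕ) : ℝ) ≤ J := by
      exact_mod_cast (T1Bnd_Zle p8 p6).trans hqJ
    linarith
  have hZ : ((T1Bnd_Z (E * d) (D * d) q s2 : ℕ) : ℤ) ≠ 0 := by omega
  have hP : ∑ j ∈ Icc 1 J, (Int.gcd ((T1Bnd_Z (E * d) (D * d) q s2 : ℕ) : ℤ) (j : ℤ) : ℝ) / (j : ℝ) ≤ T ^ 2 := by
    refine (hGsj _ J hZ).trans ?_
    rw [Int.natAbs_natCast]
    have c1 : ((T1Bnd_Z (E * d) (D * d) q s2).divisors.card : ℝ) ≤ T := hTau.2.2 _ hZ1 hZle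
    have c2 : 1 + Real.log J ≤ T := by
      have := Real.log_le_log (by exact_mod_cast hJ1 : (0 : ℝ) < J) hJX
      linarith [hTau.2.1]
    have c3 : 0 ≤ 1 + Real.log J := by
      have := Real.log_nonneg (by exact_mod_cast hJ1 : (1 : ℝ) ≤ J)
      linarith
    rw [sq]
    exact mul_le_mul c1 c2 c3 hT0
  have hsqB : Real.sqrt ((q : ℝ) * s2) ≤ 3 * (Real.sqrt ((L' : ℝ) * V) * S) := by
    have b0 : (0 : ℝ) ≤ 3 * (Real.sqrt ((L' : ℝ) * V) * S) := by positivity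
    rw [Real.sqrt_le_left b0]
    have b1 : (q : ℝ) * s2 ≤ J := by exact_mod_cast hqJ
    have b2 : (J : ℝ) ≤ 8 * ((L' : ℝ) * V) * (S : ℝ) ^ 2 := by
      rw [hJ]
      push_cast
      have : (r0 : ℝ) ≤ L' := by exact_mod_cast hr0L
      calc 8 * (r0 : ℝ) * (S : ℝ) ^ 2 * V ≤ 8 * (L' : ℝ) * (S : ℝ) ^ 2 * V := by gcongr
        _ = _ := by ring
    have b3 : (3 * (Real.sqrt ((L' : ℝ) * V) * S)) ^ 2 = 9 * ((L' : ℝ) * V) * (S : ℝ) ^ 2 := by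
      rw [mul_pow, mul_pow, Real.sq_sqrt (by positivity)]
      ring
    rw [b3]
    have b4 : 0 ≤ ((L' : ℝ) * V) * (S : ℝ) ^ 2 := by positivity
    linarith
  refine (T1Bnd_sum ((N : ℝ) / ((q : ℝ) * s2)) (3 * (Real.sqrt ((L' : ℝ) * V) * S)) (T ^ 4) (T ^ 2)
    (E * d) (D * d) q s2 J c2 p8 p6 (by positivity) (by positivity) hsqB hP).trans ?_
  refine add_le_add (le_of_eq (by ring)) ?_
  -- the term j = 0
  rw [T1Bnd_G0]
  set g0 : ℝ := (Nat.gcd w w' : ℝ) with hg0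
  set G1 : ℝ := (Int.gcd (E * (d : ℤ)) q : ℝ) with hG1
  set G2 : ℝ := (Int.gcd (D * (d : ℤ)) s2 : ℝ) with hG2
  have hG10 : 0 ≤ G1 := by positivity
  have hG20 : 0 ≤ G2 := by positivity
  have hg00 : 0 ≤ g0 := by positivity
  have hkey : (L : ℝ) * V * (S : ℝ) ^ 2 ≤ (q : ℝ) * s2 * g0 := by
    have b1 : L * S * V * S ≤ (q * Nat.gcd w w') * s2 := by
      calc L * S * V * S ≤ r0 * S * w' * s2 := by gcongr
        _ ≤ (q * Nat.gcd w w') * s2 := Nat.mul_le_mul_right _ lo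
    have b2 : (L : ℝ) * S * V * S ≤ ((q : ℝ) * g0) * s2 := by
      rw [hg0]
      exact_mod_cast b1
    calc (L : ℝ) * V * (S : ℝ) ^ 2 = (L : ℝ) * S * V * S := by ring
      _ ≤ ((q : ℝ) * g0) * s2 := b2
      _ = (q : ℝ) * s2 * g0 := by ring
  have hs : Real.sqrt ((L : ℝ) * V) * S ≤ Real.sqrt ((q : ℝ) * s2) * Real.sqrt g0 := by
    rw [← Real.sqrt_mul hqs0.le]
    refine Real.le_sqrt_of_sq_le ?_
    rw [mul_pow, Real.sq_sqrt (by positivity)]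
    exact hkey
  have hsq0 : 0 < Real.sqrt ((q : ℝ) * s2) := Real.sqrt_pos.2 hqs0
  have hLS0 : 0 < Real.sqrt ((L : ℝ) * V) * S := mul_pos (Real.sqrt_pos.2 (mul_pos hL0 hV0)) hS0
  have e1 : (N : ℝ) / ((q : ℝ) * s2) * (T ^ 4 * Real.sqrt ((q : ℝ) * s2 * (G1 * G2))) =
      T ^ 4 * N * (1 / Real.sqrt ((q : ℝ) * s2)) * Real.sqrt (G1 * G2) := by
    rw [Real.sqrt_mul hqs0.le]
    have : (q : ℝ) * s2 = Real.sqrt ((q : ℝ) * s2) * Real.sqrt ((q : ℝ) * s2) :=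
      (Real.mul_self_sqrt hqs0.le).symm
    conv_lhs => rw [this]
    rw [Real.sqrt_mul_self (Real.sqrt_nonneg _)]
    field_simp
  have e2 : 1 / Real.sqrt ((q : ℝ) * s2) ≤ Real.sqrt g0 / (Real.sqrt ((L : ℝ) * V) * S) := by
    rw [div_le_div_iff₀ hsq0 hLS0, one_mul, mul_comm (Real.sqrt g0)]
    exact hs
  rw [e1]
  calc T ^ 4 * N * (1 / Real.sqrt ((q : ℝ) * s2)) * Real.sqrt (G1 * G2)
      ≤ T ^ 4 * N * (Real.sqrt g0 / (Real.sqrt ((L : ℝ) * V) * S)) * Real.sqrt (G1 * G2) := by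
        gcongr
    _ = T ^ 4 * ((N : ℝ) / (Real.sqrt ((L : ℝ) * V) * S)) * Real.sqrt (g0 * G1 * G2) := by
        rw [mul_assoc g0, Real.sqrt_mul hg00]
        ring

end Pool.Agent.Lib.ML
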