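import Pool.Agent.Lib.ML.SpecT

/-!
MP_00e23e_nt, directory Lib/ML, module T1Cau: Cauchy's inequality and the expansion of the square (the class a r s1 s2
depends on r, s1, s2).
-/

namespace Pool.Agent.Lib.ML

open Finset Pool.Agent.Lib.EH3 Pool.Agent.Lib.TB Pool.Agent.Results.MP_00e23e_nt Pool.Agent.Lib.MI

private lemma T1Cau_swap3 {M α β γ δ : Type*} [AddCommMonoid M] (A : Finset α) (B : Finset β)
    (C : Finset γ) (D : Finset δ) (f : α → β → γ → δ → M) :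
    ∑ a ∈ A, ∑ b ∈ B, ∑ c ∈ C, ∑ d ∈ D, f a b c d = ∑ d ∈ D, ∑ a ∈ A, ∑ b ∈ B, ∑ c ∈ C, f a b c d := by
  calc _ = ∑ a ∈ A, ∑ b ∈ B, ∑ d ∈ D, ∑ c ∈ C, f a b c d :=
        sum_congr rfl fun a _ => sum_congr rfl fun b _ => sum_comm
    _ = ∑ a ∈ A, ∑ d ∈ D, ∑ b ∈ B, ∑ c ∈ C, f a b c d := sum_congr rfl fun a _ => sum_comm
    _ = _ := sum_comm

private lemma T1Cau_swap4 {M α β γ δ ε : Type*} [AddCommMonoid M] (A : Finset α) (B : Finset β)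
    (C : Finset γ) (D : Finset δ) (E : Finset ε) (f : α → β → γ → δ → ε → M) :
    ∑ a ∈ A, ∑ b ∈ B, ∑ c ∈ C, ∑ d ∈ D, ∑ e ∈ E, f a b c d e =
      ∑ e ∈ E, ∑ a ∈ A, ∑ b ∈ B, ∑ c ∈ C, ∑ d ∈ D, f a b c d e := by
  calc _ = ∑ a ∈ A, ∑ e ∈ E, ∑ b ∈ B, ∑ c ∈ C, ∑ d ∈ D, f a b c d e :=
        sum_congr rfl fun a _ => T1Cau_swap3 B C D E (f a)
    _ = _ := sum_comm

/-- the substitution s = u w, w = v s -/
private lemma T1Cau_bij {S V : ℕ} {v : ℕ → ℕ} {g : ℕ → ℂ} (hV : 1 ≤ V)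
    (hg : ∀ s, g s ≠ 0 → v s ∣ s ∧ V < v s ∧ v s ≤ 2 * V) :
    ∑ s ∈ Ioc S (2 * S), g s = ∑ u ∈ Icc 1 (2 * S / V), ∑ w ∈ Ioc V (2 * V),
      if (S < u * w ∧ u * w ≤ 2 * S) ∧ v (u * w) = w then g (u * w) else 0 := by
  have h1 : ∀ s ∈ Ioc S (2 * S), g s = ∑ u ∈ Icc 1 (2 * S / V), ∑ w ∈ Ioc V (2 * V),
      if u * w = s ∧ v s = w then g s else 0 := by
    intro s hs
    rw [mem_Ioc] at hs
    by_cases h0 : g s = 0
    · rw [h0]
      simp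
    · obtain ⟨a1, a2, a3⟩ := hg s h0
      obtain ⟨u, hu⟩ := a1
      have hw : 0 < v s := by omega
      have hu' : u * v s = s := by rw [mul_comm]; exact hu.symm
      have hu1 : 1 ≤ u := by
        rcases Nat.eq_zero_or_pos u with h | h
        · rw [h] at hu'
          omega
        · exact h
      have hu2 : u ≤ 2 * S / V := by
        rw [Nat.le_div_iff_mul_le (by omega)]
        calc u * V ≤ u * v s := Nat.mul_le_mul_left u (by omega)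
          _ = s := hu'
          _ ≤ 2 * S := hs.2
      rw [sum_eq_single u, sum_eq_single (v s)]
      · rw [if_pos ⟨hu', rfl⟩]
      · intro w _ hw'
        rw [if_neg]
        rintro ⟨_, h⟩
        exact hw' h.symm
      · intro h
        exact absurd (mem_Ioc.2 ⟨a2, a3⟩) h
      · intro u' _ hu''
        refine sum_eq_zero fun w _ => ?_
        rw [if_neg]
        rintro ⟨h2, h3⟩
        apply hu''
        rw [← h3] at h2
        exact Nat.eq_of_mul_eq_mul_right hw (h2.trans hu'.symm)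
      · intro h
        exact absurd (mem_Icc.2 ⟨hu1, hu2⟩) h
  rw [sum_congr rfl h1, sum_comm]
  refine sum_congr rfl fun u _ => ?_
  rw [sum_comm]
  refine sum_congr rfl fun w _ => ?_
  by_cases hx : S < u * w ∧ u * w ≤ 2 * S
  · rw [sum_eq_single (u * w)]
    · simp [hx]
    · intro s _ hs
      rw [if_neg]
      rintro ⟨h2, _⟩
      exact hs h2.symm
    · intro h
      exact absurd (mem_Ioc.2 hx) h
  · rw [if_neg (fun h => hx h.1)]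
    refine sum_eq_zero fun s hs => ?_
    rw [if_neg]
    rintro ⟨h2, _⟩
    rw [← h2, mem_Ioc] at hs
    exact hx hs

/-- the coefficients after the substitution -/
private noncomputable def T1Cau_d (S : ℕ) (v : ℕ → ℕ) (γ : ℤ → ℕ → ℕ → ℕ → ℂ) (h : ℤ) (r u w s2 : ℕ) : ℂ :=
  if (S < u * w ∧ u * w ≤ 2 * S) ∧ v (u * w) = w then γ h r (u * w) s2 else 0

private lemma T1Cau_TT (a : ℕ → ℕ → ℕ → ℤ) (h : ℤ) (k R S N : ℕ) (γ : ℕ → ℕ → ℕ → ℂ) (ω : ℕ → ℕ → ℂ) :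
    TT a h k R S N γ ω = ∑ r ∈ Ioc R (2 * R), ∑ s2 ∈ Ioc S (2 * S), ∑ n ∈ Ioc N (2 * N), ω r n *
      ∑ s1 ∈ Ioc S (2 * S), γ r s1 s2 * t1K (a r s1 s2) h k r s1 s2 n := by
  classical
  unfold TT
  refine sum_congr rfl fun r _ => ?_
  rw [sum_comm]
  refine sum_congr rfl fun s2 _ => ?_
  have h1 : ∀ s1 ∈ Ioc S (2 * S), (γ r s1 s2 *
      ∑ n ∈ Ioc N (2 * N), if Gd (a r s1 s2) r s1 s2 n (n + k * r) then ω r n * fz (a r s1 s2) h r s1 s2 n (n + k * r) else 0) =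
      ∑ n ∈ Ioc N (2 * N), ω r n * (γ r s1 s2 * t1K (a r s1 s2) h k r s1 s2 n) := by
    intro s1 _
    rw [mul_sum]
    refine sum_congr rfl fun n _ => ?_
    unfold t1K
    split_ifs
    · ring
    · simp
  rw [sum_congr rfl h1, sum_comm]
  refine sum_congr rfl fun n _ => ?_
  rw [mul_sum]

private lemma T1Cau_main (a : ℕ → ℕ → ℕ → ℤ) (k R S N V L L' : ℕ) (r0 v : ℕ → ℕ) (Hs : Finset ℤ)
    (γ : ℤ → ℕ → ℕ → ℕ → ℂ) (ω : ℕ → ℕ → ℂ) (hV : 1 ≤ V)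
    (hγ : ∀ h r s1 s2, γ h r s1 s2 ≠ 0 → r0 r ∣ r ∧ L < r0 r ∧ r0 r ≤ L' ∧ v s1 ∣ s1 ∧ V < v s1 ∧ v s1 ≤ 2 * V) :
    ∑ h ∈ Hs, TT a h k R S N (γ h) ω = ∑ r ∈ Ioc R (2 * R), ∑ u ∈ Icc 1 (2 * S / V), ∑ s2 ∈ Ioc S (2 * S),
      ∑ n ∈ Ioc N (2 * N), ω r n * ∑ h ∈ Hs, ∑ w ∈ Ioc V (2 * V), T1Cau_d S v γ h r u w s2 *
        t1K (a r (u * w) s2) h k r (u * w) s2 n := by
  have h1 : ∀ h ∈ Hs, TT a h k R S N (γ h) ω = ∑ r ∈ Ioc R (2 * R), ∑ u ∈ Icc 1 (2 * S / V),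
      ∑ s2 ∈ Ioc S (2 * S), ∑ n ∈ Ioc N (2 * N), ω r n * ∑ w ∈ Ioc V (2 * V), T1Cau_d S v γ h r u w s2 *
        t1K (a r (u * w) s2) h k r (u * w) s2 n := by
    intro h _
    rw [T1Cau_TT]
    refine sum_congr rfl fun r _ => ?_
    have h2 : ∀ s2 ∈ Ioc S (2 * S), ∀ n ∈ Ioc N (2 * N), (ω r n *
        ∑ s1 ∈ Ioc S (2 * S), γ h r s1 s2 * t1K (a r s1 s2) h k r s1 s2 n) =
        ∑ u ∈ Icc 1 (2 * S / V), ω r n * ∑ w ∈ Ioc V (2 * V), T1Cau_d S v γ h r u w s2 *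
          t1K (a r (u * w) s2) h k r (u * w) s2 n := by
      intro s2 _ n _
      rw [T1Cau_bij (V := V) (v := v) (g := fun s1 => γ h r s1 s2 * t1K (a r s1 s2) h k r s1 s2 n) hV, mul_sum]
      · refine sum_congr rfl fun u _ => ?_
        congr 1
        refine sum_congr rfl fun w _ => ?_
        unfold T1Cau_d
        split_ifs
        · rfl
        · simp
      · intro s hs
        have h3 : γ h r s s2 ≠ 0 := left_ne_zero_of_mul hs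
        exact (hγ h r s s2 h3).2.2.2
    rw [sum_congr rfl fun s2 hs2 => sum_congr rfl fun n hn => h2 s2 hs2 n hn]
    calc _ = ∑ s2 ∈ Ioc S (2 * S), ∑ u ∈ Icc 1 (2 * S / V), ∑ n ∈ Ioc N (2 * N), ω r n *
          ∑ w ∈ Ioc V (2 * V), T1Cau_d S v γ h r u w s2 * t1K (a r (u * w) s2) h k r (u * w) s2 n :=
          sum_congr rfl fun s2 _ => sum_comm
      _ = _ := sum_comm
  rw [sum_congr rfl h1, ← T1Cau_swap4]
  refine sum_congr rfl fun r _ => sum_congr rfl fun u _ => sum_congr rfl fun s2 _ => sum_congr rfl fun n _ => ?_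
  rw [mul_sum]

/-- expansion of the square -/
private lemma T1Cau_sq (a : ℕ → ℤ) (k N V : ℕ) (r u s2 : ℕ) (Hs : Finset ℤ) (d : ℤ → ℕ → ℂ) :
    ∑ n ∈ Ioc N (2 * N), ‖∑ h ∈ Hs, ∑ w ∈ Ioc V (2 * V), d h w * t1K (a w) h k r (u * w) s2 n‖ ^ 2 ≤
      ∑ h ∈ Hs, ∑ h' ∈ Hs, ∑ w ∈ Ioc V (2 * V), ∑ w' ∈ Ioc V (2 * V),
        ‖d h w‖ * ‖d h' w'‖ * ‖t1In (a w) (a w') h h' k r u w w' s2 N‖ := by
  have h1 : ((∑ n ∈ Ioc N (2 * N), ‖∑ h ∈ Hs, ∑ w ∈ Ioc V (2 * V), d h w * t1K (a w) h k r (u * w) s2 n‖ ^ 2 : ℝ) : ℂ) =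
      ∑ h ∈ Hs, ∑ h' ∈ Hs, ∑ w ∈ Ioc V (2 * V), ∑ w' ∈ Ioc V (2 * V),
        d h w * (starRingEnd ℂ) (d h' w') * t1In (a w) (a w') h h' k r u w w' s2 N := by
    push_cast
    have h2 : ∀ n ∈ Ioc N (2 * N), ((‖∑ h ∈ Hs, ∑ w ∈ Ioc V (2 * V), d h w * t1K (a w) h k r (u * w) s2 n‖ : ℝ) : ℂ) ^ 2 =
        ∑ h ∈ Hs, ∑ h' ∈ Hs, ∑ w ∈ Ioc V (2 * V), ∑ w' ∈ Ioc V (2 * V),
          (d h w * t1K (a w) h k r (u * w) s2 n) * (starRingEnd ℂ) (d h' w' * t1K (a w') h' k r (u * w') s2 n) := by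
      intro n _
      rw [← Complex.mul_conj', map_sum, sum_mul_sum]
      refine sum_congr rfl fun h _ => sum_congr rfl fun h' _ => ?_
      rw [map_sum, sum_mul_sum]
    rw [sum_congr rfl h2, ← T1Cau_swap4]
    refine sum_congr rfl fun h _ => sum_congr rfl fun h' _ => sum_congr rfl fun w _ => sum_congr rfl fun w' _ => ?_
    unfold t1In
    rw [mul_sum]
    refine sum_congr rfl fun n _ => ?_
    rw [map_mul]
    ring
  have h3 : 0 ≤ ∑ n ∈ Ioc N (2 * N), ‖∑ h ∈ Hs, ∑ w ∈ Ioc V (2 * V), d h w * t1K (a w) h k r (u * w) s2 n‖ ^ 2 :=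
    sum_nonneg fun n _ => sq_nonneg _
  rw [← Complex.norm_of_nonneg h3, h1]
  refine (norm_sum_le _ _).trans (sum_le_sum fun h _ => (norm_sum_le _ _).trans (sum_le_sum fun h' _ =>
    (norm_sum_le _ _).trans (sum_le_sum fun w _ => (norm_sum_le _ _).trans (sum_le_sum fun w' _ => ?_))))
  rw [norm_mul, norm_mul, RCLike.norm_conj]

/-- the terms of the expanded square -/
private lemma T1Cau_term (a : ℕ → ℕ → ℕ → ℤ) (A : ℕ → ℕ → ℤ) (k S N V L L' : ℕ) (r0 v : ℕ → ℕ) (γ : ℤ → ℕ → ℕ → ℕ → ℂ)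
    (h1 : ∀ h r s1 s2, ‖γ h r s1 s2‖ ≤ 1)
    (hγ : ∀ h r s1 s2, γ h r s1 s2 ≠ 0 → r0 r ∣ r ∧ L < r0 r ∧ r0 r ≤ L' ∧ v s1 ∣ s1 ∧ V < v s1 ∧ v s1 ≤ 2 * V)
    (hA : ∀ h r s1 s2, γ h r s1 s2 ≠ 0 → s1.Coprime s2 → ((r * s2 : ℕ) : ℤ) ∣ a r s1 s2 - A r s2)
    (h h' : ℤ) (w w' r u s2 : ℕ) (hs2 : s2 ∈ Ioc S (2 * S)) :
    ‖T1Cau_d S v γ h r u w s2‖ * ‖T1Cau_d S v γ h' r u w' s2‖ * ‖t1In (a r (u * w) s2) (a r (u * w') s2) h h' k r u w w' s2 N‖ ≤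
      (N : ℝ) * (if t1e h h' w w' = 0 then (1 : ℝ) else 0) +
        (open Classical in if t1e h h' w w' ≠ 0 ∧ (r0 r ∣ r ∧ L < r0 r ∧ r0 r ≤ L') ∧ T1Gq (a r (u * w) s2) (a r (u * w') s2) S r u w w' s2 then
          ‖t1In (a r (u * w) s2) (a r (u * w') s2) h h' k r u w w' s2 N‖ else 0) := by
  classical
  have d1 : ∀ h w, ‖T1Cau_d S v γ h r u w s2‖ ≤ 1 := by
    intro h w
    unfold T1Cau_d
    split_ifs
    · exact h1 _ _ _ _
    · simp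
  have d2 : ‖T1Cau_d S v γ h r u w s2‖ * ‖T1Cau_d S v γ h' r u w' s2‖ ≤ 1 :=
    mul_le_one₀ (d1 h w) (norm_nonneg _) (d1 h' w')
  have d3 : ‖t1In (a r (u * w) s2) (a r (u * w') s2) h h' k r u w w' s2 N‖ ≤ N := by
    unfold t1In
    refine (norm_sum_le _ _).trans ?_
    calc _ ≤ ∑ n ∈ Ioc N (2 * N), (1 : ℝ) := by
          refine sum_le_sum fun n _ => ?_
          rw [norm_mul, RCLike.norm_conj]
          exact mul_le_one₀ (t1_norm_K _ _ _ _ _ _ _) (norm_nonneg _) (t1_norm_K _ _ _ _ _ _ _)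
      _ = N := by
          rw [sum_const, Nat.card_Ioc]
          simp only [nsmul_eq_mul, mul_one]
          congr 1
          omega
  have d4 : 0 ≤ ‖t1In (a r (u * w) s2) (a r (u * w') s2) h h' k r u w w' s2 N‖ := norm_nonneg _
  have d5 : ‖T1Cau_d S v γ h r u w s2‖ * ‖T1Cau_d S v γ h' r u w' s2‖ * ‖t1In (a r (u * w) s2) (a r (u * w') s2) h h' k r u w w' s2 N‖ ≤
      ‖t1In (a r (u * w) s2) (a r (u * w') s2) h h' k r u w w' s2 N‖ := by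
    calc _ ≤ 1 * ‖t1In (a r (u * w) s2) (a r (u * w') s2) h h' k r u w w' s2 N‖ := mul_le_mul_of_nonneg_right d2 d4
      _ = _ := one_mul _
  by_cases e0 : t1e h h' w w' = 0
  · rw [if_pos e0, if_neg (fun h => h.1 e0)]
    linarith
  · rw [if_neg e0]
    by_cases z1 : T1Cau_d S v γ h r u w s2 = 0
    · rw [z1]
      simp only [norm_zero, zero_mul, mul_zero, zero_add]
      split_ifs
      · exact d4
      · exact le_rfl
    by_cases z2 : T1Cau_d S v γ h' r u w' s2 = 0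
    · rw [z2]
      simp only [norm_zero, zero_mul, mul_zero, zero_add]
      split_ifs
      · exact d4
      · exact le_rfl
    have c1 : (S < u * w ∧ u * w ≤ 2 * S) ∧ γ h r (u * w) s2 ≠ 0 := by
      unfold T1Cau_d at z1
      split_ifs at z1 with hc
      · exact ⟨hc.1, z1⟩
      · exact absurd rfl z1
    have c2 : (S < u * w' ∧ u * w' ≤ 2 * S) ∧ γ h' r (u * w') s2 ≠ 0 := by
      unfold T1Cau_d at z2
      split_ifs at z2 with hc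
      · exact ⟨hc.1, z2⟩
      · exact absurd rfl z2
    have c3 := hγ _ _ _ _ c1.2
    by_cases hG : T1Gq (a r (u * w) s2) (a r (u * w') s2) S r u w w' s2
    · rw [if_pos ⟨e0, ⟨c3.1, c3.2.1, c3.2.2.1⟩, hG⟩]
      linarith
    · have hz : t1In (a r (u * w) s2) (a r (u * w') s2) h h' k r u w w' s2 N = 0 := by
        unfold t1In
        refine sum_eq_zero fun n _ => ?_
        by_contra hne
        apply hG
        have k1 : t1K (a r (u * w) s2) h k r (u * w) s2 n ≠ 0 := left_ne_zero_of_mul hne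
        have k2 : t1K (a r (u * w') s2) h' k r (u * w') s2 n ≠ 0 := by
          intro h0
          apply hne
          rw [h0]
          simp
        have g1 : Gd (a r (u * w) s2) r (u * w) s2 n (n + k * r) := by
          unfold t1K at k1
          split_ifs at k1 with hc
          · exact hc
          · exact absurd rfl k1
        have g2 : Gd (a r (u * w') s2) r (u * w') s2 n (n + k * r) := by
          unfold t1K at k2
          split_ifs at k2 with hc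
          · exact hc
          · exact absurd rfl k2
        rw [mem_Ioc] at hs2
        unfold Gd at g1 g2
        unfold T1Gq
        have f1 := hA _ _ _ _ c1.2 g1.2.2.1
        have f2 := hA _ _ _ _ c2.2 g2.2.2.1
        have f3 : ((r * s2 : ℕ) : ℤ) ∣ a r (u * w) s2 - a r (u * w') s2 := by
          have f4 := dvd_sub f1 f2
          have f5 : a r (u * w) s2 - A r s2 - (a r (u * w') s2 - A r s2) =
              a r (u * w) s2 - a r (u * w') s2 := by ring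
          rwa [f5] at f4
        exact ⟨g1.1, g2.1, g1.2.1, g1.2.2.1, g2.2.2.1, g1.2.2.2.2.2.1, g2.2.2.2.2.2.1, g1.2.2.2.2.2.2,
          f3, c1.1.1, c1.1.2, c2.1.1, c2.1.2, hs2.1, hs2.2⟩
      rw [hz]
      simp

theorem tT1Cau : T1CauStmt := by
  classical
  intro a A k R S N V L L' r0 v Hs γ ω hR hS hN hV h1 h2 hγ hA
  rw [T1Cau_main a k R S N V L L' r0 v Hs γ ω hV hγ]
  set U : ℕ := 2 * S / V with hU
  set D : ℝ := ∑ h ∈ Hs, ∑ h' ∈ Hs, ∑ w ∈ Ioc V (2 * V), ∑ w' ∈ Ioc V (2 * V),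
    (if t1e h h' w w' = 0 then (1 : ℝ) else 0) with hD
  have hD0 : 0 ≤ D := sum_nonneg fun h _ => sum_nonneg fun h' _ => sum_nonneg fun w _ => sum_nonneg fun w' _ => by
    split_ifs <;> norm_num
  set T : ℝ := t1Sum a R S V L L' Hs r0 (fun h h' w w' r u s2 => ‖t1In (a r (u * w) s2) (a r (u * w') s2) h h' k r u w w' s2 N‖) with hT
  have hT0 : 0 ≤ T := by
    rw [hT]
    unfold t1Sum
    refine sum_nonneg fun h _ => sum_nonneg fun h' _ => sum_nonneg fun w _ => sum_nonneg fun w' _ =>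
      sum_nonneg fun r _ => sum_nonneg fun u _ => sum_nonneg fun s2 _ => ?_
    split_ifs
    · exact norm_nonneg _
    · exact le_rfl
  have hV' : (0 : ℝ) < V := by exact_mod_cast hV
  have hUr : (U : ℝ) ≤ 2 * S / V := by
    calc (U : ℝ) ≤ ((2 * S : ℕ) : ℝ) / (V : ℝ) := Nat.cast_div_le
      _ = _ := by push_cast; ring
  -- the norms
  have e1 : ‖∑ r ∈ Ioc R (2 * R), ∑ u ∈ Icc 1 U, ∑ s2 ∈ Ioc S (2 * S), ∑ n ∈ Ioc N (2 * N), ω r n *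
      ∑ h ∈ Hs, ∑ w ∈ Ioc V (2 * V), T1Cau_d S v γ h r u w s2 * t1K (a r (u * w) s2) h k r (u * w) s2 n‖ ≤
      ∑ r ∈ Ioc R (2 * R), ∑ u ∈ Icc 1 U, ∑ s2 ∈ Ioc S (2 * S), ∑ n ∈ Ioc N (2 * N),
        ‖∑ h ∈ Hs, ∑ w ∈ Ioc V (2 * V), T1Cau_d S v γ h r u w s2 * t1K (a r (u * w) s2) h k r (u * w) s2 n‖ := by
    refine (norm_sum_le _ _).trans (sum_le_sum fun r _ => (norm_sum_le _ _).trans (sum_le_sum fun u _ =>
      (norm_sum_le _ _).trans (sum_le_sum fun s2 _ => (norm_sum_le _ _).trans (sum_le_sum fun n _ => ?_))))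
    rw [norm_mul]
    calc _ ≤ 1 * ‖∑ h ∈ Hs, ∑ w ∈ Ioc V (2 * V), T1Cau_d S v γ h r u w s2 * t1K (a r (u * w) s2) h k r (u * w) s2 n‖ :=
          mul_le_mul_of_nonneg_right (h2 r n) (norm_nonneg _)
      _ = _ := one_mul _
  -- Cauchy
  have e2 : (∑ r ∈ Ioc R (2 * R), ∑ u ∈ Icc 1 U, ∑ s2 ∈ Ioc S (2 * S), ∑ n ∈ Ioc N (2 * N),
      ‖∑ h ∈ Hs, ∑ w ∈ Ioc V (2 * V), T1Cau_d S v γ h r u w s2 * t1K (a r (u * w) s2) h k r (u * w) s2 n‖) ^ 2 ≤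
      ((R : ℝ) * ((U : ℝ) * ((S : ℝ) * N))) * ∑ r ∈ Ioc R (2 * R), ∑ u ∈ Icc 1 U, ∑ s2 ∈ Ioc S (2 * S),
        ∑ n ∈ Ioc N (2 * N), ‖∑ h ∈ Hs, ∑ w ∈ Ioc V (2 * V), T1Cau_d S v γ h r u w s2 *
          t1K (a r (u * w) s2) h k r (u * w) s2 n‖ ^ 2 := by
    have := sq_sum_le_card_mul_sum_sq (s := Ioc R (2 * R) ×ˢ (Icc 1 U ×ˢ (Ioc S (2 * S) ×ˢ Ioc N (2 * N))))
      (f := fun x : ℕ × ℕ × ℕ × ℕ => ‖∑ h ∈ Hs, ∑ w ∈ Ioc V (2 * V), T1Cau_d S v γ h x.1 x.2.1 w x.2.2.1 *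
          t1K (a x.1 (x.2.1 * w) x.2.2.1) h k x.1 (x.2.1 * w) x.2.2.1 x.2.2.2‖)
    simp only [sum_product, card_product, Nat.card_Ioc, Nat.card_Icc] at this
    have c1 : 2 * R - R = R := by omega
    have c2 : 2 * S - S = S := by omega
    have c3 : 2 * N - N = N := by omega
    have c4 : U + 1 - 1 = U := Nat.add_sub_cancel U 1
    rw [c1, c2, c3, c4] at this
    push_cast at this
    exact this
  -- expansion
  have e3 : ∑ r ∈ Ioc R (2 * R), ∑ u ∈ Icc 1 U, ∑ s2 ∈ Ioc S (2 * S),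
        ∑ n ∈ Ioc N (2 * N), ‖∑ h ∈ Hs, ∑ w ∈ Ioc V (2 * V), T1Cau_d S v γ h r u w s2 *
          t1K (a r (u * w) s2) h k r (u * w) s2 n‖ ^ 2 ≤
      ∑ r ∈ Ioc R (2 * R), ∑ u ∈ Icc 1 U, ∑ s2 ∈ Ioc S (2 * S), ((N : ℝ) * D +
        ∑ h ∈ Hs, ∑ h' ∈ Hs, ∑ w ∈ Ioc V (2 * V), ∑ w' ∈ Ioc V (2 * V),
          (if t1e h h' w w' ≠ 0 ∧ (r0 r ∣ r ∧ L < r0 r ∧ r0 r ≤ L') ∧ T1Gq (a r (u * w) s2) (a r (u * w') s2) S r u w w' s2 then
            ‖t1In (a r (u * w) s2) (a r (u * w') s2) h h' k r u w w' s2 N‖ else 0)) := by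
    refine sum_le_sum fun r _ => sum_le_sum fun u _ => sum_le_sum fun s2 hs2 => ?_
    refine (T1Cau_sq (fun w => a r (u * w) s2) k N V r u s2 Hs (fun h w => T1Cau_d S v γ h r u w s2)).trans ?_
    have e4 : (N : ℝ) * D + ∑ h ∈ Hs, ∑ h' ∈ Hs, ∑ w ∈ Ioc V (2 * V), ∑ w' ∈ Ioc V (2 * V),
          (if t1e h h' w w' ≠ 0 ∧ (r0 r ∣ r ∧ L < r0 r ∧ r0 r ≤ L') ∧ T1Gq (a r (u * w) s2) (a r (u * w') s2) S r u w w' s2 then
            ‖t1In (a r (u * w) s2) (a r (u * w') s2) h h' k r u w w' s2 N‖ else 0) =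
        ∑ h ∈ Hs, ∑ h' ∈ Hs, ∑ w ∈ Ioc V (2 * V), ∑ w' ∈ Ioc V (2 * V),
          ((N : ℝ) * (if t1e h h' w w' = 0 then (1 : ℝ) else 0) +
          (if t1e h h' w w' ≠ 0 ∧ (r0 r ∣ r ∧ L < r0 r ∧ r0 r ≤ L') ∧ T1Gq (a r (u * w) s2) (a r (u * w') s2) S r u w w' s2 then
            ‖t1In (a r (u * w) s2) (a r (u * w') s2) h h' k r u w w' s2 N‖ else 0)) := by
      rw [hD]
      simp only [mul_sum, sum_add_distrib]
    rw [e4]
    refine sum_le_sum fun h _ => sum_le_sum fun h' _ => sum_le_sum fun w _ => sum_le_sum fun w' _ => ?_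
    exact T1Cau_term a A k S N V L L' r0 v γ h1 hγ hA h h' w w' r u s2 hs2
  have e5 : ∑ r ∈ Ioc R (2 * R), ∑ u ∈ Icc 1 U, ∑ s2 ∈ Ioc S (2 * S), ((N : ℝ) * D +
        ∑ h ∈ Hs, ∑ h' ∈ Hs, ∑ w ∈ Ioc V (2 * V), ∑ w' ∈ Ioc V (2 * V),
          (if t1e h h' w w' ≠ 0 ∧ (r0 r ∣ r ∧ L < r0 r ∧ r0 r ≤ L') ∧ T1Gq (a r (u * w) s2) (a r (u * w') s2) S r u w w' s2 then
            ‖t1In (a r (u * w) s2) (a r (u * w') s2) h h' k r u w w' s2 N‖ else 0)) =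
      ((R : ℝ) * ((U : ℝ) * ((S : ℝ) * N))) * D + T := by
    simp only [sum_add_distrib]
    congr 1
    · simp only [sum_const, Nat.card_Ioc, Nat.card_Icc, nsmul_eq_mul]
      have c1 : 2 * R - R = R := by omega
      have c2 : 2 * S - S = S := by omega
      have c4 : U + 1 - 1 = U := Nat.add_sub_cancel U 1
      rw [c1, c2, c4]
      ring
    · rw [hT]
      unfold t1Sum
      rw [T1Cau_swap3]
      refine sum_congr rfl fun h _ => ?_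
      rw [T1Cau_swap3]
      refine sum_congr rfl fun h' _ => ?_
      rw [T1Cau_swap3]
      refine sum_congr rfl fun w _ => ?_
      rw [T1Cau_swap3]
  set E : ℝ := ∑ r ∈ Ioc R (2 * R), ∑ u ∈ Icc 1 U, ∑ s2 ∈ Ioc S (2 * S), ∑ n ∈ Ioc N (2 * N),
      ‖∑ h ∈ Hs, ∑ w ∈ Ioc V (2 * V), T1Cau_d S v γ h r u w s2 * t1K (a r (u * w) s2) h k r (u * w) s2 n‖ with hE
  have hM : (R : ℝ) * ((U : ℝ) * ((S : ℝ) * N)) ≤ 2 * (R : ℝ) * (S : ℝ) ^ 2 * N / V := by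
    calc (R : ℝ) * ((U : ℝ) * ((S : ℝ) * N)) ≤ (R : ℝ) * ((2 * S / V) * ((S : ℝ) * N)) := by gcongr
      _ = _ := by ring
  have hK0 : 0 ≤ (R : ℝ) * ((U : ℝ) * ((S : ℝ) * N)) := by positivity
  calc _ ≤ E ^ 2 := pow_le_pow_left₀ (norm_nonneg _) e1 2
    _ ≤ ((R : ℝ) * ((U : ℝ) * ((S : ℝ) * N))) * (((R : ℝ) * ((U : ℝ) * ((S : ℝ) * N))) * D + T) := by
        refine e2.trans (mul_le_mul_of_nonneg_left ?_ hK0)
        rw [← e5]
        exact e3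
    _ ≤ _ := by gcongr

end Pool.Agent.Lib.ML
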