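import Pool.Agent.Lib.ML.SpecT
import Pool.Agent.Lib.MI.T1Fac

/-! MP_00e23e_nt, THEOREM MI (version 6), chapter T1: arithmetic facts about the good tuples -/

namespace Pool.Agent.Lib.ML

open Finset Pool.Agent.Lib.EH3 Pool.Agent.Lib.TB Pool.Agent.Results.MP_00e23e_nt Pool.Agent.Lib.MI

theorem tT1Fac : T1FacStmt := by
  intro a a' S r r0 u w w' s2 hr0 hG
  obtain ⟨g1, g2, g3, g4, g5, g6, g7, g8, g9, g10, g11, g12, g13, g14, g15⟩ := hG
  have h1 : MI.T1Gq 1 S r u w w' s2 :=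
    ⟨g1, g2, g3, g4, g5, Int.one_gcd, Int.one_gcd, Int.one_gcd, g10, g11, g12, g13, g14, g15⟩
  obtain ⟨e1, e2, e3, e4, e5, e6, e7, e8, -, -, e11, e12, e13, e14⟩ :=
    MI.tT1Fac 1 S r r0 u w w' s2 hr0 h1
  have ha3 : Nat.Coprime a.natAbs (r * s2) := g8
  have has : Nat.Coprime a.natAbs s2 := Nat.Coprime.of_dvd_right (dvd_mul_left _ _) ha3
  exact ⟨e1, e2, e3, e4, e5, e6, e7, e8, has, e11, e12, e13, e14⟩

end Pool.Agent.Lib.ML
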