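import Pool.Agent.Lib.ML.SpecT
import Pool.Agent.Lib.MI.SpecT1

/-!
MP_00e23e_nt, directory Lib/ML, module T1Fin: the final theorem of chapter T1 (Type I sums), the class a r s1 s2.
-/

namespace Pool.Agent.Lib.ML

open Finset Pool.Agent.Lib.EH3 Pool.Agent.Lib.TB Pool.Agent.Results.MP_00e23e_nt Pool.Agent.Lib.MI

private lemma T1Fin_cond {R S N H V L : ℕ} {X : ℝ} (hR : 1 ≤ R) (hS : 1 ≤ S) (hN : 1 ≤ N) (hH : 1 ≤ H)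
    (hV : 1 ≤ V) (hL : 1 ≤ L)
    (h : 100 * (R : ℝ) ^ 2 * (S : ℝ) ^ 4 * (N : ℝ) ^ 2 * (V : ℝ) ^ 2 * (H : ℝ) ^ 2 * (L : ℝ) ^ 2 ≤ X) :
    16 * (R : ℝ) * (S : ℝ) ^ 2 * V ≤ X ∧ 4 * (H : ℝ) * V * L ≤ X ∧ 4 * (V : ℝ) ^ 2 ≤ X ∧ 2 * (V : ℝ) ≤ X := by
  have key : ∀ A : ℕ, (A : ℝ) ≤ ((R ^ 2 * S ^ 4 * N ^ 2 * V ^ 2 * H ^ 2 * L ^ 2 : ℕ) : ℝ) → 100 * (A : ℝ) ≤ X := by
    intro A hA
    refine le_trans (mul_le_mul_of_nonneg_left hA (by norm_num)) (le_trans (le_of_eq ?_) h)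
    push_cast
    ring
  have hle : ∀ A B : ℕ, 1 ≤ B → A ∣ B → (A : ℝ) ≤ (B : ℝ) := fun A B hB hd => by
    exact_mod_cast Nat.le_of_dvd (by omega) hd
  have hpos : 1 ≤ R ^ 2 * S ^ 4 * N ^ 2 * V ^ 2 * H ^ 2 * L ^ 2 := by
    have : 0 < R ^ 2 * S ^ 4 * N ^ 2 * V ^ 2 * H ^ 2 * L ^ 2 := by positivity
    omega
  have h1 := key (R * S ^ 2 * V) (hle _ _ hpos ⟨R * S ^ 2 * N ^ 2 * V * H ^ 2 * L ^ 2, by ring⟩)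
  have h2 := key (H * V * L) (hle _ _ hpos ⟨R ^ 2 * S ^ 4 * N ^ 2 * V * H * L, by ring⟩)
  have h3 := key (V ^ 2) (hle _ _ hpos ⟨R ^ 2 * S ^ 4 * N ^ 2 * H ^ 2 * L ^ 2, by ring⟩)
  have h4 := key V (hle _ _ hpos ⟨R ^ 2 * S ^ 4 * N ^ 2 * V * H ^ 2 * L ^ 2, by ring⟩)
  push_cast at h1 h2 h3 h4
  have p1 : (0 : ℝ) ≤ (R : ℝ) * (S : ℝ) ^ 2 * V := by positivity
  have p2 : (0 : ℝ) ≤ (H : ℝ) * V * L := by positivity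
  have p3 : (0 : ℝ) ≤ (V : ℝ) ^ 2 := by positivity
  have p4 : (0 : ℝ) ≤ (V : ℝ) := by positivity
  refine ⟨?_, ?_, ?_, ?_⟩
  · linarith
  · linarith
  · linarith
  · linarith

theorem tT1Fin (hCau : T1CauStmt) (hDia : MI.T1DiaStmt) (hAvi : T1AviStmt) : T1FinStmt := by
  refine ⟨92, by norm_num, 6, ?_⟩
  intro X T a A k R S N H V L L' r0 v Hs γ ω hT hR hS hN hH hV hL hX hRN hHs hγ hω hγ0 hγA
  have hV1 : 1 ≤ V := by omega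
  obtain ⟨c1, c2, c3, c4⟩ := T1Fin_cond hR hS hN hH hV1 hL hX
  have h1 := hCau a A k R S N V L L' r0 v Hs γ ω hR hS hN hV1 hγ hω hγ0 hγA
  have h2 := hDia X T H V Hs hT hV1 hHs c4
  have h3 := hAvi X T a k R S N H V L L' Hs r0 hT hR hS hL hV1 hRN hHs c1 c2 c3
  have hT1 : 1 ≤ T := hT.1
  set Z : ℝ := Real.sqrt (1 / (L : ℝ) + Real.sqrt (1 + (S : ℝ) / ((V : ℝ) * H)) / (Real.sqrt ((L : ℝ) * V) * S) +
    Real.sqrt ((L' : ℝ) * V) * S / N) with hZ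
  have hVp : (0 : ℝ) < (V : ℝ) := by exact_mod_cast hV1
  set E : ℝ := 2 * (R : ℝ) * (S : ℝ) ^ 2 * N / V with hE
  have hE0 : 0 ≤ E := by positivity
  have hTp : T ≤ T ^ 6 := le_self_pow₀ hT1 (by norm_num)
  have hT0 : 0 ≤ T := by linarith
  refine h1.trans ?_
  have h4 : E * (E * (4 * (H : ℝ) * V * T) + 46 * T ^ 6 * ((H : ℝ) ^ 2 * V * R * (S : ℝ) ^ 2 * N) * Z) =
      16 * T * ((R : ℝ) * (S : ℝ) ^ 2 * N) ^ 2 * ((H : ℝ) / V) +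
        92 * T ^ 6 * ((R : ℝ) * (S : ℝ) ^ 2 * N) ^ 2 * ((H : ℝ) ^ 2 * Z) := by
    rw [hE]
    field_simp
    ring
  have h5 : E * (E * (∑ h ∈ Hs, ∑ h' ∈ Hs, ∑ w ∈ Ioc V (2 * V), ∑ w' ∈ Ioc V (2 * V),
        (if t1e h h' w w' = 0 then (1 : ℝ) else 0)) +
      t1Sum a R S V L L' Hs r0 (fun h h' w w' r u s2 =>
        ‖t1In (a r (u * w) s2) (a r (u * w') s2) h h' k r u w w' s2 N‖)) ≤
      E * (E * (4 * (H : ℝ) * V * T) + 46 * T ^ 6 * ((H : ℝ) ^ 2 * V * R * (S : ℝ) ^ 2 * N) * Z) :=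
    mul_le_mul_of_nonneg_left (add_le_add (mul_le_mul_of_nonneg_left h2 hE0) h3) hE0
  refine h5.trans ?_
  rw [h4, mul_add]
  have h6 : 16 * T ≤ 92 * T ^ 6 := by linarith
  have h7 : (0 : ℝ) ≤ ((R : ℝ) * (S : ℝ) ^ 2 * N) ^ 2 := by positivity
  have h8 : (0 : ℝ) ≤ (H : ℝ) / V := by positivity
  refine add_le_add ?_ le_rfl
  exact mul_le_mul_of_nonneg_right (mul_le_mul_of_nonneg_right h6 h7) h8

end Pool.Agent.Lib.ML
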