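import Pool.Agent.Lib.ML.SpecT
import Pool.Agent.Lib.MI.SpecT1

/-! MP_00e23e_nt, Lib/ML, module T1Gav: the average of the gcds (helper2, after Lib/MI/T1Gav.lean). -/

namespace Pool.Agent.Lib.ML

open Finset Pool.Agent.Lib.EH3 Pool.Agent.Lib.TB Pool.Agent.Results.MP_00e23e_nt Pool.Agent.Lib.MI

/-- gcd of a product -/
private lemma T1Gav_nat (z r u m : ℕ) (hr : 1 ≤ r) (hu : 1 ≤ u) (hm : 1 ≤ m) :
    Nat.gcd z (r * u * m) ≤ Nat.gcd z r * Nat.gcd z u * Nat.gcd z m := by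
  refine Nat.le_of_dvd (Nat.mul_pos (Nat.mul_pos (Nat.gcd_pos_of_pos_right _ hr)
    (Nat.gcd_pos_of_pos_right _ hu)) (Nat.gcd_pos_of_pos_right _ hm)) ?_
  exact (Nat.gcd_mul_right_dvd_mul_gcd _ _ _).trans
    (mul_dvd_mul (Nat.gcd_mul_right_dvd_mul_gcd _ _ _) dvd_rfl)

private lemma T1Gav_nat2 (z d u : ℕ) (hu : 1 ≤ u) :
    Nat.gcd (z * d) u ≤ Nat.gcd z u * Nat.gcd u d := by
  refine Nat.le_of_dvd (Nat.mul_pos (Nat.gcd_pos_of_pos_right _ hu)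
    (Nat.gcd_pos_of_pos_left _ hu)) ?_
  rw [Nat.gcd_comm (z * d) u, Nat.gcd_comm z u]
  exact Nat.gcd_mul_right_dvd_mul_gcd _ _ _

private lemma T1Gav_gcd (E : ℤ) (d n : ℕ) :
    Int.gcd (E * d) (n : ℤ) = Nat.gcd (E.natAbs * d) n := by
  rw [Int.gcd_def, Int.natAbs_mul, Int.natAbs_natCast, Int.natAbs_natCast]

/-- modulo r0 the number E is a D -/
private lemma T1Gav_r (a a' h h' : ℤ) (w w' r r0 d : ℕ) (hr : 1 ≤ r) (hr0 : r0 ∣ r)
    (ha : Int.gcd a (r : ℤ) = 1) (haa : (r : ℤ) ∣ a - a') :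
    Int.gcd (t1E a a' h h' w w' * d) r0 ≤ Int.gcd (t1e h h' w w' * d) r := by
  set c := Int.gcd (t1E a a' h h' w w' * d) (r0 : ℤ) with hc
  have h1 : (c : ℤ) ∣ t1E a a' h h' w w' * d := Int.gcd_dvd_left _ _
  have h2 : (c : ℤ) ∣ (r0 : ℤ) := Int.gcd_dvd_right _ _
  have h3 : (c : ℤ) ∣ (r : ℤ) := h2.trans (Int.natCast_dvd_natCast.2 hr0)
  have e : t1E a a' h h' w w' * d = a * (t1e h h' w w' * d) +
      (a - a') * (h' * ((w / Nat.gcd w w' : ℕ) : ℤ) * d) := by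
    unfold t1E t1e
    ring
  have h4 : (c : ℤ) ∣ a * (t1e h h' w w' * d) := by
    rw [e] at h1
    exact (dvd_add_left (Dvd.dvd.mul_right (h3.trans haa) _)).1 h1
  have h5 : IsCoprime (c : ℤ) a := by
    have h6 : IsCoprime a (r : ℤ) := Int.isCoprime_iff_gcd_eq_one.2 ha
    exact (h6.of_isCoprime_of_dvd_right h3).symm
  have h7 : (c : ℤ) ∣ t1e h h' w w' * d := h5.dvd_of_dvd_mul_left h4
  exact Nat.le_of_dvd (Int.gcd_pos_of_ne_zero_right _ (by omega)) (Int.dvd_gcd h7 h3)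

/-- the bound of the gcd -/
private lemma T1Gav_N (hGsb : T1GsbStmt) (a a' h h' : ℤ) (w w' r r0 u s2 S d : ℕ) (hd : 1 ≤ d)
    (hD : t1e h h' w w' ≠ 0) (hr0 : r0 ∣ r) (hq : T1Gq a a' S r u w w' s2) :
    Int.gcd (t1E a a' h h' w w' * d) ((t1q r0 u w w' : ℕ) : ℤ) ≤
      Int.gcd (t1e h h' w w' * d) r *
        (Int.gcd (t1E a a' h h' w w') u * Int.gcd (t1e h h' w w' * d) u) *
        (Nat.gcd w w' * Int.gcd h w * Int.gcd h' w' * Int.gcd ((Nat.lcm w w' : ℕ) : ℤ) d) := by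
  obtain ⟨q1, q2, q3, q4, q5, q6, q7, q8, q9, -⟩ := hq
  have p1 := q1.ne_zero
  have p2 := q2.ne_zero
  have hr : 1 ≤ r := Nat.pos_of_ne_zero fun h0 => p1 (by rw [h0, zero_mul])
  have hu : 1 ≤ u := Nat.pos_of_ne_zero fun h0 => p1 (by rw [h0, zero_mul, mul_zero])
  have hw : 1 ≤ w := Nat.pos_of_ne_zero fun h0 => p1 (by rw [h0, mul_zero, mul_zero])
  have hw' : 1 ≤ w' := Nat.pos_of_ne_zero fun h0 => p2 (by rw [h0, mul_zero, mul_zero])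
  have hm : 1 ≤ Nat.lcm w w' := Nat.lcm_pos hw hw'
  have hr0' : 1 ≤ r0 := Nat.pos_of_dvd_of_pos hr0 hr
  have hgd : ∀ (b : ℤ) (m n : ℕ), m ∣ n → Int.gcd b (n : ℤ) = 1 → Int.gcd b (m : ℤ) = 1 := by
    intro b m n hmn hb
    rw [← Int.isCoprime_iff_gcd_eq_one] at hb ⊢
    exact hb.of_isCoprime_of_dvd_right (Int.natCast_dvd_natCast.2 hmn)
  have har : Int.gcd a (r : ℤ) = 1 := hgd a r _ (dvd_mul_right _ _) q6
  have haw : Int.gcd a (w : ℤ) = 1 := hgd a w _ (dvd_mul_of_dvd_right (dvd_mul_left _ _) _) q6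
  have haw' : Int.gcd a' (w' : ℤ) = 1 :=
    hgd a' w' _ (dvd_mul_of_dvd_right (dvd_mul_left _ _) _) q7
  have haa : (r : ℤ) ∣ a - a' := (Int.natCast_dvd_natCast.2 (dvd_mul_right r s2)).trans q9
  have a1 := T1Gav_nat ((t1E a a' h h' w w').natAbs * d) r0 u (Nat.lcm w w') hr0' hu hm
  have a2 := T1Gav_r a a' h h' w w' r r0 d hr hr0 har haa
  rw [T1Gav_gcd] at a2
  have a3 := T1Gav_nat2 (t1E a a' h h' w w').natAbs d u hu
  have a4 := T1Gav_nat2 (t1E a a' h h' w w').natAbs d (Nat.lcm w w') hm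
  have a5 : Nat.gcd (t1E a a' h h' w w').natAbs (Nat.lcm w w') ≤
      Nat.gcd w w' * Int.gcd h w * Int.gcd h' w' := hGsb a a' h h' w w' hw hw' haw haw'
  have a6 : Int.gcd ((Nat.lcm w w' : ℕ) : ℤ) d = Nat.gcd (Nat.lcm w w') d := rfl
  have a7 : Int.gcd (t1E a a' h h' w w') u = Nat.gcd (t1E a a' h h' w w').natAbs u := rfl
  have a8 : Nat.gcd u d ≤ Int.gcd (t1e h h' w w' * d) u := by
    have hdZ : (d : ℤ) ≠ 0 := by exact_mod_cast (by omega : d ≠ 0)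
    refine Nat.le_of_dvd (Int.gcd_pos_of_ne_zero_left _ (mul_ne_zero hD hdZ)) ?_
    rw [T1Gav_gcd, Nat.gcd_comm u d]
    exact Nat.gcd_dvd_gcd_of_dvd_left _ (dvd_mul_left _ _)
  rw [T1Gav_gcd]
  unfold t1q
  refine a1.trans ?_
  rw [a6, a7]
  exact Nat.mul_le_mul (Nat.mul_le_mul a2 (a3.trans (Nat.mul_le_mul_left _ a8)))
    (a4.trans (Nat.mul_le_mul_right _ a5))

/-- the bound of the summand -/
private lemma T1Gav_pt (hGsb : T1GsbStmt) (a a' h h' : ℤ) (w w' r r0 u s2 S d : ℕ) (l : ℝ)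
    (hl : 0 < l) (hd : 1 ≤ d) (hD : t1e h h' w w' ≠ 0) (hr0 : r0 ∣ r)
    (hq : T1Gq a a' S r u w w' s2) :
    Real.sqrt ((Nat.gcd w w' : ℝ) *
        (Int.gcd (t1E a a' h h' w w' * d) ((t1q r0 u w w' : ℕ) : ℤ) : ℝ) *
        (Int.gcd (t1e h h' w w' * d) s2 : ℝ)) ≤
      l / 2 * (((Int.gcd (t1e h h' w w' * d) r : ℝ) * (Int.gcd (t1e h h' w w' * d) u : ℝ) *
        (Int.gcd (t1e h h' w w' * d) s2 : ℝ)) *
        ((Nat.gcd w w' : ℝ) * (Int.gcd h w : ℝ) * (Int.gcd h' w' : ℝ) *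
        (Int.gcd ((Nat.lcm w w' : ℕ) : ℤ) d : ℝ))) +
      1 / (2 * l) * ((Nat.gcd w w' : ℝ) * (Int.gcd (t1E a a' h h' w w') u : ℝ)) := by
  have hN := T1Gav_N hGsb a a' h h' w w' r r0 u s2 S d hd hD hr0 hq
  have hNR : (Int.gcd (t1E a a' h h' w w' * d) ((t1q r0 u w w' : ℕ) : ℤ) : ℝ) ≤
      (Int.gcd (t1e h h' w w' * d) r : ℝ) *
        ((Int.gcd (t1E a a' h h' w w') u : ℝ) * (Int.gcd (t1e h h' w w' * d) u : ℝ)) *
        ((Nat.gcd w w' : ℝ) * (Int.gcd h w : ℝ) * (Int.gcd h' w' : ℝ) *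
          (Int.gcd ((Nat.lcm w w' : ℕ) : ℤ) d : ℝ)) := by exact_mod_cast hN
  have k1 : (0 : ℝ) ≤ (Int.gcd (t1e h h' w w' * d) r : ℝ) := Nat.cast_nonneg _
  have k2 : (0 : ℝ) ≤ (Int.gcd (t1e h h' w w' * d) u : ℝ) := Nat.cast_nonneg _
  have k3 : (0 : ℝ) ≤ (Int.gcd (t1e h h' w w' * d) s2 : ℝ) := Nat.cast_nonneg _
  have k4 : (0 : ℝ) ≤ (Int.gcd h w : ℝ) := Nat.cast_nonneg _
  have k5 : (0 : ℝ) ≤ (Int.gcd h' w' : ℝ) := Nat.cast_nonneg _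
  have k6 : (0 : ℝ) ≤ (Int.gcd ((Nat.lcm w w' : ℕ) : ℤ) d : ℝ) := Nat.cast_nonneg _
  have k7 : (0 : ℝ) ≤ (Nat.gcd w w' : ℝ) := Nat.cast_nonneg _
  have k8 : (0 : ℝ) ≤ (Int.gcd (t1E a a' h h' w w') u : ℝ) := Nat.cast_nonneg _
  generalize (Int.gcd (t1E a a' h h' w w' * d) ((t1q r0 u w w' : ℕ) : ℤ) : ℝ) = N at *
  generalize (Int.gcd (t1e h h' w w' * d) r : ℝ) = A at *
  generalize (Int.gcd (t1e h h' w w' * d) u : ℝ) = B at *
  generalize (Int.gcd (t1e h h' w w' * d) s2 : ℝ) = C at *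
  generalize (Int.gcd h w : ℝ) = p at *
  generalize (Int.gcd h' w' : ℝ) = q at *
  generalize (Int.gcd ((Nat.lcm w w' : ℕ) : ℤ) d : ℝ) = e at *
  generalize (Nat.gcd w w' : ℝ) = g at *
  generalize (Int.gcd (t1E a a' h h' w w') u : ℝ) = Y at *
  refine Real.sqrt_le_iff.2 ⟨by positivity, ?_⟩
  have hX : 0 ≤ A * B * C * p * q * e := by positivity
  have h1 : (A * B * C * p * q * e) * Y ≤
      (l / 2 * (A * B * C * p * q * e) + 1 / (2 * l) * Y) ^ 2 := by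
    have h2 : l / 2 * (1 / (2 * l)) = 1 / 4 := by
      field_simp
      norm_num
    nlinarith [sq_nonneg (l / 2 * (A * B * C * p * q * e) - 1 / (2 * l) * Y),
      mul_comm (l / 2 * (A * B * C * p * q * e)) (1 / (2 * l) * Y)]
  calc g * N * C ≤ g * (A * (Y * B) * (g * p * q * e)) * C := by gcongr
    _ = g ^ 2 * ((A * B * C * p * q * e) * Y) := by ring
    _ ≤ g ^ 2 * (l / 2 * (A * B * C * p * q * e) + 1 / (2 * l) * Y) ^ 2 :=
        mul_le_mul_of_nonneg_left h1 (by positivity)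
    _ = (l / 2 * (A * B * C * (g * p * q * e)) + 1 / (2 * l) * (g * Y)) ^ 2 := by ring

private lemma T1Gav_prod3 (A B C : Finset ℕ) (f g h : ℕ → ℝ) (K : ℝ) :
    ∑ x ∈ A, ∑ y ∈ B, ∑ z ∈ C, (f x * g y * h z) * K =
      ((∑ x ∈ A, f x) * (∑ y ∈ B, g y) * (∑ z ∈ C, h z)) * K := by
  simp only [← Finset.sum_mul, ← Finset.mul_sum]

private lemma T1Gav_swap {α β γ : Type} (A : Finset α) (B : Finset β) (C : Finset γ)
    (F : α → β → γ → ℝ) :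
    ∑ x ∈ A, ∑ y ∈ B, ∑ z ∈ C, F x y z = ∑ y ∈ B, ∑ z ∈ C, ∑ x ∈ A, F x y z := by
  rw [Finset.sum_comm]
  exact Finset.sum_congr rfl fun y _ => Finset.sum_comm

private lemma T1Gav_swap7 {α : Type} (A : Finset α) (W R U S : Finset ℕ)
    (F : α → α → ℕ → ℕ → ℕ → ℕ → ℕ → ℝ) :
    ∑ h ∈ A, ∑ h' ∈ A, ∑ w ∈ W, ∑ w' ∈ W, ∑ r ∈ R, ∑ u ∈ U, ∑ s ∈ S, F h h' w w' r u s =
      ∑ w ∈ W, ∑ w' ∈ W, ∑ r ∈ R, ∑ u ∈ U, ∑ s ∈ S, ∑ h ∈ A, ∑ h' ∈ A, F h h' w w' r u s := by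
  have e : ∀ G : ℕ → ℕ → ℕ → ℕ → ℕ → ℝ, ∑ w ∈ W, ∑ w' ∈ W, ∑ r ∈ R, ∑ u ∈ U, ∑ s ∈ S, G w w' r u s =
      ∑ v ∈ W ×ˢ W ×ˢ R ×ˢ U ×ˢ S, G v.1 v.2.1 v.2.2.1 v.2.2.2.1 v.2.2.2.2 := by
    intro G
    simp only [Finset.sum_product]
  simp only [e]
  calc ∑ h ∈ A, ∑ h' ∈ A, ∑ v ∈ W ×ˢ W ×ˢ R ×ˢ U ×ˢ S,
        F h h' v.1 v.2.1 v.2.2.1 v.2.2.2.1 v.2.2.2.2
      = ∑ h ∈ A, ∑ v ∈ W ×ˢ W ×ˢ R ×ˢ U ×ˢ S, ∑ h' ∈ A,
        F h h' v.1 v.2.1 v.2.2.1 v.2.2.2.1 v.2.2.2.2 :=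
        Finset.sum_congr rfl fun h _ => Finset.sum_comm
    _ = _ := Finset.sum_comm

/-- the sum over the h -/
private lemma T1Gav_h (hGsa : T1GsaStmt) (H : ℕ) (Hs : Finset ℤ) (T : ℝ) (w : ℕ) (hw : 1 ≤ w)
    (hHs : ∀ h ∈ Hs, h ≠ 0 ∧ |h| ≤ (H : ℤ)) (hT : (w.divisors.card : ℝ) ≤ T) :
    ∑ h ∈ Hs, (Int.gcd h w : ℝ) ≤ 2 * (H : ℝ) * T := by
  classical
  have hmaps : ∀ h ∈ Hs, h.natAbs ∈ Icc 1 H := by
    intro h hh
    obtain ⟨a1, a2⟩ := hHs h hh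
    rw [Finset.mem_Icc]
    constructor
    · exact Nat.pos_of_ne_zero (Int.natAbs_ne_zero.2 a1)
    · have : (h.natAbs : ℤ) ≤ (H : ℤ) := by
        rw [Int.natCast_natAbs]
        exact a2
      exact_mod_cast this
  rw [← Finset.sum_fiberwise_of_maps_to hmaps]
  have h1 : ∀ n ∈ Icc 1 H, ∑ h ∈ Hs with h.natAbs = n, (Int.gcd h w : ℝ) ≤
      2 * (Int.gcd (w : ℤ) (n : ℤ) : ℝ) := by
    intro n _
    have b1 : ∀ h ∈ Hs.filter (fun h => h.natAbs = n), (Int.gcd h w : ℝ) =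
        (Int.gcd (w : ℤ) (n : ℤ) : ℝ) := by
      intro h hh
      have b2 := (Finset.mem_filter.1 hh).2
      have b3 : Int.gcd h w = Int.gcd (w : ℤ) (n : ℤ) := by
        rw [Int.gcd_comm (w : ℤ) (n : ℤ)]
        change Nat.gcd h.natAbs w = Nat.gcd n w
        rw [b2]
      rw [b3]
    rw [Finset.sum_congr rfl b1, Finset.sum_const, nsmul_eq_mul]
    refine mul_le_mul_of_nonneg_right ?_ (Nat.cast_nonneg _)
    have b4 : Hs.filter (fun h => h.natAbs = n) ⊆ {(n : ℤ), -(n : ℤ)} := by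
      intro h hh
      have b2 := (Finset.mem_filter.1 hh).2
      rw [Finset.mem_insert, Finset.mem_singleton]
      omega
    have b5 := (Finset.card_le_card b4).trans Finset.card_le_two
    exact_mod_cast b5
  refine (Finset.sum_le_sum h1).trans ?_
  rw [← Finset.mul_sum]
  have h2 := (hGsa (w : ℤ) (by exact_mod_cast (by omega : w ≠ 0))).2 H
  rw [Int.natAbs_natCast] at h2
  have h3 : (H : ℝ) * (w.divisors.card : ℝ) ≤ (H : ℝ) * T :=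
    mul_le_mul_of_nonneg_left hT (Nat.cast_nonneg _)
  linarith

private lemma T1Gav_ww (hGsa : T1GsaStmt) (V : ℕ) (T : ℝ)
    (hwd : ∀ w ∈ Ioc V (2 * V), (w.divisors.card : ℝ) ≤ T) :
    ∑ w ∈ Ioc V (2 * V), ∑ w' ∈ Ioc V (2 * V), (Nat.gcd w w' : ℝ) ≤ 2 * (V : ℝ) ^ 2 * T := by
  have l1 : ∀ w ∈ Ioc V (2 * V), ∑ w' ∈ Ioc V (2 * V), (Nat.gcd w w' : ℝ) ≤ 2 * (V : ℝ) * T := by
    intro w hw
    have l2 := hwd w hw
    rw [Finset.mem_Ioc] at hw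
    have l3 := (hGsa (w : ℤ) (by exact_mod_cast (by omega : w ≠ 0))).1 V
    rw [Int.natAbs_natCast] at l3
    have l4 : ∑ w' ∈ Ioc V (2 * V), (Nat.gcd w w' : ℝ) =
        ∑ w' ∈ Ioc V (2 * V), (Int.gcd (w : ℤ) (w' : ℤ) : ℝ) := rfl
    rw [l4]
    exact l3.trans (mul_le_mul_of_nonneg_left l2 (by positivity))
  refine (Finset.sum_le_sum l1).trans ?_
  rw [Finset.sum_const, Nat.card_Ioc, nsmul_eq_mul]
  have l5 : ((2 * V - V : ℕ) : ℝ) = V := by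
    rw [show 2 * V - V = V by omega]
  rw [l5]
  apply le_of_eq
  ring

open Classical in
/-- the first sum -/
private lemma T1Gav_one (hGsa : T1GsaStmt) {X T : ℝ} (R S H V L : ℕ) (Hs : Finset ℤ)
    (hTau : Tau X T) (hV : 1 ≤ V) (hHs : ∀ h ∈ Hs, h ≠ 0 ∧ |h| ≤ (H : ℤ))
    (hX1 : 4 * (H : ℝ) * V * L ≤ X) (hX2 : 4 * (V : ℝ) ^ 2 ≤ X) :
    ∑ d ∈ Ico 1 L, ∑ h ∈ Hs, ∑ h' ∈ Hs, ∑ w ∈ Ioc V (2 * V), ∑ w' ∈ Ioc V (2 * V),
      ∑ r ∈ Ioc R (2 * R), ∑ u ∈ Icc 1 (2 * S / V), ∑ s2 ∈ Ioc S (2 * S),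
        (if t1e h h' w w' ≠ 0 then
          ((Int.gcd (t1e h h' w w' * d) r : ℝ) * (Int.gcd (t1e h h' w w' * d) u : ℝ) *
            (Int.gcd (t1e h h' w w' * d) s2 : ℝ)) *
          ((Nat.gcd w w' : ℝ) * (Int.gcd h w : ℝ) * (Int.gcd h' w' : ℝ) *
            (Int.gcd ((Nat.lcm w w' : ℕ) : ℤ) d : ℝ)) else 0) ≤
      64 * T ^ 7 * ((L : ℝ) * (H : ℝ) ^ 2 * V * R * (S : ℝ) ^ 2) := by
  obtain ⟨hT1, -, hTd⟩ := hTau
  have hT0 : 0 ≤ T := by linarith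
  have hV0 : (0 : ℝ) < V := by exact_mod_cast hV
  have hV1 : (1 : ℝ) ≤ V := by exact_mod_cast hV
  -- the sum over r, u, s2
  have hin : ∀ d ∈ Ico 1 L, ∀ h ∈ Hs, ∀ h' ∈ Hs, ∀ w ∈ Ioc V (2 * V), ∀ w' ∈ Ioc V (2 * V),
      ∑ r ∈ Ioc R (2 * R), ∑ u ∈ Icc 1 (2 * S / V), ∑ s2 ∈ Ioc S (2 * S),
        (if t1e h h' w w' ≠ 0 then
          ((Int.gcd (t1e h h' w w' * d) r : ℝ) * (Int.gcd (t1e h h' w w' * d) u : ℝ) *
            (Int.gcd (t1e h h' w w' * d) s2 : ℝ)) *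
          ((Nat.gcd w w' : ℝ) * (Int.gcd h w : ℝ) * (Int.gcd h' w' : ℝ) *
            (Int.gcd ((Nat.lcm w w' : ℕ) : ℤ) d : ℝ)) else 0) ≤
      (8 * T ^ 3 * (R * (S : ℝ) ^ 2 / V)) * ((Nat.gcd w w' : ℝ) * (Int.gcd h w : ℝ) *
        (Int.gcd h' w' : ℝ) * (Int.gcd ((Nat.lcm w w' : ℕ) : ℤ) d : ℝ)) := by
    intro d hd h hh h' hh' w hw w' hw'
    rw [Finset.mem_Ico] at hd
    rw [Finset.mem_Ioc] at hw hw'
    set K : ℝ := (Nat.gcd w w' : ℝ) * (Int.gcd h w : ℝ) *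
        (Int.gcd h' w' : ℝ) * (Int.gcd ((Nat.lcm w w' : ℕ) : ℤ) d : ℝ) with hK
    have hK0 : 0 ≤ K := by positivity
    by_cases hD : t1e h h' w w' = 0
    · refine le_trans (le_of_eq ?_) (by positivity : 0 ≤ (8 * T ^ 3 * (R * (S : ℝ) ^ 2 / V)) * K)
      refine Finset.sum_eq_zero fun r _ => Finset.sum_eq_zero fun u _ =>
        Finset.sum_eq_zero fun s2 _ => ?_
      rw [if_neg]
      exact fun h0 => h0 hD
    · have hdZ : (d : ℤ) ≠ 0 := by exact_mod_cast (by omega : d ≠ 0)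
      set Z : ℤ := t1e h h' w w' * (d : ℤ) with hZdef
      have hZ : Z ≠ 0 := mul_ne_zero hD hdZ
      have hτ : (Z.natAbs.divisors.card : ℝ) ≤ T := by
        refine hTd Z.natAbs (Nat.pos_of_ne_zero (Int.natAbs_ne_zero.2 hZ)) ?_
        have c1 : |t1e h h' w w'| ≤ 4 * (H : ℤ) * V :=
          t1_e_le (hHs h hh).2 (hHs h' hh').2 hw.2 hw'.2
        have c2 : (d : ℤ) ≤ (L : ℤ) := by exact_mod_cast hd.2.le
        have c3 : |Z| ≤ 4 * (H : ℤ) * V * L := by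
          rw [hZdef, abs_mul, Nat.abs_cast]
          exact mul_le_mul c1 c2 (by positivity) (by positivity)
        have c4 : ((Z.natAbs : ℤ) : ℝ) ≤ ((4 * (H : ℤ) * V * L : ℤ) : ℝ) := by
          rw [Int.natCast_natAbs]
          exact_mod_cast c3
        push_cast at c4
        have c5 : ((Z.natAbs : ℕ) : ℝ) = |(Z : ℝ)| := by
          rw [Nat.cast_natAbs, Int.cast_abs]
        rw [c5]
        exact c4.trans hX1
      have hsum : ∑ r ∈ Ioc R (2 * R), ∑ u ∈ Icc 1 (2 * S / V), ∑ s2 ∈ Ioc S (2 * S),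
          (if t1e h h' w w' ≠ 0 then
            ((Int.gcd Z r : ℝ) * (Int.gcd Z u : ℝ) * (Int.gcd Z s2 : ℝ)) * K else 0) =
          ∑ r ∈ Ioc R (2 * R), ∑ u ∈ Icc 1 (2 * S / V), ∑ s2 ∈ Ioc S (2 * S),
            ((Int.gcd Z r : ℝ) * (Int.gcd Z u : ℝ) * (Int.gcd Z s2 : ℝ)) * K := by
        simp only [if_pos hD]
      rw [hsum]
      rw [T1Gav_prod3 (Ioc R (2 * R)) (Icc 1 (2 * S / V)) (Ioc S (2 * S))
        (fun r => (Int.gcd Z r : ℝ)) (fun u => (Int.gcd Z u : ℝ)) (fun s2 => (Int.gcd Z s2 : ℝ)) K]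
      refine mul_le_mul_of_nonneg_right ?_ hK0
      have e1 := (hGsa Z hZ).1 R
      have e2 := (hGsa Z hZ).2 (2 * S / V)
      have e3 := (hGsa Z hZ).1 S
      have e4 : ((2 * S / V : ℕ) : ℝ) ≤ 2 * S / V := by
        have := @Nat.cast_div_le ℝ _ _ _ (2 * S) V
        push_cast at this
        exact this
      have f1 : ∑ r ∈ Ioc R (2 * R), (Int.gcd Z r : ℝ) ≤ 2 * R * T := by
        refine e1.trans ?_
        exact mul_le_mul_of_nonneg_left hτ (by positivity)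
      have f2 : ∑ u ∈ Icc 1 (2 * S / V), (Int.gcd Z u : ℝ) ≤ 2 * S / V * T := by
        refine e2.trans ?_
        exact mul_le_mul e4 hτ (by positivity) (by positivity)
      have f3 : ∑ s2 ∈ Ioc S (2 * S), (Int.gcd Z s2 : ℝ) ≤ 2 * S * T := by
        refine e3.trans ?_
        exact mul_le_mul_of_nonneg_left hτ (by positivity)
      calc (∑ r ∈ Ioc R (2 * R), (Int.gcd Z r : ℝ)) * (∑ u ∈ Icc 1 (2 * S / V), (Int.gcd Z u : ℝ)) *
            (∑ s2 ∈ Ioc S (2 * S), (Int.gcd Z s2 : ℝ))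
          ≤ (2 * R * T) * (2 * S / V * T) * (2 * S * T) := by
            refine mul_le_mul (mul_le_mul f1 f2 ?_ ?_) f3 ?_ ?_
            · exact Finset.sum_nonneg fun _ _ => Nat.cast_nonneg _
            · positivity
            · exact Finset.sum_nonneg fun _ _ => Nat.cast_nonneg _
            · positivity
        _ = 8 * T ^ 3 * (R * (S : ℝ) ^ 2 / V) := by
            field_simp
            ring
  -- all sums
  refine (Finset.sum_le_sum fun d hd => Finset.sum_le_sum fun h hh =>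
    Finset.sum_le_sum fun h' hh' => Finset.sum_le_sum fun w hw =>
      Finset.sum_le_sum fun w' hw' => hin d hd h hh h' hh' w hw w' hw').trans ?_
  -- exchange the sums
  have hex : ∑ d ∈ Ico 1 L, ∑ h ∈ Hs, ∑ h' ∈ Hs, ∑ w ∈ Ioc V (2 * V), ∑ w' ∈ Ioc V (2 * V),
        (8 * T ^ 3 * (R * (S : ℝ) ^ 2 / V)) * ((Nat.gcd w w' : ℝ) * (Int.gcd h w : ℝ) *
        (Int.gcd h' w' : ℝ) * (Int.gcd ((Nat.lcm w w' : ℕ) : ℤ) d : ℝ)) =
      ∑ w ∈ Ioc V (2 * V), ∑ w' ∈ Ioc V (2 * V),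
        (8 * T ^ 3 * (R * (S : ℝ) ^ 2 / V)) * ((Nat.gcd w w' : ℝ) *
          (∑ h ∈ Hs, (Int.gcd h w : ℝ)) * (∑ h' ∈ Hs, (Int.gcd h' w' : ℝ)) *
          (∑ d ∈ Ico 1 L, (Int.gcd ((Nat.lcm w w' : ℕ) : ℤ) d : ℝ))) := by
    have g1 : ∀ d ∈ Ico 1 L, ∑ h ∈ Hs, ∑ h' ∈ Hs, ∑ w ∈ Ioc V (2 * V), ∑ w' ∈ Ioc V (2 * V),
        (8 * T ^ 3 * (R * (S : ℝ) ^ 2 / V)) * ((Nat.gcd w w' : ℝ) * (Int.gcd h w : ℝ) *
        (Int.gcd h' w' : ℝ) * (Int.gcd ((Nat.lcm w w' : ℕ) : ℤ) d : ℝ)) =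
        ∑ w ∈ Ioc V (2 * V), ∑ w' ∈ Ioc V (2 * V), ∑ h ∈ Hs, ∑ h' ∈ Hs,
        (8 * T ^ 3 * (R * (S : ℝ) ^ 2 / V)) * ((Nat.gcd w w' : ℝ) * (Int.gcd h w : ℝ) *
        (Int.gcd h' w' : ℝ) * (Int.gcd ((Nat.lcm w w' : ℕ) : ℤ) d : ℝ)) := by
      intro d _
      rw [Finset.sum_congr rfl fun h _ => T1Gav_swap Hs (Ioc V (2 * V)) (Ioc V (2 * V)) _]
      exact T1Gav_swap Hs (Ioc V (2 * V)) (Ioc V (2 * V)) _
    rw [Finset.sum_congr rfl g1, T1Gav_swap]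
    refine Finset.sum_congr rfl fun w _ => Finset.sum_congr rfl fun w' _ => ?_
    simp only [← Finset.sum_mul, ← Finset.mul_sum]
  rw [hex]
  -- the bounds
  have hwd : ∀ w ∈ Ioc V (2 * V), (w.divisors.card : ℝ) ≤ T := by
    intro w hw
    rw [Finset.mem_Ioc] at hw
    refine hTd w (by omega) ?_
    have c1 : (w : ℝ) ≤ 2 * V := by exact_mod_cast hw.2
    nlinarith
  have hb : ∀ w ∈ Ioc V (2 * V), ∀ w' ∈ Ioc V (2 * V),
      (8 * T ^ 3 * (R * (S : ℝ) ^ 2 / V)) * ((Nat.gcd w w' : ℝ) *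
          (∑ h ∈ Hs, (Int.gcd h w : ℝ)) * (∑ h' ∈ Hs, (Int.gcd h' w' : ℝ)) *
          (∑ d ∈ Ico 1 L, (Int.gcd ((Nat.lcm w w' : ℕ) : ℤ) d : ℝ))) ≤
      (8 * T ^ 3 * (R * (S : ℝ) ^ 2 / V)) * ((Nat.gcd w w' : ℝ) * (2 * H * T) * (2 * H * T) *
        (L * T)) := by
    intro w hw w' hw'
    have i1 := T1Gav_h hGsa H Hs T w (by rw [Finset.mem_Ioc] at hw; omega) hHs (hwd w hw)
    have i2 := T1Gav_h hGsa H Hs T w' (by rw [Finset.mem_Ioc] at hw'; omega) hHs (hwd w' hw')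
    rw [Finset.mem_Ioc] at hw hw'
    have hm0 : 1 ≤ Nat.lcm w w' := Nat.lcm_pos (by omega) (by omega)
    have i3 : ∑ d ∈ Ico 1 L, (Int.gcd ((Nat.lcm w w' : ℕ) : ℤ) d : ℝ) ≤ L * T := by
      have j1 := (hGsa ((Nat.lcm w w' : ℕ) : ℤ) (by exact_mod_cast (by omega : Nat.lcm w w' ≠ 0))).2 L
      rw [Int.natAbs_natCast] at j1
      have j2 : ((Nat.lcm w w').divisors.card : ℝ) ≤ T := by
        refine hTd _ hm0 ?_
        have k1 : Nat.lcm w w' ≤ w * w' :=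
          Nat.le_of_dvd (Nat.mul_pos (by omega) (by omega)) (Nat.lcm_dvd_mul w w')
        have k2 : w * w' ≤ (2 * V) * (2 * V) := Nat.mul_le_mul hw.2 hw'.2
        have k3 : ((Nat.lcm w w' : ℕ) : ℝ) ≤ (2 * V) * (2 * V) := by exact_mod_cast k1.trans k2
        calc ((Nat.lcm w w' : ℕ) : ℝ) ≤ (2 * V) * (2 * V) := k3
          _ = 4 * (V : ℝ) ^ 2 := by ring
          _ ≤ X := hX2
      have j3 : ∑ d ∈ Ico 1 L, (Int.gcd ((Nat.lcm w w' : ℕ) : ℤ) d : ℝ) ≤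
          ∑ d ∈ Icc 1 L, (Int.gcd ((Nat.lcm w w' : ℕ) : ℤ) d : ℝ) := by
        refine Finset.sum_le_sum_of_subset_of_nonneg ?_ fun _ _ _ => Nat.cast_nonneg _
        intro d hd
        rw [Finset.mem_Ico] at hd
        rw [Finset.mem_Icc]
        omega
      exact (j3.trans j1).trans (mul_le_mul_of_nonneg_left j2 (Nat.cast_nonneg _))
    have n1 : (0 : ℝ) ≤ ∑ h ∈ Hs, (Int.gcd h w : ℝ) := Finset.sum_nonneg fun _ _ => Nat.cast_nonneg _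
    have n2 : (0 : ℝ) ≤ ∑ h ∈ Hs, (Int.gcd h w' : ℝ) := Finset.sum_nonneg fun _ _ => Nat.cast_nonneg _
    have n3 : (0 : ℝ) ≤ ∑ d ∈ Ico 1 L, (Int.gcd ((Nat.lcm w w' : ℕ) : ℤ) d : ℝ) :=
      Finset.sum_nonneg fun _ _ => Nat.cast_nonneg _
    gcongr
  refine (Finset.sum_le_sum fun w hw => Finset.sum_le_sum fun w' hw' => hb w hw w' hw').trans ?_
  have hg := T1Gav_ww hGsa V T hwd
  have hfin : ∑ w ∈ Ioc V (2 * V), ∑ w' ∈ Ioc V (2 * V),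
      (8 * T ^ 3 * (R * (S : ℝ) ^ 2 / V)) * ((Nat.gcd w w' : ℝ) * (2 * H * T) * (2 * H * T) *
        (L * T)) =
      (8 * T ^ 3 * (R * (S : ℝ) ^ 2 / V)) * ((∑ w ∈ Ioc V (2 * V), ∑ w' ∈ Ioc V (2 * V),
        (Nat.gcd w w' : ℝ)) * (2 * H * T) * (2 * H * T) * (L * T)) := by
    simp only [← Finset.sum_mul, ← Finset.mul_sum]
  rw [hfin]
  calc (8 * T ^ 3 * (R * (S : ℝ) ^ 2 / V)) * ((∑ w ∈ Ioc V (2 * V), ∑ w' ∈ Ioc V (2 * V),
        (Nat.gcd w w' : ℝ)) * (2 * H * T) * (2 * H * T) * (L * T))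
      ≤ (8 * T ^ 3 * (R * (S : ℝ) ^ 2 / V)) * ((2 * (V : ℝ) ^ 2 * T) * (2 * H * T) * (2 * H * T) *
        (L * T)) := by gcongr
    _ = 64 * T ^ 7 * ((L : ℝ) * (H : ℝ) ^ 2 * V * R * (S : ℝ) ^ 2) := by
      field_simp
      ring

open Classical in
/-- the second sum -/
private lemma T1Gav_two (hGsa : T1GsaStmt) (hGsu : T1GsuStmt) {X T : ℝ} (a : ℕ → ℕ → ℕ → ℤ)
    (R S H V : ℕ) (Hs : Finset ℤ) (hTau : Tau X T) (hV : 1 ≤ V)
    (hHs : ∀ h ∈ Hs, h ≠ 0 ∧ |h| ≤ (H : ℤ)) (hX2 : 4 * (V : ℝ) ^ 2 ≤ X) (hX3 : 2 * (S : ℝ) ≤ X) :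
    ∑ h ∈ Hs, ∑ h' ∈ Hs, ∑ w ∈ Ioc V (2 * V), ∑ w' ∈ Ioc V (2 * V),
      ∑ r ∈ Ioc R (2 * R), ∑ u ∈ Icc 1 (2 * S / V), ∑ s2 ∈ Ioc S (2 * S),
        (if T1Gq (a r (u * w) s2) (a r (u * w') s2) S r u w w' s2 then
          (Nat.gcd w w' : ℝ) *
            (Int.gcd (t1E (a r (u * w) s2) (a r (u * w') s2) h h' w w') u : ℝ) else 0) ≤
      16 * T ^ 2 * (V * R * (S : ℝ) ^ 2 * (H * (H + 2 * S / V))) := by
  obtain ⟨hT1, -, hTd⟩ := hTau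
  have hT0 : 0 ≤ T := by linarith
  have hV0 : (0 : ℝ) < V := by exact_mod_cast hV
  have hV1 : (1 : ℝ) ≤ V := by exact_mod_cast hV
  rw [T1Gav_swap7]
  have e4 : ((2 * S / V : ℕ) : ℝ) ≤ 2 * S / V := by
    have := @Nat.cast_div_le ℝ _ _ _ (2 * S) V
    push_cast at this
    exact this
  have h1 : ∀ w ∈ Ioc V (2 * V), ∀ w' ∈ Ioc V (2 * V), ∀ r ∈ Ioc R (2 * R),
      ∀ u ∈ Icc 1 (2 * S / V), ∀ s2 ∈ Ioc S (2 * S),
      ∑ h ∈ Hs, ∑ h' ∈ Hs, (if T1Gq (a r (u * w) s2) (a r (u * w') s2) S r u w w' s2 then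
          (Nat.gcd w w' : ℝ) *
            (Int.gcd (t1E (a r (u * w) s2) (a r (u * w') s2) h h' w w') u : ℝ) else 0) ≤
        (Nat.gcd w w' : ℝ) * (4 * T * (H * (H + 2 * S / V))) := by
    intro w hw w' hw' r hr u hu s2 hs2
    rw [Finset.mem_Ioc] at hw hw'
    rw [Finset.mem_Icc] at hu
    by_cases hq : T1Gq (a r (u * w) s2) (a r (u * w') s2) S r u w w' s2
    · simp only [if_pos hq, ← Finset.mul_sum]
      refine mul_le_mul_of_nonneg_left ?_ (Nat.cast_nonneg _)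
      have c1 : Int.gcd (a r (u * w) s2) (u : ℤ) = 1 := by
        have c2 := hq.2.2.2.2.2.1
        rw [← Int.isCoprime_iff_gcd_eq_one] at c2 ⊢
        exact c2.of_isCoprime_of_dvd_right (Int.natCast_dvd_natCast.2
          (dvd_mul_of_dvd_right (dvd_mul_right _ _) _))
      have c3 : w'.Coprime u := by
        have c4 : Squarefree (u * w') := hq.2.1.squarefree_of_dvd (dvd_mul_left _ _)
        exact (Nat.coprime_of_squarefree_mul c4).symm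
      refine (hGsu (a r (u * w) s2) (a r (u * w') s2) u w w' H Hs hu.1 (by omega) (by omega) c1 c3
        hHs).trans ?_
      have c5 : (u : ℝ) ≤ 2 * S / V := by
        refine le_trans ?_ e4
        exact_mod_cast hu.2
      have c6 : (u.divisors.card : ℝ) ≤ T := by
        refine hTd u hu.1 (c5.trans (le_trans ?_ hX3))
        rw [div_le_iff₀ hV0]
        nlinarith [(Nat.cast_nonneg S : (0 : ℝ) ≤ S)]
      have c7 : (0 : ℝ) ≤ (u : ℝ) := Nat.cast_nonneg _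
      have c8 : (0 : ℝ) ≤ (H : ℝ) := Nat.cast_nonneg _
      gcongr
    · simp only [if_neg hq, Finset.sum_const_zero]
      positivity
  refine (Finset.sum_le_sum fun w hw => Finset.sum_le_sum fun w' hw' =>
    Finset.sum_le_sum fun r hr => Finset.sum_le_sum fun u hu => Finset.sum_le_sum fun s2 hs2 =>
      h1 w hw w' hw' r hr u hu s2 hs2).trans ?_
  have hwd : ∀ w ∈ Ioc V (2 * V), (w.divisors.card : ℝ) ≤ T := by
    intro w hw
    rw [Finset.mem_Ioc] at hw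
    refine hTd w (by omega) ?_
    have c1 : (w : ℝ) ≤ 2 * V := by exact_mod_cast hw.2
    nlinarith
  have hg := T1Gav_ww hGsa V T hwd
  have n1 : ((2 * R - R : ℕ) : ℝ) = R := by rw [show 2 * R - R = R by omega]
  have n2 : ((2 * S - S : ℕ) : ℝ) = S := by rw [show 2 * S - S = S by omega]
  simp only [Finset.sum_const, Nat.card_Ioc, Nat.card_Icc, nsmul_eq_mul, ← Finset.mul_sum,
    ← Finset.sum_mul, n1, n2, Nat.add_sub_cancel]
  calc (R : ℝ) * (((2 * S / V : ℕ) : ℝ) * ((S : ℝ) *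
        ((∑ w ∈ Ioc V (2 * V), ∑ w' ∈ Ioc V (2 * V), (Nat.gcd w w' : ℝ)) *
          (4 * T * (H * (H + 2 * S / V))))))
      ≤ (R : ℝ) * ((2 * S / V) * ((S : ℝ) *
        ((2 * (V : ℝ) ^ 2 * T) * (4 * T * (H * (H + 2 * S / V)))))) := by
        gcongr
    _ = 16 * T ^ 2 * (V * R * (S : ℝ) ^ 2 * (H * (H + 2 * S / V))) := by
        field_simp
        ring

theorem tT1Gav (hGsa : MI.T1GsaStmt) (hGsb : T1GsbStmt) (hGsu : T1GsuStmt) : T1GavStmt := by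
  classical
  intro X T a R S H V L L' Hs r0 hTau hR hS hV hHs hX1 hX2 hX3
  have hT1 : 1 ≤ T := hTau.1
  have hV0 : (0 : ℝ) < V := by exact_mod_cast hV
  rcases Nat.eq_zero_or_pos H with hH | hH
  · have hHs0 : Hs = ∅ := by
      rw [Finset.eq_empty_iff_forall_notMem]
      intro h hh
      obtain ⟨b1, b2⟩ := hHs h hh
      rw [hH] at b2
      have b3 : |h| ≤ 0 := by exact_mod_cast b2
      exact b1 (abs_nonpos_iff.1 b3)
    unfold t1Sum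
    rw [hHs0]
    simp only [Finset.sum_empty, Finset.sum_const_zero]
    positivity
  have hH0 : (0 : ℝ) < H := by exact_mod_cast hH
  set ρ : ℝ := 1 + (S : ℝ) / ((V : ℝ) * H) with hρ
  have hρ1 : 1 ≤ ρ := by
    rw [hρ]
    have : (0 : ℝ) ≤ (S : ℝ) / ((V : ℝ) * H) := by positivity
    linarith
  set l : ℝ := Real.sqrt ρ with hl
  have hl0 : 0 < l := Real.sqrt_pos.2 (by linarith)
  have hl2 : l ^ 2 = ρ := Real.sq_sqrt (by linarith)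
  have key := T1Gav_one hGsa R S H V L Hs hTau hV hHs hX1 hX2
  have key2 := T1Gav_two hGsa hGsu a R S H V Hs hTau hV hHs hX2 hX3
  set B1 := 64 * T ^ 7 * ((L : ℝ) * (H : ℝ) ^ 2 * V * R * (S : ℝ) ^ 2) with hB1
  set B2 := 16 * T ^ 2 * (V * R * (S : ℝ) ^ 2 * (H * (H + 2 * S / V))) with hB2
  have step : ∑ d ∈ Ico 1 L, t1Sum a R S V L L' Hs r0 (fun h h' w w' r u s2 =>
      Real.sqrt ((Nat.gcd w w' : ℝ) *
      (Int.gcd (t1E (a r (u * w) s2) (a r (u * w') s2) h h' w w' * d)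
        ((t1q (r0 r) u w w' : ℕ) : ℤ) : ℝ) *
        (Int.gcd (t1e h h' w w' * d) s2 : ℝ))) ≤ l / 2 * B1 + 1 / (2 * l) * (L * B2) := by
    calc _ ≤ ∑ d ∈ Ico 1 L, ∑ h ∈ Hs, ∑ h' ∈ Hs, ∑ w ∈ Ioc V (2 * V), ∑ w' ∈ Ioc V (2 * V),
          ∑ r ∈ Ioc R (2 * R), ∑ u ∈ Icc 1 (2 * S / V), ∑ s2 ∈ Ioc S (2 * S),
          (l / 2 * (if t1e h h' w w' ≠ 0 then
            ((Int.gcd (t1e h h' w w' * d) r : ℝ) * (Int.gcd (t1e h h' w w' * d) u : ℝ) *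
              (Int.gcd (t1e h h' w w' * d) s2 : ℝ)) *
            ((Nat.gcd w w' : ℝ) * (Int.gcd h w : ℝ) * (Int.gcd h' w' : ℝ) *
              (Int.gcd ((Nat.lcm w w' : ℕ) : ℤ) d : ℝ)) else 0) +
          1 / (2 * l) * (if T1Gq (a r (u * w) s2) (a r (u * w') s2) S r u w w' s2 then
            (Nat.gcd w w' : ℝ) *
              (Int.gcd (t1E (a r (u * w) s2) (a r (u * w') s2) h h' w w') u : ℝ) else 0)) := by
          unfold t1Sum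
          refine Finset.sum_le_sum fun d hd => Finset.sum_le_sum fun h hh =>
            Finset.sum_le_sum fun h' hh' => Finset.sum_le_sum fun w hw =>
            Finset.sum_le_sum fun w' hw' => Finset.sum_le_sum fun r hr =>
            Finset.sum_le_sum fun u hu => Finset.sum_le_sum fun s2 hs2 => ?_
          by_cases hc : t1e h h' w w' ≠ 0 ∧ (r0 r ∣ r ∧ L < r0 r ∧ r0 r ≤ L') ∧
              T1Gq (a r (u * w) s2) (a r (u * w') s2) S r u w w' s2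
          · rw [if_pos hc, if_pos hc.1, if_pos hc.2.2]
            exact T1Gav_pt hGsb _ _ h h' w w' r (r0 r) u s2 S d l hl0 (Finset.mem_Ico.1 hd).1 hc.1
              hc.2.1.1 hc.2.2
          · rw [if_neg hc]
            have n1 : (0 : ℝ) ≤ (if t1e h h' w w' ≠ 0 then
              ((Int.gcd (t1e h h' w w' * d) r : ℝ) * (Int.gcd (t1e h h' w w' * d) u : ℝ) *
                (Int.gcd (t1e h h' w w' * d) s2 : ℝ)) *
              ((Nat.gcd w w' : ℝ) * (Int.gcd h w : ℝ) * (Int.gcd h' w' : ℝ) *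
                (Int.gcd ((Nat.lcm w w' : ℕ) : ℤ) d : ℝ)) else 0) := by
              split_ifs
              · positivity
              · exact le_rfl
            have n2 : (0 : ℝ) ≤ (if T1Gq (a r (u * w) s2) (a r (u * w') s2) S r u w w' s2 then
              (Nat.gcd w w' : ℝ) *
                (Int.gcd (t1E (a r (u * w) s2) (a r (u * w') s2) h h' w w') u : ℝ) else 0) := by
              split_ifs
              · positivity
              · exact le_rfl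
            exact add_nonneg (mul_nonneg (by positivity) n1) (mul_nonneg (by positivity) n2)
      _ ≤ l / 2 * B1 + 1 / (2 * l) * (L * B2) := by
          simp only [Finset.sum_add_distrib, ← Finset.mul_sum, Finset.sum_const, Nat.card_Ico,
            nsmul_eq_mul]
          refine add_le_add (mul_le_mul_of_nonneg_left key (by positivity)) ?_
          have hLL : ((L - 1 : ℕ) : ℝ) ≤ (L : ℝ) := by exact_mod_cast Nat.sub_le L 1
          have hB20 : 0 ≤ B2 := by positivity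
          refine mul_le_mul_of_nonneg_left (mul_le_mul hLL key2 ?_ (Nat.cast_nonneg L))
            (by positivity)
          refine Finset.sum_nonneg fun h hh => Finset.sum_nonneg fun h' hh' =>
            Finset.sum_nonneg fun w hw => Finset.sum_nonneg fun w' hw' => Finset.sum_nonneg fun r hr =>
            Finset.sum_nonneg fun u hu => Finset.sum_nonneg fun s2 hs2 => ?_
          split_ifs
          · positivity
          · exact le_rfl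
  refine step.trans ?_
  have e1 : (L : ℝ) * B2 ≤ 32 * T ^ 2 * ((L : ℝ) * (H : ℝ) ^ 2 * V * R * (S : ℝ) ^ 2) * l ^ 2 := by
    rw [hl2, hρ, hB2]
    have e2 : 32 * T ^ 2 * ((L : ℝ) * (H : ℝ) ^ 2 * V * R * (S : ℝ) ^ 2) *
        (1 + (S : ℝ) / ((V : ℝ) * H)) =
        16 * T ^ 2 * (L * V * R * (S : ℝ) ^ 2 * (H * (2 * H + 2 * S / V))) := by
      field_simp
      ring
    rw [e2]
    have e3 : (H : ℝ) * (H + 2 * S / V) ≤ H * (2 * H + 2 * S / V) := by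
      refine mul_le_mul_of_nonneg_left ?_ hH0.le
      linarith
    calc (L : ℝ) * (16 * T ^ 2 * (V * R * (S : ℝ) ^ 2 * (H * (H + 2 * S / V))))
        = 16 * T ^ 2 * (L * V * R * (S : ℝ) ^ 2 * (H * (H + 2 * S / V))) := by ring
      _ ≤ _ := mul_le_mul_of_nonneg_left (mul_le_mul_of_nonneg_left e3 (by positivity))
          (by positivity)
  have e4 : 1 / (2 * l) * (L * B2) ≤
      16 * T ^ 2 * ((L : ℝ) * (H : ℝ) ^ 2 * V * R * (S : ℝ) ^ 2) * l := by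
    calc 1 / (2 * l) * (L * B2) ≤ 1 / (2 * l) *
          (32 * T ^ 2 * ((L : ℝ) * (H : ℝ) ^ 2 * V * R * (S : ℝ) ^ 2) * l ^ 2) :=
          mul_le_mul_of_nonneg_left e1 (by positivity)
      _ = 16 * T ^ 2 * ((L : ℝ) * (H : ℝ) ^ 2 * V * R * (S : ℝ) ^ 2) * l := by
          field_simp
          ring
  have t7 : T ^ 2 ≤ T ^ 7 := pow_le_pow_right₀ hT1 (by norm_num)
  have hΛ : 0 ≤ ((L : ℝ) * (H : ℝ) ^ 2 * V * R * (S : ℝ) ^ 2) * l := by positivity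
  have e5 : T ^ 2 * (((L : ℝ) * (H : ℝ) ^ 2 * V * R * (S : ℝ) ^ 2) * l) ≤
      T ^ 7 * (((L : ℝ) * (H : ℝ) ^ 2 * V * R * (S : ℝ) ^ 2) * l) :=
    mul_le_mul_of_nonneg_right t7 hΛ
  have e6 : 0 ≤ T ^ 7 * (((L : ℝ) * (H : ℝ) ^ 2 * V * R * (S : ℝ) ^ 2) * l) := by positivity
  rw [hB1]
  calc l / 2 * (64 * T ^ 7 * ((L : ℝ) * (H : ℝ) ^ 2 * V * R * (S : ℝ) ^ 2)) + 1 / (2 * l) * (L * B2)
      ≤ l / 2 * (64 * T ^ 7 * ((L : ℝ) * (H : ℝ) ^ 2 * V * R * (S : ℝ) ^ 2)) +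
        16 * T ^ 2 * ((L : ℝ) * (H : ℝ) ^ 2 * V * R * (S : ℝ) ^ 2) * l := by linarith
    _ = 32 * (T ^ 7 * (((L : ℝ) * (H : ℝ) ^ 2 * V * R * (S : ℝ) ^ 2) * l)) +
        16 * (T ^ 2 * (((L : ℝ) * (H : ℝ) ^ 2 * V * R * (S : ℝ) ^ 2) * l)) := by ring
    _ ≤ 64 * (T ^ 7 * (((L : ℝ) * (H : ℝ) ^ 2 * V * R * (S : ℝ) ^ 2) * l)) := by linarith
    _ = 64 * T ^ 7 * ((L : ℝ) * (H : ℝ) ^ 2 * V * R * (S : ℝ) ^ 2) * l := by ring

end Pool.Agent.Lib.ML
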