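import Pool.Agent.Lib.ML.SpecT

/-! MP_00e23e_nt, Lib/ML, chapter T1, module T1Gsu: average of gcd(E, u) over h, h'. -/

namespace Pool.Agent.Lib.ML

open Finset Pool.Agent.Lib.EH3 Pool.Agent.Lib.TB Pool.Agent.Results.MP_00e23e_nt Pool.Agent.Lib.MI

/-- integers of `[-H, H]` in one class modulo `e` -/
private lemma T1Gsu_cnt (e H : ℕ) (he : 1 ≤ e) (s : Finset ℤ) (hs : ∀ h ∈ s, |h| ≤ (H : ℤ))
    (hc : ∀ h1 ∈ s, ∀ h2 ∈ s, (e : ℤ) ∣ h1 - h2) : e * s.card ≤ 2 * H + e := by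
  rcases s.eq_empty_or_nonempty with h0 | h0
  · rw [h0, card_empty, mul_zero]
    exact Nat.zero_le _
  set m : ℤ := s.min' h0 with hm
  have hmem : m ∈ s := s.min'_mem h0
  have hmin : ∀ h ∈ s, m ≤ h := fun h hh => s.min'_le h hh
  have hep : (0 : ℤ) < e := by exact_mod_cast he
  have hmb := abs_le.1 (hs m hmem)
  have h1 : s.card ≤ (range (2 * H / e + 1)).card := by
    apply card_le_card_of_injOn (fun h => ((h - m) / (e : ℤ)).toNat)
    · intro h hh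
      have hh' : h ∈ s := hh
      have h2 := abs_le.1 (hs h hh')
      have h3 := hmin h hh'
      have h4 : 0 ≤ (h - m) / (e : ℤ) := Int.ediv_nonneg (by linarith) hep.le
      have h5 : (h - m) / (e : ℤ) ≤ (2 * (H : ℤ)) / (e : ℤ) :=
        Int.ediv_le_ediv hep (by linarith)
      have h6 : ((2 * (H : ℤ)) / (e : ℤ)) = ((2 * H / e : ℕ) : ℤ) := by push_cast; rfl
      rw [h6] at h5
      have h7 : ((h - m) / (e : ℤ)).toNat ≤ 2 * H / e := Int.toNat_le.2 h5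
      change ((h - m) / (e : ℤ)).toNat ∈ (range (2 * H / e + 1) : Set ℕ)
      rw [mem_coe, mem_range]
      omega
    · intro x hx y hy hxy
      have hx' : x ∈ s := hx
      have hy' : y ∈ s := hy
      obtain ⟨k, hk⟩ := hc x hx' m hmem
      obtain ⟨l, hl⟩ := hc y hy' m hmem
      have h2 : ((x - m) / (e : ℤ)).toNat = ((y - m) / (e : ℤ)).toNat := hxy
      have hx0 : 0 ≤ (x - m) / (e : ℤ) := Int.ediv_nonneg (by linarith [hmin x hx']) hep.le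
      have hy0 : 0 ≤ (y - m) / (e : ℤ) := Int.ediv_nonneg (by linarith [hmin y hy']) hep.le
      have h3 : (x - m) / (e : ℤ) = (y - m) / (e : ℤ) := by
        rw [← Int.toNat_of_nonneg hx0, ← Int.toNat_of_nonneg hy0, h2]
      rw [hk, hl, Int.mul_ediv_cancel_left _ hep.ne', Int.mul_ediv_cancel_left _ hep.ne'] at h3
      rw [h3] at hk
      linarith
  rw [card_range] at h1
  calc e * s.card ≤ e * (2 * H / e + 1) := Nat.mul_le_mul_left _ h1
    _ = e * (2 * H / e) + e := by ring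
    _ ≤ 2 * H + e := Nat.add_le_add_right (Nat.mul_div_le _ _) _

private lemma T1Gsu_card (H : ℕ) (Hs : Finset ℤ) (hHs : ∀ h ∈ Hs, h ≠ 0 ∧ |h| ≤ (H : ℤ)) :
    Hs.card ≤ 2 * H := by
  have h1 : Hs ⊆ (Icc (-(H : ℤ)) H).erase 0 := by
    intro h hh
    obtain ⟨h2, h3⟩ := hHs h hh
    rw [mem_erase, mem_Icc]
    exact ⟨h2, abs_le.1 h3⟩
  have h2 := card_le_card h1
  have h3 : (0 : ℤ) ∈ Icc (-(H : ℤ)) H := by
    rw [mem_Icc]
    constructor <;> omega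
  rw [card_erase_of_mem h3, Int.card_Icc] at h2
  omega

private lemma T1Gsu_gcd (E : ℤ) (u : ℕ) (hu : 1 ≤ u) :
    (Int.gcd E (u : ℤ) : ℝ) ≤ ∑ e ∈ u.divisors, (if (e : ℤ) ∣ E then (e : ℝ) else 0) := by
  have h1 : Int.gcd E (u : ℤ) ∈ u.divisors := by
    rw [Nat.mem_divisors]
    refine ⟨?_, by omega⟩
    exact_mod_cast Int.gcd_dvd_right E (u : ℤ)
  have h2 := single_le_sum (f := fun e : ℕ => if (e : ℤ) ∣ E then (e : ℝ) else 0)
    (fun e _ => by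
      split_ifs
      · positivity
      · exact le_rfl) h1
  have h3 : ((Int.gcd E (u : ℤ) : ℕ) : ℤ) ∣ E := Int.gcd_dvd_left E (u : ℤ)
  rw [if_pos h3] at h2
  exact h2

/-- the number of the `h` for given `e`, `h'` -/
private lemma T1Gsu_one (a a' : ℤ) (u w w' H : ℕ) (Hs : Finset ℤ) (hu : 1 ≤ u)
    (hau : Int.gcd a u = 1) (hwu : w'.Coprime u) (hHs : ∀ h ∈ Hs, h ≠ 0 ∧ |h| ≤ (H : ℤ))
    (h' : ℤ) (e : ℕ) (he : e ∈ u.divisors) :
    ∑ h ∈ Hs, (if (e : ℤ) ∣ t1E a a' h h' w w' then (e : ℝ) else 0) ≤ 2 * (H : ℝ) + u := by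
  have hed : e ∣ u := Nat.dvd_of_mem_divisors he
  have he1 : 1 ≤ e := Nat.pos_of_mem_divisors he
  have hg : Nat.gcd w w' ∣ w' := Nat.gcd_dvd_right w w'
  have hc1 : IsCoprime (e : ℤ) a := by
    have h1 : IsCoprime a (u : ℤ) := Int.isCoprime_iff_gcd_eq_one.2 hau
    exact (h1.of_isCoprime_of_dvd_right (by exact_mod_cast hed)).symm
  have hc2 : IsCoprime (e : ℤ) ((w' / Nat.gcd w w' : ℕ) : ℤ) := by
    rw [Nat.isCoprime_iff_coprime]
    exact (Nat.Coprime.coprime_dvd_left (Nat.div_dvd_of_dvd hg)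
      (Nat.Coprime.coprime_dvd_right hed hwu)).symm
  have h1 := T1Gsu_cnt e H he1 (Hs.filter fun h => (e : ℤ) ∣ t1E a a' h h' w w')
    (fun h hh => (hHs h (mem_filter.1 hh).1).2) (fun h1 hh1 h2 hh2 => by
      have h3 := dvd_sub (mem_filter.1 hh1).2 (mem_filter.1 hh2).2
      have h4 : t1E a a' h1 h' w w' - t1E a a' h2 h' w w' =
          ((h1 - h2) * a) * ((w' / Nat.gcd w w' : ℕ) : ℤ) := by
        unfold t1E
        ring
      rw [h4] at h3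
      exact hc1.dvd_of_dvd_mul_right (hc2.dvd_of_dvd_mul_right h3))
  rw [← sum_filter, sum_const, nsmul_eq_mul]
  have h2 : ((e * (Hs.filter fun h => (e : ℤ) ∣ t1E a a' h h' w w').card : ℕ) : ℝ) ≤
      ((2 * H + e : ℕ) : ℝ) := by exact_mod_cast h1
  push_cast at h2
  have h3 : (e : ℝ) ≤ u := by exact_mod_cast Nat.le_of_dvd hu hed
  linarith

theorem tT1Gsu : T1GsuStmt := by
  intro a a' u w w' H Hs hu _ _ hau hwu hHs
  have h1 : ∑ h ∈ Hs, ∑ h' ∈ Hs, (Int.gcd (t1E a a' h h' w w') (u : ℤ) : ℝ) ≤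
      ∑ h ∈ Hs, ∑ h' ∈ Hs, ∑ e ∈ u.divisors,
        (if (e : ℤ) ∣ t1E a a' h h' w w' then (e : ℝ) else 0) :=
    sum_le_sum fun h _ => sum_le_sum fun h' _ => T1Gsu_gcd _ u hu
  have h2 : ∑ h ∈ Hs, ∑ h' ∈ Hs, ∑ e ∈ u.divisors,
        (if (e : ℤ) ∣ t1E a a' h h' w w' then (e : ℝ) else 0) =
      ∑ h' ∈ Hs, ∑ e ∈ u.divisors, ∑ h ∈ Hs,
        (if (e : ℤ) ∣ t1E a a' h h' w w' then (e : ℝ) else 0) := by
    rw [sum_comm]
    refine sum_congr rfl fun h' _ => ?_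
    rw [sum_comm]
  have h3 : ∑ h' ∈ Hs, ∑ e ∈ u.divisors, ∑ h ∈ Hs,
        (if (e : ℤ) ∣ t1E a a' h h' w w' then (e : ℝ) else 0) ≤
      ∑ h' ∈ Hs, ∑ e ∈ u.divisors, (2 * (H : ℝ) + u) :=
    sum_le_sum fun h' _ => sum_le_sum fun e he =>
      T1Gsu_one a a' u w w' H Hs hu hau hwu hHs h' e he
  rw [h2] at h1
  refine (h1.trans h3).trans ?_
  rw [sum_const, sum_const, nsmul_eq_mul, nsmul_eq_mul]
  have h4 : (Hs.card : ℝ) ≤ 2 * H := by exact_mod_cast T1Gsu_card H Hs hHs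
  have h5 : 0 ≤ (u.divisors.card : ℝ) * (2 * (H : ℝ) + u) := by positivity
  have h6 := mul_le_mul_of_nonneg_right h4 h5
  refine h6.trans ?_
  have h7 : 0 ≤ (u.divisors.card : ℝ) * ((H : ℝ) * u) := by positivity
  nlinarith

end Pool.Agent.Lib.ML
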