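import Pool.Agent.Lib.ML.SpecT

/-!
MP_00e23e_nt, directory Lib/ML, module T1Pha: the phases modulo r s1, r s1' (two integers a, a').
-/

namespace Pool.Agent.Lib.ML

open Finset Pool.Agent.Lib.EH3 Pool.Agent.Lib.TB Pool.Agent.Results.MP_00e23e_nt Pool.Agent.Lib.MI

private lemma T1Pha_one {h a : ℤ} {x m k Q : ℕ} (hk : 1 ≤ k) (hQ1 : 1 ≤ Q) (hQ : k * m = Q)
    (hx : x.Coprime Q) :
    en (-(h * a * (iv x m : ℤ))) m = en (k * (-(h * a * (iv x Q : ℤ)))) Q := by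
  subst hQ
  have h1 := iv_dvd_dvd hx (Dvd.intro_left k rfl) hQ1
  have h2 : en (-(h * a * (iv x m : ℤ))) m = en (-(h * a * (iv x (k * m) : ℤ))) m := by
    apply en_congr
    have h3 : -(h * a * (iv x m : ℤ)) - -(h * a * (iv x (k * m) : ℤ)) =
        h * a * ((iv x (k * m) : ℤ) - (iv x m : ℤ)) := by ring
    rw [h3]
    exact dvd_mul_of_dvd_right h1 _
  rw [h2, en_mul_left k _ m hk]

private lemma T1Pha_cg {n s m Q : ℕ} (hm : m ∣ Q) (hQ1 : 1 ≤ Q) (hn : n.Coprime Q)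
    (hs : s.Coprime Q) :
    (m : ℤ) ∣ (iv (n * s) Q : ℤ) - (iv s m : ℤ) * (iv n m : ℤ) := by
  have h1 := iv_dvd_dvd (Nat.Coprime.mul_left hn hs) hm hQ1
  have h2 := iv_mul_mul (hn.coprime_dvd_right hm) (hs.coprime_dvd_right hm)
    (Nat.pos_of_dvd_of_pos hm hQ1)
  have h3 : (iv (n * s) Q : ℤ) - (iv s m : ℤ) * (iv n m : ℤ) =
      ((iv (n * s) Q : ℤ) - (iv (n * s) m : ℤ)) +
        ((iv (n * s) m : ℤ) - (iv n m : ℤ) * (iv s m : ℤ)) := by ring
  rw [h3]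
  exact dvd_add h1 h2

theorem tT1Pha (hFac : T1FacStmt) : T1PhaStmt := by
  intro a a' h h' S r r0 u w w' s2 n hr0 hG hn hn'
  obtain ⟨⟨hr, -, hu, hw, hw', -⟩, ⟨hr1, hq, -⟩, hQ, -, hrq, hqs, hrs, -, -⟩ :=
    hFac a a' S r r0 u w w' s2 hr0 hG
  have hg : 0 < Nat.gcd w w' := Nat.gcd_pos_of_pos_left _ (by omega)
  have hQ1 : 1 ≤ (r / r0) * t1q r0 u w w' := Nat.mul_pos hr1 hq
  -- the two factors
  have hk : 1 ≤ w' / Nat.gcd w w' :=
    Nat.div_pos (Nat.le_of_dvd (by omega) (Nat.gcd_dvd_right w w')) hg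
  have hk' : 1 ≤ w / Nat.gcd w w' :=
    Nat.div_pos (Nat.le_of_dvd (by omega) (Nat.gcd_dvd_left w w')) hg
  have hl : w * (w' / Nat.gcd w w') = Nat.lcm w w' := by
    rw [← Nat.mul_div_assoc _ (Nat.gcd_dvd_right w w')]
    rfl
  have hl' : w' * (w / Nat.gcd w w') = Nat.lcm w w' := by
    rw [← Nat.mul_div_assoc _ (Nat.gcd_dvd_left w w'), mul_comm w' w]
    rfl
  have e1 : w' / Nat.gcd w w' * (r * (u * w)) = (r / r0) * t1q r0 u w w' := by
    rw [hQ, ← hl]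
    ring
  have e2 : w / Nat.gcd w w' * (r * (u * w')) = (r / r0) * t1q r0 u w w' := by
    rw [hQ, ← hl']
    ring
  -- coprimality
  have hnQ : n.Coprime ((r / r0) * t1q r0 u w w') := by
    rw [hQ]
    have h1 : n.Coprime (u * w) := hn.coprime_mul_left_right
    have h2 : n.Coprime (u * w') := hn'.coprime_mul_left_right
    have h3 : n.Coprime (w * w') :=
      Nat.Coprime.mul_right h1.coprime_mul_left_right h2.coprime_mul_left_right
    exact Nat.Coprime.mul_right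
      (Nat.Coprime.mul_right hn.coprime_mul_right_right h1.coprime_mul_right_right)
      (h3.coprime_dvd_right (Nat.lcm_dvd_mul w w'))
  have hsQ : s2.Coprime ((r / r0) * t1q r0 u w w') := Nat.Coprime.mul_right hrs.symm hqs.symm
  have hx : (n * s2).Coprime ((r / r0) * t1q r0 u w w') := Nat.Coprime.mul_left hnQ hsQ
  rw [T1Pha_one (h := h) (a := a) hk hQ1 e1 hx, T1Pha_one (h := h') (a := a') hk' hQ1 e2 hx,
    ← t1_en_sub]
  have e3 : ((w' / Nat.gcd w w' : ℕ) : ℤ) *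
        (-(h * a * (iv (n * s2) ((r / r0) * t1q r0 u w w') : ℤ))) -
      ((w / Nat.gcd w w' : ℕ) : ℤ) *
        (-(h' * a' * (iv (n * s2) ((r / r0) * t1q r0 u w w') : ℤ))) =
      -(t1E a a' h h' w w') * (iv (n * s2) ((r / r0) * t1q r0 u w w') : ℤ) := by
    unfold t1E
    ring
  rw [e3, en_crt hrq hr1 hq]
  have c1 := T1Pha_cg (Dvd.intro _ rfl) hQ1 hnQ hsQ
    (m := r / r0) (Q := (r / r0) * t1q r0 u w w')
  have c2 := T1Pha_cg (Dvd.intro_left _ rfl) hQ1 hnQ hsQ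
    (m := t1q r0 u w w') (Q := (r / r0) * t1q r0 u w w')
  have f1 : en (-(t1E a a' h h' w w') * (iv (n * s2) ((r / r0) * t1q r0 u w w') : ℤ) *
        (iv (t1q r0 u w w') (r / r0) : ℤ)) (r / r0) =
      en (-(t1E a a' h h' w w') * (iv (t1q r0 u w w') (r / r0) : ℤ) * (iv s2 (r / r0) : ℤ) *
        (iv n (r / r0) : ℤ)) (r / r0) := by
    apply en_congr
    have h3 : -(t1E a a' h h' w w') * (iv (n * s2) ((r / r0) * t1q r0 u w w') : ℤ) *
          (iv (t1q r0 u w w') (r / r0) : ℤ) -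
        -(t1E a a' h h' w w') * (iv (t1q r0 u w w') (r / r0) : ℤ) * (iv s2 (r / r0) : ℤ) *
          (iv n (r / r0) : ℤ) =
        -(t1E a a' h h' w w') * (iv (t1q r0 u w w') (r / r0) : ℤ) *
          ((iv (n * s2) ((r / r0) * t1q r0 u w w') : ℤ) -
            (iv s2 (r / r0) : ℤ) * (iv n (r / r0) : ℤ)) := by ring
    rw [h3]
    exact dvd_mul_of_dvd_right c1 _
  have f2 : en (-(t1E a a' h h' w w') * (iv (n * s2) ((r / r0) * t1q r0 u w w') : ℤ) *
        (iv (r / r0) (t1q r0 u w w') : ℤ)) (t1q r0 u w w') =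
      en (t1cA a a' h h' r r0 u w w' * (iv s2 (t1q r0 u w w') : ℤ) *
        (iv n (t1q r0 u w w') : ℤ)) (t1q r0 u w w') := by
    apply en_congr
    have h3 : -(t1E a a' h h' w w') * (iv (n * s2) ((r / r0) * t1q r0 u w w') : ℤ) *
          (iv (r / r0) (t1q r0 u w w') : ℤ) -
        t1cA a a' h h' r r0 u w w' * (iv s2 (t1q r0 u w w') : ℤ) * (iv n (t1q r0 u w w') : ℤ) =
        -(t1E a a' h h' w w') * (iv (r / r0) (t1q r0 u w w') : ℤ) *
          ((iv (n * s2) ((r / r0) * t1q r0 u w w') : ℤ) -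
            (iv s2 (t1q r0 u w w') : ℤ) * (iv n (t1q r0 u w w') : ℤ)) := by
      unfold t1cA
      ring
    rw [h3]
    exact dvd_mul_of_dvd_right c2 _
  rw [f1, f2]

end Pool.Agent.Lib.ML
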