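import Pool.Agent.Lib.ML.SpecT

/-! MP_00e23e_nt, Lib/ML, module T1Phb: the phases modulo s2, two integers a, a'. -/

namespace Pool.Agent.Lib.ML

open Finset Pool.Agent.Lib.EH3 Pool.Agent.Lib.TB Pool.Agent.Results.MP_00e23e_nt Pool.Agent.Lib.MI

/-- the inverse in ZMod -/
private lemma T1Phb_iv {a n : ℕ} (h : a.Coprime n) (hn : 1 ≤ n) :
    ((iv a n : ℕ) : ZMod n) * (a : ZMod n) = 1 := by
  have h1 := iv_dvd h hn
  have h2 : (((iv a n : ℤ) * a - 1 : ℤ) : ZMod n) = 0 := (ZMod.intCast_zmod_eq_zero_iff_dvd _ n).2 h1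
  push_cast at h2
  exact sub_eq_zero.1 h2

private lemma T1Phb_alg {R : Type*} [CommRing R] (H H' r u w w' i1 i2 ir iq r1 q g0 D : R)
    (e1 : i1 * (r * (u * w)) = 1) (e2 : i2 * (r * (u * w')) = 1) (e3 : ir * r1 = 1)
    (e4 : iq * q = 1) (e5 : r1 * q * g0 = r * u * (w * w')) (e6 : D * g0 = H * w' - H' * w) :
    H * i1 - H' * i2 = D * ir * iq := by
  linear_combination (H' * i2 + D * ir * iq * (i2 * (r * (u * w')))) * e1 +
    (-(H * i1) + D * ir * iq) * e2 - D * g0 * i1 * i2 * r * u * iq * q * e3 -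
    D * g0 * i1 * i2 * r * u * e4 + D * ir * iq * i1 * i2 * r * u * e5 - i1 * i2 * r * u * e6

theorem tT1Phb (hFac : T1FacStmt) : T1PhbStmt := by
  intro a a' h h' S r r0 u w w' s2 n2 hr0 hG hn2
  obtain ⟨⟨hr, hr0', hu, hw, hw', hs2⟩, ⟨hr1, hq, hrr⟩, hlc, -, -, cq, cr1, cr, -⟩ :=
    hFac a a' S r r0 u w w' s2 hr0 hG
  obtain ⟨-, -, -, cuw, cuw', -, -, -, had, -⟩ := hG
  have haa : (a' : ZMod s2) = (a : ZMod s2) := by
    have h1 : (s2 : ℤ) ∣ a - a' := (Int.natCast_dvd_natCast.2 (Dvd.intro_left r rfl)).trans had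
    have h2 := (ZMod.intCast_zmod_eq_zero_iff_dvd _ s2).2 h1
    push_cast at h2
    exact (sub_eq_zero.1 h2).symm
  have c1 : (r * (u * w)).Coprime s2 := Nat.Coprime.mul_left cr cuw
  have c2 : (r * (u * w')).Coprime s2 := Nat.Coprime.mul_left cr cuw'
  set q := t1q r0 u w w' with hqdef
  set r1 := r / r0 with hr1def
  rw [conj_en, neg_neg, ← en_add]
  apply en_congr
  rw [← ZMod.intCast_zmod_eq_zero_iff_dvd]
  unfold t1cB
  rw [← hr1def]
  push_cast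
  -- the relations in ZMod s2
  have e1 := T1Phb_iv c1 hs2
  have e2 := T1Phb_iv c2 hs2
  have e3 := T1Phb_iv cr1 hs2
  have e4 := T1Phb_iv cq hs2
  have e5 : r1 * q * Nat.gcd w w' = r * u * (w * w') := by
    rw [hlc, mul_assoc, mul_comm (Nat.lcm w w'), Nat.gcd_mul_lcm]
  have e5' : (r1 : ZMod s2) * q * (Nat.gcd w w' : ℕ) = r * u * (w * w') := by
    have := congrArg (fun x : ℕ => (x : ZMod s2)) e5
    push_cast at this
    exact this
  have e6 := congrArg (fun x : ℤ => (x : ZMod s2)) (t1_e_mul h h' w w')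
  push_cast at e1 e2 e6
  have key := T1Phb_alg (h : ZMod s2) (h' : ZMod s2) (r : ZMod s2) u w w' _ _ _ _ _ _ _ _
    e1 e2 e3 e4 e5' e6
  have f1 : ((iv (n2 * (r * (u * w))) s2 : ℕ) : ZMod s2) =
      (iv n2 s2 : ℕ) * (iv (r * (u * w)) s2 : ℕ) := by
    have := (ZMod.intCast_zmod_eq_zero_iff_dvd _ s2).2 (iv_mul_mul hn2 c1 hs2)
    push_cast at this
    exact sub_eq_zero.1 this
  have f2 : ((iv (n2 * (r * (u * w'))) s2 : ℕ) : ZMod s2) =
      (iv n2 s2 : ℕ) * (iv (r * (u * w')) s2 : ℕ) := by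
    have := (ZMod.intCast_zmod_eq_zero_iff_dvd _ s2).2 (iv_mul_mul hn2 c2 hs2)
    push_cast at this
    exact sub_eq_zero.1 this
  rw [f1, f2, haa]
  linear_combination (-((a : ZMod s2) * (iv n2 s2 : ℕ))) * key

end Pool.Agent.Lib.ML
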