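import Pool.Agent.Lib.ML.SpecT

/-! MP_00e23e_nt, Lib/ML, module T1Phs: the factorisation of the kernel. -/

namespace Pool.Agent.Lib.ML

open Finset Pool.Agent.Lib.EH3 Pool.Agent.Lib.TB Pool.Agent.Results.MP_00e23e_nt Pool.Agent.Lib.MI

/-- the conditions of the two kernels together -/
private lemma T1Phs_iff {r r1 q u w w' s2 n k : ℕ} (hlc : r1 * q = r * u * Nat.lcm w w') :
    ((n.Coprime (r * (u * w)) ∧ (n + k * r).Coprime (r * s2)) ∧
      (n.Coprime (r * (u * w')) ∧ (n + k * r).Coprime (r * s2))) ↔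
    (n.Coprime r1 ∧ n.Coprime q ∧ (n + k * r).Coprime s2) := by
  constructor
  · rintro ⟨⟨h1, h2⟩, ⟨h3, -⟩⟩
    have h4 : n.Coprime (r1 * q) := by
      refine Nat.Coprime.coprime_dvd_right ?_ (Nat.Coprime.mul_right h1 h3)
      rw [hlc]
      have h5 : Nat.lcm w w' ∣ w * w' := Nat.lcm_dvd_mul w w'
      calc r * u * Nat.lcm w w' ∣ r * u * (w * w') := mul_dvd_mul_left _ h5
        _ ∣ (r * (u * w)) * (r * (u * w')) := ⟨r * u, by ring⟩
    exact ⟨Nat.Coprime.coprime_mul_right_right h4, Nat.Coprime.coprime_mul_left_right h4,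
      Nat.Coprime.coprime_mul_left_right h2⟩
  · rintro ⟨h1, h2, h3⟩
    have h4 : n.Coprime (r * u * Nat.lcm w w') := by
      rw [← hlc]
      exact Nat.Coprime.mul_right h1 h2
    have h5 : n.Coprime (r * (u * w)) := by
      refine Nat.Coprime.coprime_dvd_right ?_ h4
      rw [← mul_assoc]
      exact mul_dvd_mul_left _ (Nat.dvd_lcm_left w w')
    have h6 : n.Coprime (r * (u * w')) := by
      refine Nat.Coprime.coprime_dvd_right ?_ h4
      rw [← mul_assoc]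
      exact mul_dvd_mul_left _ (Nat.dvd_lcm_right w w')
    have h7 : n.Coprime r := Nat.Coprime.coprime_mul_right_right h5
    have h8 : (n + k * r).Coprime r := by
      rw [Nat.coprime_add_mul_right_left]
      exact h7
    have h9 : (n + k * r).Coprime (r * s2) := Nat.Coprime.mul_right h8 h3
    exact ⟨⟨h5, h9⟩, ⟨h6, h9⟩⟩

theorem tT1Phs (hFac : T1FacStmt) (hPha : T1PhaStmt) (hPhb : T1PhbStmt) : T1PhsStmt := by
  classical
  intro a a' h h' k S r r0 u w w' s2 n hr0 hG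
  obtain ⟨-, -, hlc, -⟩ := hFac a a' S r r0 u w w' s2 hr0 hG
  have hG' := hG
  obtain ⟨g1, g2, g3, g4, g5, g6, g7, g8, g9, -⟩ := hG
  have g8' : Int.gcd a' ((r * s2 : ℕ) : ℤ) = 1 := by
    obtain ⟨c, hc⟩ := g9
    have e1 : a' = a - ((r * s2 : ℕ) : ℤ) * c := by rw [← hc]; ring
    rw [e1, ← Int.isCoprime_iff_gcd_eq_one]
    have e2 := Int.isCoprime_iff_gcd_eq_one.mpr g8
    have e3 : a - ((r * s2 : ℕ) : ℤ) * c = a + ((r * s2 : ℕ) : ℤ) * (-c) := by ring
    rw [e3]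
    exact (IsCoprime.add_mul_left_left_iff).mpr e2
  have hd1 : Gd a r (u * w) s2 n (n + k * r) ↔
      (n.Coprime (r * (u * w)) ∧ (n + k * r).Coprime (r * s2)) :=
    ⟨fun hh => ⟨hh.2.2.2.1, hh.2.2.2.2.1⟩, fun hh => ⟨g1, g3, g4, hh.1, hh.2, g6, g8⟩⟩
  have hd2 : Gd a' r (u * w') s2 n (n + k * r) ↔
      (n.Coprime (r * (u * w')) ∧ (n + k * r).Coprime (r * s2)) :=
    ⟨fun hh => ⟨hh.2.2.2.1, hh.2.2.2.2.1⟩, fun hh => ⟨g2, g3, g5, hh.1, hh.2, g7, g8'⟩⟩
  have hiff := T1Phs_iff (n := n) (k := k) (s2 := s2) hlc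
  rw [← hd1, ← hd2] at hiff
  unfold t1K t1G
  by_cases hA : n.Coprime (r / r0) ∧ n.Coprime (t1q r0 u w w') ∧ (n + k * r).Coprime s2
  · obtain ⟨hB1, hB2⟩ := hiff.2 hA
    rw [if_pos hB1, if_pos hB2]
    unfold fz t1g
    rw [if_pos hA.1, if_pos hA.2.1, if_pos hA.2.2]
    have p1 := hPha a a' h h' S r r0 u w w' s2 n hr0 hG' (hd1.1 hB1).1 (hd2.1 hB2).1
    have p2 := hPhb a a' h h' S r r0 u w w' s2 (n + k * r) hr0 hG' hA.2.2
    rw [map_mul]
    calc _ = (en (-(h * a * (iv (n * s2) (r * (u * w)) : ℤ))) (r * (u * w)) *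
          (starRingEnd ℂ) (en (-(h' * a' * (iv (n * s2) (r * (u * w')) : ℤ))) (r * (u * w')))) *
        (en (-(h * a * (iv ((n + k * r) * (r * (u * w))) s2 : ℤ))) s2 *
          (starRingEnd ℂ) (en (-(h' * a' * (iv ((n + k * r) * (r * (u * w'))) s2 : ℤ))) s2)) := by
          ring
      _ = _ := by
          rw [p1, p2]
          ring
  · have hl : (if Gd a r (u * w) s2 n (n + k * r) then fz a h r (u * w) s2 n (n + k * r) else 0) *
        (starRingEnd ℂ) (if Gd a' r (u * w') s2 n (n + k * r) then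
          fz a' h' r (u * w') s2 n (n + k * r) else 0) = 0 := by
      by_cases hB1 : Gd a r (u * w) s2 n (n + k * r)
      · have hB2 : ¬ Gd a' r (u * w') s2 n (n + k * r) := fun hB2 => hA (hiff.1 ⟨hB1, hB2⟩)
        rw [if_neg hB2, map_zero, mul_zero]
      · rw [if_neg hB1, zero_mul]
    rw [hl]
    unfold t1g
    by_cases h1 : n.Coprime (r / r0)
    · by_cases h2 : n.Coprime (t1q r0 u w w')
      · have h3 : ¬ (n + k * r).Coprime s2 := fun h3 => hA ⟨h1, h2, h3⟩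
        rw [if_neg h3, mul_zero, mul_zero]
      · rw [if_neg h2, zero_mul, mul_zero]
    · rw [if_neg h1, zero_mul]

end Pool.Agent.Lib.ML
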