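import Pool.Agent.Lib.ML.SpecT
import Pool.Agent.Lib.MI.T2d

/-!
MP_00e23e_nt, directory Lib/ML, module T2d (helper27): the final theorem of the chapter T2 for a class depending on
(r, s1, s2), `tT2 : TV.VsqStmt → T2Stmt`.
-/

namespace Pool.Agent.Lib.ML

open Finset Pool.Agent.Lib.EH3 Pool.Agent.Lib.TB Pool.Agent.Results.MP_00e23e_nt Pool.Agent.Lib.MI

/-- the kernel for a triple -/
private noncomputable def T2d_F (a : ℕ → ℕ → ℕ → ℤ) (k : ℕ) (γ : ℤ → ℕ → ℕ → ℕ → ℂ) (u : ℤ × ℕ × ℕ)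
    (r n : ℕ) : ℂ :=
  γ u.1 r u.2.1 u.2.2 * t2K (a r u.2.1 u.2.2) u.1 k r u.2.1 u.2.2 n

/-- the correlation -/
private noncomputable def T2d_I (a : ℕ → ℕ → ℕ → ℤ) (k N : ℕ) (γ : ℤ → ℕ → ℕ → ℕ → ℂ) (r : ℕ)
    (p : (ℤ × ℕ × ℕ) × (ℤ × ℕ × ℕ)) : ℂ :=
  ∑ n ∈ Ioc N (2 * N), T2d_F a k γ p.1 r n * (starRingEnd ℂ) (T2d_F a k γ p.2 r n)

private lemma T2d_norm_F (a : ℕ → ℕ → ℕ → ℤ) (k : ℕ) {γ : ℤ → ℕ → ℕ → ℕ → ℂ}
    (hγ : ∀ h r s1 s2, ‖γ h r s1 s2‖ ≤ 1) (u : ℤ × ℕ × ℕ) (r n : ℕ) : ‖T2d_F a k γ u r n‖ ≤ 1 := by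
  unfold T2d_F
  rw [norm_mul]
  exact mul_le_one₀ (hγ _ _ _ _) (norm_nonneg _) (t2_norm_K _ _ _ _ _ _ _)

/-- the product of two kernels, two integers -/
private lemma T2d_prod {a a' h h' : ℤ} {k r s1 s2 s1' s2' n : ℕ} (hg : T2Gd a r s1 s2)
    (hg' : T2Gd a' r s1' s2') :
    t2K a h k r s1 s2 n * (starRingEnd ℂ) (t2K a' h' k r s1' s2' n) =
      t2g (-(h * a * (iv (s1 * s2) r : ℤ)) + h' * a' * (iv (s1' * s2') r : ℤ)) r n *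
        (t2P a h k r s1 s2 n * (starRingEnd ℂ) (t2P a' h' k r s1' s2' n)) := by
  rw [t2_K_eq hg, t2_K_eq hg', map_mul]
  have h1 : t2g (-(h * a * (iv (s1 * s2) r : ℤ))) r n *
      (starRingEnd ℂ) (t2g (-(h' * a' * (iv (s1' * s2') r : ℤ))) r n) =
      t2g (-(h * a * (iv (s1 * s2) r : ℤ)) + h' * a' * (iv (s1' * s2') r : ℤ)) r n := by
    unfold t2g
    by_cases hn : n.Coprime r
    · rw [if_pos hn, if_pos hn, if_pos hn, conj_en, ← en_add]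
      congr 1
      ring
    · rw [if_neg hn, zero_mul, if_neg hn]
  rw [← h1]
  ring

/-- the correlation of two kernels, two integers -/
private lemma T2d_In (hV : TV.VsqStmt) {X T : ℝ} (hT : Tau X T) {a a' h h' : ℤ}
    {k r s1 s2 s1' s2' R S N : ℕ}
    (hR : 1 ≤ R) (hX : 2 * (R : ℝ) ≤ X) (hr1 : R < r) (hr2 : r ≤ 2 * R)
    (h1 : s1 ≤ 2 * S) (h2 : s2 ≤ 2 * S) (h3 : s1' ≤ 2 * S) (h4 : s2' ≤ 2 * S)
    (haa : s1.Coprime s2 → s1'.Coprime s2' → (r : ℤ) ∣ a - a') :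
    ‖∑ n ∈ Ioc N (2 * N), t2K a h k r s1 s2 n * (starRingEnd ℂ) (t2K a' h' k r s1' s2' n)‖ ≤
      T * ((N : ℝ) * (Int.gcd (t2T h h' s1 s2 s1' s2') r : ℝ) / R) +
        91 * T ^ 2 * ((S : ℝ) ^ 4 * Real.sqrt R) := by
  obtain ⟨hT1, hT2, hT3⟩ := hT
  have hR0 : (0 : ℝ) < R := by exact_mod_cast hR
  have hS0 : (0 : ℝ) ≤ S := Nat.cast_nonneg _
  have hsR : 0 ≤ Real.sqrt R := Real.sqrt_nonneg _
  have hnn : 0 ≤ T * ((N : ℝ) * (Int.gcd (t2T h h' s1 s2 s1' s2') r : ℝ) / R) +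
        91 * T ^ 2 * ((S : ℝ) ^ 4 * Real.sqrt R) := by positivity
  by_cases hg : T2Gd a r s1 s2
  swap
  · have h5 : ∑ n ∈ Ioc N (2 * N), t2K a h k r s1 s2 n *
        (starRingEnd ℂ) (t2K a' h' k r s1' s2' n) = 0 := by
      refine sum_eq_zero fun n _ => ?_
      rw [t2_K_zero hg, zero_mul]
    rw [h5, norm_zero]
    exact hnn
  by_cases hg' : T2Gd a' r s1' s2'
  swap
  · have h5 : ∑ n ∈ Ioc N (2 * N), t2K a h k r s1 s2 n *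
        (starRingEnd ℂ) (t2K a' h' k r s1' s2' n) = 0 := by
      refine sum_eq_zero fun n _ => ?_
      rw [t2_K_zero hg', map_zero, mul_zero]
    rw [h5, norm_zero]
    exact hnn
  have hdv : (r : ℤ) ∣ a - a' := haa hg.2.2.1 hg'.2.2.1
  obtain ⟨hr, p1, p2, c1, c2, hsq⟩ := t2_Gd_pos hg
  obtain ⟨-, p1', p2', c1', c2', -⟩ := t2_Gd_pos hg'
  have ha : Int.gcd a r = 1 := by
    have h5 := hg.2.2.2.1
    rw [← Int.isCoprime_iff_gcd_eq_one] at h5 ⊢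
    push_cast at h5
    exact h5.of_mul_right_left
  set W := s1 * s2 * (s1' * s2') with hW
  have hW1 : 1 ≤ W := Nat.mul_pos (Nat.mul_pos p1 p2) (Nat.mul_pos p1' p2')
  have hWc : W.Coprime r := Nat.Coprime.mul_left (Nat.Coprime.mul_left c1.symm c2.symm)
    (Nat.Coprime.mul_left c1'.symm c2'.symm)
  have e1 : ∑ n ∈ Ioc N (2 * N), t2K a h k r s1 s2 n * (starRingEnd ℂ) (t2K a' h' k r s1' s2' n) =
      ∑ n ∈ Ioc N (2 * N), t2g (-(h * a * (iv (s1 * s2) r : ℤ)) + h' * a' * (iv (s1' * s2') r : ℤ)) r n *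
        (t2P a h k r s1 s2 n * (starRingEnd ℂ) (t2P a' h' k r s1' s2' n)) :=
    sum_congr rfl fun n _ => T2d_prod hg hg'
  rw [e1]
  refine (t2_inner hV _ _ hr hsq hW1 hWc (fun n => ?_) (fun n n' hn => ?_)).trans ?_
  · rw [norm_mul, RCLike.norm_conj]
    exact mul_le_one₀ (t2_norm_P _ _ _ _ _ _ _) (norm_nonneg _) (t2_norm_P _ _ _ _ _ _ _)
  · have d1 : s1 ∣ W := dvd_mul_of_dvd_left (dvd_mul_right s1 s2) _
    have d2 : s2 ∣ W := dvd_mul_of_dvd_left (dvd_mul_left s2 s1) _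
    have d3 : s1' ∣ W := dvd_mul_of_dvd_right (dvd_mul_right s1' s2') _
    have d4 : s2' ∣ W := dvd_mul_of_dvd_right (dvd_mul_left s2' s1') _
    rw [t2_P_congr (hn.of_dvd d1) (hn.of_dvd d2), t2_P_congr (hn.of_dvd d3) (hn.of_dvd d4)]
  have hgc : Int.gcd (-(h * a * (iv (s1 * s2) r : ℤ)) + h' * a' * (iv (s1' * s2') r : ℤ)) r =
      Int.gcd (-(h * a * (iv (s1 * s2) r : ℤ)) + h' * a * (iv (s1' * s2') r : ℤ)) r := by
    refine t2_gcd_congr ?_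
    obtain ⟨z, hz⟩ := hdv
    exact ⟨-(h' * (iv (s1' * s2') r : ℤ) * z), by
      linear_combination (-(h' * (iv (s1' * s2') r : ℤ))) * hz⟩
  rw [hgc, t2_gcd hr c1.symm c2.symm c1'.symm c2'.symm ha]
  set g := Int.gcd (t2T h h' s1 s2 s1' s2') r with hgdef
  have hrR : (R : ℝ) ≤ r := by exact_mod_cast hr1.le
  have hr2R : (r : ℝ) ≤ 2 * R := by exact_mod_cast hr2
  have hr0 : (0 : ℝ) < r := by exact_mod_cast hr
  have hτ : (r.divisors.card : ℝ) ≤ T := hT3 r hr (hr2R.trans hX)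
  have hlog : Real.log r ≤ T - 1 := by
    have := Real.log_le_log hr0 (hr2R.trans hX)
    linarith
  have hlog0 : 0 ≤ Real.log r := Real.log_nonneg (by exact_mod_cast hr)
  have hWS : (W : ℝ) ≤ 16 * (S : ℝ) ^ 4 := by
    have h5 : W ≤ (2 * S) * (2 * S) * ((2 * S) * (2 * S)) :=
      Nat.mul_le_mul (Nat.mul_le_mul h1 h2) (Nat.mul_le_mul h3 h4)
    have h6 : (W : ℝ) ≤ (((2 * S) * (2 * S) * ((2 * S) * (2 * S)) : ℕ) : ℝ) := by exact_mod_cast h5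
    push_cast at h6
    nlinarith
  have hsr : Real.sqrt r ≤ 1.415 * Real.sqrt R := by
    have h5 : Real.sqrt r ≤ Real.sqrt (2 * R) := Real.sqrt_le_sqrt hr2R
    have h6 : Real.sqrt (2 * R) = Real.sqrt 2 * Real.sqrt R := Real.sqrt_mul (by norm_num) _
    have h7 : Real.sqrt 2 ≤ 1.415 := by
      rw [Real.sqrt_le_left (by norm_num)]
      norm_num
    rw [h6] at h5
    exact h5.trans (mul_le_mul_of_nonneg_right h7 hsR)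
  have hA : (N : ℝ) * g / r ≤ (N : ℝ) * g / R := by
    gcongr
  have hB : (W : ℝ) * Real.sqrt r * (4 + Real.log r) ≤ 91 * T * ((S : ℝ) ^ 4 * Real.sqrt R) := by
    have h5 : (W : ℝ) * Real.sqrt r ≤ 16 * (S : ℝ) ^ 4 * (1.415 * Real.sqrt R) :=
      mul_le_mul hWS hsr (Real.sqrt_nonneg _) (by positivity)
    have h6 : 4 + Real.log r ≤ 4 * T := by linarith
    calc (W : ℝ) * Real.sqrt r * (4 + Real.log r)
        ≤ 16 * (S : ℝ) ^ 4 * (1.415 * Real.sqrt R) * (4 * T) :=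
          mul_le_mul h5 h6 (by linarith) (by positivity)
      _ = 90.56 * (T * ((S : ℝ) ^ 4 * Real.sqrt R)) := by ring
      _ ≤ 91 * (T * ((S : ℝ) ^ 4 * Real.sqrt R)) := by
          apply mul_le_mul_of_nonneg_right (by norm_num)
          positivity
      _ = _ := by ring
  have hC0 : 0 ≤ (N : ℝ) * g / r + (W : ℝ) * Real.sqrt r * (4 + Real.log r) := by positivity
  calc (r.divisors.card : ℝ) * ((N : ℝ) * g / r + (W : ℝ) * Real.sqrt r * (4 + Real.log r))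
      ≤ T * ((N : ℝ) * g / r + (W : ℝ) * Real.sqrt r * (4 + Real.log r)) :=
        mul_le_mul_of_nonneg_right hτ hC0
    _ ≤ T * ((N : ℝ) * g / R + 91 * T * ((S : ℝ) ^ 4 * Real.sqrt R)) := by
        apply mul_le_mul_of_nonneg_left (by linarith) (by linarith)
    _ = _ := by ring

/-- rearrangement -/
private lemma T2d_rearr (a : ℕ → ℕ → ℕ → ℤ) (k R S N : ℕ) (Hs : Finset ℤ) (γ : ℤ → ℕ → ℕ → ℕ → ℂ)
    (ω : ℕ → ℕ → ℂ) :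
    ∑ h ∈ Hs, TT a h k R S N (γ h) ω =
      ∑ r ∈ Ioc R (2 * R), ∑ n ∈ Ioc N (2 * N), ω r n * ∑ u ∈ t2U Hs S, T2d_F a k γ u r n := by
  have h1 : ∀ h, TT a h k R S N (γ h) ω = ∑ r ∈ Ioc R (2 * R), ∑ s1 ∈ Ioc S (2 * S),
      ∑ s2 ∈ Ioc S (2 * S), ∑ n ∈ Ioc N (2 * N), ω r n * T2d_F a k γ (h, s1, s2) r n := by
    intro h
    unfold TT
    refine sum_congr rfl fun r _ => sum_congr rfl fun s1 _ => sum_congr rfl fun s2 _ => ?_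
    rw [mul_sum]
    refine sum_congr rfl fun n _ => ?_
    unfold T2d_F t2K
    split_ifs
    · ring
    · ring
  rw [sum_congr rfl fun h _ => h1 h, sum_comm]
  refine sum_congr rfl fun r _ => ?_
  have h2 : ∀ n, ω r n * ∑ u ∈ t2U Hs S, T2d_F a k γ u r n =
      ∑ h ∈ Hs, ∑ s1 ∈ Ioc S (2 * S), ∑ s2 ∈ Ioc S (2 * S), ω r n * T2d_F a k γ (h, s1, s2) r n := by
    intro n
    unfold t2U
    rw [mul_sum, sum_product]
    refine sum_congr rfl fun h _ => ?_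
    rw [sum_product]
  rw [sum_congr rfl fun n _ => h2 n]
  symm
  rw [sum_comm]
  refine sum_congr rfl fun h _ => ?_
  rw [sum_comm]
  refine sum_congr rfl fun s1 _ => ?_
  rw [sum_comm]

/-- expanding the square -/
private lemma T2d_expand (a : ℕ → ℕ → ℕ → ℤ) (k N r : ℕ) (U : Finset (ℤ × ℕ × ℕ))
    (γ : ℤ → ℕ → ℕ → ℕ → ℂ) :
    ∑ n ∈ Ioc N (2 * N), ‖∑ u ∈ U, T2d_F a k γ u r n‖ ^ 2 ≤
      ∑ p ∈ U ×ˢ U, ‖T2d_I a k N γ r p‖ := by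
  have h1 : ((∑ n ∈ Ioc N (2 * N), ‖∑ u ∈ U, T2d_F a k γ u r n‖ ^ 2 : ℝ) : ℂ) =
      ∑ p ∈ U ×ˢ U, T2d_I a k N γ r p := by
    push_cast
    have h2 : ∀ n, ((‖∑ u ∈ U, T2d_F a k γ u r n‖ : ℝ) : ℂ) ^ 2 =
        ∑ p ∈ U ×ˢ U, T2d_F a k γ p.1 r n * (starRingEnd ℂ) (T2d_F a k γ p.2 r n) := by
      intro n
      rw [← Complex.mul_conj', map_sum, sum_mul_sum, sum_product]
    rw [sum_congr rfl fun n _ => h2 n, sum_comm]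
    rfl
  have h0 : 0 ≤ ∑ n ∈ Ioc N (2 * N), ‖∑ u ∈ U, T2d_F a k γ u r n‖ ^ 2 :=
    sum_nonneg fun n _ => by positivity
  have h3 : ∑ n ∈ Ioc N (2 * N), ‖∑ u ∈ U, T2d_F a k γ u r n‖ ^ 2 =
      ‖((∑ n ∈ Ioc N (2 * N), ‖∑ u ∈ U, T2d_F a k γ u r n‖ ^ 2 : ℝ) : ℂ)‖ := by
    rw [Complex.norm_real, Real.norm_of_nonneg h0]
  rw [h3, h1]
  exact norm_sum_le _ _

private lemma T2d_I_triv (a : ℕ → ℕ → ℕ → ℤ) (k N r : ℕ) {γ : ℤ → ℕ → ℕ → ℕ → ℂ}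
    (hγ : ∀ h r s1 s2, ‖γ h r s1 s2‖ ≤ 1) (p : (ℤ × ℕ × ℕ) × (ℤ × ℕ × ℕ)) :
    ‖T2d_I a k N γ r p‖ ≤ N := by
  unfold T2d_I
  calc ‖∑ n ∈ Ioc N (2 * N), T2d_F a k γ p.1 r n * (starRingEnd ℂ) (T2d_F a k γ p.2 r n)‖
      ≤ ∑ n ∈ Ioc N (2 * N), (1 : ℝ) := by
        refine norm_sum_le_of_le _ fun n _ => ?_
        rw [norm_mul, RCLike.norm_conj]
        exact mul_le_one₀ (T2d_norm_F a k hγ _ _ _) (norm_nonneg _) (T2d_norm_F a k hγ _ _ _)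
    _ = N := by
        rw [sum_const, Nat.card_Ioc, show 2 * N - N = N by omega]
        simp

/-- one correlation -/
private lemma T2d_I_le (hV : TV.VsqStmt) {X T : ℝ} (hT : Tau X T) {a : ℕ → ℕ → ℕ → ℤ} {b : ℕ → ℤ}
    {k r R S N : ℕ} {γ : ℤ → ℕ → ℕ → ℕ → ℂ} (hγ : ∀ h r s1 s2, ‖γ h r s1 s2‖ ≤ 1)
    (hb : ∀ h r s1 s2, γ h r s1 s2 ≠ 0 → s1.Coprime s2 → (r : ℤ) ∣ a r s1 s2 - b r)
    (hR : 1 ≤ R) (hX : 2 * (R : ℝ) ≤ X) (hr1 : R < r) (hr2 : r ≤ 2 * R)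
    {p : (ℤ × ℕ × ℕ) × (ℤ × ℕ × ℕ)}
    (h1 : p.1.2.1 ≤ 2 * S) (h2 : p.1.2.2 ≤ 2 * S) (h3 : p.2.2.1 ≤ 2 * S) (h4 : p.2.2.2 ≤ 2 * S) :
    ‖T2d_I a k N γ r p‖ ≤ T * ((N : ℝ) * (Int.gcd (t2D p) r : ℝ) / R) +
        91 * T ^ 2 * ((S : ℝ) ^ 4 * Real.sqrt R) := by
  have hR0 : (0 : ℝ) < R := by exact_mod_cast hR
  have hT1 := hT.1
  have hnn : 0 ≤ T * ((N : ℝ) * (Int.gcd (t2D p) r : ℝ) / R) +
        91 * T ^ 2 * ((S : ℝ) ^ 4 * Real.sqrt R) := by positivity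
  by_cases hc : γ p.1.1 r p.1.2.1 p.1.2.2 = 0 ∨ γ p.2.1 r p.2.2.1 p.2.2.2 = 0
  · have h5 : T2d_I a k N γ r p = 0 := by
      unfold T2d_I T2d_F
      refine sum_eq_zero fun n _ => ?_
      rcases hc with hc | hc
      · rw [hc]; simp
      · rw [hc]; simp
    rw [h5, norm_zero]
    exact hnn
  push Not at hc
  have h6 : T2d_I a k N γ r p = γ p.1.1 r p.1.2.1 p.1.2.2 *
      (starRingEnd ℂ) (γ p.2.1 r p.2.2.1 p.2.2.2) *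
      ∑ n ∈ Ioc N (2 * N), t2K (a r p.1.2.1 p.1.2.2) p.1.1 k r p.1.2.1 p.1.2.2 n *
        (starRingEnd ℂ) (t2K (a r p.2.2.1 p.2.2.2) p.2.1 k r p.2.2.1 p.2.2.2 n) := by
    unfold T2d_I T2d_F
    rw [mul_sum]
    refine sum_congr rfl fun n _ => ?_
    rw [map_mul]
    ring
  rw [h6, norm_mul, norm_mul, RCLike.norm_conj]
  refine (mul_le_of_le_one_left (norm_nonneg _)
    (mul_le_one₀ (hγ _ _ _ _) (norm_nonneg _) (hγ _ _ _ _))).trans ?_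
  refine T2d_In hV hT hR hX hr1 hr2 h1 h2 h3 h4 fun q1 q2 => ?_
  have d1 := hb _ _ _ _ hc.1 q1
  have d2 := hb _ _ _ _ hc.2 q2
  have d3 := dvd_sub d1 d2
  have e : a r p.1.2.1 p.1.2.2 - b r - (a r p.2.2.1 p.2.2.2 - b r) =
      a r p.1.2.1 p.1.2.2 - a r p.2.2.1 p.2.2.2 := by ring
  rwa [e] at d3

/-- the sum over r of one correlation -/
private lemma T2d_row (hV : TV.VsqStmt) {X T : ℝ} (hT : Tau X T) {a : ℕ → ℕ → ℕ → ℤ} {b : ℕ → ℤ}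
    (k : ℕ) {R S N H : ℕ} {γ : ℤ → ℕ → ℕ → ℕ → ℂ} (hγ : ∀ h r s1 s2, ‖γ h r s1 s2‖ ≤ 1)
    (hb : ∀ h r s1 s2, γ h r s1 s2 ≠ 0 → s1.Coprime s2 → (r : ℤ) ∣ a r s1 s2 - b r)
    (hR : 1 ≤ R) {Hs : Finset ℤ}
    (hH : ∀ h ∈ Hs, h ≠ 0 ∧ |h| ≤ (H : ℤ)) (hX1 : 2 * (R : ℝ) ≤ X) (hX2 : 8 * (H : ℝ) * (S : ℝ) ^ 2 ≤ X)
    {p : (ℤ × ℕ × ℕ) × (ℤ × ℕ × ℕ)} (hp : p ∈ t2U Hs S ×ˢ t2U Hs S) (hD : t2D p ≠ 0) :
    ∑ r ∈ Ioc R (2 * R), ‖T2d_I a k N γ r p‖ ≤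
      2 * T ^ 2 * N + 91 * T ^ 2 * ((S : ℝ) ^ 4 * (R * Real.sqrt R)) := by
  have hR0 : (0 : ℝ) < R := by exact_mod_cast hR
  have hT1 := hT.1
  unfold t2U at hp
  simp only [mem_product, mem_Ioc] at hp
  obtain ⟨⟨hh, ha1, ha2⟩, ⟨hh', hb1, hb2⟩⟩ := hp
  have hDX : ((t2D p).natAbs : ℝ) ≤ X := by
    have h1 := hH _ hh
    have h2 := hH _ hh'
    have i1 : |p.1.1 * ((p.2.2.1 : ℤ) * p.2.2.2)| ≤ (H : ℤ) * ((2 * S) * (2 * S)) := by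
      rw [abs_mul, abs_of_nonneg (by positivity : (0 : ℤ) ≤ (p.2.2.1 : ℤ) * p.2.2.2)]
      apply mul_le_mul h1.2 _ (by positivity) (by positivity)
      apply mul_le_mul (by exact_mod_cast hb1.2) (by exact_mod_cast hb2.2) (by positivity)
        (by positivity)
    have i2 : |p.2.1 * ((p.1.2.1 : ℤ) * p.1.2.2)| ≤ (H : ℤ) * ((2 * S) * (2 * S)) := by
      rw [abs_mul, abs_of_nonneg (by positivity : (0 : ℤ) ≤ (p.1.2.1 : ℤ) * p.1.2.2)]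
      apply mul_le_mul h2.2 _ (by positivity) (by positivity)
      apply mul_le_mul (by exact_mod_cast ha1.2) (by exact_mod_cast ha2.2) (by positivity)
        (by positivity)
    have i3 : |t2D p| ≤ 8 * (H : ℤ) * (S : ℤ) ^ 2 := by
      unfold t2D t2T
      refine (abs_sub _ _).trans ?_
      nlinarith
    have i4 : ((t2D p).natAbs : ℤ) ≤ 8 * (H : ℤ) * (S : ℤ) ^ 2 := by
      rw [Int.natCast_natAbs]
      exact i3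
    have i5 : ((t2D p).natAbs : ℝ) ≤ 8 * (H : ℝ) * (S : ℝ) ^ 2 := by exact_mod_cast i4
    exact i5.trans hX2
  have hτ : ((t2D p).natAbs.divisors.card : ℝ) ≤ T := hT.2.2 _ (by omega) hDX
  have hsum := t2_sum_gcd hD R
  calc ∑ r ∈ Ioc R (2 * R), ‖T2d_I a k N γ r p‖
      ≤ ∑ r ∈ Ioc R (2 * R), (T * ((N : ℝ) * (Int.gcd (t2D p) r : ℝ) / R) +
        91 * T ^ 2 * ((S : ℝ) ^ 4 * Real.sqrt R)) := by
        refine sum_le_sum fun r hr => ?_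
        rw [mem_Ioc] at hr
        exact T2d_I_le hV hT hγ hb hR hX1 hr.1 hr.2 ha1.2 ha2.2 hb1.2 hb2.2
    _ = T * ((N : ℝ) / R) * ∑ r ∈ Ioc R (2 * R), (Int.gcd (t2D p) r : ℝ) +
        (R : ℝ) * (91 * T ^ 2 * ((S : ℝ) ^ 4 * Real.sqrt R)) := by
        rw [sum_add_distrib, sum_const, Nat.card_Ioc, show 2 * R - R = R by omega, nsmul_eq_mul,
          mul_sum]
        congr 1
        refine sum_congr rfl fun r _ => ?_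
        ring
    _ ≤ T * ((N : ℝ) / R) * (2 * (R : ℝ) * T) +
        (R : ℝ) * (91 * T ^ 2 * ((S : ℝ) ^ 4 * Real.sqrt R)) := by
        have h1 : 2 * (R : ℝ) * ((t2D p).natAbs.divisors.card : ℝ) ≤ 2 * (R : ℝ) * T :=
          mul_le_mul_of_nonneg_left hτ (by positivity)
        have h2 : 0 ≤ T * ((N : ℝ) / R) := by positivity
        have h3 := mul_le_mul_of_nonneg_left (hsum.trans h1) h2
        linarith
    _ = _ := by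
        field_simp

theorem tT2 (hV : TV.VsqStmt) : T2Stmt := by
  refine ⟨364, by norm_num, 2, ?_⟩
  intro X T a b k R S N H Hs γ ω hT hR hS hN hH1 hX hHs hγ hω hb
  have hR0 : (1 : ℝ) ≤ R := by exact_mod_cast hR
  have hS0 : (1 : ℝ) ≤ S := by exact_mod_cast hS
  have hN0 : (1 : ℝ) ≤ N := by exact_mod_cast hN
  have hH0 : (1 : ℝ) ≤ H := by exact_mod_cast hH1
  have hT1 := hT.1
  have hR2 : (R : ℝ) ≤ (R : ℝ) ^ 2 := by nlinarith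
  have hS2 : (S : ℝ) ^ 2 ≤ (S : ℝ) ^ 4 := pow_le_pow_right₀ hS0 (by norm_num)
  have hH2 : (H : ℝ) ≤ (H : ℝ) ^ 2 := by nlinarith
  have hR21 : (1 : ℝ) ≤ (R : ℝ) ^ 2 := one_le_pow₀ hR0
  have hS41 : (1 : ℝ) ≤ (S : ℝ) ^ 4 := one_le_pow₀ hS0
  have hN21 : (1 : ℝ) ≤ (N : ℝ) ^ 2 := one_le_pow₀ hN0
  have hH21 : (1 : ℝ) ≤ (H : ℝ) ^ 2 := one_le_pow₀ hH0
  have hX1 : 2 * (R : ℝ) ≤ X := by
    have h1 : (R : ℝ) * 1 * 1 * 1 ≤ (R : ℝ) ^ 2 * (S : ℝ) ^ 4 * (N : ℝ) ^ 2 * (H : ℝ) ^ 2 := by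
      gcongr
    nlinarith
  have hX2 : 8 * (H : ℝ) * (S : ℝ) ^ 2 ≤ X := by
    have h1 : 1 * (S : ℝ) ^ 2 * 1 * (H : ℝ) ≤ (R : ℝ) ^ 2 * (S : ℝ) ^ 4 * (N : ℝ) ^ 2 * (H : ℝ) ^ 2 := by
      gcongr
    nlinarith
  set U := t2U Hs S with hU
  set B : ℝ := 2 * T ^ 2 * N + 91 * T ^ 2 * ((S : ℝ) ^ 4 * (R * Real.sqrt R)) with hB
  have hB0 : 0 ≤ B := by positivity
  have hcU : (U.card : ℝ) ≤ 2 * (H : ℝ) * (S : ℝ) ^ 2 := t2_card_U hHs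
  have hcD : (((U ×ˢ U).filter (fun p => t2D p = 0)).card : ℝ) ≤ 2 * (H : ℝ) * (S : ℝ) ^ 2 * T ^ 2 :=
    t2_count hT hHs (by nlinarith)
  -- the sum of the correlations
  have hcor : ∑ r ∈ Ioc R (2 * R), ∑ p ∈ U ×ˢ U, ‖T2d_I a k N γ r p‖ ≤
      2 * (H : ℝ) * (S : ℝ) ^ 2 * T ^ 2 * (R * N) + (2 * (H : ℝ) * (S : ℝ) ^ 2) ^ 2 * B := by
    rw [sum_comm]
    calc ∑ p ∈ U ×ˢ U, ∑ r ∈ Ioc R (2 * R), ‖T2d_I a k N γ r p‖
        ≤ ∑ p ∈ U ×ˢ U, ((if t2D p = 0 then (R : ℝ) * N else 0) + B) := by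
          refine sum_le_sum fun p hp => ?_
          by_cases hD : t2D p = 0
          · rw [if_pos hD]
            calc ∑ r ∈ Ioc R (2 * R), ‖T2d_I a k N γ r p‖ ≤ ∑ r ∈ Ioc R (2 * R), (N : ℝ) :=
                  sum_le_sum fun r _ => T2d_I_triv a k N r hγ p
              _ = (R : ℝ) * N := by
                  rw [sum_const, Nat.card_Ioc, show 2 * R - R = R by omega, nsmul_eq_mul]
              _ ≤ _ := by linarith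
          · rw [if_neg hD, zero_add]
            exact T2d_row hV hT k hγ hb hR hHs hX1 hX2 hp hD
      _ = (((U ×ˢ U).filter (fun p => t2D p = 0)).card : ℝ) * (R * N) +
          ((U ×ˢ U).card : ℝ) * B := by
          rw [sum_add_distrib, ← sum_filter, sum_const, sum_const, nsmul_eq_mul, nsmul_eq_mul]
      _ ≤ 2 * (H : ℝ) * (S : ℝ) ^ 2 * T ^ 2 * (R * N) + (2 * (H : ℝ) * (S : ℝ) ^ 2) ^ 2 * B := by
          have h1 : ((U ×ˢ U).card : ℝ) ≤ (2 * (H : ℝ) * (S : ℝ) ^ 2) ^ 2 := by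
            rw [card_product]
            push_cast
            rw [sq]
            exact mul_le_mul hcU hcU (Nat.cast_nonneg _) (by positivity)
          have h2 := mul_le_mul_of_nonneg_right hcD (by positivity : (0 : ℝ) ≤ (R : ℝ) * N)
          have h3 := mul_le_mul_of_nonneg_right h1 hB0
          linarith
  have hmain : ‖∑ h ∈ Hs, TT a h k R S N (γ h) ω‖ ^ 2 ≤ (R : ℝ) * N *
      (2 * (H : ℝ) * (S : ℝ) ^ 2 * T ^ 2 * (R * N) + (2 * (H : ℝ) * (S : ℝ) ^ 2) ^ 2 * B) := by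
    rw [T2d_rearr]
    refine (t2_cauchy R N ω (fun r n => ∑ u ∈ t2U Hs S, T2d_F a k γ u r n) hω).trans ?_
    apply mul_le_mul_of_nonneg_left _ (by positivity)
    refine (sum_le_sum fun r _ => T2d_expand a k N r (t2U Hs S) γ).trans ?_
    exact hcor
  refine hmain.trans ?_
  have hR00 : (R : ℝ) ≠ 0 := by positivity
  have hS00 : (S : ℝ) ≠ 0 := by positivity
  have hN00 : (N : ℝ) ≠ 0 := by positivity
  have e1 : (364 : ℝ) * T ^ 2 * ((R : ℝ) * (S : ℝ) ^ 2 * N) ^ 2 *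
      (Real.sqrt R * (H : ℝ) ^ 2 * (S : ℝ) ^ 4 / N + (H : ℝ) / (S : ℝ) ^ 2 + (H : ℝ) ^ 2 / R) =
      364 * (T ^ 2 * ((R : ℝ) ^ 2 * (S : ℝ) ^ 8 * N * ((H : ℝ) ^ 2 * Real.sqrt R))) +
      364 * (T ^ 2 * ((R : ℝ) ^ 2 * (S : ℝ) ^ 2 * (N : ℝ) ^ 2 * H)) +
      364 * (T ^ 2 * ((R : ℝ) * (S : ℝ) ^ 4 * (N : ℝ) ^ 2 * (H : ℝ) ^ 2)) := by
    field_simp
  have e2 : (R : ℝ) * N *
      (2 * (H : ℝ) * (S : ℝ) ^ 2 * T ^ 2 * (R * N) + (2 * (H : ℝ) * (S : ℝ) ^ 2) ^ 2 * B) =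
      364 * (T ^ 2 * ((R : ℝ) ^ 2 * (S : ℝ) ^ 8 * N * ((H : ℝ) ^ 2 * Real.sqrt R))) +
      2 * (T ^ 2 * ((R : ℝ) ^ 2 * (S : ℝ) ^ 2 * (N : ℝ) ^ 2 * H)) +
      8 * (T ^ 2 * ((R : ℝ) * (S : ℝ) ^ 4 * (N : ℝ) ^ 2 * (H : ℝ) ^ 2)) := by
    rw [hB]
    ring
  rw [e1, e2]
  have p1 : 0 ≤ T ^ 2 * ((R : ℝ) ^ 2 * (S : ℝ) ^ 2 * (N : ℝ) ^ 2 * H) := by positivity
  have p2 : 0 ≤ T ^ 2 * ((R : ℝ) * (S : ℝ) ^ 4 * (N : ℝ) ^ 2 * (H : ℝ) ^ 2) := by positivity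
  linarith

end Pool.Agent.Lib.ML
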