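import Pool.Agent.Lib.MI.AllD
import Pool.Agent.Lib.MI.AllT1
import Pool.Agent.Lib.MI.AllT2
import Pool.Agent.Lib.MI.LAll
import Pool.Agent.Lib.MI.Bgr
import Pool.Agent.Lib.MI.Bid
import Pool.Agent.Lib.MI.Bph
import Pool.Agent.Lib.MI.Bta
import Pool.Agent.Lib.MI.AllA
import Pool.Agent.Lib.MI.AllF
import Pool.Agent.Lib.MJ.Ecn
import Pool.Agent.Lib.MJ.Egc
import Pool.Agent.Lib.MK.Fsp
import Pool.Agent.Lib.MK.Brm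
import Pool.Agent.Lib.MK.Anm
import Pool.Agent.Lib.MK.Atr
import Pool.Agent.Lib.MK.Fpw
import Pool.Agent.Lib.ML.T1Fac
import Pool.Agent.Lib.ML.T1Pha
import Pool.Agent.Lib.ML.T1Phb
import Pool.Agent.Lib.ML.T1Phs
import Pool.Agent.Lib.ML.T1Gsb
import Pool.Agent.Lib.ML.T1Gsu
import Pool.Agent.Lib.ML.T1Gav
import Pool.Agent.Lib.ML.T1Num
import Pool.Agent.Lib.ML.T1Bnd
import Pool.Agent.Lib.ML.T1Avc
import Pool.Agent.Lib.ML.T1Avi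
import Pool.Agent.Lib.ML.T1Cau
import Pool.Agent.Lib.ML.T1Fin
import Pool.Agent.Lib.ML.T2d
import Pool.Agent.Lib.ML.Ecp
import Pool.Agent.Lib.ML.Dca
import Pool.Agent.Lib.ML.Dex
import Pool.Agent.Lib.ML.Ena
import Pool.Agent.Lib.ML.Euu
import Pool.Agent.Lib.ML.Eep
import Pool.Agent.Lib.ML.Eeq
import Pool.Agent.Lib.ML.Eea
import Pool.Agent.Lib.ML.Eeb
import Pool.Agent.Lib.ML.Eec
import Pool.Agent.Lib.ML.Eba
import Pool.Agent.Lib.ML.Dgm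
import Pool.Agent.Lib.ML.Dgo
import Pool.Agent.Lib.ML.Efi
import Pool.Agent.Lib.ML.Bgi
import Pool.Agent.Lib.ML.Bdh
import Pool.Agent.Lib.ML.Bt1
import Pool.Agent.Lib.ML.Bt2
import Pool.Agent.Lib.ML.Blg
import Pool.Agent.Lib.ML.Bbo
import Pool.Agent.Lib.ML.Bbt
import Pool.Agent.Lib.ML.Bdr
import Pool.Agent.Lib.ML.Bds
import Pool.Agent.Lib.ML.Bfi
import Pool.Agent.Lib.ML.Acb
import Pool.Agent.Lib.ML.Abi
import Pool.Agent.Lib.ML.Afi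
import Pool.Agent.Lib.ML.Fth
import Pool.Agent.Lib.ML.Fpi
import Pool.Agent.Lib.ML.Fps
import Pool.Agent.Lib.ML.Fmi

/-! MP_00e23e_nt, directory Lib/ML: THEOREM MI (version 6), without hypotheses. -/

namespace Pool.Agent.Lib.ML

open Pool.Agent.Lib.TB

/-- Chapter T1. -/
theorem tT1All : T1Stmt :=
  tT1Fin tT1Cau (MI.tT1Dia MI.tT1Gsa)
    (tT1Avi MI.tT1Vdc tT1Fac (tT1Phs tT1Fac (tT1Pha tT1Fac) (tT1Phb tT1Fac)) tT1Num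
      (tT1Avc (tT1Bnd MI.tSsb MI.tT1Cmp tT1Fac MI.tT1Fht MI.tT1Gcd MI.tT1Gsj)
        (tT1Gav MI.tT1Gsa tT1Gsb tT1Gsu) tT1Num))

/-- Chapter T2. -/
theorem tT2All : T2Stmt := tT2 (TV.tVsq (TV.tVsr (TN.tKsq TN.tWeil) TV.tVrm))

/-- Chapter D. -/
theorem tDAll : DspStmt :=
  tEfi tEcp (tDca MI.tDtr) tDex
    (tEba MI.tDtr (tEea (tEep (tEuu MJ.tEcn MJ.tEgc)) tEeq) (tEeb (tEna MJ.tEcn) MI.tDpr)
      (tEec (tEna MJ.tEcn) MI.tDpr))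
    (tDgo (MI.tDta (MI.tDid MI.tDfo MI.tDph) MI.tDgg) (tDgm (MI.tDco MI.tDgg) MI.tDspn (MI.tDsy MI.tDph)))

/-- Chapter B. -/
theorem tBAll : BAllStmt :=
  tBfi (tBds (tBdr (tBbo tDAll (tBt1 tT1All tBdh) MI.tBta) (tBbt tDAll (tBt2 tT2All tBdh) MI.tBta) MI.tBgr tBgi)
    MK.tFsp MI.tBta) MI.tBid (MK.tBrm MI.tBph) (tBlg MI.tLrgAll) MI.tLrgAll MI.tBta

/-- Chapter A. -/
theorem tAAll : AAllStmt :=
  tAfi MI.tAva CO.tVgb (MI.tAty MI.tAct) (tAbi MI.tAcl (MK.tAtr MK.tAnm) tAcb (MI.tAtu tTauk)) (MI.tAtu tTauk)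

/-- Chapter F. -/
theorem tFAll : FAllStmt :=
  tFmi (tFps (tFpi (tFth MI.tFtp MI.tFtn (MI.tAtu tTauk) MK.tFpw) MI.tFab (MI.tAtu tTauk)) MI.tFgr MI.tFtn)
    (MI.tFbv BV.aExt KF.tRse MI.tFtn)

/-- THEOREM MI, version 6. -/
theorem tMI : MIStmt := by
  intro δ τ κ κ1 hδ hτ hκ h1 h2 h3
  obtain ⟨ε, hε0, hε1, hB⟩ := tBAll δ τ κ κ1 hδ hτ hκ h1 h2 h3
  have hA : CoreStmt (1 / 2 + δ) τ κ κ1 :=
    tAAll (1 / 2 + δ) τ κ κ1 ε hε0 hε1 (by linarith) hτ (by linarith) hκ (by linarith) hB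
  exact tFAll (1 / 2 + δ) τ κ κ1 (by linarith) hτ (by linarith) hκ (by linarith) hA

end Pool.Agent.Lib.ML
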