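import Pool.Agent.Lib.ML.Stm

/-!
MP_00e23e_nt, directory Lib/ML (THEOREM MI, version 6, architect helper34), chapter B: as in Lib/MK (SpecB), with the class
A r s modulo r s (Pr of Lib/ML/Stm.lean), in Bfi the class a q.
RULES. Module X: file Pool/Agent/Lib/ML/X.lean, first line `import Pool.Agent.Lib.ML.SpecB`, then
`namespace Pool.Agent.Lib.ML` and `open Finset Pool.Agent.Lib.EH3 Pool.Agent.Lib.TB Pool.Agent.Results.MP_00e23e_nt Pool.Agent.Lib.MI`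
(ML.TT, ML.Pr, ML.DspStmt, ... win over those of MI; write MI.X, MJ.X, MK.X for the others), private lemmas with
names starting with X_, final theorem `theorem tX (h1 : AStmt) ... : XStmt`; the statements listed under Uses are hypotheses, in
this order. MODEL file: copy it and change it. Never use congr!. Below 60 s.
-/

namespace Pool.Agent.Lib.ML

open Finset Pool.Agent.Lib.EH3 Pool.Agent.Lib.TB Pool.Agent.Results.MP_00e23e_nt Pool.Agent.Lib.MI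

/-- Module Bgi (theorem tBgi; greedy initial divisor). Uses: nothing.
Proof. For m ∈ ℕ let r_m = t ∏_{p ∣ q/t, p ≤ m} p. q is squarefree, q/t = ∏_{p ∣ q/t} p, so r_0 = t ≤ Z and r_q = q > Z; take m with r_m ≤ Z < r_(m+1). Then m + 1 is a prime dividing q/t (otherwise r_(m+1) = r_m), r_(m+1) = r_m (m+1) ≤ r_m y. r = r_m: t ∣ r ∣ q, the primes of r/t are
≤ m, those of q/r = ∏_{p ∣ q/t, p > m} p are > m. (Or by strong induction on the number of the prime factors of q/t.) -/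
def BgiStmt : Prop := ∀ (q t : ℕ) (Z y : ℝ), Squarefree q → t ∣ q → (t : ℝ) ≤ Z → Z < q →
  (∀ p : ℕ, p.Prime → p ∣ q / t → (p : ℝ) ≤ y) → ∃ r : ℕ, t ∣ r ∧ r ∣ q ∧ (r : ℝ) ≤ Z ∧ Z < (r : ℝ) * y ∧
    ∀ p p' : ℕ, p.Prime → p'.Prime → p ∣ r / t → p' ∣ q / r → p < p'

/-- Module Bdh (theorem tBdh). Uses: nothing. MODEL: Lib/MK/Bdh.lean. -/
def BdhStmt : Prop := ∀ (a : ℕ → ℕ → ℕ → ℤ) (k R S M N H Y0 : ℕ) (P : Finset (ℕ × ℕ)) (γ : ℤ → ℕ → ℕ → ℕ → ℂ)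
    (ω : ℕ → ℕ → ℂ) (E : ℝ), 1 ≤ R → 1 ≤ S → 1 ≤ M → 1 ≤ Y0 → 4 * (R * S ^ 2) ≤ M * Y0 → 0 ≤ E → Cf P R S M γ →
  (∀ (i : ℕ) (Hs : Finset ℤ) (γ' : ℤ → ℕ → ℕ → ℕ → ℂ), 2 ^ i * Y0 ≤ 2 * H + Y0 →
    (∀ h ∈ Hs, h ≠ 0 ∧ |h| ≤ ((2 ^ i * Y0 : ℕ) : ℤ)) → (∀ h r s1 s2, ‖γ' h r s1 s2‖ ≤ 1) →
    (∀ h r s1 s2, γ' h r s1 s2 ≠ 0 → (r, s1) ∈ P ∧ (r, s2) ∈ P) →
    ‖∑ h ∈ Hs, TT a h k R S N (γ' h) ω‖ ≤ 2 ^ i * E) →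
  ‖∑ h ∈ Icc (-(H : ℤ)) H, TT a h k R S N (γ h) ω‖ ≤ 32 * M * E / (R * (S : ℝ) ^ 2)

/-- Module Bt1 (theorem tBt1). Uses: T1Stmt, BdhStmt. MODEL: Lib/MK/Bt1.lean (the last hypothesis of T1Stmt follows from Cp; S/(V H) ≤ S/(V Y0) for H = 2^i Y0). -/
def Bt1Stmt : Prop := ∃ C : ℝ, 0 < C ∧ ∃ A0 : ℕ, ∀ (X T : ℝ) (a : ℕ → ℕ → ℕ → ℤ) (A : ℕ → ℕ → ℤ)
    (k R S M N H Y0 V L L' : ℕ) (r0 v : ℕ → ℕ)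
    (P : Finset (ℕ × ℕ)) (γ : ℤ → ℕ → ℕ → ℕ → ℂ) (ω : ℕ → ℕ → ℂ), Tau X T → 1 ≤ R → 1 ≤ S → 1 ≤ M → 1 ≤ N →
  1 ≤ Y0 → 2 ≤ V → 1 ≤ L →
  100 * (R : ℝ) ^ 2 * (S : ℝ) ^ 4 * (N : ℝ) ^ 2 * (V : ℝ) ^ 2 * (2 * H + Y0 : ℝ) ^ 2 * (L : ℝ) ^ 2 ≤ X →
  2 * R ≤ N → 4 * (R * S ^ 2) ≤ M * Y0 → Cf P R S M γ → (∀ r n, ‖ω r n‖ ≤ 1) → Cp P A a →
  (∀ w ∈ P, r0 w.1 ∣ w.1 ∧ L < r0 w.1 ∧ r0 w.1 ≤ L' ∧ v w.2 ∣ w.2 ∧ V < v w.2 ∧ v w.2 ≤ 2 * V) →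
  ‖∑ h ∈ Icc (-(H : ℤ)) H, TT a h k R S N (γ h) ω‖ ≤ C * T ^ A0 * ((M : ℝ) * N) *
    Real.sqrt ((Y0 : ℝ) / V + (Y0 : ℝ) ^ 2 * Real.sqrt (1 / (L : ℝ) +
      Real.sqrt (1 + (S : ℝ) / ((V : ℝ) * Y0)) / (Real.sqrt ((L : ℝ) * V) * S) +
      Real.sqrt ((L' : ℝ) * V) * S / N))

/-- Module Bt2 (theorem tBt2). Uses: T2Stmt, BdhStmt. MODEL: Lib/MK/Bt2.lean (the last hypothesis of T2Stmt follows from Cp and Pr: r ∣ a r s1 s2 - A r s1, r ∣ A r s1 - b r). -/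
def Bt2Stmt : Prop := ∃ C : ℝ, 0 < C ∧ ∃ A0 : ℕ, ∀ (X T z z1 : ℝ) (a : ℕ → ℕ → ℕ → ℤ) (A : ℕ → ℕ → ℤ) (b : ℕ → ℤ)
    (k R S M N H Y0 : ℕ)
    (P : Finset (ℕ × ℕ)) (γ : ℤ → ℕ → ℕ → ℕ → ℂ) (ω : ℕ → ℕ → ℂ), Tau X T → 1 ≤ R → 1 ≤ S → 1 ≤ M → 1 ≤ N →
  1 ≤ Y0 → 100 * (R : ℝ) ^ 2 * (S : ℝ) ^ 4 * (N : ℝ) ^ 2 * (2 * H + Y0 : ℝ) ^ 2 ≤ X →
  4 * (R * S ^ 2) ≤ M * Y0 → Cf P R S M γ → (∀ r n, ‖ω r n‖ ≤ 1) → Pr A b R S z z1 P → Cp P A a →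
  ‖∑ h ∈ Icc (-(H : ℤ)) H, TT a h k R S N (γ h) ω‖ ≤ C * T ^ A0 * ((M : ℝ) * N) *
    Real.sqrt (Real.sqrt R * (Y0 : ℝ) ^ 2 * (S : ℝ) ^ 4 / N + (Y0 : ℝ) / (S : ℝ) ^ 2 + (Y0 : ℝ) ^ 2 / R)

/-- Module Blg (theorem tBlg). Uses: MI.LrgStmt. MODEL: Lib/MK/Blg.lean (LrgStmt with the function a of (t, u)). -/
def BlgStmt : Prop := ∃ C : ℝ, 0 < C ∧ ∃ A0 : ℕ, ∀ (X T : ℝ) (a : ℕ × ℕ → ℤ) (Z D M N : ℕ) (G : Finset (ℕ × ℕ × ℕ))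
    (f g : ℕ → ℂ), Tau X T → 1 ≤ X → 1 ≤ Z → 1 ≤ M → 1 ≤ N → (D : ℝ) ≤ X → (M : ℝ) ≤ X → (N : ℝ) ≤ X →
  (∀ w ∈ G, 1 ≤ w.1 ∧ 1 ≤ w.2.1 ∧ 1 ≤ w.2.2 ∧ (w.2.2 : ℝ) ≤ X ∧ Squarefree (w.1 * w.2.1) ∧ w.1 * w.2.1 ≤ D ∧
    Int.gcd (a (w.1, w.2.1)) ((w.1 * w.2.1 : ℕ) : ℤ) = 1 ∧ ∀ p : ℕ, p.Prime → p ∣ w.2.1 → Z < p) →
  (∀ m, ‖f m‖ ≤ 1) → (∀ n, ‖g n‖ ≤ 1) →
  ∑ w ∈ G, (1 / (w.2.2 : ℝ)) *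
      ‖∑ m ∈ Ioc M (2 * M), ∑ n ∈ Ioc N (2 * N), f m * g n * Ek (a (w.1, w.2.1)) w.1 (w.1 * w.2.1) (m * n)‖ ≤
    C * T ^ A0 * (Real.sqrt ((M : ℝ) * N) * (Real.sqrt ((M : ℝ) * N) / Z + Real.sqrt M + Real.sqrt N + D))

/-- Module Bbo (theorem tBbo). Uses: DspStmt, Bt1Stmt, MI.BtaStmt. MODEL: Lib/MK/Bbo.lean.
Proof. As there, z1 = x^κ1. New: (i) 2S ≤ N: S ≤ 2 x^(1/2+δ+ε+κ)/N, N ≥ x^(1/3-ε), 4 x^(1/2+δ+κ+3ε) ≤ x^(2/3). (ii) the term R M N^2 S^2/z1^2 = (M N)^2 (R S^2/M)/z1^2 ≤ (M N)^2 x^(yy-2κ1) ≤ (M N)^2 x^(-3ε) (R S^2/M ≤ x^yy, yy = 2δ + κ + 3ε, 2κ1 ≥ 2δ + κ + 6ε). (iii) (1 + S/(V Y0))^(1/2) ≤ 1 + (S/(V Y0))^(1/2):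
the new term is (S/(V Y0))^(1/2)/((L V)^(1/2) S) = 1/(L^(1/2) V (S Y0)^(1/2)) ≤ 8 x^(-(2y+4ε)-(y+4ε)-(sg+ε/2)/2-y/2) ≤ 8 x^(-4y-8ε) (L ≥ x^(4y+8ε)/2, V ≥ x^(y+4ε)/2, S ≥ x^(sg+ε/2)/4, Y0 ≥ x^y, sg ≥ y). -/
def BboStmt : Prop := ∀ δ τ κ κ1 ε κ0 : ℝ, Par δ τ κ ε → 2 * δ + κ + 6 * ε ≤ 2 * κ1 → 0 < κ0 → κ0 < κ →
  ∃ η C x0 : ℝ, 0 < η ∧
  ∀ (x : ℝ) (A : ℕ → ℕ → ℤ) (b : ℕ → ℤ) (M N R S V : ℕ) (P : Finset (ℕ × ℕ)) (f g : ℕ → ℂ), x0 ≤ x →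
  Blk δ κ ε x M N R S →
  (N : ℝ) ≤ x ^ (1 / 2 - sg δ κ ε) → x ^ (yy δ κ ε + 4 * ε) ≤ 2 * V → (V : ℝ) ≤ x ^ (yy δ κ ε + κ + 4 * ε) →
  Pr A b R S (x ^ κ0) (x ^ κ1) P → (∀ w ∈ P, (∃ v : ℕ, v ∣ w.2 ∧ V < v ∧ v ≤ 2 * V) ∧
    ∃ r0 : ℕ, r0 ∣ w.1 ∧ x ^ (4 * yy δ κ ε + 8 * ε) < r0 ∧ (r0 : ℝ) ≤ x ^ (4 * yy δ κ ε + 8 * ε + κ)) →
  (∀ m, ‖f m‖ ≤ 1) → (∀ n, ‖g n‖ ≤ 1) →
  ∑ w ∈ P, ‖∑ m ∈ Ioc M (2 * M), ∑ n ∈ Ioc N (2 * N), f m * g n * Dl (A w.1 w.2) w.1 w.2 (m * n)‖ ≤ C * x ^ (1 - η)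

/-- Module Bbt (theorem tBbt). Uses: DspStmt, Bt2Stmt, MI.BtaStmt. MODEL: Lib/MK/Bbt.lean. New: (i) and (ii) of Bbo. -/
def BbtStmt : Prop := ∀ δ τ κ κ1 ε κ0 : ℝ, Par δ τ κ ε → 2 * δ + κ + 6 * ε ≤ 2 * κ1 → 0 < κ0 → κ0 < κ →
  ∃ η C x0 : ℝ, 0 < η ∧
  ∀ (x : ℝ) (A : ℕ → ℕ → ℤ) (b : ℕ → ℤ) (M N R S : ℕ) (P : Finset (ℕ × ℕ)) (f g : ℕ → ℂ), x0 ≤ x →
  Blk δ κ ε x M N R S → x ^ (1 / 2 - sg δ κ ε) ≤ (N : ℝ) → Pr A b R S (x ^ κ0) (x ^ κ1) P →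
  (∀ m, ‖f m‖ ≤ 1) → (∀ n, ‖g n‖ ≤ 1) →
  ∑ w ∈ P, ‖∑ m ∈ Ioc M (2 * M), ∑ n ∈ Ioc N (2 * N), f m * g n * Dl (A w.1 w.2) w.1 w.2 (m * n)‖ ≤ C * x ^ (1 - η)

/-- Module Bdr (theorem tBdr; all blocks). Uses: BboStmt, BbtStmt, MI.BgrStmt, BgiStmt. MODEL: Lib/MK/Bdr.lean.
Proof. u, s from the greedy initial divisor (Bgi in place of Bgr, Z = N x^(-ε), y = x^κ): r q = t q u q, the primes of u q are smaller than those of s q. Let G ⊆ F be a set on which t is a function of r q. For a block P = the pairs (r q, s q), q ∈ G, in the block; A r s = a (r s), b r = a q for some q ∈ G with r q = r (0 if there is none).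
Pr: for q, q' ∈ G with r q = r q' = r: t q = t q' =: t, Nst gives t ∣ a q - a q'; a prime p ∣ r/t = u divides q/t and q'/t, and the primes l < p dividing q/t are exactly those dividing u (a prime l ∣ q/t = u s divides u or s, the primes of s are > p): the same for q', so p ∣ a q - a q' by Nst. t u squarefree: r ∣ a q - a q'.
For a prime p ≤ x^κ1 dividing s q and s q' (r q = r q'): p ∣ q/t, q'/t, so p ∣ a q - a q' by Nst. The divisors v, r0 (case N ≤ x^(1/2-sg)) come from MI.BgrStmt as in the MODEL. -/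
def BdrStmt : Prop := ∀ δ τ κ κ1 ε κ0 : ℝ, Par δ τ κ ε → 2 * δ + κ + 6 * ε ≤ 2 * κ1 → 0 < κ0 → κ0 < κ →
  ∃ η C x0 : ℝ, 0 < η ∧
  ∀ (x : ℝ) (M N : ℕ) (f g : ℕ → ℂ) (F : Finset ℕ) (t : ℕ → ℕ), x0 ≤ x → N ≤ M →
  x ^ ((1 : ℝ) / 3 - ε) ≤ N →
  x ^ (1 - ε) ≤ (M : ℝ) * N → (M : ℝ) * N ≤ x → (∀ m, ‖f m‖ ≤ 1) → (∀ n, ‖g n‖ ≤ 1) →
  (∀ q ∈ F, Md (1 / 2 + δ) τ κ κ0 x (t q) q ∧ x ^ (1 / 2 - ε / 2) < (q : ℝ)) →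
  ∃ u s : ℕ → ℕ, (∀ q ∈ F, q = t q * u q * s q ∧ ((t q * u q : ℕ) : ℝ) ≤ N * x ^ (-ε) ∧
      ∀ p p' : ℕ, p.Prime → p'.Prime → p ∣ u q → p' ∣ s q → p < p') ∧
    ∀ (G : Finset ℕ) (a : ℕ → ℤ), G ⊆ F → (∀ q ∈ G, ∀ q' ∈ G, t q * u q = t q' * u q' → t q = t q') →
    (∀ q ∈ G, Int.gcd (a q) q = 1) → (∀ q ∈ G, ∀ q' ∈ G, Nst (x ^ κ1) a t q q') →
    ∑ q ∈ G, ‖∑ m ∈ Ioc M (2 * M), ∑ n ∈ Ioc N (2 * N),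
      f m * g n * Dl (a q) (t q * u q) (s q) (m * n)‖ ≤ C * x ^ (1 - η)

/-- Module Bds (theorem tBds). Uses: BdrStmt, MK.FspStmt, MI.BtaStmt. MODEL: Lib/MK/Bds.lean.
Proof. As there: MK.FspStmt with M := F, s := fun q => (t q : ℤ), t := fun q => t q * u q, K := T, B := |C1| x^(1-η1): on {q ∈ F : r q = n} the values t q are divisors of n, at most T of them; if G ⊆ F and (t q : ℤ) = a' (r q) for q ∈ G then t is a function of r on G and Bdr applies to G. -/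
def BdsStmt : Prop := ∀ δ τ κ κ1 ε κ0 : ℝ, Par δ τ κ ε → 2 * δ + κ + 6 * ε ≤ 2 * κ1 → 0 < κ0 → κ0 < κ →
  ∃ η C x0 : ℝ, 0 < η ∧
  ∀ (x : ℝ) (a : ℕ → ℤ) (M N : ℕ) (f g : ℕ → ℂ) (F : Finset ℕ) (t : ℕ → ℕ), x0 ≤ x → N ≤ M →
  x ^ ((1 : ℝ) / 3 - ε) ≤ N →
  x ^ (1 - ε) ≤ (M : ℝ) * N → (M : ℝ) * N ≤ x → (∀ m, ‖f m‖ ≤ 1) → (∀ n, ‖g n‖ ≤ 1) →
  (∀ q ∈ F, Md (1 / 2 + δ) τ κ κ0 x (t q) q ∧ Int.gcd (a q) q = 1 ∧ x ^ (1 / 2 - ε / 2) < (q : ℝ)) →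
  (∀ q ∈ F, ∀ q' ∈ F, Nst (x ^ κ1) a t q q') →
  ∃ u s : ℕ → ℕ, (∀ q ∈ F, q = t q * u q * s q ∧ ((t q * u q : ℕ) : ℝ) ≤ N * x ^ (-ε) ∧
      ∀ p p' : ℕ, p.Prime → p'.Prime → p ∣ u q → p' ∣ s q → p < p') ∧
    ∑ q ∈ F, ‖∑ m ∈ Ioc M (2 * M), ∑ n ∈ Ioc N (2 * N),
      f m * g n * Dl (a q) (t q * u q) (s q) (m * n)‖ ≤ C * x ^ (1 - η)

/-- Module Bfi (theorem tBfi). STATEMENT BAllStmt (ML/Stm.lean). Uses: BdsStmt, MI.BidStmt, MK.BrmStmt, BlgStmt, MI.LrgStmt, MI.BtaStmt. MODEL: Lib/MK/Bfi.lean.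
Proof. As there, ε also ≤ (2κ1 - 2δ - κ)/6. (1) small q: LrgStmt with the function w ↦ a (w.1 * w.2) of the pair w = (t q, q/t q). (2) second part of the decomposition (Ek (a q) (t q) (t q u q), weight 1/s q): Blg with a' (t, u) = a q for some q ∈ F with t q = t, u q = u: for two such q, q' the classes agree modulo t u (Nst as in Bdr:
the primes of u are smaller than those of s), so Ek (a q) t (t u) n = Ek (a q') t (t u) n. (3) the remainders (only t q ∣ n - a q occurs): MK.BrmStmt with a' t = a q for some q ∈ F with t q = t (t ∣ a q - a q' by Nst). -/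
def BfiStmt : Prop := BAllStmt

end Pool.Agent.Lib.ML
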