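import Pool.Agent.Lib.ML.Stm

/-!
MP_00e23e_nt, directory Lib/ML (THEOREM MI, version 6, architect helper34), chapter D: as in Lib/MK (SpecD), Lib/MJ (SpecE),
Lib/MI (SpecD), but the class modulo r s is A r s; a r s1 s2 (Cp) is an integer in the classes A r s1 modulo r s1 and
A r s2 modulo r s2 (s1, s2 coprime). For a good tuple everything is as in Lib/MI with the integer a r s1 s2.
RULES. Module X: file Pool/Agent/Lib/ML/X.lean, first line `import Pool.Agent.Lib.ML.SpecD`, then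
`namespace Pool.Agent.Lib.ML` and `open Finset Pool.Agent.Lib.EH3 Pool.Agent.Lib.TB Pool.Agent.Results.MP_00e23e_nt Pool.Agent.Lib.MI`
(ML.TT, ML.Pr, ML.Bd, ML.DspStmt, ... win over those of MI; write MI.X, MJ.X, MK.X for the others), private lemmas with
names starting with X_, final theorem `theorem tX (h1 : AStmt) ... : XStmt`; the statements listed under Uses are hypotheses, in
this order. MODEL file: copy it and change it. Never use congr!. Below 60 s.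
-/

namespace Pool.Agent.Lib.ML

open Finset Pool.Agent.Lib.EH3 Pool.Agent.Lib.TB Pool.Agent.Results.MP_00e23e_nt Pool.Agent.Lib.MI

/-- the smoothed correlation of two discrepancies with two classes -/
noncomputable def Ph2 (a1 a2 : ℤ) (M r s1 s2 n1 n2 : ℕ) : ℂ :=
  Ten M (fun m => Dl a1 r s1 (m * n1) * Dl a2 r s2 (m * n2))

/-- bad tuple -/
def Bd (a : ℕ → ℕ → ℕ → ℤ) (P : Finset (ℕ × ℕ)) (r s1 s2 n1 n2 : ℕ) : Prop :=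
  (r, s1) ∈ P ∧ (r, s2) ∈ P ∧ ¬ GdC (a r s1 s2) r s1 s2 n1 n2

/-- Module Ecp (theorem tEcp; existence of a). Uses: nothing.
Proof. For (r, s1), (r, s2) ∈ P with s1, s2 coprime: r s1 and s2 are coprime (r s2 squarefree), Chinese remainder theorem: x ≡ A r s1 mod r s1, x ≡ A r s2 mod s2. r ∣ x - A r s1, r ∣ A r s1 - b r, r ∣ A r s2 - b r, so r ∣ x - A r s2, and r, s2 coprime gives r s2 ∣ x - A r s2. Choice. -/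
def EcpStmt : Prop := ∀ (A : ℕ → ℕ → ℤ) (b : ℕ → ℤ) (R S : ℕ) (z z1 : ℝ) (P : Finset (ℕ × ℕ)), Pr A b R S z z1 P →
  ∃ a : ℕ → ℕ → ℕ → ℤ, Cp P A a

/-- Module Dca (theorem tDca). Uses: MI.DtrStmt. MODEL: Lib/MK/Dca.lean. -/
def DcaStmt : Prop := ∀ (A : ℕ → ℕ → ℤ) (R S M N : ℕ) (P : Finset (ℕ × ℕ)) (α β : ℕ → ℂ), 8 ≤ M →
  (∀ w ∈ P, R < w.1 ∧ w.1 ≤ 2 * R ∧ S < w.2 ∧ w.2 ≤ 2 * S) → (∀ m, ‖α m‖ ≤ 1) →
  ∃ c : ℕ × ℕ → ℂ, (∀ w, ‖c w‖ ≤ 1) ∧ (∀ w, w ∉ P → c w = 0) ∧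
    (∑ w ∈ P, ‖∑ m ∈ Ioc M (2 * M), ∑ n ∈ Ioc N (2 * N), α m * β n * Dl (A w.1 w.2) w.1 w.2 (m * n)‖) ^ 2 ≤
      (R : ℝ) * M * ∑ r ∈ Ioc R (2 * R), TR M (fun m =>
        ‖∑ s ∈ Ioc S (2 * S), c (r, s) * ∑ n ∈ Ioc N (2 * N), β n * Dl (A r s) r s (m * n)‖ ^ 2)

open Classical in
/-- Module Dex (theorem tDex; opening the square). Uses: nothing. MODEL: Lib/MK/Dex.lean.
Proof. As there, with Ph2 (A r s1) (A r s2) in place of Ph. For a tuple with GdC (a r s1 s2) and c (r,s1) ≠ 0 ≠ c (r,s2): (r,s1), (r,s2) ∈ P, s1, s2 coprime, so Cp gives Dl (A r s1) r s1 t = Dl (a r s1 s2) r s1 t and Dl (A r s2) r s2 t = Dl (a r s1 s2) r s2 t for all t (dl a q t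
depends only on a modulo q; r ∣ r s1), hence Ph2 = Ph (a r s1 s2). -/
def DexStmt : Prop := ∀ (A : ℕ → ℕ → ℤ) (a : ℕ → ℕ → ℕ → ℤ) (R S M N : ℕ) (P : Finset (ℕ × ℕ)) (β : ℕ → ℂ)
    (c : ℕ × ℕ → ℂ), 8 ≤ M → Cp P A a → (∀ n, ‖β n‖ ≤ 1) → (∀ w, ‖c w‖ ≤ 1) → (∀ w, w ∉ P → c w = 0) →
  ∑ r ∈ Ioc R (2 * R), TR M (fun m =>
      ‖∑ s ∈ Ioc S (2 * S), c (r, s) * ∑ n ∈ Ioc N (2 * N), β n * Dl (A r s) r s (m * n)‖ ^ 2) ≤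
    ‖∑ r ∈ Ioc R (2 * R), ∑ s1 ∈ Ioc S (2 * S), ∑ s2 ∈ Ioc S (2 * S), ∑ n1 ∈ Ioc N (2 * N), ∑ n2 ∈ Ioc N (2 * N),
      (if GdC (a r s1 s2) r s1 s2 n1 n2 then
        c (r, s1) * (starRingEnd ℂ) (c (r, s2)) * (β n1 * (starRingEnd ℂ) (β n2)) * Ph (a r s1 s2) M r s1 s2 n1 n2
        else 0)‖ +
    ∑ r ∈ Ioc R (2 * R), ∑ s1 ∈ Ioc S (2 * S), ∑ s2 ∈ Ioc S (2 * S), ∑ n1 ∈ Ioc N (2 * N), ∑ n2 ∈ Ioc N (2 * N),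
      (if Bd a P r s1 s2 n1 n2 then ‖Ph2 (A r s1) (A r s2) M r s1 s2 n1 n2‖ else 0)

open Classical in
/-- Module Ena (theorem tEna). Uses: MJ.EcnStmt. MODEL: Lib/MK/Ena.lean. -/
def EnaStmt : Prop := ∀ (X T z z1 : ℝ) (A : ℕ → ℕ → ℤ) (b : ℕ → ℤ) (R S M N : ℕ) (P : Finset (ℕ × ℕ)),
  MJ.Sz X T z R S M N → Pr A b R S z z1 P →
  ∑ m ∈ Icc (M / 2) (3 * M), ∑ n ∈ Ioc N (2 * N),
    ((P.filter (fun w => ((w.1 * w.2 : ℕ) : ℤ) ∣ ((m * n : ℕ) : ℤ) - A w.1 w.2)).card : ℝ) ≤ 7 * T * ((M : ℝ) * N) ∧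
  ∑ m ∈ Icc (M / 2) (3 * M), ∑ n ∈ Ioc N (2 * N),
    (((P.image Prod.fst).filter (fun r : ℕ => (r : ℤ) ∣ ((m * n : ℕ) : ℤ) - b r)).card : ℝ) ≤ 7 * T * ((M : ℝ) * N)

open Classical in
/-- Module Euu (theorem tEuu; the second moment for fixed r and p, arbitrary classes). Uses: MJ.EcnStmt, MJ.EgcStmt. MODEL: Lib/MJ/Euu.lean.
Proof. As there: for s, s' the k = m n with r s ∣ k - A r s and r s' ∣ k - A r s' are in one class modulo lcm(r s, r s') = r lcm(s,s') (if k0 is one of them the others satisfy r lcm(s,s') ∣ k - k0; apply Ecn with a = k0), or there are none. -/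
def EuuStmt : Prop := ∀ (X T z z1 : ℝ) (A : ℕ → ℕ → ℤ) (b : ℕ → ℤ) (R S M N r p : ℕ) (P : Finset (ℕ × ℕ)),
  MJ.Sz X T z R S M N → Pr A b R S z z1 P → R < r → r ≤ 2 * R → 1 ≤ p →
  ∑ m ∈ Icc (M / 2) (3 * M), ∑ n ∈ Ioc N (2 * N),
    (((Ioc S (2 * S)).filter (fun s => (r, s) ∈ P ∧ p ∣ s ∧ ((r * s : ℕ) : ℤ) ∣ ((m * n : ℕ) : ℤ) - A r s)).card : ℝ) ^ 2 ≤
    T * (24 * T * ((M : ℝ) * N) / ((R : ℝ) * p) + 4 * (S : ℝ) ^ 2 / (p : ℝ) ^ 2)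

open Classical in
/-- Module Eep (theorem tEep; both full, a common prime at which the classes agree). Uses: EuuStmt. MODEL: Lib/MK/Eea.lean.
Proof. Such a prime p satisfies z < p ≤ 2S (Pr) and, for a nonzero term, r ∣ n2 - n1 and p ∣ n2 - n1: m n1 ≡ A r s1 ≡ A r s2 ≡ m n2 modulo p, m coprime to p (gcd(A r s1, r s1) = 1); modulo r the same with b r; p, r coprime: r p ∣ n2 - n1. The rest is the proof of the MODEL. -/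
def EepStmt : Prop := ∀ (X T z z1 : ℝ) (A : ℕ → ℕ → ℤ) (b : ℕ → ℤ) (R S M N : ℕ) (P : Finset (ℕ × ℕ)),
  MJ.Sz X T z R S M N → Pr A b R S z z1 P →
  ∑ m ∈ Icc (M / 2) (3 * M), ∑ r ∈ Ioc R (2 * R), ∑ s1 ∈ Ioc S (2 * S), ∑ s2 ∈ Ioc S (2 * S),
    ∑ n1 ∈ Ioc N (2 * N), ∑ n2 ∈ Ioc N (2 * N),
      (if (r, s1) ∈ P ∧ (r, s2) ∈ P ∧ (∃ p : ℕ, p.Prime ∧ p ∣ s1 ∧ p ∣ s2 ∧ (p : ℤ) ∣ A r s1 - A r s2) then
        D1 (A r s1) r s1 (m * n1) * D1 (A r s2) r s2 (m * n2) else 0) ≤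
    60 * T ^ 5 * ((M : ℝ) * N * (1 + N / ((R : ℝ) * z)))

open Classical in
/-- Module Eeq (theorem tEeq; both full, the classes differ at all common primes). Uses: nothing.
Proof. Fix a nonzero term, e = gcd(s1, s2) > 1. All primes p of e are > z (Pr) and > z1 (Pr: otherwise the classes agree at p), so e > z and e > z1 (e has a prime factor). Both products ≡ their classes; gcd(A r s_i, r s_i) = 1, so m, n1 are coprime to r s1 and m, n2 to r s2; r ∣ m (n2 - n1)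
(classes b r modulo r), so r ∣ n2 - n1; n1 ≠ n2 (else A r s1 ≡ m n1 ≡ A r s2 modulo p). Put k = (n2 - n1)/r ≠ 0, |k| ≤ N/r ≤ N/R: at most 2N/R values. Given r, s1, s2, k: for p ∣ e: m n1 ≡ A r s1 =: A1, m n2 ≡ A r s2 =: A2, so n1 A2 ≡ n1 m n2 ≡ n2 A1 ≡ (n1 + r k) A1, n1 (A2 - A1) ≡ A1 r k modulo p with A2 - A1 a unit modulo p:
n1 is in one class modulo every p ∣ e, hence modulo e (squarefree): if n1, n1' both occur (same r, s1, s2, k) then e ∣ n1 - n1'. So at most N/e + 1 ≤ 2N/e values n1 (e ≤ 2S ≤ N). Given r, s1, s2, n1, n2: m is in one class modulo r s1 and one modulo r s2, so two values m differ by a multiple of lcm(r s1, r s2) = r s1 s2/e ≥ R S^2/e: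
at most 3M e/(R S^2) + 1 values in Icc (M/2) (3M). The number of (s1, s2) with e ∣ s1, e ∣ s2 in Ioc S 2S is ≤ (2S/e)^2, R values r. Total ≤ ∑_{e > max(z,z1), e ≤ 2S} R (4S^2/e^2)(2N/R)(2N/e)(3M e/(R S^2) + 1) = 48 (M N^2/R) ∑ 1/e^2 + 16 N^2 S^2 ∑ 1/e^3; ∑_{e > z} 1/e^2 ≤ 2/z, ∑_{e > z1} 1/e^3 ≤ 2/z1^2
(natural numbers e > y ≥ 1: 1/e^2 ≤ 1/(e-1) - 1/e, 1/e^3 ≤ (1/e^2)(1/y), ...). -/
def EeqStmt : Prop := ∀ (X T z z1 : ℝ) (A : ℕ → ℕ → ℤ) (b : ℕ → ℤ) (R S M N : ℕ) (P : Finset (ℕ × ℕ)),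
  MJ.Sz X T z R S M N → 1 ≤ z1 → 2 * S ≤ N → Pr A b R S z z1 P →
  ∑ m ∈ Icc (M / 2) (3 * M), ∑ r ∈ Ioc R (2 * R), ∑ s1 ∈ Ioc S (2 * S), ∑ s2 ∈ Ioc S (2 * S),
    ∑ n1 ∈ Ioc N (2 * N), ∑ n2 ∈ Ioc N (2 * N),
      (if (r, s1) ∈ P ∧ (r, s2) ∈ P ∧ ¬ s1.Coprime s2 ∧
          (∀ p : ℕ, p.Prime → p ∣ s1 → p ∣ s2 → ¬ (p : ℤ) ∣ A r s1 - A r s2) then
        D1 (A r s1) r s1 (m * n1) * D1 (A r s2) r s2 (m * n2) else 0) ≤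
    100 * ((M : ℝ) * N * (N / ((R : ℝ) * z)) + (N : ℝ) ^ 2 * (S : ℝ) ^ 2 / z1 ^ 2)

open Classical in
/-- Module Eea (theorem tEea; both full). Uses: EepStmt, EeqStmt.
Proof. For a nonzero bad term s1, s2 are not coprime: otherwise, with a = a r s1 s2 (Cp): gcd(a, r s1) = gcd(A r s1, r s1) = 1, gcd(a, r s2) = 1, r s1 and r s2 squarefree, m and n1 coprime to r s1, m and n2 coprime to r s2, r ∣ n2 - n1 (as in Eeq): GdC holds. So the term occurs in Eep or in Eeq. 60 + 100 = 160, T ≥ 1. -/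
def EeaStmt : Prop := ∀ (X T z z1 : ℝ) (A : ℕ → ℕ → ℤ) (b : ℕ → ℤ) (a : ℕ → ℕ → ℕ → ℤ) (R S M N : ℕ)
    (P : Finset (ℕ × ℕ)), MJ.Sz X T z R S M N → 1 ≤ z1 → 2 * S ≤ N → Pr A b R S z z1 P → Cp P A a →
  ∑ m ∈ Icc (M / 2) (3 * M), ∑ r ∈ Ioc R (2 * R), ∑ s1 ∈ Ioc S (2 * S), ∑ s2 ∈ Ioc S (2 * S),
    ∑ n1 ∈ Ioc N (2 * N), ∑ n2 ∈ Ioc N (2 * N),
      (if Bd a P r s1 s2 n1 n2 then D1 (A r s1) r s1 (m * n1) * D1 (A r s2) r s2 (m * n2) else 0) ≤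
    160 * T ^ 5 * ((M : ℝ) * N * (1 + N / ((R : ℝ) * z)) + (N : ℝ) ^ 2 * (S : ℝ) ^ 2 / z1 ^ 2)

open Classical in
/-- Module Eeb (theorem tEeb). Uses: EnaStmt, MI.DprStmt. MODEL: Lib/MK/Eeb.lean.
Proof. As there: a nonzero term has r s1 ∣ m n1 - A r s1 and r ∣ m n2 - A r s2, both classes are b r modulo r, so r ∣ n2 - n1, n1 coprime to r s1, n2 coprime to r; if s2 were coprime to s1 n2 then, with a = a r s1 s2 (Cp, s1, s2 coprime), GdC would hold (gcd(a, r s_i) = gcd(A r s_i, r s_i) = 1). -/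
def EebStmt : Prop := ∀ (X T z z1 : ℝ) (A : ℕ → ℕ → ℤ) (b : ℕ → ℤ) (a : ℕ → ℕ → ℕ → ℤ) (R S M N : ℕ)
    (P : Finset (ℕ × ℕ)), MJ.Sz X T z R S M N → Pr A b R S z z1 P → Cp P A a →
  ∑ m ∈ Icc (M / 2) (3 * M), ∑ r ∈ Ioc R (2 * R), ∑ s1 ∈ Ioc S (2 * S), ∑ s2 ∈ Ioc S (2 * S),
    ∑ n1 ∈ Ioc N (2 * N), ∑ n2 ∈ Ioc N (2 * N),
      (if Bd a P r s1 s2 n1 n2 then D1 (A r s1) r s1 (m * n1) * D2 (A r s2) r s2 (m * n2) else 0) ≤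
    14 * T ^ 2 * ((M : ℝ) * N * (1 + N / ((R : ℝ) * z)))

open Classical in
/-- Module Eec (theorem tEec). Uses: EnaStmt, MI.DprStmt. MODEL: Lib/MK/Eec.lean (modulo r the classes A r s1, A r s2 are b r). -/
def EecStmt : Prop := ∀ (X T z z1 : ℝ) (A : ℕ → ℕ → ℤ) (b : ℕ → ℤ) (a : ℕ → ℕ → ℕ → ℤ) (R S M N : ℕ)
    (P : Finset (ℕ × ℕ)), MJ.Sz X T z R S M N → Pr A b R S z z1 P → Cp P A a →
  ∑ m ∈ Icc (M / 2) (3 * M), ∑ r ∈ Ioc R (2 * R), ∑ s1 ∈ Ioc S (2 * S), ∑ s2 ∈ Ioc S (2 * S),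
    ∑ n1 ∈ Ioc N (2 * N), ∑ n2 ∈ Ioc N (2 * N),
      (if Bd a P r s1 s2 n1 n2 then D2 (A r s1) r s1 (m * n1) * D2 (A r s2) r s2 (m * n2) else 0) ≤
    42 * T ^ 2 * ((M : ℝ) * N * (1 + N / ((R : ℝ) * z)))

open Classical in
/-- Module Eba (theorem tEba). Uses: MI.DtrStmt, EeaStmt, EebStmt, EecStmt. MODEL: Lib/MK/Eba.lean.
Proof. 4 (160 + 14 + 14 + 42) = 920. The exchange (s1, n1) ↔ (s2, n2) turns D2 D1 for a into D1 D2 for the function fun r s1 s2 => a r s2 s1, which also satisfies Cp P A; GdC is symmetric (GdC a r s1 s2 n1 n2 iff GdC a r s2 s1 n2 n1). -/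
def EbaStmt : Prop := ∀ (X T z z1 : ℝ) (A : ℕ → ℕ → ℤ) (b : ℕ → ℤ) (a : ℕ → ℕ → ℕ → ℤ) (R S M N : ℕ)
    (P : Finset (ℕ × ℕ)), MJ.Sz X T z R S M N → 1 ≤ z1 → 2 * S ≤ N → Pr A b R S z z1 P → Cp P A a →
  ∑ r ∈ Ioc R (2 * R), ∑ s1 ∈ Ioc S (2 * S), ∑ s2 ∈ Ioc S (2 * S), ∑ n1 ∈ Ioc N (2 * N), ∑ n2 ∈ Ioc N (2 * N),
      (if Bd a P r s1 s2 n1 n2 then ‖Ph2 (A r s1) (A r s2) M r s1 s2 n1 n2‖ else 0) ≤
    1000 * T ^ 5 * ((M : ℝ) * N * (1 + N / ((R : ℝ) * z)) + (N : ℝ) ^ 2 * (S : ℝ) ^ 2 / z1 ^ 2)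

open Classical in
/-- Module Dgm (theorem tDgm). Uses: MI.DcoStmt, MI.DspnStmt, MI.DsyStmt. MODEL: Lib/MK/Dgm.lean.
Proof. As there; in the second part (n1 = n2 + k r) Dsy with the integer a r s1 s2, after exchanging the names of s1 and s2 the class function is fun r s1 s2 => a r s2 s1, which satisfies Cp P A: the hypothesis on B is for all class functions with Cp. -/
def DgmStmt : Prop := ∀ (B : ℝ) (A : ℕ → ℕ → ℤ) (a : ℕ → ℕ → ℕ → ℤ) (R S M N H : ℕ) (P : Finset (ℕ × ℕ)) (β : ℕ → ℂ)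
    (c : ℕ × ℕ → ℂ), 0 ≤ B → 1 ≤ R → 1 ≤ S → 1 ≤ N → 8 ≤ M → R ≤ N → 2 * H < R → Cp P A a →
  (∀ w ∈ P, R < w.1 ∧ w.1 ≤ 2 * R ∧ S < w.2 ∧ w.2 ≤ 2 * S) → (∀ n, ‖β n‖ ≤ 1) → (∀ w, ‖c w‖ ≤ 1) →
  (∀ w, w ∉ P → c w = 0) →
  (∀ a' : ℕ → ℕ → ℕ → ℤ, Cp P A a' → ∀ (k : ℕ) (γ : ℤ → ℕ → ℕ → ℕ → ℂ) (ω : ℕ → ℕ → ℂ), Cf P R S M γ →
    (∀ r n, ‖ω r n‖ ≤ 1) → ‖∑ h ∈ Icc (-(H : ℤ)) H, TT a' h k R S N (γ h) ω‖ ≤ B) →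
  ‖∑ h ∈ Icc (-(H : ℤ)) H, ∑ r ∈ Ioc R (2 * R), ∑ s1 ∈ Ioc S (2 * S), ∑ s2 ∈ Ioc S (2 * S),
    ∑ n1 ∈ Ioc N (2 * N), ∑ n2 ∈ Ioc N (2 * N), (if GdC (a r s1 s2) r s1 s2 n1 n2 then
      ga c M H h r s1 s2 * (β n1 * (starRingEnd ℂ) (β n2)) * fz (a r s1 s2) h r s1 s2 n1 n2 else 0)‖ ≤ 4 * N / R * B

open Classical in
/-- Module Dgo (theorem tDgo). Uses: MI.DtaStmt, DgmStmt. MODEL: Lib/MK/Dgo.lean. -/
def DgoStmt : Prop := ∀ (B : ℝ) (A : ℕ → ℕ → ℤ) (a : ℕ → ℕ → ℕ → ℤ) (R S M N H : ℕ) (P : Finset (ℕ × ℕ)) (β : ℕ → ℂ)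
    (c : ℕ × ℕ → ℂ), 0 ≤ B → 1 ≤ R → 1 ≤ S → 1 ≤ N → 8 ≤ M → 1 ≤ H → R ≤ N → 2 * H < R → Cp P A a →
  (∀ w ∈ P, R < w.1 ∧ w.1 ≤ 2 * R ∧ S < w.2 ∧ w.2 ≤ 2 * S) → (∀ n, ‖β n‖ ≤ 1) → (∀ w, ‖c w‖ ≤ 1) →
  (∀ w, w ∉ P → c w = 0) →
  (∀ a' : ℕ → ℕ → ℕ → ℤ, Cp P A a' → ∀ (k : ℕ) (γ : ℤ → ℕ → ℕ → ℕ → ℂ) (ω : ℕ → ℕ → ℂ), Cf P R S M γ →
    (∀ r n, ‖ω r n‖ ≤ 1) → ‖∑ h ∈ Icc (-(H : ℤ)) H, TT a' h k R S N (γ h) ω‖ ≤ B) →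
  ‖∑ r ∈ Ioc R (2 * R), ∑ s1 ∈ Ioc S (2 * S), ∑ s2 ∈ Ioc S (2 * S), ∑ n1 ∈ Ioc N (2 * N), ∑ n2 ∈ Ioc N (2 * N),
      (if GdC (a r s1 s2) r s1 s2 n1 n2 then
        c (r, s1) * (starRingEnd ℂ) (c (r, s2)) * (β n1 * (starRingEnd ℂ) (β n2)) * Ph (a r s1 s2) M r s1 s2 n1 n2
        else 0)‖ ≤
    4 * N / R * B + 32 * ((R : ℝ) * (S : ℝ) ^ 4 * (N : ℝ) ^ 2) / ((M : ℝ) * H)

/-- Module Efi (theorem tEfi). STATEMENT DspStmt (ML/Stm.lean). Uses: EcpStmt, DcaStmt, DexStmt, EbaStmt, DgoStmt. MODEL: Lib/MK/Efi.lean (or Lib/MJ/Efi.lean). C = 1000, A0 = 5. -/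
def EfiStmt : Prop := DspStmt

end Pool.Agent.Lib.ML
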