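import Pool.Agent.Lib.ML.Stm

/-!
MP_00e23e_nt, directory Lib/ML (THEOREM MI, version 6, architect helper34), chapters T1 and T2: as in Lib/MI (SpecT1) and
Lib/MK (SpecT), but the class modulo r s1 s2 is a r s1 s2: modulo r s2 it is A r s2 (independent of s1), modulo s1 it is an
arbitrary function of (r, s1, s2). So for s1 = u w, s1' = u w' there are two integers a, a' with r s2 | a - a'; modulo r and s2
the determinant is D = t1e h h' w w' (times a), modulo u and lcm(w,w') it is E = t1E a a' h h' w w'.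
RULES. Module X: file Pool/Agent/Lib/ML/X.lean, first line `import Pool.Agent.Lib.ML.SpecT`, then
`namespace Pool.Agent.Lib.ML` and `open Finset Pool.Agent.Lib.EH3 Pool.Agent.Lib.TB Pool.Agent.Results.MP_00e23e_nt Pool.Agent.Lib.MI`
(ML.TT, ML.T1Gq, ML.t1G, ML.t1C, ML.t1Sum, ML.T1GavStmt, ... win over those of MI; write MI.X, MK.X for the others), private
lemmas with names starting with X_, final theorem `theorem tX (h1 : AStmt) ... : XStmt`; the statements listed under Uses are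
hypotheses, in this order. MODEL file: copy it and change it. Basic lemmas: MI/Basic.lean, MI/T1Base.lean (t1e, t1q, t1g, t1K,
t1w, t1_g_add_mul, t1_g_congr, t1_norm_K, ...). Never use congr!. Below 60 s.
-/

namespace Pool.Agent.Lib.ML

open Finset Pool.Agent.Lib.EH3 Pool.Agent.Lib.TB Pool.Agent.Results.MP_00e23e_nt Pool.Agent.Lib.MI

/-- (h a w' - h' a' w)/(w, w') -/
def t1E (a a' h h' : ℤ) (w w' : ℕ) : ℤ :=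
  h * a * ((w' / Nat.gcd w w' : ℕ) : ℤ) - h' * a' * ((w / Nat.gcd w w' : ℕ) : ℤ)

/-- the conditions on r, u, w, w', s2 and the two integers a (for s1 = u w), a' (for s1' = u w') -/
def T1Gq (a a' : ℤ) (S r u w w' s2 : ℕ) : Prop :=
  Squarefree (r * (u * w)) ∧ Squarefree (r * (u * w')) ∧ Squarefree (r * s2) ∧ (u * w).Coprime s2 ∧
    (u * w').Coprime s2 ∧ Int.gcd a ((r * (u * w) : ℕ) : ℤ) = 1 ∧ Int.gcd a' ((r * (u * w') : ℕ) : ℤ) = 1 ∧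
    Int.gcd a ((r * s2 : ℕ) : ℤ) = 1 ∧ ((r * s2 : ℕ) : ℤ) ∣ a - a' ∧ S < u * w ∧ u * w ≤ 2 * S ∧ S < u * w' ∧
    u * w' ≤ 2 * S ∧ S < s2 ∧ s2 ≤ 2 * S

/-- the inner sum over n for the pair (h, w), (h', w') -/
noncomputable def t1In (a a' h h' : ℤ) (k r u w w' s2 N : ℕ) : ℂ :=
  ∑ n ∈ Ioc N (2 * N), t1K a h k r (u * w) s2 n * (starRingEnd ℂ) (t1K a' h' k r (u * w') s2 n)

/-- the coefficient modulo q = r0 u [w, w'], without the factor s2⁻¹ (q coprime to r1 = r/r0) -/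
noncomputable def t1cA (a a' h h' : ℤ) (r r0 u w w' : ℕ) : ℤ :=
  -(t1E a a' h h' w w') * (iv (r / r0) (t1q r0 u w w') : ℤ)

/-- the part of the phase which is not periodic modulo r1 -/
noncomputable def t1G (a a' h h' : ℤ) (k r r0 u w w' s2 n : ℕ) : ℂ :=
  t1g (t1cA a a' h h' r r0 u w w' * (iv s2 (t1q r0 u w w') : ℤ)) (t1q r0 u w w') n *
    t1g (t1cB a h h' r r0 w w' s2 * (iv (t1q r0 u w w') s2 : ℤ)) s2 (n + k * r)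

/-- the correlation with the shift t = d r1 -/
noncomputable def t1C (a a' h h' : ℤ) (k r r0 u w w' s2 N d : ℕ) : ℂ :=
  ∑ n ∈ Ioc N (2 * N - d * (r / r0)),
    t1G a a' h h' k r r0 u w w' s2 n * (starRingEnd ℂ) (t1G a a' h h' k r r0 u w w' s2 (n + d * (r / r0)))

open Classical in
/-- the sum of f over the tuples (h, h', w, w', r, u, s2) off the diagonal which satisfy T1Gq; r0 r is a divisor of r in
(L, L'] -/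
noncomputable def t1Sum (a : ℕ → ℕ → ℕ → ℤ) (R S V L L' : ℕ) (Hs : Finset ℤ) (r0 : ℕ → ℕ)
    (f : ℤ → ℤ → ℕ → ℕ → ℕ → ℕ → ℕ → ℝ) : ℝ :=
  ∑ h ∈ Hs, ∑ h' ∈ Hs, ∑ w ∈ Ioc V (2 * V), ∑ w' ∈ Ioc V (2 * V), ∑ r ∈ Ioc R (2 * R),
    ∑ u ∈ Icc 1 (2 * S / V), ∑ s2 ∈ Ioc S (2 * S),
      if t1e h h' w w' ≠ 0 ∧ (r0 r ∣ r ∧ L < r0 r ∧ r0 r ≤ L') ∧
        T1Gq (a r (u * w) s2) (a r (u * w') s2) S r u w w' s2 then f h h' w w' r u s2 else 0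

lemma t1_norm_G (a a' h h' : ℤ) (k r r0 u w w' s2 n : ℕ) : ‖t1G a a' h h' k r r0 u w w' s2 n‖ ≤ 1 := by
  unfold t1G
  rw [norm_mul]
  exact mul_le_one₀ (t1_norm_g _ _ _) (norm_nonneg _) (t1_norm_g _ _ _)

/-- the sum of functions f ≤ g -/
lemma t1_Sum_mono {a : ℕ → ℕ → ℕ → ℤ} {R S V L L' : ℕ} {Hs : Finset ℤ} {r0 : ℕ → ℕ}
    {f g : ℤ → ℤ → ℕ → ℕ → ℕ → ℕ → ℕ → ℝ}
    (hfg : ∀ h ∈ Hs, ∀ h' ∈ Hs, ∀ w ∈ Ioc V (2 * V), ∀ w' ∈ Ioc V (2 * V), ∀ r ∈ Ioc R (2 * R),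
      ∀ u ∈ Icc 1 (2 * S / V), ∀ s2 ∈ Ioc S (2 * S), t1e h h' w w' ≠ 0 → (r0 r ∣ r ∧ L < r0 r ∧ r0 r ≤ L') →
        T1Gq (a r (u * w) s2) (a r (u * w') s2) S r u w w' s2 → f h h' w w' r u s2 ≤ g h h' w w' r u s2) :
    t1Sum a R S V L L' Hs r0 f ≤ t1Sum a R S V L L' Hs r0 g := by
  unfold t1Sum
  refine sum_le_sum fun h hh => sum_le_sum fun h' hh' => sum_le_sum fun w hw => sum_le_sum fun w' hw' =>
    sum_le_sum fun r hr => sum_le_sum fun u hu => sum_le_sum fun s2 hs2 => ?_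
  split_ifs with hc
  · exact hfg _ hh _ hh' _ hw _ hw' _ hr _ hu _ hs2 hc.1 hc.2.1 hc.2.2
  · exact le_rfl

/-- Module T1Fac (theorem tT1Fac). Uses: nothing. MODEL: Lib/MI/T1Fac.lean (apply MI.tT1Fac with an integer a'' coprime to everything, e.g. a'' = 1, for the parts without a; the gcd's with a are immediate from T1Gq). -/
def T1FacStmt : Prop := ∀ (a a' : ℤ) (S r r0 u w w' s2 : ℕ), r0 ∣ r → T1Gq a a' S r u w w' s2 →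
  (1 ≤ r ∧ 1 ≤ r0 ∧ 1 ≤ u ∧ 1 ≤ w ∧ 1 ≤ w' ∧ 1 ≤ s2) ∧ (1 ≤ r / r0 ∧ 1 ≤ t1q r0 u w w' ∧ r0 * (r / r0) = r) ∧
  (r / r0) * t1q r0 u w w' = r * u * Nat.lcm w w' ∧ Squarefree ((r / r0) * t1q r0 u w w') ∧
  (r / r0).Coprime (t1q r0 u w w') ∧ (t1q r0 u w w').Coprime s2 ∧ (r / r0).Coprime s2 ∧ r.Coprime s2 ∧
  Int.gcd a (s2 : ℤ) = 1 ∧ Squarefree (t1q r0 u w w') ∧ Squarefree s2 ∧
  r0 * S * w' ≤ t1q r0 u w w' * Nat.gcd w w' ∧ t1q r0 u w w' ≤ 2 * r0 * S * w'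

/-- Module T1Pha (theorem tT1Pha; the phases modulo r u w and r u w'). Uses: T1FacStmt. MODEL: Lib/MI/T1Pha.lean.
Proof. As there with two integers: Q = r u lcm(w,w') = (r/r0) t1q, I = iv (n * s2) Q: the product is en (-(E I)) Q, E = t1E a a' h h' w w' = h a (w'/g0) - h' a' (w/g0); then en_crt with Q = (r/r0) t1q. -/
def T1PhaStmt : Prop := ∀ (a a' h h' : ℤ) (S r r0 u w w' s2 n : ℕ), r0 ∣ r → T1Gq a a' S r u w w' s2 →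
  n.Coprime (r * (u * w)) → n.Coprime (r * (u * w')) →
  en (-(h * a * (iv (n * s2) (r * (u * w)) : ℤ))) (r * (u * w)) *
      (starRingEnd ℂ) (en (-(h' * a' * (iv (n * s2) (r * (u * w')) : ℤ))) (r * (u * w'))) =
    en (-(t1E a a' h h' w w') * (iv (t1q r0 u w w') (r / r0) : ℤ) * (iv s2 (r / r0) : ℤ) * (iv n (r / r0) : ℤ)) (r / r0) *
      en (t1cA a a' h h' r r0 u w w' * (iv s2 (t1q r0 u w w') : ℤ) * (iv n (t1q r0 u w w') : ℤ)) (t1q r0 u w w')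

/-- Module T1Phb (theorem tT1Phb; the phases modulo s2). Uses: T1FacStmt. MODEL: Lib/MI/T1Phb.lean. s2 ∣ a - a', so a' may be replaced by a in the second factor (en_congr); then as there. -/
def T1PhbStmt : Prop := ∀ (a a' h h' : ℤ) (S r r0 u w w' s2 n2 : ℕ), r0 ∣ r → T1Gq a a' S r u w w' s2 → n2.Coprime s2 →
  en (-(h * a * (iv (n2 * (r * (u * w))) s2 : ℤ))) s2 *
      (starRingEnd ℂ) (en (-(h' * a' * (iv (n2 * (r * (u * w'))) s2 : ℤ))) s2) =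
    en (t1cB a h h' r r0 w w' s2 * (iv (t1q r0 u w w') s2 : ℤ) * (iv n2 s2 : ℤ)) s2

/-- Module T1Phs (theorem tT1Phs; the factorisation of the kernel). Uses: T1FacStmt, T1PhaStmt, T1PhbStmt. MODEL: Lib/MI/T1Phs.lean. Note that gcd(a', r s2) = 1 since r s2 ∣ a - a'. -/
def T1PhsStmt : Prop := ∀ (a a' h h' : ℤ) (k S r r0 u w w' s2 n : ℕ), r0 ∣ r → T1Gq a a' S r u w w' s2 →
  t1K a h k r (u * w) s2 n * (starRingEnd ℂ) (t1K a' h' k r (u * w') s2 n) =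
    t1g (-(t1E a a' h h' w w') * (iv (t1q r0 u w w') (r / r0) : ℤ) * (iv s2 (r / r0) : ℤ)) (r / r0) n *
      t1G a a' h h' k r r0 u w w' s2 n

/-- Module T1Gsb (theorem tT1Gsb; gcd of E with [w, w']). Uses: nothing. MODEL: Lib/MI/T1Gsb.lean.
Proof. g0 = gcd(w,w'), w = g0 x, w' = g0 y, x ⊥ y, E = h a y - h' a' x, lcm(w,w') = g0 x y. gcd(E, lcm) ≤ gcd(E, g0) gcd(E, x) gcd(E, y), gcd(E, x) = gcd(h a y, x) = gcd(h, x) ≤ gcd(h, w) (a, y coprime to x), gcd(E, y) = gcd(h' a' x, y) = gcd(h', y) ≤ gcd(h', w'). -/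
def T1GsbStmt : Prop := ∀ (a a' h h' : ℤ) (w w' : ℕ), 1 ≤ w → 1 ≤ w' → Int.gcd a w = 1 → Int.gcd a' w' = 1 →
  Int.gcd (t1E a a' h h' w w') (Nat.lcm w w' : ℕ) ≤ Nat.gcd w w' * Int.gcd h w * Int.gcd h' w'

/-- Module T1Gsu (theorem tT1Gsu; average of gcd(E, u) over h, h'). Uses: nothing.
Proof. gcd(E,u) ≤ ∑_{e ∣ u, e ∣ E} e (gcd(E,u) is one of these e; if E = 0 too). For e ∣ u and given h': e ∣ E means e ∣ h a (w'/g0) - h' a' (w/g0); a and w'/g0 are coprime to e, so h is in one class modulo e (if h1, h2 both satisfy it then e ∣ h1 - h2); the number of the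
h ∈ Hs ⊆ [-H, H] in it is ≤ 2H/e + 1 and the number of the h' is ≤ 2H + 1 ≤ 3H if H ≥ 1 (Hs without 0: ≤ 2H; H = 0: Hs is empty). Sum: ≤ ∑_{e ∣ u} e 2H (2H/e + 1) ≤ τ(u) 2H (2H + u) ≤ 4 τ(u) H (H + u). -/
def T1GsuStmt : Prop := ∀ (a a' : ℤ) (u w w' H : ℕ) (Hs : Finset ℤ), 1 ≤ u → 1 ≤ w → 1 ≤ w' → Int.gcd a u = 1 →
  w'.Coprime u → (∀ h ∈ Hs, h ≠ 0 ∧ |h| ≤ (H : ℤ)) →
  ∑ h ∈ Hs, ∑ h' ∈ Hs, (Int.gcd (t1E a a' h h' w w') (u : ℤ) : ℝ) ≤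
    4 * (u.divisors.card : ℝ) * ((H : ℝ) * (H + u))

/-- Module T1Gav (theorem tT1Gav; average of the gcd's). Uses: MI.T1GsaStmt, T1GsbStmt, T1GsuStmt. MODEL: Lib/MI/T1Gav.lean (for (1)).
Proof. D = t1e h h' w w' ≠ 0, E = t1E a a' h h' w w', a = a r (u w) s2, a' = a r (u w') s2, q = r0 u lcm(w,w'), m = lcm(w,w'). gcd(E d, q) ≤ gcd(E d, r0) gcd(E d, u) gcd(E d, m). r0 ∣ r and r ∣ a - a', so E ≡ a D modulo r0 and gcd(E d, r0) = gcd(D d, r0) ≤ gcd(D d, r) (a coprime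
to r). gcd(E d, u) ≤ gcd(E, u) gcd(d, u) ≤ gcd(E, u) gcd(D d, u) (D d ≠ 0, gcd(d,u) divides gcd(D d, u)). gcd(E d, m) ≤ gcd(E, m) gcd(d, m) ≤ g0 gcd(h,w) gcd(h',w') gcd(d, m) (T1Gsb). So the summand is ≤ g0 (X Y)^(1/2) with Y = gcd(E, u),
X = gcd(D d, r) gcd(D d, u) gcd(D d, s2) gcd(h,w) gcd(h',w') gcd(d, m). Cauchy over all tuples: the square of the sum is ≤ (∑ g0 X)(∑ g0 Y). (1) ∑ g0 X ≤ 64 T^7 Λ, Λ = L H^2 V R S^2: this is what the proof of the MODEL shows (sum over all tuples with D ≠ 0,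
without T1Gq and the conditions on r0). (2) ∑ g0 Y, sum over the tuples with T1Gq (keep it: a coprime to u, w' coprime to u since u w' is squarefree): for fixed d, w, w', r, u, s2 T1Gsu (a and a' do not depend on h, h'; drop the condition D ≠ 0): ≤ 4 T H (H + 2S/V) ≤
8 T H^2 (1 + S/(V H)); ∑_{w,w'} g0 ≤ 2 V^2 T (MI.T1Gsa with Z = w), u ≤ 2S/V: 2S/V values, r: R, s2: S, d: L: total ≤ L 2 V^2 T R (2S/V) S 8 T H^2 (1 + S/(V H)) = 32 T^2 Λ (1 + S/(V H)). (64 · 32)^(1/2) ≤ 46 ≤ 64, T ≥ 1. (H = 0: Hs is empty, both sides are 0.)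
For Cauchy: sums over a product Finset, or x y ≤ (λ x^2 + y^2/λ)/2. If a tuple violates T1Gq its summand is 0. -/
def T1GavStmt : Prop := ∀ (X T : ℝ) (a : ℕ → ℕ → ℕ → ℤ) (R S H V L L' : ℕ) (Hs : Finset ℤ) (r0 : ℕ → ℕ), Tau X T → 1 ≤ R →
  1 ≤ S → 1 ≤ V → (∀ h ∈ Hs, h ≠ 0 ∧ |h| ≤ (H : ℤ)) → 4 * (H : ℝ) * V * L ≤ X → 4 * (V : ℝ) ^ 2 ≤ X →
  2 * (S : ℝ) ≤ X →
  ∑ d ∈ Ico 1 L, t1Sum a R S V L L' Hs r0 (fun h h' w w' r u s2 => Real.sqrt ((Nat.gcd w w' : ℝ) *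
      (Int.gcd (t1E (a r (u * w) s2) (a r (u * w') s2) h h' w w' * d) ((t1q (r0 r) u w w' : ℕ) : ℤ) : ℝ) *
        (Int.gcd (t1e h h' w w' * d) s2 : ℝ))) ≤
    64 * T ^ 7 * ((L : ℝ) * (H : ℝ) ^ 2 * V * R * (S : ℝ) ^ 2) * Real.sqrt (1 + (S : ℝ) / ((V : ℝ) * H))

/-- Module T1Num (theorem tT1Num). Uses: nothing. MODEL: Lib/MK/T1Num.lean or Lib/MI/T1Num.lean. -/
def T1NumStmt : Prop := ∀ (a : ℕ → ℕ → ℕ → ℤ) (R S H V L L' : ℕ) (Hs : Finset ℤ) (r0 : ℕ → ℕ) (B : ℝ), 1 ≤ V → 0 ≤ B →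
  (∀ h ∈ Hs, h ≠ 0 ∧ |h| ≤ (H : ℤ)) →
  t1Sum a R S V L L' Hs r0 (fun _ _ _ _ _ _ _ => B) ≤ 8 * (H : ℝ) ^ 2 * V * R * (S : ℝ) ^ 2 * B

/-- Module T1Bnd (theorem tT1Bnd; the correlation of a good tuple). Uses: MI.SsbStmt, MI.T1CmpStmt, T1FacStmt, MI.T1FhtStmt, MI.T1GcdStmt, MI.T1GsjStmt. MODEL: Lib/MI/T1Bnd.lean.
Proof. As there: q = t1q r0 u w w', t = d (r/r0). Modulo q: T1Gcd with the integers 1 and E (-(1 * E)): the gcd is G = gcd(gcd(E d, j), q); modulo s2: T1Gcd with a and D: G' = gcd(gcd(D d, j), s2). Put Z' = gcd(E d, q) gcd(D d, s2) ≥ 1 (q, s2 ≥ 1). q ⊥ s2, so G G' divides Z' and j.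
Z' ≤ q s2 ≤ 8 r0 S^2 V ≤ 8 r S^2 V ≤ X, so τ(Z') ≤ T. j ≠ 0: ≤ T^4 (q s2)^(1/2) gcd(Z', j), and ∑_{j ≠ 0} gcd(Z', j)/(2|j|) ≤ τ(Z')(1 + log J) ≤ T^2 (T1Gsj with Z = Z'). j = 0: W T^4 (q s2 gcd(E d, q) gcd(D d, s2))^(1/2), W = N/(q s2), q s2 g0 ≥ r0 S w' S ≥ L V S^2. (E may be 0.) -/
def T1BndStmt : Prop := ∀ (X T : ℝ) (a a' h h' : ℤ) (k S r r0 u w w' s2 N d V L L' : ℕ), Tau X T → r0 ∣ r → L < r0 →
  r0 ≤ L' → 1 ≤ S → 1 ≤ L → 1 ≤ V → V < w → w ≤ 2 * V → V < w' → w' ≤ 2 * V →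
  1 ≤ d → T1Gq a a' S r u w w' s2 → 8 * (r : ℝ) * (S : ℝ) ^ 2 * V ≤ X →
  ‖t1C a a' h h' k r r0 u w w' s2 N d‖ ≤ 3 * T ^ 6 * (Real.sqrt ((L' : ℝ) * V) * S) +
    T ^ 4 * ((N : ℝ) / (Real.sqrt ((L : ℝ) * V) * S)) * Real.sqrt ((Nat.gcd w w' : ℝ) *
      (Int.gcd (t1E a a' h h' w w' * d) ((t1q r0 u w w' : ℕ) : ℤ) : ℝ) *
        (Int.gcd (t1e h h' w w' * d) s2 : ℝ))

/-- Module T1Avc (theorem tT1Avc). Uses: T1BndStmt, T1GavStmt, T1NumStmt. MODEL: Lib/MK/T1Avc.lean. -/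
def T1AvcStmt : Prop := ∀ (X T : ℝ) (a : ℕ → ℕ → ℕ → ℤ) (k R S N H V L L' : ℕ) (Hs : Finset ℤ) (r0 : ℕ → ℕ), Tau X T →
  1 ≤ R → 1 ≤ S → 1 ≤ L → 1 ≤ V → (∀ h ∈ Hs, h ≠ 0 ∧ |h| ≤ (H : ℤ)) → 16 * (R : ℝ) * (S : ℝ) ^ 2 * V ≤ X →
  4 * (H : ℝ) * V * L ≤ X → 4 * (V : ℝ) ^ 2 ≤ X →
  ∑ d ∈ Ico 1 L, t1Sum a R S V L L' Hs r0 (fun h h' w w' r u s2 =>
      ‖t1C (a r (u * w) s2) (a r (u * w') s2) h h' k r (r0 r) u w w' s2 N d‖) ≤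
    64 * T ^ 11 * ((L : ℝ) * (H : ℝ) ^ 2 * V * R * (S : ℝ) ^ 2) *
      ((N : ℝ) * Real.sqrt (1 + (S : ℝ) / ((V : ℝ) * H)) / (Real.sqrt ((L : ℝ) * V) * S) + Real.sqrt ((L' : ℝ) * V) * S)

/-- Module T1Avi (theorem tT1Avi). Uses: MI.T1VdcStmt, T1FacStmt, T1PhsStmt, T1NumStmt, T1AvcStmt. MODEL: Lib/MK/T1Avi.lean. -/
def T1AviStmt : Prop := ∀ (X T : ℝ) (a : ℕ → ℕ → ℕ → ℤ) (k R S N H V L L' : ℕ) (Hs : Finset ℤ) (r0 : ℕ → ℕ), Tau X T →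
  1 ≤ R → 1 ≤ S → 1 ≤ L → 1 ≤ V → 2 * R ≤ N → (∀ h ∈ Hs, h ≠ 0 ∧ |h| ≤ (H : ℤ)) → 16 * (R : ℝ) * (S : ℝ) ^ 2 * V ≤ X →
  4 * (H : ℝ) * V * L ≤ X → 4 * (V : ℝ) ^ 2 ≤ X →
  t1Sum a R S V L L' Hs r0 (fun h h' w w' r u s2 => ‖t1In (a r (u * w) s2) (a r (u * w') s2) h h' k r u w w' s2 N‖) ≤
    46 * T ^ 6 * ((H : ℝ) ^ 2 * V * R * (S : ℝ) ^ 2 * N) *
      Real.sqrt (1 / (L : ℝ) + Real.sqrt (1 + (S : ℝ) / ((V : ℝ) * H)) / (Real.sqrt ((L : ℝ) * V) * S) +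
        Real.sqrt ((L' : ℝ) * V) * S / N)

/-- Module T1Cau (theorem tT1Cau). Uses: nothing. MODEL: Lib/MK/T1Cau.lean (the kernel is t1K (a r (u w) s2) h k r (u w) s2 n; if γ h r (u w) s2 ≠ 0 and γ h' r (u w') s2 ≠ 0 and both kernels are nonzero for some n then Gd gives the coprimality of s2 with u w, u w', and the last hypothesis gives
r s2 ∣ a r (u w) s2 - A r s2, r s2 ∣ a r (u w') s2 - A r s2, hence r s2 ∣ a - a' and T1Gq). -/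
def T1CauStmt : Prop := ∀ (a : ℕ → ℕ → ℕ → ℤ) (A : ℕ → ℕ → ℤ) (k R S N V L L' : ℕ) (r0 v : ℕ → ℕ) (Hs : Finset ℤ)
    (γ : ℤ → ℕ → ℕ → ℕ → ℂ) (ω : ℕ → ℕ → ℂ),
  1 ≤ R → 1 ≤ S → 1 ≤ N → 1 ≤ V → (∀ h r s1 s2, ‖γ h r s1 s2‖ ≤ 1) → (∀ r n, ‖ω r n‖ ≤ 1) →
  (∀ h r s1 s2, γ h r s1 s2 ≠ 0 → r0 r ∣ r ∧ L < r0 r ∧ r0 r ≤ L' ∧ v s1 ∣ s1 ∧ V < v s1 ∧ v s1 ≤ 2 * V) →
  (∀ h r s1 s2, γ h r s1 s2 ≠ 0 → s1.Coprime s2 → ((r * s2 : ℕ) : ℤ) ∣ a r s1 s2 - A r s2) →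
  ‖∑ h ∈ Hs, TT a h k R S N (γ h) ω‖ ^ 2 ≤ 2 * (R : ℝ) * (S : ℝ) ^ 2 * N / V *
    (2 * (R : ℝ) * (S : ℝ) ^ 2 * N / V * (∑ h ∈ Hs, ∑ h' ∈ Hs, ∑ w ∈ Ioc V (2 * V), ∑ w' ∈ Ioc V (2 * V),
        (if t1e h h' w w' = 0 then (1 : ℝ) else 0)) +
      t1Sum a R S V L L' Hs r0 (fun h h' w w' r u s2 =>
        ‖t1In (a r (u * w) s2) (a r (u * w') s2) h h' k r u w w' s2 N‖))

/-- Module T1Fin (theorem tT1Fin). STATEMENT T1Stmt (Lib/ML/Stm.lean). Uses: T1CauStmt, MI.T1DiaStmt, T1AviStmt. MODEL: Lib/MK/T1Fin.lean. -/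
def T1FinStmt : Prop := T1Stmt

/-- Module T2d (theorem tT2 : TV.VsqStmt → T2Stmt, T2Stmt of Lib/ML/Stm.lean). Uses: TV.VsqStmt. MODEL: Lib/MK/T2d.lean and Lib/MI/T2c.lean (import Lib/MI/T2d.lean for the lemmas t2_K_eq, t2_inner, t2_count, ...; t2_prod, t2_gcd, t2_P_per, t2_In are needed for two integers a (for s1, s2), a' (for s1', s2') with
r ∣ a - a': the coefficient -(h a iv(s1 s2) r) + h' a' iv(s1' s2') r has the same gcd with r as h s1' s2' - h' s1 s2 (t2_gcd_congr); if γ vanishes or one of the kernels vanishes the correlation is 0: the coprimality s1, s2 of the last hypothesis comes from T2Gd). -/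
def T2dStmt : Prop := T2Stmt

end Pool.Agent.Lib.ML
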