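import Pool.Agent.Lib.MK.SpecA
import Pool.Agent.Lib.MK.SpecT
import Pool.Agent.Lib.MK.SpecD

/-!
MP_00e23e_nt, directory Lib/ML (architect helper34; THEOREM MI, version 6): nested maxima over all residue classes. The
class modulo t(d) depends on t(d); the class modulo a prime p of u = d/t(d) depends on t(d) and p, and for p > x^κ1
(κ1 > δ + κ/2) arbitrarily on t(d) and all primes ≤ p of u. In the dispersion: the class modulo r depends on r, the class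
modulo s arbitrarily on (r, s) (for the primes p ≤ x^κ1 of s on (r, p)).
-/

namespace Pool.Agent.Lib.ML

open Finset Pool.Agent.Lib.EH3 Pool.Agent.Lib.TB Pool.Agent.Results.MP_00e23e_nt Pool.Agent.Lib.MI

open Classical in
/-- the sums of the dispersion for fixed h and n2 = n1 + k r; a r s1 s2 is the class modulo r s1 s2 -/
noncomputable def TT (a : ℕ → ℕ → ℕ → ℤ) (h : ℤ) (k R S N : ℕ) (γ : ℕ → ℕ → ℕ → ℂ) (ω : ℕ → ℕ → ℂ) : ℂ :=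
  ∑ r ∈ Ioc R (2 * R), ∑ s1 ∈ Ioc S (2 * S), ∑ s2 ∈ Ioc S (2 * S), γ r s1 s2 *
    ∑ n ∈ Ioc N (2 * N), if Gd (a r s1 s2) r s1 s2 n (n + k * r) then
      ω r n * fz (a r s1 s2) h r s1 s2 n (n + k * r) else 0

/-- the pairs (r, s) of the dispersion and the classes A r s modulo r s: modulo r they are b r, modulo the primes p ≤ z1
of s they depend only on r and p; all primes of s are > z -/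
def Pr (A : ℕ → ℕ → ℤ) (b : ℕ → ℤ) (R S : ℕ) (z z1 : ℝ) (P : Finset (ℕ × ℕ)) : Prop :=
  (∀ w ∈ P, R < w.1 ∧ w.1 ≤ 2 * R ∧ S < w.2 ∧ w.2 ≤ 2 * S ∧ Squarefree (w.1 * w.2) ∧
    Int.gcd (A w.1 w.2) ((w.1 * w.2 : ℕ) : ℤ) = 1 ∧ (w.1 : ℤ) ∣ A w.1 w.2 - b w.1 ∧
    ∀ p : ℕ, p.Prime → p ∣ w.2 → z < p) ∧
  ∀ r s s' p : ℕ, (r, s) ∈ P → (r, s') ∈ P → p.Prime → p ∣ s → p ∣ s' → (p : ℝ) ≤ z1 → (p : ℤ) ∣ A r s - A r s'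

/-- a r s1 s2 is in the classes A r s1 modulo r s1 and A r s2 modulo r s2 -/
def Cp (P : Finset (ℕ × ℕ)) (A : ℕ → ℕ → ℤ) (a : ℕ → ℕ → ℕ → ℤ) : Prop :=
  ∀ r s1 s2 : ℕ, (r, s1) ∈ P → (r, s2) ∈ P → s1.Coprime s2 →
    ((r * s1 : ℕ) : ℤ) ∣ a r s1 s2 - A r s1 ∧ ((r * s2 : ℕ) : ℤ) ∣ a r s1 s2 - A r s2

/-- Chapter T1. -/
def T1Stmt : Prop := ∃ C : ℝ, 0 < C ∧ ∃ A0 : ℕ, ∀ (X T : ℝ) (a : ℕ → ℕ → ℕ → ℤ) (A : ℕ → ℕ → ℤ)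
    (k R S N H V L L' : ℕ) (r0 v : ℕ → ℕ)
    (Hs : Finset ℤ) (γ : ℤ → ℕ → ℕ → ℕ → ℂ) (ω : ℕ → ℕ → ℂ), Tau X T → 1 ≤ R → 1 ≤ S → 1 ≤ N → 1 ≤ H → 2 ≤ V →
  1 ≤ L → 100 * (R : ℝ) ^ 2 * (S : ℝ) ^ 4 * (N : ℝ) ^ 2 * (V : ℝ) ^ 2 * (H : ℝ) ^ 2 * (L : ℝ) ^ 2 ≤ X →
  2 * R ≤ N → (∀ h ∈ Hs, h ≠ 0 ∧ |h| ≤ (H : ℤ)) → (∀ h r s1 s2, ‖γ h r s1 s2‖ ≤ 1) → (∀ r n, ‖ω r n‖ ≤ 1) →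
  (∀ h r s1 s2, γ h r s1 s2 ≠ 0 → r0 r ∣ r ∧ L < r0 r ∧ r0 r ≤ L' ∧ v s1 ∣ s1 ∧ V < v s1 ∧ v s1 ≤ 2 * V) →
  (∀ h r s1 s2, γ h r s1 s2 ≠ 0 → s1.Coprime s2 → ((r * s2 : ℕ) : ℤ) ∣ a r s1 s2 - A r s2) →
  ‖∑ h ∈ Hs, TT a h k R S N (γ h) ω‖ ^ 2 ≤ C * T ^ A0 * ((R : ℝ) * (S : ℝ) ^ 2 * N) ^ 2 *
    ((H : ℝ) / V + (H : ℝ) ^ 2 * Real.sqrt (1 / (L : ℝ) +
      Real.sqrt (1 + (S : ℝ) / ((V : ℝ) * H)) / (Real.sqrt ((L : ℝ) * V) * S) +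
      Real.sqrt ((L' : ℝ) * V) * S / N))

/-- Chapter T2. -/
def T2Stmt : Prop := ∃ C : ℝ, 0 < C ∧ ∃ A0 : ℕ, ∀ (X T : ℝ) (a : ℕ → ℕ → ℕ → ℤ) (b : ℕ → ℤ) (k R S N H : ℕ)
    (Hs : Finset ℤ) (γ : ℤ → ℕ → ℕ → ℕ → ℂ) (ω : ℕ → ℕ → ℂ), Tau X T → 1 ≤ R → 1 ≤ S → 1 ≤ N → 1 ≤ H →
  100 * (R : ℝ) ^ 2 * (S : ℝ) ^ 4 * (N : ℝ) ^ 2 * (H : ℝ) ^ 2 ≤ X →
  (∀ h ∈ Hs, h ≠ 0 ∧ |h| ≤ (H : ℤ)) → (∀ h r s1 s2, ‖γ h r s1 s2‖ ≤ 1) → (∀ r n, ‖ω r n‖ ≤ 1) →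
  (∀ h r s1 s2, γ h r s1 s2 ≠ 0 → s1.Coprime s2 → (r : ℤ) ∣ a r s1 s2 - b r) →
  ‖∑ h ∈ Hs, TT a h k R S N (γ h) ω‖ ^ 2 ≤ C * T ^ A0 * ((R : ℝ) * (S : ℝ) ^ 2 * N) ^ 2 *
    (Real.sqrt R * (H : ℝ) ^ 2 * (S : ℝ) ^ 4 / N + (H : ℝ) / (S : ℝ) ^ 2 + (H : ℝ) ^ 2 / R)

/-- Chapter D. The dispersion method with the exact Fourier identity. -/
def DspStmt : Prop := ∃ C : ℝ, 0 < C ∧ ∃ A0 : ℕ, ∀ (X T z z1 B : ℝ) (A : ℕ → ℕ → ℤ) (b : ℕ → ℤ) (R S M N H : ℕ)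
    (P : Finset (ℕ × ℕ)) (α β : ℕ → ℂ), Tau X T → 1 ≤ z → 1 ≤ z1 → 0 ≤ B → 1 ≤ S → 1 ≤ N → 8 ≤ M → 1 ≤ H → R ≤ N →
  2 * S ≤ N → 2 * H < R → 100 * (M : ℝ) ^ 2 * (N : ℝ) ^ 2 * (R : ℝ) ^ 2 * (S : ℝ) ^ 4 ≤ X → R * S ^ 2 ≤ M * N →
  Pr A b R S z z1 P → (∀ m, ‖α m‖ ≤ 1) → (∀ n, ‖β n‖ ≤ 1) →
  (∀ a : ℕ → ℕ → ℕ → ℤ, Cp P A a → ∀ (k : ℕ) (γ : ℤ → ℕ → ℕ → ℕ → ℂ) (ω : ℕ → ℕ → ℂ), Cf P R S M γ →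
    (∀ r n, ‖ω r n‖ ≤ 1) → ‖∑ h ∈ Icc (-(H : ℤ)) H, TT a h k R S N (γ h) ω‖ ≤ B) →
  (∑ w ∈ P, ‖∑ m ∈ Ioc M (2 * M), ∑ n ∈ Ioc N (2 * N), α m * β n * Dl (A w.1 w.2) w.1 w.2 (m * n)‖) ^ 2 ≤
    C * T ^ A0 * ((R : ℝ) * (M : ℝ) ^ 2 * N + (M : ℝ) ^ 2 * (N : ℝ) ^ 2 / z +
      (R : ℝ) ^ 2 * (S : ℝ) ^ 4 * (N : ℝ) ^ 2 / H + (R : ℝ) * M * (N : ℝ) ^ 2 * (S : ℝ) ^ 2 / z1 ^ 2 + (M : ℝ) * N * B)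

/-- the classes a d, a d' for the same t = t d = t d': they agree modulo t and modulo the common primes p of d/t, d'/t with
p ≤ z1 or such that d/t and d'/t have the same prime factors below p -/
def Nst (z1 : ℝ) (a : ℕ → ℤ) (t : ℕ → ℕ) (d d' : ℕ) : Prop :=
  t d = t d' → (t d : ℤ) ∣ a d - a d' ∧ ∀ p : ℕ, p.Prime → p ∣ d / t d → p ∣ d' / t d' →
    ((p : ℝ) ≤ z1 ∨ ∀ l : ℕ, l.Prime → l < p → (l ∣ d / t d ↔ l ∣ d' / t d')) → (p : ℤ) ∣ a d - a d'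

/-- Chapter B. The bilinear theorem for the moduli Md, variables ≥ x^(1/3-ε), product ≥ x^(1-ε). -/
def BlStmt (α τ κ κ1 ε : ℝ) : Prop := ∀ κ0 : ℝ, 0 < κ0 → κ0 < κ → ∃ η C x0 : ℝ, 0 < η ∧ ∀ (x : ℝ) (a : ℕ → ℤ)
    (M N : ℕ) (f g : ℕ → ℂ) (F : Finset ℕ) (t : ℕ → ℕ), x0 ≤ x → x ^ ((1 : ℝ) / 3 - ε) ≤ N →
  x ^ ((1 : ℝ) / 3 - ε) ≤ M → x ^ (1 - ε) ≤ (M : ℝ) * N → (M : ℝ) * N ≤ x → (∀ m, ‖f m‖ ≤ 1) → (∀ n, ‖g n‖ ≤ 1) →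
  (∀ q ∈ F, Md α τ κ κ0 x (t q) q ∧ Int.gcd (a q) q = 1) → (∀ q ∈ F, ∀ q' ∈ F, Nst (x ^ κ1) a t q q') →
  ∑ q ∈ F, ‖∑ m ∈ Ioc M (2 * M), ∑ n ∈ Ioc N (2 * N), f m * g n * Ek (a q) (t q) q (m * n)‖ ≤ C * x ^ (1 - η)

/-- Chapter A. The theorem for the von Mangoldt function, one nested class function and one Y ≤ x. -/
def CoreStmt (α τ κ κ1 : ℝ) : Prop := ∀ κ0 : ℝ, 0 < κ0 → κ0 < κ → ∃ η C x0 : ℝ, 0 < η ∧ ∀ (x : ℝ) (a : ℕ → ℤ)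
    (Y : ℕ) (F : Finset ℕ) (t : ℕ → ℕ), x0 ≤ x → (Y : ℝ) ≤ x →
  (∀ q ∈ F, Md α τ κ κ0 x (t q) q ∧ Int.gcd (a q) q = 1) → (∀ q ∈ F, ∀ q' ∈ F, Nst (x ^ κ1) a t q q') →
  ∑ q ∈ F, ‖∑ n ∈ Icc 1 Y, (ArithmeticFunction.vonMangoldt n : ℂ) * Ek (a q) (t q) q n‖ ≤ C * x ^ (1 - η)

/-- Chapter F. THEOREM MI (version 6) for the level x^α, t ≤ x^τ, primes of d/t in (x^κ0, x^κ]: x^η nested class functions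
(i d is the number of the one used for d). -/
def MIAt (α τ κ κ1 : ℝ) : Prop := ∀ κ0 : ℝ, 0 < κ0 → κ0 < κ → ∃ η : ℝ, 0 < η ∧ ∀ U : ℝ, 0 < U → ∃ C : ℝ,
  ∀ (x : ℝ) (s : ℕ → ℤ) (t i : ℕ → ℕ) (y : ℕ → ℝ) (M : Finset ℕ), 3 ≤ x →
  ((M.image i).card : ℝ) ≤ x ^ η → (∀ d, 2 ≤ y d ∧ y d ≤ x) →
  (∀ d ∈ M, Md α τ κ κ0 x (t d) d ∧ Int.gcd (s d) d = 1) →
  (∀ d ∈ M, ∀ d' ∈ M, i d = i d' → Nst (x ^ κ1) s t d d') →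
  ∑ d ∈ M, |(resCount (y d) d (s d) : ℝ) - (resCount (y d) (t d) (s d) : ℝ) / ((d / t d).totient : ℝ)| ≤
      C * x ^ (1 - η) ∧
    ∑ d ∈ M, |resErr (y d) d (s d)| ≤ C * (x / (Real.log x) ^ U)

/-- THEOREM MI, version 6 -/
def MIStmt : Prop := ∀ δ τ κ κ1 : ℝ, 0 ≤ δ → 0 ≤ τ → 0 < κ → 86 * δ + 60 * κ < 1 → 8 * δ + 6 * κ + τ < 1 / 3 →
  2 * δ + κ < 2 * κ1 → MIAt (1 / 2 + δ) τ κ κ1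

/-- Chapter B: to prove -/
def BAllStmt : Prop := ∀ δ τ κ κ1 : ℝ, 0 ≤ δ → 0 ≤ τ → 0 < κ → 86 * δ + 60 * κ < 1 → 8 * δ + 6 * κ + τ < 1 / 3 →
  2 * δ + κ < 2 * κ1 → ∃ ε : ℝ, 0 < ε ∧ ε < 1 / 100 ∧ BlStmt (1 / 2 + δ) τ κ κ1 ε

/-- Chapter A: to prove -/
def AAllStmt : Prop := ∀ α τ κ κ1 ε : ℝ, 0 < ε → ε < 1 / 100 → α ≤ 3 / 5 → 0 ≤ τ → τ ≤ 1 / 3 → 0 < κ → κ ≤ 1 / 10 →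
  BlStmt α τ κ κ1 ε → CoreStmt α τ κ κ1

/-- Chapter F: to prove. -/
def FAllStmt : Prop := ∀ α τ κ κ1 : ℝ, α ≤ 3 / 5 → 0 ≤ τ → τ ≤ 1 / 3 → 0 < κ → κ ≤ 1 / 10 → CoreStmt α τ κ κ1 →
  MIAt α τ κ κ1

end Pool.Agent.Lib.ML
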